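import Pool.Agent.H.MP_86f3ed_an.Nu.Nd
import Pool.Agent.H.MP_86f3ed_an.Trc.Public

open scoped Topology
open Filter

namespace Pool.Agent.MP_86f3ed.Nu

universe u v

/-- The key estimate: approximate inner implementation on a finite set. -/
theorem Aa_key {S : Type u} [CStarAlgebra S] (h : NDP S) {X : Type v} [NormedAddCommGroup X]
    [NormedSpace ℂ X] (B : BanachBimodule S X) (D : S →L[ℂ] StrongDual ℂ X)
    (hD : IsDualDerivation B D) (F : Finset S) {δ : ℝ} (hδ : 0 < δ) :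
    ∃ ξ : StrongDual ℂ X, ∀ a ∈ F, ‖ξ.comp (B.R a) - ξ.comp (B.L a) - D a‖ ≤ δ := by
  obtain ⟨M, hM⟩ := B.bounded
  set K : ℝ := max M 0 with hK
  have hK0 : 0 ≤ K := le_max_right _ _
  have hR : ∀ a, ‖B.R a‖ ≤ K * ‖a‖ := fun a =>
    (hM a).2.trans (mul_le_mul_of_nonneg_right (le_max_left _ _) (norm_nonneg _))
  have hpos : 0 < K * ‖D‖ + 1 := by positivity
  obtain ⟨m, x, y, hxy, hnear⟩ := h F (δ / (K * ‖D‖ + 1)) (div_pos hδ hpos)
  refine ⟨∑ k, (D (y k)).comp (B.R (x k)) + -((D 1).comp (B.L 1)), ?_⟩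
  intro a ha
  obtain ⟨n, p, q, hpq, hsame⟩ := hnear a ha
  refine ContinuousLinearMap.opNorm_le_bound _ hδ.le ?_
  intro v
  -- module identities
  have hRR : ∀ b c w, B.R c (B.R b w) = B.R (b * c) w := by
    intro b c w; rw [B.R_mul]; rfl
  have hLL : ∀ b c w, B.L b (B.L c w) = B.L (b * c) w := by
    intro b c w; rw [B.L_mul]; rfl
  have hLR : ∀ b c w, B.R c (B.L b w) = B.L b (B.R c w) := by
    intro b c w
    have := congrArg (fun T : X →L[ℂ] X => T w) (B.L_R b c)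
    exact this.symm
  have hDer : ∀ b c w, D (b * c) w = D c (B.R b w) + D b (B.L c w) := by
    intro b c w; rw [hD b c]; rfl
  -- the bilinear form
  let RL : S →ₗ[ℂ] X →L[ℂ] X :=
    { toFun := B.R, map_add' := B.R_add, map_smul' := B.R_smul }
  let β : S →ₗ[ℂ] S →ₗ[ℂ] ℂ :=
    LinearMap.mk₂ ℂ (fun u w => D w (B.R u v))
      (by intro u u' w; rw [B.R_add, ContinuousLinearMap.add_apply, map_add])
      (by intro c u w; rw [B.R_smul, ContinuousLinearMap.smul_apply, map_smul])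
      (by intro u w w'; rw [map_add, ContinuousLinearMap.add_apply])
      (by intro c u w; rw [map_smul, ContinuousLinearMap.smul_apply])
  have hβ : ∀ u w, β u w = D w (B.R u v) := fun u w => rfl
  have h1 := hsame β
  rw [Fintype.sum_sum_type] at h1
  simp only [Sum.elim_inl, Sum.elim_inr, hβ] at h1
  have hneg : ∀ u w, D w (B.R (-u) v) = - D w (B.R u v) := by
    intro u w
    rw [← hβ, ← hβ, map_neg, LinearMap.neg_apply]
  simp only [hneg, Finset.sum_neg_distrib] at h1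
  have hsum : (∑ k, B.R (x k * y k) v) = B.R 1 v := by
    rw [← hxy]
    have := congrArg (fun T : X →L[ℂ] X => T v) (map_sum RL (fun k => x k * y k) Finset.univ)
    simp only [ContinuousLinearMap.sum_apply] at this
    exact this.symm
  have hA : (∑ k, (D (y k)).comp (B.R (x k))) (B.R a v) = ∑ k, D (y k) (B.R (a * x k) v) := by
    rw [ContinuousLinearMap.sum_apply]
    refine Finset.sum_congr rfl fun k _ => ?_
    rw [ContinuousLinearMap.comp_apply, hRR]
  have hB : (∑ k, (D (y k)).comp (B.R (x k))) (B.L a v) =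
      ∑ k, D (y k * a) (B.R (x k) v) - D a (B.R 1 v) := by
    rw [ContinuousLinearMap.sum_apply, ← hsum, map_sum, ← Finset.sum_sub_distrib]
    refine Finset.sum_congr rfl fun k _ => ?_
    rw [ContinuousLinearMap.comp_apply, hDer (y k) a, hRR, hLR]
    ring
  have hC : D 1 (B.L 1 (B.R a v)) = 0 := by
    have h2 := hDer 1 1 (B.R a v)
    rw [mul_one, hRR, mul_one] at h2
    have h3 : D 1 (B.R a v) + 0 = D 1 (B.R a v) + D 1 (B.L 1 (B.R a v)) := by
      rw [add_zero]; exact h2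
    exact (add_left_cancel h3).symm
  have hE : D a v = D a (B.R 1 v) + D 1 (B.L a v) := by
    have h2 := hDer 1 a v
    rwa [one_mul] at h2
  have hval : ((∑ k, (D (y k)).comp (B.R (x k)) + -((D 1).comp (B.L 1))).comp (B.R a) -
      (∑ k, (D (y k)).comp (B.R (x k)) + -((D 1).comp (B.L 1))).comp (B.L a) - D a) v =
      ∑ j, D (q j) (B.R (p j) v) := by
    rw [ContinuousLinearMap.sub_apply, ContinuousLinearMap.sub_apply,
      ContinuousLinearMap.comp_apply, ContinuousLinearMap.comp_apply,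
      ContinuousLinearMap.add_apply, ContinuousLinearMap.add_apply, hA, hB,
      ContinuousLinearMap.neg_apply, ContinuousLinearMap.neg_apply,
      ContinuousLinearMap.comp_apply, ContinuousLinearMap.comp_apply, hC, hLL, one_mul, hE, ← h1]
    ring
  rw [hval]
  have hterm : ∀ j, ‖D (q j) (B.R (p j) v)‖ ≤ K * ‖D‖ * ‖v‖ * (‖p j‖ * ‖q j‖) := by
    intro j
    calc ‖D (q j) (B.R (p j) v)‖ ≤ ‖D (q j)‖ * ‖B.R (p j) v‖ := (D (q j)).le_opNorm _
      _ ≤ (‖D‖ * ‖q j‖) * (‖B.R (p j)‖ * ‖v‖) :=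
          mul_le_mul (D.le_opNorm _) ((B.R (p j)).le_opNorm _) (norm_nonneg _) (by positivity)
      _ ≤ (‖D‖ * ‖q j‖) * ((K * ‖p j‖) * ‖v‖) := by
          refine mul_le_mul_of_nonneg_left ?_ (by positivity)
          exact mul_le_mul_of_nonneg_right (hR _) (norm_nonneg _)
      _ = K * ‖D‖ * ‖v‖ * (‖p j‖ * ‖q j‖) := by ring
  calc ‖∑ j, D (q j) (B.R (p j) v)‖ ≤ ∑ j, ‖D (q j) (B.R (p j) v)‖ := norm_sum_le _ _
    _ ≤ ∑ j, K * ‖D‖ * ‖v‖ * (‖p j‖ * ‖q j‖) := Finset.sum_le_sum fun j _ => hterm j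
    _ = K * ‖D‖ * ‖v‖ * ∑ j, ‖p j‖ * ‖q j‖ := by rw [Finset.mul_sum]
    _ ≤ K * ‖D‖ * ‖v‖ * (δ / (K * ‖D‖ + 1)) := mul_le_mul_of_nonneg_left hpq (by positivity)
    _ = (K * ‖D‖ / (K * ‖D‖ + 1)) * (δ * ‖v‖) := by ring
    _ ≤ 1 * (δ * ‖v‖) := by
        refine mul_le_mul_of_nonneg_right ?_ (by positivity)
        rw [div_le_one hpos]
        linarith
    _ = δ * ‖v‖ := one_mul _

/-- Near diagonals in the projective norm give approximate amenability in all universes.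

PROOF. Let `X`, `B`, `D` be given and `a · f = f ∘ B.R a`, `f · a = f ∘ B.L a` on the dual.
Index set `I = Finset S × ℕ` (with a lift `ULift` to the right universe), directed. For `(F, n)` let
`K = ` a bound with `‖B.R a‖ ≤ K ‖a‖`, `K ≥ 0` and take `x, y` from `NDP S` for `F` and
`ε = 1 / ((n+1) (K ‖D‖ + 1))`; `ξ = ∑ (D (y_k)).comp (B.R (x_k)) + η`, where `η = - (D 1).comp (B.L 1)`.
Claim: `‖a · ξ - ξ · a - D a‖ ≤ 1/(n+1)` for `a ∈ F`. Write `x · D y := (D y).comp (B.R x)`.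
`a · (x_k · D y_k) = (a x_k) · D y_k` and `(x_k · D y_k) · a = x_k · (D (y_k) · a) = x_k · (D (y_k a) - y_k · D a)
= x_k · D (y_k a) - (x_k y_k) · D a`. Summing, with `∑ x_k y_k = 1`:
`a · ξ₀ - ξ₀ · a = ∑ (a x_k · D y_k - x_k · D (y_k a)) + 1 · D a`. For every `x ∈ X` the bilinear form
`β u v = D v (B.R u x)` shows that the sum, evaluated at `x`, is `∑_j D (q_j) (B.R (p_j) x)`, of absolute
value at most `∑ K ‖p_j‖ ‖q_j‖ ‖D‖ ‖x‖ ≤ ε K ‖D‖ ‖x‖`. Moreover `D a = 1 · D a + D 1 · a` (from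
`D (1 a)`), and `1 · (D 1 · 1) = 0` (multiply `D 1 = 1 · D 1 + D 1 · 1` by `1` from the left), so
`a · η - η · a = - a · (D 1 · 1) + (D 1 · 1) · a = - a · 1 · (D 1 · 1) + D 1 · a = D 1 · a`. -/
theorem approximatelyAmenable_of_ndp {S : Type u} [CStarAlgebra S] (h : NDP S) :
    ApproximatelyAmenable.{u, v} S := by
  classical
  intro X _ _ _ B D hD
  have hkey : ∀ i : ULift.{v} (Finset S × ℕ), ∃ ξ : StrongDual ℂ X, ∀ a ∈ i.down.1,
      ‖ξ.comp (B.R a) - ξ.comp (B.L a) - D a‖ ≤ 1 / ((i.down.2 : ℝ) + 1) := by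
    intro i
    exact Aa_key h B D hD i.down.1 (by positivity)
  choose ξ hξ using hkey
  refine ⟨ULift.{v} (Finset S × ℕ), Preorder.lift ULift.down, ?_, ⟨⟨(∅, 0)⟩⟩, ξ, ?_⟩
  · letI : Preorder (ULift.{v} (Finset S × ℕ)) := Preorder.lift ULift.down
    refine ⟨fun i j => ⟨⟨(i.down.1 ∪ j.down.1, max i.down.2 j.down.2)⟩, ?_, ?_⟩⟩
    · exact ⟨Finset.subset_union_left, le_max_left _ _⟩
    · exact ⟨Finset.subset_union_right, le_max_right _ _⟩
  · intro a
    letI : Preorder (ULift.{v} (Finset S × ℕ)) := Preorder.lift ULift.down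
    rw [Metric.tendsto_nhds]
    intro ε hε
    obtain ⟨n, hn⟩ := exists_nat_one_div_lt hε
    filter_upwards [eventually_ge_atTop (⟨({a}, n)⟩ : ULift.{v} (Finset S × ℕ))] with i hi
    have hi' : (({a}, n) : Finset S × ℕ) ≤ i.down := hi
    have h1 : a ∈ i.down.1 := hi'.1 (Finset.mem_singleton_self a)
    have h2 : n ≤ i.down.2 := hi'.2
    rw [dist_eq_norm]
    refine (hξ i a h1).trans_lt (lt_of_le_of_lt ?_ hn)
    have h3 : (n : ℝ) + 1 ≤ (i.down.2 : ℝ) + 1 := by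
      have : (n : ℝ) ≤ (i.down.2 : ℝ) := by exact_mod_cast h2
      linarith
    exact one_div_le_one_div_of_le (by positivity) h3

end Pool.Agent.MP_86f3ed.Nu
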