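import Pool.Agent.H.MP_86f3ed_an.Pin.Space

open scoped InnerProductSpace Topology ComplexOrder
open Filter ContinuousLinearMap

namespace Pool.Agent.MP_86f3ed.Nu

universe u

/-- A positive functional on a star algebra. -/
def PosF {D : Type*} [Ring D] [StarRing D] [Algebra ℂ D] (g : D →ₗ[ℂ] ℂ) : Prop :=
  ∀ x, 0 ≤ (g (star x * x)).re ∧ (g (star x * x)).im = 0

/-- The GNS representation of a positive functional on a unital C*-algebra.

PROOF. `letI := CStarAlgebra.spectralOrder D`, `letI := CStarAlgebra.spectralOrderedRing D`. `g` is a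
positive linear map `f : D →ₚ[ℂ] ℂ` (nonnegative elements are of the form `star x * x`,
`CStarAlgebra.nonneg_iff_eq_star_mul_self`; a constructor such as `PositiveLinearMap.mk₀`). Mathlib:
`f.GNS`, `f.gnsStarAlgHom` (`Mathlib/Analysis/CStarAlgebra/GelfandNaimarkSegal.lean`); `ζ` is the image
in the completion of `f.toPreGNS 1`; `π d ζ` is the image of `f.toPreGNS (d * 1)`, so
`⟪ζ, π d ζ⟫ = f (star 1 * (d * 1)) = g d` (`Completion.inner_coe`, `preGNS_inner_def`), and the images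
are dense (`UniformSpace.Completion.denseRange_coe`). -/
theorem exists_gns {D : Type u} [CStarAlgebra D] (g : D →ₗ[ℂ] ℂ) (hg : PosF g) :
    ∃ (H : Type u) (_ : NormedAddCommGroup H) (_ : InnerProductSpace ℂ H) (_ : CompleteSpace H)
      (π : D →⋆ₐ[ℂ] (H →L[ℂ] H)) (ζ : H), (∀ d, g d = ⟪ζ, π d ζ⟫_ℂ) ∧
      Dense (Set.range fun d => π d ζ) := by
  letI : PartialOrder D := CStarAlgebra.spectralOrder D
  letI : StarOrderedRing D := CStarAlgebra.spectralOrderedRing D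
  let f : D →ₚ[ℂ] ℂ := PositiveLinearMap.mk₀ g (by
    intro x hx
    obtain ⟨y, rfl⟩ := CStarAlgebra.nonneg_iff_eq_star_mul_self.1 hx
    obtain ⟨h1, h2⟩ := hg y
    rw [Complex.nonneg_iff]
    exact ⟨h1, h2.symm⟩)
  have hfg : ∀ x, f x = g x := fun _ => rfl
  have hπ : ∀ d : D, f.gnsStarAlgHom d ((f.toPreGNS 1 : f.PreGNS) : f.GNS) =
      ((f.toPreGNS d : f.PreGNS) : f.GNS) := by
    intro d
    have e1 : f.gnsStarAlgHom d ((f.toPreGNS 1 : f.PreGNS) : f.GNS) =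
        f.gnsNonUnitalStarAlgHom d ((f.toPreGNS 1 : f.PreGNS) : f.GNS) := rfl
    rw [e1, PositiveLinearMap.gnsNonUnitalStarAlgHom_apply_coe,
      PositiveLinearMap.leftMulMapPreGNS_apply]
    simp
  refine ⟨f.GNS, inferInstance, inferInstance, inferInstance, f.gnsStarAlgHom,
    ((f.toPreGNS 1 : f.PreGNS) : f.GNS), ?_, ?_⟩
  · intro d
    rw [hπ, UniformSpace.Completion.inner_coe, PositiveLinearMap.preGNS_inner_def]
    simp [hfg]
  · have h1 : (fun d => f.gnsStarAlgHom d ((f.toPreGNS 1 : f.PreGNS) : f.GNS)) =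
        (fun x : f.PreGNS => (x : f.GNS)) ∘ f.toPreGNS := by
      funext d
      exact hπ d
    rw [h1, Set.range_comp, f.toPreGNS.surjective.range_eq, Set.image_univ]
    exact UniformSpace.Completion.denseRange_coe

/-- A positive functional is bounded by its value at `1`.

PROOF. From `exists_gns`: `|g d| = |⟪ζ, π d ζ⟫| ≤ ‖π d‖ ‖ζ‖² ≤ ‖d‖ ‖ζ‖² = ‖d‖ re (g 1)`
(`NonUnitalStarAlgHom.norm_apply_le`). -/
theorem PosF.norm_le {D : Type u} [CStarAlgebra D] {g : D →ₗ[ℂ] ℂ} (hg : PosF g) (d : D) :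
    ‖g d‖ ≤ (g 1).re * ‖d‖ := by
  obtain ⟨H, _, _, _, π, ζ, h1, -⟩ := exists_gns g hg
  have h2 : (g 1).re = ‖ζ‖ ^ 2 := by
    have h := h1 1
    have h3 : π 1 ζ = ζ := by rw [map_one π]; rfl
    rw [h3, inner_self_eq_norm_sq_to_K] at h
    rw [h]
    norm_cast
  rw [h1 d, h2]
  calc ‖⟪ζ, π d ζ⟫_ℂ‖ ≤ ‖ζ‖ * ‖π d ζ‖ := norm_inner_le_norm _ _
    _ ≤ ‖ζ‖ * (‖d‖ * ‖ζ‖) := by
        refine mul_le_mul_of_nonneg_left ?_ (norm_nonneg _)
        exact ((π d).le_opNorm ζ).trans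
          (mul_le_mul_of_nonneg_right (NonUnitalStarAlgHom.norm_apply_le π d) (norm_nonneg _))
    _ = ‖ζ‖ ^ 2 * ‖d‖ := by ring

end Pool.Agent.MP_86f3ed.Nu
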