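import Pool.Agent.H.MP_86f3ed_an.Nu.KM
import Pool.Agent.H.MP_86f3ed_an.Trc.Root

open scoped InnerProductSpace Topology
open Filter ContinuousLinearMap

namespace Pool.Agent.MP_86f3ed.Nu

universe u v

/-- The vector functional `d ↦ ⟪ζ, π d (w)⟫`. -/
noncomputable def Irr_fn {D : Type u} [CStarAlgebra D] {H : Type v} [NormedAddCommGroup H]
    [InnerProductSpace ℂ H] [CompleteSpace H] (π : D →⋆ₐ[ℂ] (H →L[ℂ] H)) (ζ w : H) : D →L[ℂ] ℂ :=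
  LinearMap.mkContinuous
    { toFun := fun d => ⟪ζ, π d w⟫_ℂ
      map_add' := fun a b => by simp only [map_add, add_apply, inner_add_right]
      map_smul' := fun c a => by
        simp only [map_smul, smul_apply, inner_smul_right, RingHom.id_apply, smul_eq_mul] }
    (‖ζ‖ * ‖w‖) (fun d => by
      show ‖⟪ζ, π d w⟫_ℂ‖ ≤ ‖ζ‖ * ‖w‖ * ‖d‖
      have h1 : ‖⟪ζ, π d w⟫_ℂ‖ ≤ ‖ζ‖ * ‖π d w‖ := norm_inner_le_norm _ _
      have h2 : ‖π d w‖ ≤ ‖π d‖ * ‖w‖ := (π d).le_opNorm w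
      have h3 : ‖π d‖ ≤ ‖d‖ := NonUnitalStarAlgHom.norm_apply_le π d
      calc ‖⟪ζ, π d w⟫_ℂ‖ ≤ ‖ζ‖ * ‖π d w‖ := h1
        _ ≤ ‖ζ‖ * (‖π d‖ * ‖w‖) := mul_le_mul_of_nonneg_left h2 (norm_nonneg _)
        _ ≤ ‖ζ‖ * (‖d‖ * ‖w‖) := by gcongr
        _ = ‖ζ‖ * ‖w‖ * ‖d‖ := by ring)

theorem Irr_fn_apply {D : Type u} [CStarAlgebra D] {H : Type v} [NormedAddCommGroup H]
    [InnerProductSpace ℂ H] [CompleteSpace H] (π : D →⋆ₐ[ℂ] (H →L[ℂ] H)) (ζ w : H) (d : D) :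
    Irr_fn π ζ w d = ⟪ζ, π d w⟫_ℂ := rfl

theorem Irr_left {D : Type u} [CStarAlgebra D] {H : Type v} [NormedAddCommGroup H]
    [InnerProductSpace ℂ H] [CompleteSpace H] (π : D →⋆ₐ[ℂ] (H →L[ℂ] H)) (d : D) (v w : H) :
    ⟪v, π (star d) w⟫_ℂ = ⟪π d v, w⟫_ℂ := by
  rw [map_star, ContinuousLinearMap.star_eq_adjoint, ContinuousLinearMap.adjoint_inner_right]

theorem Irr_eq_smul {D : Type u} [CStarAlgebra D] {H : Type v} [NormedAddCommGroup H]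
    [InnerProductSpace ℂ H] [CompleteSpace H] (π : D →⋆ₐ[ℂ] (H →L[ℂ] H)) (ζ : H)
    (h2 : Dense (Set.range fun d => π d ζ)) {X : H →L[ℂ] H} (hX : ∀ d, X * π d = π d * X)
    {c : ℂ} (h : X ζ = c • ζ) : X = c • (1 : H →L[ℂ] H) := by
  have key : (fun v => X v) = fun v => (c • (1 : H →L[ℂ] H)) v := by
    refine Continuous.ext_on h2 X.continuous (c • (1 : H →L[ℂ] H)).continuous ?_
    rintro _ ⟨d, rfl⟩
    have e := congrArg (fun A : H →L[ℂ] H => A ζ) (hX d)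
    simp only [mul_apply_eq_comp] at e
    simp only [e, h, map_smul, smul_apply, one_apply_eq_self]
  ext v
  exact congrFun key v

/-- A vector orthogonal to the dense orbit is zero. -/
theorem Irr_zero {D : Type u} [CStarAlgebra D] {H : Type v} [NormedAddCommGroup H]
    [InnerProductSpace ℂ H] [CompleteSpace H] (π : D →⋆ₐ[ℂ] (H →L[ℂ] H)) (ζ : H)
    (h2 : Dense (Set.range fun d => π d ζ)) {w : H} (h : ∀ d, ⟪ζ, π d w⟫_ℂ = 0) : w = 0 := by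
  have key : (fun v => ⟪v, w⟫_ℂ) = fun _ => (0 : ℂ) := by
    refine Continuous.ext_on h2 (by fun_prop) continuous_const ?_
    rintro _ ⟨d, rfl⟩
    have := h (star d)
    rw [Irr_left] at this
    exact this
  exact inner_self_eq_zero.1 (congrFun key w)

theorem Irr_pos {D : Type u} [CStarAlgebra D] {ψ : WeakDual ℂ D}
    (hψ : ψ ∈ Set.extremePoints ℝ (States D)) {H : Type v} [NormedAddCommGroup H]
    [InnerProductSpace ℂ H] [CompleteSpace H] (π : D →⋆ₐ[ℂ] (H →L[ℂ] H)) (ζ : H)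
    (h1 : ∀ d, ψ d = ⟪ζ, π d ζ⟫_ℂ) (h2 : Dense (Set.range fun d => π d ζ)) {X : H →L[ℂ] H}
    (hX : ∀ d, X * π d = π d * X) (him : ∀ v, (⟪v, X v⟫_ℂ).im = 0)
    (hre : ∀ v, 0 ≤ (⟪v, X v⟫_ℂ).re) (hle : ∀ v, (⟪v, X v⟫_ℂ).re ≤ ‖v‖ ^ 2)
    (ht0 : 0 < (⟪ζ, X ζ⟫_ℂ).re) (ht1 : (⟪ζ, X ζ⟫_ℂ).re < 1) :
    ∃ c : ℂ, X = c • (1 : H →L[ℂ] H) := by
  set t : ℝ := (⟪ζ, X ζ⟫_ℂ).re with ht
  have hst : ψ ∈ States D := hψ.1
  have hone : ⟪ζ, ζ⟫_ℂ = 1 := by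
    have := h1 1
    rw [hst.1, map_one, one_apply_eq_self] at this
    exact this.symm
  have hXt : ⟪ζ, X ζ⟫_ℂ = (t : ℂ) := by
    apply Complex.ext
    · simp [ht]
    · simpa using him ζ
  have hcom : ∀ d v, X (π d v) = π d (X v) := fun d v =>
    congrArg (fun A : H →L[ℂ] H => A v) (hX d)
  have hsq : ∀ x : D, ⟪ζ, π (star x * x) (X ζ)⟫_ℂ = ⟪π x ζ, X (π x ζ)⟫_ℂ := by
    intro x
    rw [map_mul, mul_apply_eq_comp, Irr_left, hcom]
  have hsq1 : ∀ x : D, ⟪ζ, π (star x * x) ζ⟫_ℂ = ((‖π x ζ‖ ^ 2 : ℝ) : ℂ) := by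
    intro x
    rw [map_mul, mul_apply_eq_comp, Irr_left, inner_self_eq_norm_sq_to_K]
    push_cast
    rfl
  -- the two states
  let a : WeakDual ℂ D := Irr_fn π ζ (((t⁻¹ : ℝ) : ℂ) • X ζ)
  let b : WeakDual ℂ D := Irr_fn π ζ ((((1 - t)⁻¹ : ℝ) : ℂ) • (ζ - X ζ))
  have ha' : ∀ d, a d = ((t⁻¹ : ℝ) : ℂ) * ⟪ζ, π d (X ζ)⟫_ℂ := by
    intro d
    show ⟪ζ, π d (((t⁻¹ : ℝ) : ℂ) • X ζ)⟫_ℂ = _
    rw [map_smul, inner_smul_right]
  have hb' : ∀ d, b d = (((1 - t)⁻¹ : ℝ) : ℂ) * (⟪ζ, π d ζ⟫_ℂ - ⟪ζ, π d (X ζ)⟫_ℂ) := by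
    intro d
    show ⟪ζ, π d ((((1 - t)⁻¹ : ℝ) : ℂ) • (ζ - X ζ))⟫_ℂ = _
    rw [map_smul, inner_smul_right, map_sub, inner_sub_right]
  have h1t : 0 < 1 - t := by linarith
  have ha : a ∈ States D := by
    refine ⟨?_, fun x => ?_⟩
    · rw [ha', map_one, one_apply_eq_self, hXt, ← Complex.ofReal_mul, inv_mul_cancel₀ ht0.ne',
        Complex.ofReal_one]
    · rw [ha', hsq, Complex.re_ofReal_mul, Complex.im_ofReal_mul, him, mul_zero]
      exact ⟨mul_nonneg (inv_nonneg.2 ht0.le) (hre _), rfl⟩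
  have hb : b ∈ States D := by
    refine ⟨?_, fun x => ?_⟩
    · rw [hb', map_one, one_apply_eq_self, one_apply_eq_self, hXt, hone, ← Complex.ofReal_one,
        ← Complex.ofReal_sub, ← Complex.ofReal_mul, inv_mul_cancel₀ h1t.ne']
    · rw [hb', hsq, hsq1, Complex.re_ofReal_mul, Complex.im_ofReal_mul, Complex.sub_re,
        Complex.sub_im, him, Complex.ofReal_re, Complex.ofReal_im, sub_zero, mul_zero]
      exact ⟨mul_nonneg (inv_nonneg.2 h1t.le) (sub_nonneg.2 (hle _)), rfl⟩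
  have hseg : ψ ∈ openSegment ℝ a b := by
    refine ⟨t, 1 - t, ht0, h1t, by ring, ?_⟩
    refine ContinuousLinearMap.ext fun d => ?_
    show t • (a d) + (1 - t) • (b d) = ψ d
    rw [ha', hb', h1, Complex.real_smul, Complex.real_smul, ← mul_assoc, ← mul_assoc,
      ← Complex.ofReal_mul, ← Complex.ofReal_mul, mul_inv_cancel₀ ht0.ne',
      mul_inv_cancel₀ h1t.ne']
    push_cast
    ring
  have hab : a = ψ := hψ.2 ha hb hseg
  refine ⟨(t : ℂ), Irr_eq_smul π ζ h2 hX ?_⟩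
  refine sub_eq_zero.1 (Irr_zero π ζ h2 fun d => ?_)
  have e1 : a d = ψ d := by rw [hab]
  rw [ha', h1] at e1
  rw [map_sub, inner_sub_right, map_smul, inner_smul_right, ← e1, ← mul_assoc,
    ← Complex.ofReal_mul, mul_inv_cancel₀ ht0.ne', Complex.ofReal_one, one_mul, sub_self]

theorem Irr_kernel {H : Type v} [NormedAddCommGroup H]
    [InnerProductSpace ℂ H] [CompleteSpace H] {X : H →L[ℂ] H} (hsa : star X = X)
    (hre : ∀ v, 0 ≤ (⟪v, X v⟫_ℂ).re) (hle : ∀ v, (⟪v, X v⟫_ℂ).re ≤ ‖v‖ ^ 2) {ζ : H}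
    (h : (⟪ζ, X ζ⟫_ℂ).re = 0) : X ζ = 0 := by
  have h3 := hre (ζ - X ζ)
  have h4 := hle (X ζ)
  have hs : ∀ v w, ⟪X v, w⟫_ℂ = ⟪v, X w⟫_ℂ := by
    intro v w
    rw [← ContinuousLinearMap.adjoint_inner_right, ← ContinuousLinearMap.star_eq_adjoint, hsa]
  have e : (⟪ζ - X ζ, X (ζ - X ζ)⟫_ℂ).re =
      (⟪ζ, X ζ⟫_ℂ).re - 2 * ‖X ζ‖ ^ 2 + (⟪X ζ, X (X ζ)⟫_ℂ).re := by
    rw [map_sub, inner_sub_left, inner_sub_right, inner_sub_right, ← hs ζ (X ζ),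
      inner_self_eq_norm_sq_to_K, Complex.sub_re, Complex.sub_re, Complex.sub_re]
    have : ((‖X ζ‖ : ℂ) ^ 2).re = ‖X ζ‖ ^ 2 := by
      rw [← Complex.ofReal_pow, Complex.ofReal_re]
    have h5 : (((‖X ζ‖ : ℝ) : ℂ) ^ 2).re = ‖X ζ‖ ^ 2 := this
    simp only [Complex.coe_algebraMap] at *
    rw [h5]
    ring
  rw [e, h] at h3
  have h6 : ‖X ζ‖ ^ 2 ≤ 0 := by linarith
  have h7 : ‖X ζ‖ = 0 := by
    have := le_antisymm h6 (sq_nonneg _)
    exact pow_eq_zero_iff (two_ne_zero) |>.1 this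
  exact norm_eq_zero.1 h7

theorem Irr_unit {D : Type u} [CStarAlgebra D] {ψ : WeakDual ℂ D}
    (hψ : ψ ∈ Set.extremePoints ℝ (States D)) {H : Type v} [NormedAddCommGroup H]
    [InnerProductSpace ℂ H] [CompleteSpace H] (π : D →⋆ₐ[ℂ] (H →L[ℂ] H)) (ζ : H)
    (h1 : ∀ d, ψ d = ⟪ζ, π d ζ⟫_ℂ) (h2 : Dense (Set.range fun d => π d ζ)) {X : H →L[ℂ] H}
    (hX : ∀ d, X * π d = π d * X) (hsa : star X = X)
    (hre : ∀ v, 0 ≤ (⟪v, X v⟫_ℂ).re) (hle : ∀ v, (⟪v, X v⟫_ℂ).re ≤ ‖v‖ ^ 2) :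
    ∃ c : ℂ, X = c • (1 : H →L[ℂ] H) := by
  have hs : ∀ v w, ⟪X v, w⟫_ℂ = ⟪v, X w⟫_ℂ := by
    intro v w
    rw [← ContinuousLinearMap.adjoint_inner_right, ← ContinuousLinearMap.star_eq_adjoint, hsa]
  have him : ∀ v, (⟪v, X v⟫_ℂ).im = 0 := by
    intro v
    have h5 : (starRingEnd ℂ) ⟪v, X v⟫_ℂ = ⟪v, X v⟫_ℂ := by
      rw [inner_conj_symm, hs]
    exact Complex.conj_eq_iff_im.1 h5
  have hst : ψ ∈ States D := hψ.1
  have hone : ⟪ζ, ζ⟫_ℂ = 1 := by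
    have := h1 1
    rw [hst.1, map_one, one_apply_eq_self] at this
    exact this.symm
  have hn1 : ‖ζ‖ ^ 2 = 1 := by
    have e := inner_self_eq_norm_sq_to_K (𝕜 := ℂ) ζ
    rw [hone] at e
    have e' : ((‖ζ‖ ^ 2 : ℝ) : ℂ) = ((1 : ℝ) : ℂ) := by
      rw [Complex.ofReal_one, e]
      push_cast
      rfl
    exact Complex.ofReal_injective e'
  rcases (hre ζ).eq_or_lt with h0 | h0
  · refine ⟨0, Irr_eq_smul π ζ h2 hX ?_⟩
    rw [zero_smul]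
    exact Irr_kernel hsa hre hle h0.symm
  · have hle1 := hle ζ
    rw [hn1] at hle1
    rcases hle1.eq_or_lt with h3 | h3
    · -- apply the kernel lemma to `1 - X`
      have hY : (1 - X) ζ = 0 := by
        have hYin : ∀ v, (⟪v, (1 - X) v⟫_ℂ).re = ‖v‖ ^ 2 - (⟪v, X v⟫_ℂ).re := by
          intro v
          rw [sub_apply, one_apply_eq_self, inner_sub_right, Complex.sub_re]
          congr 1
          exact inner_self_eq_norm_sq (𝕜 := ℂ) v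
        refine Irr_kernel (by rw [star_sub, star_one, hsa]) (fun v => ?_) (fun v => ?_) ?_
        · rw [hYin]
          linarith [hle v]
        · rw [hYin]
          linarith [hre v]
        · rw [hYin, hn1, h3, sub_self]
      refine ⟨1, Irr_eq_smul π ζ h2 hX ?_⟩
      rw [sub_apply, one_apply_eq_self, sub_eq_zero] at hY
      rw [one_smul]
      exact hY.symm
    · exact Irr_pos hψ π ζ h1 h2 hX him hre hle h0 h3

theorem Irr_sa {D : Type u} [CStarAlgebra D] {ψ : WeakDual ℂ D}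
    (hψ : ψ ∈ Set.extremePoints ℝ (States D)) {H : Type v} [NormedAddCommGroup H]
    [InnerProductSpace ℂ H] [CompleteSpace H] (π : D →⋆ₐ[ℂ] (H →L[ℂ] H)) (ζ : H)
    (h1 : ∀ d, ψ d = ⟪ζ, π d ζ⟫_ℂ) (h2 : Dense (Set.range fun d => π d ζ)) {X : H →L[ℂ] H}
    (hX : ∀ d, X * π d = π d * X) (hsa : star X = X) : ∃ c : ℂ, X = c • (1 : H →L[ℂ] H) := by
  set N : ℝ := ‖X‖ + 1 with hN
  have hN0 : 0 < N := by positivity
  set s : ℝ := (2 * N)⁻¹ with hs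
  have hs0 : 0 < s := by positivity
  set Z : H →L[ℂ] H := (s : ℂ) • (X + (N : ℂ) • (1 : H →L[ℂ] H)) with hZ
  have hin : ∀ v, (⟪v, Z v⟫_ℂ).re = s * ((⟪v, X v⟫_ℂ).re + N * ‖v‖ ^ 2) := by
    intro v
    rw [hZ, smul_apply, add_apply, smul_apply, one_apply_eq_self, inner_smul_right,
      inner_add_right, inner_smul_right, Complex.re_ofReal_mul, Complex.add_re,
      Complex.re_ofReal_mul]
    congr 3
    exact inner_self_eq_norm_sq (𝕜 := ℂ) v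
  have habs : ∀ v, |(⟪v, X v⟫_ℂ).re| ≤ N * ‖v‖ ^ 2 := by
    intro v
    calc |(⟪v, X v⟫_ℂ).re| ≤ ‖⟪v, X v⟫_ℂ‖ := Complex.abs_re_le_norm _
      _ ≤ ‖v‖ * ‖X v‖ := norm_inner_le_norm _ _
      _ ≤ ‖v‖ * (‖X‖ * ‖v‖) := mul_le_mul_of_nonneg_left (X.le_opNorm v) (norm_nonneg _)
      _ = ‖X‖ * ‖v‖ ^ 2 := by ring
      _ ≤ N * ‖v‖ ^ 2 := by
        refine mul_le_mul_of_nonneg_right ?_ (sq_nonneg _)
        rw [hN]
        linarith
  obtain ⟨c, hc⟩ := Irr_unit hψ π ζ h1 h2 (X := Z)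
    (fun d => by
      rw [hZ, smul_mul_assoc, mul_smul_comm, add_mul, mul_add, hX d, smul_mul_assoc,
        mul_smul_comm, one_mul, mul_one])
    (by
      rw [hZ, star_smul, star_add, star_smul, hsa, star_one]
      simp)
    (fun v => by
      rw [hin]
      exact mul_nonneg hs0.le (by linarith [(abs_le.1 (habs v)).1]))
    (fun v => by
      rw [hin]
      have h3 := (abs_le.1 (habs v)).2
      have h4 : s * ((⟪v, X v⟫_ℂ).re + N * ‖v‖ ^ 2) ≤ s * (2 * N * ‖v‖ ^ 2) :=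
        mul_le_mul_of_nonneg_left (by linarith) hs0.le
      have h5 : s * (2 * N * ‖v‖ ^ 2) = ‖v‖ ^ 2 := by
        rw [hs, ← mul_assoc, inv_mul_cancel₀ (by positivity), one_mul]
      linarith)
  refine ⟨(s : ℂ)⁻¹ * c - N, ?_⟩
  have hs' : (s : ℂ) ≠ 0 := Complex.ofReal_ne_zero.2 hs0.ne'
  have e : X + (N : ℂ) • (1 : H →L[ℂ] H) = (s : ℂ)⁻¹ • Z := by
    rw [hZ, smul_smul, inv_mul_cancel₀ hs', one_smul]
  rw [sub_smul, mul_smul, ← hc, ← e, add_sub_cancel_right]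

/-- The commutant of the GNS representation of a pure state is trivial.

PROOF. First let `0 ≤ X ≤ 1` commute with all `π d`. `ψ₁ d = ⟪ζ, π d (X ζ)⟫` and `ψ - ψ₁` satisfy the
positivity condition (`ψ₁ (star x x) = ⟪π x ζ, X π x ζ⟫`, real, in `[0, ‖π x ζ‖²]`). Let
`t = ψ₁ 1 = ⟪ζ, X ζ⟫ ∈ [0, 1]` (real). If `0 < t < 1` then `t⁻¹ ψ₁` and `(1 - t)⁻¹ (ψ - ψ₁)` are in
`States D` and `ψ` is in the open segment between them, so `t⁻¹ ψ₁ = ψ` (`Set.mem_extremePoints`,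
or `mem_extremePoints_iff_left`). So `⟪ζ, π d (X ζ - t ζ)⟫ = 0` for all `d`,
`⟪π (star d) ζ, X ζ - t ζ⟫ = 0`, by density `X ζ = t ζ`, then `X π d ζ = π d X ζ = t π d ζ` and `X = t`. If `t = 0` then
`‖√X ζ‖² = 0`, `X ζ = 0` and `X = 0`; if `t = 1` apply this to `1 - X`.
General `X`: `π d* = π (star d)` so `star X` commutes too; `X = X₁ + i X₂` with selfadjoint `X₁`, `X₂`
in the commutant and for selfadjoint `X ≠ 0`, `(X + ‖X‖) / (2 ‖X‖)` is between `0` and `1`. -/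
theorem scalar_of_extreme {D : Type u} [CStarAlgebra D] {ψ : WeakDual ℂ D}
    (hψ : ψ ∈ Set.extremePoints ℝ (States D)) {H : Type v} [NormedAddCommGroup H]
    [InnerProductSpace ℂ H] [CompleteSpace H] (π : D →⋆ₐ[ℂ] (H →L[ℂ] H)) (ζ : H)
    (h1 : ∀ d, ψ d = ⟪ζ, π d ζ⟫_ℂ) (h2 : Dense (Set.range fun d => π d ζ)) {X : H →L[ℂ] H}
    (hX : ∀ d, X * π d = π d * X) : ∃ c : ℂ, X = c • (1 : H →L[ℂ] H) := by
  have hstar : ∀ d, star X * π d = π d * star X := by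
    intro d
    have h3 := congrArg star (hX (star d))
    rw [star_mul, star_mul, map_star, star_star] at h3
    exact h3.symm
  obtain ⟨c, hc⟩ := Irr_sa hψ π ζ h1 h2 (X := X + star X)
    (fun d => by rw [add_mul, mul_add, hX, hstar]) (by rw [star_add, star_star, add_comm])
  obtain ⟨e, he⟩ := Irr_sa hψ π ζ h1 h2 (X := Complex.I • (X - star X))
    (fun d => by rw [smul_mul_assoc, mul_smul_comm, sub_mul, mul_sub, hX, hstar])
    (by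
      rw [star_smul, star_sub, star_star, ← neg_sub X (star X), smul_neg, ← neg_smul]
      simp)
  refine ⟨(2 : ℂ)⁻¹ * (c - Complex.I * e), ?_⟩
  have h3 : (2 : ℂ) • X = (X + star X) - Complex.I • (Complex.I • (X - star X)) := by
    rw [smul_smul, Complex.I_mul_I, neg_smul, one_smul, sub_neg_eq_add, two_smul]
    abel
  rw [hc, he, smul_smul, ← sub_smul] at h3
  rw [mul_smul, ← h3, smul_smul, inv_mul_cancel₀ (two_ne_zero), one_smul]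

end Pool.Agent.MP_86f3ed.Nu
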