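import Pool.Agent.H.MP_86f3ed_an.Pin.Space

open scoped InnerProductSpace Topology
open Filter ContinuousLinearMap

namespace Pool.Agent.MP_86f3ed.Nu

/-- An element of a C*-algebra whose image under an injective representation is positive. -/
theorem mPos_abs {M : Type*} [CStarAlgebra M] {K : Type*} [NormedAddCommGroup K]
    [InnerProductSpace ℂ K] [CompleteSpace K] (ρ : M →⋆ₐ[ℂ] (K →L[ℂ] K))
    (hρ : Function.Injective ρ) {W : M} (hW : IsSelfAdjoint W)
    (h : ∀ k : K, 0 ≤ (⟪k, ρ W k⟫_ℂ).re) : ∃ C : M, W = star C * C := by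
  let _ : PartialOrder M := CStarAlgebra.spectralOrder M
  have _ : StarOrderedRing M := CStarAlgebra.spectralOrderedRing M
  have hq : (0 : M) ≤ W⁻ := CFC.negPart_nonneg W
  obtain ⟨s, hs, hsq⟩ : ∃ s : M, IsSelfAdjoint s ∧ s * s = W⁻ := by
    refine ⟨CFC.sqrt W⁻, ?_, CFC.sqrt_mul_sqrt_self _ hq⟩
    exact IsSelfAdjoint.of_nonneg (CFC.sqrt_nonneg _)
  have hWq : W = W⁺ - W⁻ := (CFC.posPart_sub_negPart W hW).symm
  have h1 : W⁻ * W * W⁻ = - (star (s * s * s) * (s * s * s)) := by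
    have h2 : W⁻ * W⁺ = 0 := CFC.negPart_mul_posPart W
    have h3 : W⁻ * W * W⁻ = - (W⁻ * W⁻ * W⁻) := by
      conv_lhs => rw [show W⁻ * W * W⁻ = W⁻ * (W⁺ - W⁻) * W⁻ from by rw [← hWq]]
      rw [mul_sub, h2, zero_sub, neg_mul]
    rw [h3, ← hsq, star_mul, star_mul, hs.star_eq]
    congr 1
    noncomm_ring
  have h4 : ρ (s * s * s) = 0 := by
    ext k
    have h5 := h (ρ W⁻ k)
    have h6 : ⟪ρ W⁻ k, ρ W (ρ W⁻ k)⟫_ℂ = - ⟪ρ (s * s * s) k, ρ (s * s * s) k⟫_ℂ := by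
      have h7 : ⟪ρ W⁻ k, ρ W (ρ W⁻ k)⟫_ℂ = ⟪k, ρ (W⁻ * W * W⁻) k⟫_ℂ := by
        have h8 : star (ρ W⁻) = ρ W⁻ := by
          rw [← map_star, (IsSelfAdjoint.of_nonneg hq).star_eq]
        rw [map_mul, map_mul, mul_apply_eq_comp, mul_apply_eq_comp]
        conv_lhs => rw [← h8, ContinuousLinearMap.star_eq_adjoint,
          ContinuousLinearMap.adjoint_inner_left]
        rw [← ContinuousLinearMap.star_eq_adjoint, h8]
      rw [h7, h1, map_neg, neg_apply, inner_neg_right, map_mul, map_star,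
        mul_apply_eq_comp, ContinuousLinearMap.star_eq_adjoint,
        ContinuousLinearMap.adjoint_inner_right]
    rw [h6, Complex.neg_re] at h5
    have h9 : (⟪ρ (s * s * s) k, ρ (s * s * s) k⟫_ℂ).re = ‖ρ (s * s * s) k‖ ^ 2 := by
      have := inner_self_eq_norm_sq (𝕜 := ℂ) (ρ (s * s * s) k)
      simpa using this
    rw [h9] at h5
    have h10 : ‖ρ (s * s * s) k‖ = 0 := by
      have := sq_nonneg ‖ρ (s * s * s) k‖
      have h11 : ‖ρ (s * s * s) k‖ ^ 2 = 0 := by linarith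
      exact pow_eq_zero_iff (two_ne_zero) |>.1 h11
    simpa using h10
  have h12 : s * s * s = 0 := hρ (by rw [h4, map_zero])
  have h13 : W⁻ = 0 := by
    have h14 : star W⁻ * W⁻ = 0 := by
      rw [(IsSelfAdjoint.of_nonneg hq).star_eq, ← hsq]
      calc s * s * (s * s) = s * s * s * s := by noncomm_ring
        _ = 0 := by rw [h12, zero_mul]
    exact (CStarRing.star_mul_self_eq_zero_iff _).1 h14
  have hp : (0 : M) ≤ W := by
    rw [hWq, h13, sub_zero]
    exact CFC.posPart_nonneg W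
  refine ⟨CFC.sqrt W, ?_⟩
  rw [(IsSelfAdjoint.of_nonneg (CFC.sqrt_nonneg _)).star_eq, CFC.sqrt_mul_sqrt_self _ hp]

theorem mPos_key {M : Type*} [CStarAlgebra M] {G : Type*} [NormedAddCommGroup G]
    [InnerProductSpace ℂ G] [CompleteSpace G] (σ : M →⋆ₐ[ℂ] (G →L[ℂ] G)) (Z : M) (x : G) :
    (⟪x, σ (Z + star Z) x⟫_ℂ).re = 2 * (⟪x, σ Z x⟫_ℂ).re := by
  rw [map_add, add_apply, inner_add_right, map_star, star_eq_adjoint, adjoint_inner_right,
    Complex.add_re, ← inner_conj_symm (σ Z x) x, Complex.conj_re]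
  ring

section amp

variable {D : Type*} [CStarAlgebra D] {H : Type*} [NormedAddCommGroup H]
    [InnerProductSpace ℂ H] [CompleteSpace H]

/-- The amplification of a representation to matrices, as an operator. -/
noncomputable def mPosOp (ρ : D →⋆ₐ[ℂ] (H →L[ℂ] H)) {n : ℕ} (Z : Fin n → Fin n → D) :
    PiLp 2 (fun _ : Fin n => H) →L[ℂ] PiLp 2 (fun _ : Fin n => H) :=
  ((PiLp.continuousLinearEquiv 2 ℂ (fun _ : Fin n => H)).symm :
      (Fin n → H) →L[ℂ] PiLp 2 (fun _ : Fin n => H)).comp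
    ((ContinuousLinearMap.pi fun i => ∑ j, (ρ (Z i j)).comp (ContinuousLinearMap.proj j)).comp
      ((PiLp.continuousLinearEquiv 2 ℂ (fun _ : Fin n => H)) :
        PiLp 2 (fun _ : Fin n => H) →L[ℂ] (Fin n → H)))

theorem mPosOp_apply (ρ : D →⋆ₐ[ℂ] (H →L[ℂ] H)) {n : ℕ} (Z : Fin n → Fin n → D)
    (k : PiLp 2 (fun _ : Fin n => H)) (i : Fin n) :
    mPosOp ρ Z k i = ∑ j, ρ (Z i j) (k j) := by
  simp [mPosOp]

theorem mPosOp_inner (ρ : D →⋆ₐ[ℂ] (H →L[ℂ] H)) {n : ℕ} (Z : Fin n → Fin n → D)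
    (k l : PiLp 2 (fun _ : Fin n => H)) :
    ⟪l, mPosOp ρ Z k⟫_ℂ = ∑ i, ∑ j, ⟪l i, ρ (Z i j) (k j)⟫_ℂ := by
  rw [PiLp.inner_apply]
  refine Finset.sum_congr rfl fun i _ => ?_
  rw [mPosOp_apply, inner_sum]

/-- The amplification as a star homomorphism. -/
noncomputable def mPosHom (ρ : D →⋆ₐ[ℂ] (H →L[ℂ] H)) (n : ℕ) :
    CStarMatrix (Fin n) (Fin n) D →⋆ₐ[ℂ]
      (PiLp 2 (fun _ : Fin n => H) →L[ℂ] PiLp 2 (fun _ : Fin n => H)) where
  toFun Z := mPosOp ρ Z
  map_one' := by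
    ext k i
    rw [mPosOp_apply, one_apply_eq_self]
    rw [Finset.sum_eq_single i]
    · rw [show (1 : CStarMatrix (Fin n) (Fin n) D) i i = 1 from CStarMatrix.one_apply_eq i, map_one]
      rfl
    · intro j _ hj
      rw [show (1 : CStarMatrix (Fin n) (Fin n) D) i j = 0 from
        CStarMatrix.one_apply_ne (Ne.symm hj), map_zero]
      rfl
    · intro hi
      exact absurd (Finset.mem_univ i) hi
  map_mul' Z Z' := by
    ext k i
    rw [mul_apply_eq_comp, mPosOp_apply, mPosOp_apply]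
    have h1 : ∀ j, ρ ((Z * Z') i j) (k j) = ∑ l, ρ (Z i l) (ρ (Z' l j) (k j)) := by
      intro j
      rw [CStarMatrix.mul_apply, map_sum, sum_apply]
      refine Finset.sum_congr rfl fun l _ => ?_
      rw [map_mul, mul_apply_eq_comp]
    simp_rw [h1, mPosOp_apply, map_sum]
    exact Finset.sum_comm
  map_zero' := by
    ext k i
    rw [mPosOp_apply]
    simp
  map_add' Z Z' := by
    ext k i
    rw [add_apply, PiLp.add_apply, mPosOp_apply, mPosOp_apply, mPosOp_apply,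
      ← Finset.sum_add_distrib]
    refine Finset.sum_congr rfl fun j _ => ?_
    rw [CStarMatrix.add_apply, map_add, add_apply]
  commutes' r := by
    ext k i
    rw [mPosOp_apply, Finset.sum_eq_single i]
    · rw [CStarMatrix.algebraMap_apply, if_pos rfl, AlgHomClass.commutes]
      simp [Algebra.algebraMap_eq_smul_one]
    · intro j _ hj
      rw [CStarMatrix.algebraMap_apply, if_neg (Ne.symm hj), map_zero]
      rfl
    · intro hi
      exact absurd (Finset.mem_univ i) hi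
  map_star' Z := by
    rw [star_eq_adjoint, eq_adjoint_iff]
    intro k l
    rw [← inner_conj_symm, mPosOp_inner, mPosOp_inner, map_sum, Finset.sum_comm]
    refine Finset.sum_congr rfl fun i _ => ?_
    rw [map_sum]
    refine Finset.sum_congr rfl fun j _ => ?_
    rw [CStarMatrix.star_apply, map_star, star_eq_adjoint, adjoint_inner_right, inner_conj_symm]

end amp

/-- Positivity of a matrix over a C*-algebra does not depend on the representation.

PROOF. `M = CStarMatrix (Fin n) (Fin n) D` is a unital C*-algebra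
(`Mathlib/Analysis/CStarAlgebra/CStarMatrix.lean`). A representation `π` of `D` on `H` gives a
star homomorphism `π_n` of `M` on `H^n = PiLp 2 (fun _ : Fin n => H)`,
`(π_n Z k) i = ∑ j, π (Z i j) (k j)`, and `⟪k, π_n Z k⟫ = ∑ i, ∑ j, ⟪k i, π (Z i j) (k j)⟫`. It is
injective if `π` is. Let `W = Z + star Z`. The hypothesis says that `ρ_n W ≥ 0` in `B(H^n)`;
decompose `W = W⁺ - W⁻` in `M` and show `W⁻ = 0`: `0 ≤ ρ_n (W⁻ W W⁻) = - ρ_n ((W⁻)³)`, so
`ρ_n ((W⁻)³) = 0`, `(W⁻)³ = 0`, `W⁻ = 0`. So `W = star C * C` in `M` and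
`⟪k, τ_n W k⟫ = ‖τ_n C k‖² ≥ 0`, and the real part of `⟪k, τ_n Z k⟫` is one half of this. -/
theorem matrix_pos {D : Type*} [CStarAlgebra D] {H H' : Type*} [NormedAddCommGroup H]
    [InnerProductSpace ℂ H] [CompleteSpace H] [NormedAddCommGroup H'] [InnerProductSpace ℂ H']
    [CompleteSpace H'] (ρ : D →⋆ₐ[ℂ] (H →L[ℂ] H)) (hρ : Function.Injective ρ)
    (τ : D →⋆ₐ[ℂ] (H' →L[ℂ] H')) {n : ℕ} (Z : Fin n → Fin n → D)
    (h : ∀ k : Fin n → H, 0 ≤ (∑ i, ∑ j, ⟪k i, ρ (Z i j) (k j)⟫_ℂ).re) (k : Fin n → H') :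
    0 ≤ (∑ i, ∑ j, ⟪k i, τ (Z i j) (k j)⟫_ℂ).re := by
  let _ : PartialOrder D := CStarAlgebra.spectralOrder D
  have _ : StarOrderedRing D := CStarAlgebra.spectralOrderedRing D
  set M := CStarMatrix (Fin n) (Fin n) D
  let Z0 : M := CStarMatrix.ofMatrix (fun i j => Z i j)
  have hinj : Function.Injective (mPosHom ρ n) := by
    rw [injective_iff_map_eq_zero]
    intro A hA
    ext i j
    apply hρ
    rw [CStarMatrix.zero_apply, map_zero]
    ext v
    have h1 := mPosOp_apply ρ A (WithLp.toLp 2 (Pi.single j v)) i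
    rw [show mPosOp ρ A = 0 from hA] at h1
    rw [Finset.sum_eq_single j] at h1
    · simpa using h1.symm
    · intro l _ hl
      simp [hl]
    · intro hi
      exact absurd (Finset.mem_univ j) hi
  have hpos : ∀ x : PiLp 2 (fun _ : Fin n => H),
      0 ≤ (⟪x, mPosHom ρ n (Z0 + star Z0) x⟫_ℂ).re := by
    intro x
    rw [mPos_key]
    have h1 : ⟪x, mPosHom ρ n Z0 x⟫_ℂ = ∑ i, ∑ j, ⟪x i, ρ (Z i j) (x j)⟫_ℂ :=
      mPosOp_inner ρ Z x x
    rw [h1]
    have h2 := h (fun i => x i)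
    linarith
  have hsa : IsSelfAdjoint (Z0 + star Z0) := IsSelfAdjoint.add_star_self Z0
  obtain ⟨C, hC⟩ := mPos_abs (mPosHom ρ n) hinj hsa hpos
  have h3 := mPos_key (mPosHom τ n) Z0 (WithLp.toLp 2 k)
  have h4 : ⟪WithLp.toLp 2 k, mPosHom τ n Z0 (WithLp.toLp 2 k)⟫_ℂ =
      ∑ i, ∑ j, ⟪k i, τ (Z i j) (k j)⟫_ℂ := mPosOp_inner τ Z (WithLp.toLp 2 k) (WithLp.toLp 2 k)
  rw [h4, hC, map_mul, map_star, mul_apply_eq_comp, star_eq_adjoint, adjoint_inner_right] at h3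
  have h5 : (⟪mPosHom τ n C (WithLp.toLp 2 k), mPosHom τ n C (WithLp.toLp 2 k)⟫_ℂ).re =
      ‖mPosHom τ n C (WithLp.toLp 2 k)‖ ^ 2 := by
    have := inner_self_eq_norm_sq (𝕜 := ℂ) (mPosHom τ n C (WithLp.toLp 2 k))
    simpa using this
  rw [h5] at h3
  have h6 := sq_nonneg ‖mPosHom τ n C (WithLp.toLp 2 k)‖
  linarith

end Pool.Agent.MP_86f3ed.Nu
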