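import Pool.Agent.H.MP_86f3ed_an.Nu.Up

open scoped InnerProductSpace Topology
open Filter ContinuousLinearMap

namespace Pool.Agent.MP_86f3ed.Nu

open Pin Ty

universe v

variable {K : Type v} [NormedAddCommGroup K] [InnerProductSpace ℂ K] [CompleteSpace K]
  {P : StarSubalgebra ℂ (K →L[ℂ] K)} {Ω : K} {I : Type v} {𝒰 : Ultrafilter I} {S : I → FS K}
  {J : K → K}

section Bilin

omit [CompleteSpace K] in
theorem SD_one_apply (x : K) : (1 : K →L[ℂ] K) x = x := rfl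

/-- The complex bilinear form behind `sp`. -/
noncomputable def SD_D (J : K → K) (Ω : K) (x y : K →L[ℂ] K) : ℂ := ⟪Ω, x (J (star y Ω))⟫_ℂ

theorem SD_D_add_left (x x' y : K →L[ℂ] K) :
    SD_D J Ω (x + x') y = SD_D J Ω x y + SD_D J Ω x' y := by
  simp only [SD_D, add_apply, inner_add_right]

theorem SD_D_smul_left (c : ℂ) (x y : K →L[ℂ] K) :
    SD_D J Ω (c • x) y = c * SD_D J Ω x y := by
  simp only [SD_D, smul_apply, inner_smul_right]

theorem SD_D_add_right (hJ : TomitaJ P Ω J) (x y y' : K →L[ℂ] K) :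
    SD_D J Ω x (y + y') = SD_D J Ω x y + SD_D J Ω x y' := by
  simp only [SD_D, star_add, add_apply, hJ.add, map_add, inner_add_right]

theorem SD_D_smul_right (hJ : TomitaJ P Ω J) (c : ℂ) (x y : K →L[ℂ] K) :
    SD_D J Ω x (c • y) = c * SD_D J Ω x y := by
  simp only [SD_D, star_smul, smul_apply, hJ.smul, map_smul, inner_smul_right]
  simp

theorem SD_sp_eq {x y : K →L[ℂ] K} (hy : star y = y) : sp J Ω x y = (SD_D J Ω x y).re := by
  simp only [SD_D, sp, hy]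

/-- The form is real on selfadjoint elements. -/
theorem SD_D_real (hJ : TomitaJ P Ω J) {a b : K →L[ℂ] K} (ha : a ∈ P) (hb : b ∈ P)
    (has : star a = a) (hbs : star b = b) : (starRingEnd ℂ) (SD_D J Ω a b) = SD_D J Ω a b := by
  obtain ⟨c, hc, hcx⟩ := hJ.M_to_N b hb
  have hcΩ : J (b Ω) = c Ω := by
    have := hcx Ω
    rwa [hJ.fix] at this
  have hcs : ∀ x y, ⟪c x, y⟫_ℂ = ⟪x, c y⟫_ℂ := by
    intro x y
    have h1 : ⟪c x, y⟫_ℂ = ⟪J (b (J x)), J (J y)⟫_ℂ := by rw [hcx, hJ.invol]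
    have h2 : ⟪x, c y⟫_ℂ = ⟪J (J x), J (b (J y))⟫_ℂ := by rw [hcx, hJ.invol]
    rw [h1, h2, hJ.inner, hJ.inner]
    have h3 : ContinuousLinearMap.adjoint b = b := hbs
    rw [← ContinuousLinearMap.adjoint_inner_left, h3]
  have has' : ∀ x y, ⟪a x, y⟫_ℂ = ⟪x, a y⟫_ℂ := by
    intro x y
    have h3 : ContinuousLinearMap.adjoint a = a := has
    rw [← ContinuousLinearMap.adjoint_inner_left, h3]
  have hcom : a (c Ω) = c (a Ω) := by
    have := mem_Com.1 hc a ha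
    exact congrArg (fun T : K →L[ℂ] K => T Ω) this
  simp only [SD_D, hbs, hcΩ]
  rw [inner_conj_symm, hcom, hcs, has', ← hcom]

theorem SD_D_comm (hJ : TomitaJ P Ω J) {x y : K →L[ℂ] K} (hx : star x = x) (hy : star y = y) :
    (SD_D J Ω x y).re = (SD_D J Ω y x).re := by
  rw [← SD_sp_eq hy, ← SD_sp_eq hx, sp_comm hJ hx hy]

theorem SD_D_one_one (hJ : TomitaJ P Ω J) (hΩ : ‖Ω‖ = 1) : SD_D J Ω 1 1 = 1 := by
  simp only [SD_D, star_one, SD_one_apply, hJ.fix]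
  rw [inner_self_eq_norm_sq_to_K, hΩ]
  simp

theorem SD_D_one_right (hJ : TomitaJ P Ω J) (x : K →L[ℂ] K) :
    SD_D J Ω x 1 = ⟪Ω, x Ω⟫_ℂ := by
  simp only [SD_D, star_one, SD_one_apply, hJ.fix]

end Bilin

/-- PROOF. For `b ∈ [0,1]` in `P`: `re frm b b → sp b b` (`Sys.low`, `Sys.up`). Both sides are real quadratic
forms `Q_i (b)`, `Q (b)` on selfadjoint elements (`frm` is bilinear symmetric, `sp` is real bilinear
and symmetric), with `re frm b 1 = re val b → re ⟪Ω, b Ω⟫ = sp b 1` (`J Ω = Ω`) and `frm 1 1 = 1`. For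
selfadjoint `b ≠ 0` write `b = 2 ‖b‖ b₁ - ‖b‖ 1`, `b₁ = (b + ‖b‖) / (2 ‖b‖) ∈ [0, 1]`, and
expand. So `re frm b b → sp b b` for all selfadjoint `b ∈ P`. -/
theorem Sys.lim_self (h : Sys P Ω 𝒰 S) (bic : Com (Com P) = P) (cyc : Cyc P Ω) (hΩ : ‖Ω‖ = 1)
    (hJ : TomitaJ P Ω J) {b : K →L[ℂ] K} (hb : b ∈ P) (hbs : star b = b) :
    Tendsto (fun i => ((S i).frm b b).re) 𝒰 (𝓝 (sp J Ω b b)) := by
  set t : ℝ := ‖b‖ + 1 with ht
  have htp : 0 < t := by positivity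
  set b₁ : K →L[ℂ] K := ((1 / (2 * t) : ℝ) : ℂ) • (b + ((t : ℝ) : ℂ) • 1) with hb₁
  have hbsa : IsSelfAdjoint b := hbs
  have h1P : b₁ ∈ P := by
    refine P.smul_mem (P.add_mem hb (P.smul_mem (one_mem P) _)) _
  have h1s : star b₁ = b₁ := by
    rw [hb₁, star_smul, star_add, star_smul, hbs, star_one]
    simp only [RCLike.star_def, Complex.conj_ofReal]
  have key : b = ((2 * t : ℝ) : ℂ) • b₁ + ((-t : ℝ) : ℂ) • (1 : K →L[ℂ] K) := by
    rw [hb₁, smul_smul, ← Complex.ofReal_mul, mul_one_div_cancel (by positivity : (2 * t) ≠ 0)]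
    simp
  have hscal : ∀ r : ℝ, algebraMap ℝ (K →L[ℂ] K) r = ((r : ℝ) : ℂ) • (1 : K →L[ℂ] K) := by
    intro r
    rw [Algebra.algebraMap_eq_smul_one]
    ext x
    simp
  have hlo : -(((t : ℝ) : ℂ) • (1 : K →L[ℂ] K)) ≤ b := by
    have h1 := hbsa.neg_algebraMap_norm_le_self
    refine le_trans ?_ h1
    rw [← hscal]
    refine neg_le_neg ?_
    exact algebraMap_mono _ (by rw [ht]; linarith)
  have hhi : b ≤ ((t : ℝ) : ℂ) • (1 : K →L[ℂ] K) := by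
    have h1 := hbsa.le_algebraMap_norm_self
    refine le_trans h1 ?_
    rw [← hscal]
    exact algebraMap_mono _ (by rw [ht]; linarith)
  have h10 : 0 ≤ b₁ := by
    have h2 : 0 ≤ b + ((t : ℝ) : ℂ) • (1 : K →L[ℂ] K) := by
      have := add_le_add_left hlo (((t : ℝ) : ℂ) • (1 : K →L[ℂ] K))
      simpa [add_comm] using this
    have h3 : b₁ = (1 / (2 * t) : ℝ) • (b + ((t : ℝ) : ℂ) • (1 : K →L[ℂ] K)) := by
      rw [hb₁]; exact Complex.coe_smul _ _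
    rw [h3]
    exact smul_nonneg (by positivity) h2
  have h11 : b₁ ≤ 1 := by
    have h2 : b + ((t : ℝ) : ℂ) • (1 : K →L[ℂ] K) ≤ (2 * t : ℝ) • (1 : K →L[ℂ] K) := by
      have h4 : (2 * t : ℝ) • (1 : K →L[ℂ] K) =
          ((t : ℝ) : ℂ) • (1 : K →L[ℂ] K) + ((t : ℝ) : ℂ) • (1 : K →L[ℂ] K) := by
        ext x
        simp only [smul_apply, add_apply, SD_one_apply, Complex.coe_smul, two_mul, add_smul]
      rw [h4]
      exact add_le_add_left hhi _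
    have h3 : b₁ = (1 / (2 * t) : ℝ) • (b + ((t : ℝ) : ℂ) • (1 : K →L[ℂ] K)) := by
      rw [hb₁]; exact Complex.coe_smul _ _
    rw [h3]
    have h5 := smul_le_smul_of_nonneg_left h2 (by positivity : (0:ℝ) ≤ 1 / (2 * t))
    refine le_trans h5 (le_of_eq ?_)
    rw [smul_smul, one_div_mul_cancel (by positivity : (2 * t) ≠ 0), one_smul]
  -- the limit for b₁
  have hlim1 : Tendsto (fun i => ((S i).frm b₁ b₁).re) 𝒰 (𝓝 (sp J Ω b₁ b₁)) := by
    rw [Metric.tendsto_nhds]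
    intro ε hε
    filter_upwards [h.low bic cyc hΩ hJ h1P h10 h11 (half_pos hε),
      h.up cyc hΩ hJ h1P h10 h11 (half_pos hε)] with i h1 h2
    rw [Real.dist_eq, abs_lt]
    constructor <;> linarith
  have hlim2 : Tendsto (fun i => ((S i).val b₁).re) 𝒰 (𝓝 (⟪Ω, b₁ Ω⟫_ℂ).re) :=
    (Complex.continuous_re.tendsto _).comp (h.lim b₁ h1P)
  have hfrm : ∀ i, ((S i).frm b b).re =
      (2 * t) ^ 2 * ((S i).frm b₁ b₁).re + 2 * (2 * t) * (-t) * ((S i).val b₁).re + (-t) ^ 2 := by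
    intro i
    have e1 : (S i).frm b b = ((2 * t : ℝ) : ℂ) * (((2 * t : ℝ) : ℂ) * (S i).frm b₁ b₁)
        + 2 * (((2 * t : ℝ) : ℂ) * (((-t : ℝ) : ℂ) * (S i).val b₁))
        + ((-t : ℝ) : ℂ) * (((-t : ℝ) : ℂ) * 1) := by
      conv_lhs => rw [key]
      simp only [FS.frm_add_left, FS.frm_add_right, FS.frm_smul_left, FS.frm_smul_right,
        FS.frm_one_right, FS.frm_comm (S i) 1 b₁, FS.val_one, FS.val_add, FS.val_smul]
      ring
    rw [e1]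
    simp only [Complex.add_re, Complex.re_ofReal_mul, Complex.one_re]
    have e2 : ((2 : ℂ) * (((2 * t : ℝ) : ℂ) * (((-t : ℝ) : ℂ) * (S i).val b₁))).re
        = 2 * ((2 * t) * ((-t) * ((S i).val b₁).re)) := by
      have : (2 : ℂ) = ((2 : ℝ) : ℂ) := by norm_num
      rw [this]
      simp only [Complex.re_ofReal_mul]
    rw [e2]
    ring
  have hsp : sp J Ω b b =
      (2 * t) ^ 2 * sp J Ω b₁ b₁ + 2 * (2 * t) * (-t) * (⟪Ω, b₁ Ω⟫_ℂ).re + (-t) ^ 2 := by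
    rw [SD_sp_eq hbs, SD_sp_eq h1s]
    have e1 : SD_D J Ω b b = ((2 * t : ℝ) : ℂ) * (((2 * t : ℝ) : ℂ) * SD_D J Ω b₁ b₁)
        + ((2 * t : ℝ) : ℂ) * (((-t : ℝ) : ℂ) * SD_D J Ω b₁ 1)
        + ((-t : ℝ) : ℂ) * (((2 * t : ℝ) : ℂ) * SD_D J Ω 1 b₁)
        + ((-t : ℝ) : ℂ) * (((-t : ℝ) : ℂ) * SD_D J Ω 1 1) := by
      conv_lhs => rw [key]
      simp only [SD_D_add_left, SD_D_add_right hJ, SD_D_smul_left, SD_D_smul_right hJ]
      ring
    rw [e1]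
    simp only [Complex.add_re, Complex.re_ofReal_mul]
    rw [SD_D_comm hJ (star_one _) h1s, SD_D_one_one hJ hΩ, SD_D_one_right hJ, Complex.one_re]
    ring
  rw [hsp]
  simp only [hfrm]
  exact ((hlim1.const_mul _).add (hlim2.const_mul _)).add tendsto_const_nhds

/-- Selfadjoint case of `Sys.lim_frm`. -/
theorem SD_lim_sa (h : Sys P Ω 𝒰 S) (bic : Com (Com P) = P) (cyc : Cyc P Ω) (hΩ : ‖Ω‖ = 1)
    (hJ : TomitaJ P Ω J) {a b : K →L[ℂ] K} (ha : a ∈ P) (hb : b ∈ P) (has : star a = a)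
    (hbs : star b = b) :
    Tendsto (fun i => (S i).frm a b) 𝒰 (𝓝 (SD_D J Ω a b)) := by
  have hreal : ∀ i, (S i).frm a b = ((((S i).frm a b).re : ℝ) : ℂ) := by
    intro i
    have h1 := FS.frm_star (S i) a b
    rw [has, hbs] at h1
    exact (Complex.conj_eq_iff_re.1 h1.symm).symm
  have hreal' : SD_D J Ω a b = (((SD_D J Ω a b).re : ℝ) : ℂ) :=
    (Complex.conj_eq_iff_re.1 (SD_D_real hJ ha hb has hbs)).symm
  have h1 := h.lim_self bic cyc hΩ hJ (P.add_mem ha hb) (by rw [star_add, has, hbs])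
  have hnb : ((-1 : ℂ) • b) ∈ P := P.smul_mem hb _
  have hnbs : star ((-1 : ℂ) • b) = (-1 : ℂ) • b := by
    rw [star_smul, hbs]; simp
  have hsub : star (a + (-1 : ℂ) • b) = a + (-1 : ℂ) • b := by rw [star_add, has, hnbs]
  have h2 := h.lim_self bic cyc hΩ hJ (P.add_mem ha hnb) hsub
  have hq : ∀ i, ((S i).frm a b).re =
      (((S i).frm (a + b) (a + b)).re
        - ((S i).frm (a + (-1 : ℂ) • b) (a + (-1 : ℂ) • b)).re) / 4 := by
    intro i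
    have e : (S i).frm (a + b) (a + b)
        - (S i).frm (a + (-1 : ℂ) • b) (a + (-1 : ℂ) • b) = ((4 : ℝ) : ℂ) * (S i).frm a b := by
      simp only [FS.frm_add_left, FS.frm_add_right, FS.frm_smul_left, FS.frm_smul_right,
        FS.frm_comm (S i) b a]
      push_cast
      ring
    have e' := congrArg Complex.re e
    rw [Complex.sub_re, Complex.re_ofReal_mul] at e'
    rw [e']
    ring
  have hq' : (SD_D J Ω a b).re = (sp J Ω (a + b) (a + b)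
        - sp J Ω (a + (-1 : ℂ) • b) (a + (-1 : ℂ) • b)) / 4 := by
    rw [SD_sp_eq (by rw [star_add, has, hbs]), SD_sp_eq hsub]
    have e : SD_D J Ω (a + b) (a + b)
        - SD_D J Ω (a + (-1 : ℂ) • b) (a + (-1 : ℂ) • b)
          = ((2 : ℝ) : ℂ) * SD_D J Ω a b + ((2 : ℝ) : ℂ) * SD_D J Ω b a := by
      simp only [SD_D_add_left, SD_D_add_right hJ, SD_D_smul_left, SD_D_smul_right hJ]
      push_cast
      ring
    have e' := congrArg Complex.re e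
    rw [Complex.sub_re, Complex.add_re, Complex.re_ofReal_mul, Complex.re_ofReal_mul,
      SD_D_comm hJ hbs has] at e'
    rw [e']
    ring
  rw [hreal']
  have h3 : Tendsto (fun i => ((S i).frm a b).re) 𝒰 (𝓝 (SD_D J Ω a b).re) := by
    rw [hq']
    simp only [hq]
    exact (h1.sub h2).div_const 4
  have h4 : Tendsto (fun i => ((((S i).frm a b).re : ℝ) : ℂ)) 𝒰
      (𝓝 (((SD_D J Ω a b).re : ℝ) : ℂ)) := (Complex.continuous_ofReal.tendsto _).comp h3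
  refine h4.congr fun i => ?_
  exact (hreal i).symm

/-- Cartesian decomposition inside `P`. -/
theorem SD_decomp {a : K →L[ℂ] K} (ha : a ∈ P) :
    ∃ a₁ ∈ P, ∃ a₂ ∈ P, star a₁ = a₁ ∧ star a₂ = a₂ ∧ a = a₁ + Complex.I • a₂ := by
  have hsa : star a ∈ P := star_mem ha
  refine ⟨(1 / 2 : ℂ) • (a + star a), P.smul_mem (P.add_mem ha hsa) _,
    (-Complex.I / 2 : ℂ) • (a + (-1 : ℂ) • star a),
    P.smul_mem (P.add_mem ha (P.smul_mem hsa _)) _, ?_, ?_, ?_⟩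
  · rw [star_smul, star_add, star_star, add_comm]
    simp
  · rw [star_smul, star_add, star_smul, star_star]
    simp only [RCLike.star_def, map_div₀, map_neg, Complex.conj_I, map_ofNat, map_one]
    ext x
    simp only [smul_apply, add_apply, smul_add, smul_smul]
    rw [add_comm]
    congr 1 <;> congr 1 <;> ring
  · ext x
    simp only [smul_apply, add_apply, smul_add, smul_smul]
    have e1 : Complex.I * (-Complex.I / 2) = 1 / 2 := by
      rw [mul_div_assoc', mul_neg, Complex.I_mul_I, neg_neg]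
    rw [← mul_assoc, e1]
    have e2 : (1 / 2 : ℂ) * -1 = -(1 / 2) := by ring
    rw [e2, neg_smul]
    have e3 : (1 / 2 : ℂ) • a x + (1 / 2 : ℂ) • (star a) x
        + ((1 / 2 : ℂ) • a x + -((1 / 2 : ℂ) • (star a) x))
        = (1 / 2 : ℂ) • a x + (1 / 2 : ℂ) • a x := by abel
    rw [e3, ← add_smul]
    norm_num

/-- PROOF. For selfadjoint `a, b ∈ P`: polarization `4 frm a b = frm (a+b) (a+b) - frm (a-b) (a-b)`,
the same for `sp`; `frm a b` and `⟪Ω, a (J (b Ω))⟫` are real (`FS.frm_star`; and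
`⟪Ω, a (J (b Ω))⟫ = ⟪Ω, a c Ω⟫` with `c ∈ Com P`, `c x = J (b (J x))`, selfadjoint, commuting with
`a`). General `a = a₁ + i a₂`, `b = b₁ + i b₂`: `frm` is bilinear, and `b ↦ J (star b Ω)` is linear. -/
theorem Sys.lim_frm (h : Sys P Ω 𝒰 S) (bic : Com (Com P) = P) (cyc : Cyc P Ω) (hΩ : ‖Ω‖ = 1)
    (hJ : TomitaJ P Ω J) {a b : K →L[ℂ] K} (ha : a ∈ P) (hb : b ∈ P) :
    Tendsto (fun i => (S i).frm a b) 𝒰 (𝓝 ⟪Ω, a (J (star b Ω))⟫_ℂ) := by
  obtain ⟨a₁, ha₁, a₂, ha₂, hs₁, hs₂, rfl⟩ := SD_decomp ha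
  obtain ⟨b₁, hb₁, b₂, hb₂, ht₁, ht₂, rfl⟩ := SD_decomp hb
  have e : (⟪Ω, (a₁ + Complex.I • a₂) (J (star (b₁ + Complex.I • b₂) Ω))⟫_ℂ) =
      SD_D J Ω (a₁ + Complex.I • a₂) (b₁ + Complex.I • b₂) := rfl
  rw [e]
  simp only [SD_D_add_left, SD_D_add_right hJ, SD_D_smul_left, SD_D_smul_right hJ,
    FS.frm_add_left, FS.frm_add_right, FS.frm_smul_left, FS.frm_smul_right]
  have h11 := SD_lim_sa h bic cyc hΩ hJ ha₁ hb₁ hs₁ ht₁
  have h12 := SD_lim_sa h bic cyc hΩ hJ ha₁ hb₂ hs₁ ht₂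
  have h21 := SD_lim_sa h bic cyc hΩ hJ ha₂ hb₁ hs₂ ht₁
  have h22 := SD_lim_sa h bic cyc hΩ hJ ha₂ hb₂ hs₂ ht₂
  exact (h11.add (h21.const_mul _)).add ((h12.add (h22.const_mul _)).const_mul _)

/-- Semidiscreteness at a cyclic and separating vector.

PROOF. `exists_sys` gives a net. For `c ∈ G` let `b' ∈ P` with `b' x = J (c (J x))`
(`N_to_M`) and `b_c = star b'`. Then `J (star b_c Ω) = J (b' Ω) = c Ω`, so by `Sys.lim_frm`
`(S i).frm a b_c → ⟪Ω, a (c Ω)⟫`; take an `i` which is good for the finitely many pairs (`𝒰` is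
a nontrivial filter). With `F = S i`, `n = F.n`, `h p = √(l_p) u_p`, `k p = √(l_p) J (u_p)`:
`⟪u_q, b_c u_p⟫ = ⟪b' u_q, u_p⟫ = ⟪J u_p, J (b' u_q)⟫ = ⟪J u_p, c (J u_q)⟫`
(`hJ.inner`, `hJ.invol`), hence `frm a b_c = ∑_{pq} l_p l_q ⟪u_p, a u_q⟫ ⟪J u_p, c (J u_q)⟫ =
∑_{pq} ⟪h_p, a h_q⟫ ⟪k_p, c k_q⟫` (`√l_p √l_q √l_p √l_q = l_p l_q`; `c` is linear, `J (r x) = r J x` is
not even needed since `k` is defined with `√l_p •` outside of `J`). -/
theorem semidiscrete (bic : Com (Com P) = P) (inj : IsInjective (P : Set (K →L[ℂ] K)))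
    (hΩ : ‖Ω‖ = 1) (cyc : Cyc P Ω) (hJ : TomitaJ P Ω J) (F G : Finset (K →L[ℂ] K))
    (hF : ∀ a ∈ F, a ∈ P) (hG : ∀ c ∈ G, c ∈ Com P) {ε : ℝ} (hε : 0 < ε) :
    ∃ (n : ℕ) (h k : Fin n → K), ∀ a ∈ F, ∀ c ∈ G,
      ‖∑ p, ∑ q, ⟪h p, a (h q)⟫_ℂ * ⟪k p, c (k q)⟫_ℂ - ⟪Ω, a (c Ω)⟫_ℂ‖ ≤ ε := by
  obtain ⟨I, 𝒰, S, hS⟩ := exists_sys (Ω := Ω) bic inj hΩ
  have main : ∀ᶠ i in (𝒰 : Filter I), ∀ a ∈ F, ∀ c ∈ G,
      ‖∑ p, ∑ q, ⟪((Real.sqrt ((S i).l p) : ℝ) : ℂ) • (S i).u p,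
          a (((Real.sqrt ((S i).l q) : ℝ) : ℂ) • (S i).u q)⟫_ℂ *
        ⟪((Real.sqrt ((S i).l p) : ℝ) : ℂ) • J ((S i).u p),
          c (((Real.sqrt ((S i).l q) : ℝ) : ℂ) • J ((S i).u q))⟫_ℂ - ⟪Ω, a (c Ω)⟫_ℂ‖ ≤ ε := by
    refine (Filter.eventually_all_finset F).2 fun a ha => ?_
    refine (Filter.eventually_all_finset G).2 fun c hc => ?_
    obtain ⟨b', hb', hb'x⟩ := hJ.N_to_M c (hG c hc)
    have hlim := hS.lim_frm bic cyc hΩ hJ (hF a ha) (star_mem hb' : star b' ∈ P)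
    rw [star_star] at hlim
    have hcΩ : J (b' Ω) = c Ω := by
      rw [← hb'x, hJ.invol, hJ.fix]
    rw [hcΩ] at hlim
    have hev := (Metric.tendsto_nhds.1 hlim) ε hε
    filter_upwards [hev] with i hi
    rw [dist_eq_norm] at hi
    refine le_of_eq_of_le ?_ hi.le
    congr 2
    rw [FS.frm]
    refine Finset.sum_congr rfl fun p _ => Finset.sum_congr rfl fun q _ => ?_
    have h1 : ⟪(S i).u q, (star b') ((S i).u p)⟫_ℂ = ⟪J ((S i).u p), c (J ((S i).u q))⟫_ℂ := by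
      rw [ContinuousLinearMap.star_eq_adjoint, ContinuousLinearMap.adjoint_inner_right,
        ← hb'x]
      have h2 : (S i).u p = J (J ((S i).u p)) := (hJ.invol _).symm
      conv_lhs => rw [h2]
      rw [hJ.inner]
    rw [h1]
    simp only [map_smul, inner_smul_left, inner_smul_right, Complex.conj_ofReal]
    have hp : ((Real.sqrt ((S i).l p) : ℝ) : ℂ) * ((Real.sqrt ((S i).l p) : ℝ) : ℂ)
        = (((S i).l p : ℝ) : ℂ) := by
      rw [← Complex.ofReal_mul, Real.mul_self_sqrt ((S i).nonneg p)]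
    have hq : ((Real.sqrt ((S i).l q) : ℝ) : ℂ) * ((Real.sqrt ((S i).l q) : ℝ) : ℂ)
        = (((S i).l q : ℝ) : ℂ) := by
      rw [← Complex.ofReal_mul, Real.mul_self_sqrt ((S i).nonneg q)]
    rw [Complex.ofReal_mul, ← hp, ← hq]
    ring
  obtain ⟨i, hi⟩ := main.exists
  exact ⟨(S i).n, fun p => ((Real.sqrt ((S i).l p) : ℝ) : ℂ) • (S i).u p,
    fun p => ((Real.sqrt ((S i).l p) : ℝ) : ℂ) • J ((S i).u p), hi⟩

end Pool.Agent.MP_86f3ed.Nu
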