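import Pool.Agent.H.MP_86f3ed_an.Pin.Space

open scoped InnerProductSpace Topology
open Filter ContinuousLinearMap

namespace Pool.Agent.MP_86f3ed.Nu

theorem SepA_closure {D : Type*} [Monoid D] [TopologicalSpace D] [ContinuousMul D] {t : Set D}
    (ht : TopologicalSpace.IsSeparable t) :
    TopologicalSpace.IsSeparable (Submonoid.closure t : Set D) := by
  obtain ⟨c, hc, htc⟩ := ht
  have : Countable c := hc.to_subtype
  refine ⟨Set.range (fun l : List c => (l.map Subtype.val).prod), Set.countable_range _, ?_⟩
  intro x hx
  obtain ⟨l, hl, rfl⟩ := Submonoid.exists_list_of_mem_closure hx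
  clear hx
  induction l with
  | nil => exact subset_closure ⟨[], by simp⟩
  | cons a l ih =>
    rw [List.prod_cons]
    have ha : a ∈ closure c := htc (hl a List.mem_cons_self)
    have hl' := ih (fun y hy => hl y (List.mem_cons_of_mem _ hy))
    refine map_mem_closure₂ continuous_mul ha hl' ?_
    rintro b hb y ⟨l', rfl⟩
    exact ⟨⟨b, hb⟩ :: l', by simp⟩

/-- The star algebra generated by a separable set is separable.

PROOF. Let `t = s ∪ star '' s` and let `t` be contained in the closure of a countable set `c`. Products of `n` elements of
`t` are in the closure of the (countable) set of products of `n` elements of `c` (induction on `n`,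
continuity of multiplication; `IsSeparable` is stable under images of `IsSeparable` products: the
image of a separable set under a continuous map is separable, `IsSeparable.image`,
`IsSeparable.prod`), so the submonoid generated by `t` is separable (countable union,
`TopologicalSpace.IsSeparable.iUnion`/`isSeparable_iUnion`; `Submonoid.closure`: every element is a list product,
`Submonoid.exists_list_of_mem_closure`). The algebra generated by `t` is its span
(`Algebra.adjoin_eq_span`), separable by `TopologicalSpace.IsSeparable.span`, and
`StarAlgebra.adjoin ℂ s` is `Algebra.adjoin ℂ (s ∪ star s)` (`StarAlgebra.adjoin_toSubalgebra`). -/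
theorem isSeparable_adjoin {D : Type*} [CStarAlgebra D] {s : Set D}
    (hs : TopologicalSpace.IsSeparable s) :
    TopologicalSpace.IsSeparable (StarAlgebra.adjoin ℂ s : Set D) := by
  have h1 : TopologicalSpace.IsSeparable (s ∪ star s) := by
    refine hs.union ?_
    rw [← Set.image_star]
    exact hs.image continuous_star
  have h2 : (StarAlgebra.adjoin ℂ s : Set D) =
      (Submodule.span ℂ (Submonoid.closure (s ∪ star s) : Set D) : Set D) := by
    rw [← Algebra.adjoin_eq_span, ← StarAlgebra.adjoin_toSubalgebra]
    rfl
  rw [h2]
  exact (SepA_closure h1).span

/-- PROOF. `IsSeparable.closure`, and a separable subset as a subtype is a separable space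
(`TopologicalSpace.IsSeparable.separableSpace` for metrizable spaces). -/
theorem separable_topologicalClosure {D : Type*} [CStarAlgebra D] {s : Set D}
    (hs : TopologicalSpace.IsSeparable s) :
    TopologicalSpace.SeparableSpace ((StarAlgebra.adjoin ℂ s).topologicalClosure) := by
  have h := (isSeparable_adjoin hs).closure
  rw [← StarSubalgebra.topologicalClosure_coe] at h
  exact h.separableSpace

end Pool.Agent.MP_86f3ed.Nu
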