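import Pool.Agent.H.MP_86f3ed_an.Nu.Cs
import Pool.Agent.H.MP_86f3ed_an.Nu.SD
import Pool.Agent.H.MP_86f3ed_an.Nu.Irr
import Pool.Agent.H.MP_86f3ed_an.Nu.MPos
import Pool.Agent.H.MP_86f3ed_an.Nu.SepA
import Pool.Agent.H.MP_86f3ed_an.Nu.Gns
import Pool.Agent.H.MP_86f3ed_an.Fac.Nd

open scoped InnerProductSpace Topology
open Filter ContinuousLinearMap

namespace Pool.Agent.MP_86f3ed.Nu

open Pin Sf Fac Ty

universe u

theorem Bm_cmp_inner {K : Type*} [NormedAddCommGroup K] [InnerProductSpace ℂ K]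
    [CompleteSpace K] (W : Submodule ℂ K) [CompleteSpace W] (T : K →L[ℂ] K) (u v : W) :
    ⟪u, cmp W T v⟫_ℂ = ⟪(u : K), T v⟫_ℂ := by
  rw [Ind_cmp_apply, Submodule.inner_orthogonalProjectionOnto_eq_of_mem_left]

theorem Bm_amp_mem {S : Type u} [CStarAlgebra S] {H₀ : Type u}
    [NormedAddCommGroup H₀] [InnerProductSpace ℂ H₀] [CompleteSpace H₀]
    (π₀ : S →⋆ₐ[ℂ] (H₀ →L[ℂ] H₀)) {z : H₀ →L[ℂ] H₀} (hz : ∀ s, z * π₀ s = π₀ s * z) :
    Sf.amp z ∈ Com (rangeAlg (ampRep π₀)) := by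
  rw [Ind_mem_Com]
  intro s x
  rw [ampRep_apply]
  have h1 : Sf.amp (π₀ s) * Sf.amp z = Sf.amp z * Sf.amp (π₀ s) := by
    rw [← amp_mul, ← amp_mul, hz]
  exact congrArg (fun T : HH H₀ →L[ℂ] HH H₀ => T x) h1

theorem Bm_range_mem {S : Type u} [CStarAlgebra S] {K : Type u} [NormedAddCommGroup K]
    [InnerProductSpace ℂ K] [CompleteSpace K] (σ : S →⋆ₙₐ[ℂ] (K →L[ℂ] K)) (s : S) :
    σ s ∈ Com (Com (rangeAlg σ)) := by
  rw [mem_Com]
  intro y hy
  exact ((mem_Com.1 hy) (σ s) (mem_rangeAlg.mpr ⟨0, s, by simp⟩)).symm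

/-- Positivity on the vectors `x η`. -/
theorem Bm_fac_dense {S : Type u} [CStarAlgebra S] (hS : GoodFac S) {H₀ : Type u}
    [NormedAddCommGroup H₀] [InnerProductSpace ℂ H₀] [CompleteSpace H₀]
    [TopologicalSpace.SeparableSpace H₀] [Nontrivial H₀] (π₀ : S →⋆ₐ[ℂ] (H₀ →L[ℂ] H₀))
    (hF : Factor (rangeAlg π₀.toNonUnitalStarAlgHom)) {m : ℕ} (a : Fin m → S)
    (z : Fin m → H₀ →L[ℂ] H₀) (hz₁ : ∀ j s, z j * π₀ s = π₀ s * z j)
    (hz : MinPos a (fun j => Sf.amp (z j))) {η : HH H₀} (hη1 : ‖η‖ = 1)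
    (hηc : Cyc (Com (rangeAlg (ampRep π₀))) η) {x : HH H₀ →L[ℂ] HH H₀}
    (hx : x ∈ Com (rangeAlg (ampRep π₀))) :
    0 ≤ (∑ j, ⟪x η, Sf.amp (π₀ (a j) * z j) (x η)⟫_ℂ).re := by
  classical
  obtain ⟨W, hWc, σ, hW, hsub, hσ1, hσF, hσc, hσc'⟩ := exists_cyc_sub π₀ hF hηc
  have hsep : TopologicalSpace.SeparableSpace (HH H₀) := separable_HH
  have hsepW : TopologicalSpace.SeparableSpace W :=
    (TopologicalSpace.IsSeparable.of_separableSpace (W : Set (HH H₀))).separableSpace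
  have hΩ : ‖(⟨η, hW⟩ : W)‖ = 1 := hη1
  obtain ⟨hinj, J, hJ⟩ := hS W σ ⟨η, hW⟩ hΩ hσF hσc hσc'
  set c : Fin m → W →L[ℂ] W := fun j => cmp W (star x * Sf.amp (z j) * x) with hc
  set b : Fin m → W →L[ℂ] W := fun j => σ (a j) with hb
  have hcm : ∀ j, c j ∈ Com (rangeAlg σ) := fun j =>
    hsub.cmp_mem (mul_mem (mul_mem (star_mem hx) (Bm_amp_mem π₀ (hz₁ j))) hx)
  have hbm : ∀ j, b j ∈ Com (Com (rangeAlg σ)) := fun j => Bm_range_mem σ (a j)
  have hcin : ∀ j (u v : W), ⟪u, c j v⟫_ℂ = ⟪x u, Sf.amp (z j) (x v)⟫_ℂ := by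
    intro j u v
    rw [hc, Bm_cmp_inner]
    show ⟪(u : HH H₀), star x (Sf.amp (z j) (x v))⟫_ℂ = _
    rw [star_eq_adjoint, adjoint_inner_right]
  have hval : ∀ j, ⟪(⟨η, hW⟩ : W), c j (b j ⟨η, hW⟩)⟫_ℂ =
      ⟪x η, Sf.amp (π₀ (a j) * z j) (x η)⟫_ℂ := by
    intro j
    rw [hcin]
    have h1 : ((b j ⟨η, hW⟩ : W) : HH H₀) = Sf.amp (π₀ (a j)) η := hsub.coe (a j) ⟨η, hW⟩
    have h2 : x (Sf.amp (π₀ (a j)) η) = Sf.amp (π₀ (a j)) (x η) :=
      ((Ind_mem_Com (ampRep π₀)).mp hx (a j) η).symm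
    rw [h1, h2, ← hz₁ j, amp_mul]
    rfl
  have key : ∀ ε : ℝ, 0 < ε →
      -(m * ε) ≤ (∑ j, ⟪x η, Sf.amp (π₀ (a j) * z j) (x η)⟫_ℂ).re := by
    intro ε hε
    obtain ⟨n, h, k, hhk⟩ := semidiscrete (P := Com (rangeAlg σ)) (Com_Com_Com _) hinj hΩ hσc' hJ
      (Finset.univ.image c) (Finset.univ.image b)
      (fun t ht => by
        obtain ⟨j, _, rfl⟩ := Finset.mem_image.1 ht
        exact hcm j)
      (fun t ht => by
        obtain ⟨j, _, rfl⟩ := Finset.mem_image.1 ht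
        exact hbm j) hε
    have h1 : ∀ j, ‖∑ p, ∑ q, ⟪h p, c j (h q)⟫_ℂ * ⟪k p, b j (k q)⟫_ℂ -
        ⟪x η, Sf.amp (π₀ (a j) * z j) (x η)⟫_ℂ‖ ≤ ε := by
      intro j
      rw [← hval j]
      exact hhk _ (Finset.mem_image_of_mem c (Finset.mem_univ j)) _
        (Finset.mem_image_of_mem b (Finset.mem_univ j))
    have h2 := hz n W σ hσ1 k (fun p => x (h p))
    have h3 : (∑ j, ∑ p, ∑ q, ⟪k p, σ (a j) (k q)⟫_ℂ *
        ⟪x (h p), Sf.amp (z j) (x (h q))⟫_ℂ) =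
        ∑ j, ∑ p, ∑ q, ⟪h p, c j (h q)⟫_ℂ * ⟪k p, b j (k q)⟫_ℂ := by
      refine Finset.sum_congr rfl fun j _ => Finset.sum_congr rfl fun p _ =>
        Finset.sum_congr rfl fun q _ => ?_
      rw [hcin, mul_comm]
    have h2' : 0 ≤ (∑ j, ∑ p, ∑ q, ⟪h p, c j (h q)⟫_ℂ * ⟪k p, b j (k q)⟫_ℂ).re := by
      rw [← h3]
      exact h2
    have h4 : ∀ j, (∑ p, ∑ q, ⟪h p, c j (h q)⟫_ℂ * ⟪k p, b j (k q)⟫_ℂ).re - ε ≤
        (⟪x η, Sf.amp (π₀ (a j) * z j) (x η)⟫_ℂ).re := by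
      intro j
      have h5 := (Complex.abs_re_le_norm _).trans (h1 j)
      rw [Complex.sub_re] at h5
      linarith [(abs_le.1 h5).2]
    have h6 := Finset.sum_le_sum fun j (_ : j ∈ (Finset.univ : Finset (Fin m))) => h4 j
    rw [Finset.sum_sub_distrib, ← Complex.re_sum, ← Complex.re_sum, Finset.sum_const,
      Finset.card_univ, Fintype.card_fin, nsmul_eq_mul] at h6
    linarith
  by_contra hneg
  push Not at hneg
  set r := (∑ j, ⟪x η, Sf.amp (π₀ (a j) * z j) (x η)⟫_ℂ).re with hr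
  have h7 := key (-r / (m + 1)) (div_pos (by linarith) (by positivity))
  have hm1 : (0 : ℝ) < (m : ℝ) + 1 := by positivity
  have h8 : (m : ℝ) * (-r / (m + 1)) < -r := by
    rw [mul_div_assoc', div_lt_iff₀ hm1]
    nlinarith
  linarith

/-- Positivity at a factor representation.

Data: `π₀` is a factor representation of `S` on the separable space `H₀`, `z j` operators commuting with
`π₀ S`, and the tensor `∑ a_j ⊗ z_j` is positive in all product representations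
(hypothesis `hz`, for vectors of `HH H₀` and the operators `amp (z j)`).

PROOF. If `H₀` is trivial everything is `0`. Let `η` from `exists_eta`, `W, σ` from `exists_cyc_sub`,
`Ω = ⟨η, hW⟩`, `P = Com (rangeAlg σ)`. `hS` (with `K = W`, separable as a subspace of the separable
space `HH H₀`) gives injectivity and `J`; `Com (Com P) = P` (`Sf.Com_Com_Com`);
`Cyc P Ω` is known. So `semidiscrete` applies to `P`, `Ω`. Let `x ∈ Com (rangeAlg (ampRep π₀))` and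
`c j = cmp W (star x * amp (z j) * x) ∈ P` (`Sub.cmp_mem`; `amp (z j)` is in
`Com (rangeAlg (ampRep π₀))`), and `b j = σ (a j) ∈ Com P`. For `ε > 0` take `n, h, k` from
`semidiscrete` for `F = {c j}`, `G = {b j}`, `ε`:
`‖∑ p, ∑ q, ⟪h p, c j (h q)⟫ * ⟪k p, b j (k q)⟫ - ⟪Ω, c j (b j Ω)⟫‖ ≤ ε` for every `j`. Here
`⟪h p, c j (h q)⟫ = ⟪x h_p, amp (z j) x h_q⟫` in `HH H₀`, so by `hz` (`ρ = σ` on `H₁ = W`, `h := k`,
`k := x h`) the real part of the sum over `j` of the double sums is `≥ 0`, hence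
`re ∑_j ⟪Ω, c j (b j Ω)⟫ ≥ - m ε`, for all `ε > 0`. And
`⟪Ω, c j (b j Ω)⟫ = ⟪x η, amp (z j) x (ampRep π₀ (a j) η)⟫ = ⟪x η, amp (z j) amp (π₀ (a j)) (x η)⟫`. So with
`T = ∑ π₀ (a j) * z j` : `0 ≤ re ⟪x η, amp T (x η)⟫` for all such `x`, and by density
(`Cyc (Com (rangeAlg (ampRep π₀))) η`) `0 ≤ re ⟪w, amp T w⟫` for all `w ∈ HH H₀`; `w = inc 0 ζ`. -/
theorem fac_pos {S : Type u} [CStarAlgebra S] (hS : GoodFac S) {H₀ : Type u}
    [NormedAddCommGroup H₀] [InnerProductSpace ℂ H₀] [CompleteSpace H₀]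
    [TopologicalSpace.SeparableSpace H₀] (π₀ : S →⋆ₐ[ℂ] (H₀ →L[ℂ] H₀))
    (hF : Factor (rangeAlg π₀.toNonUnitalStarAlgHom)) {m : ℕ} (a : Fin m → S)
    (z : Fin m → H₀ →L[ℂ] H₀) (hz₁ : ∀ j s, z j * π₀ s = π₀ s * z j)
    (hz : MinPos a (fun j => Sf.amp (z j))) (ζ : H₀) :
    0 ≤ (∑ j, ⟪ζ, π₀ (a j) (z j ζ)⟫_ℂ).re := by
  rcases subsingleton_or_nontrivial H₀ with hsub | hnt
  · have h0 : ζ = 0 := Subsingleton.elim _ _
    rw [h0]
    simp
  · obtain ⟨η, hη1, hηc⟩ := exists_eta π₀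
    have hcl : IsClosed {w : HH H₀ | 0 ≤ (∑ j, ⟪w, Sf.amp (π₀ (a j) * z j) w⟫_ℂ).re} := by
      refine isClosed_le continuous_const ?_
      refine Complex.continuous_re.comp ?_
      refine continuous_finsetSum _ fun j _ => ?_
      exact continuous_id.inner (Sf.amp (π₀ (a j) * z j)).continuous
    have hall : ∀ w : HH H₀, 0 ≤ (∑ j, ⟪w, Sf.amp (π₀ (a j) * z j) w⟫_ℂ).re := by
      intro w
      have h1 : closure {x : HH H₀ | ∃ t ∈ Com (rangeAlg (ampRep π₀)), x = t η} ⊆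
          {w : HH H₀ | 0 ≤ (∑ j, ⟪w, Sf.amp (π₀ (a j) * z j) w⟫_ℂ).re} := by
        refine closure_minimal ?_ hcl
        rintro _ ⟨x, hx, rfl⟩
        exact Bm_fac_dense hS π₀ hF a z hz₁ hz hη1 hηc hx
      exact h1 (hηc w)
    have h2 := hall (Sf.inc 0 ζ)
    have h3 : ∀ j, ⟪Sf.inc 0 ζ, Sf.amp (π₀ (a j) * z j) (Sf.inc 0 ζ)⟫_ℂ =
        ⟪ζ, π₀ (a j) (z j ζ)⟫_ℂ := by
      intro j
      rw [Sf.amp_inc, Sf.inner_inc_left, Sf.pr_inc_same]
      rfl
    simp only [h3] at h2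
    exact h2

theorem Bm_cont {A B : Type*} [CStarAlgebra A] [CStarAlgebra B] (Φ : A →⋆ₐ[ℂ] B) :
    Continuous Φ :=
  AddMonoidHomClass.continuous_of_bound Φ 1 fun x => by
    rw [one_mul]
    exact NonUnitalStarAlgHom.norm_apply_le Φ x

/-- Commuting with generators of a closed star algebra. -/
theorem Bm_comm {A : Type u} [CStarAlgebra A] (s : Set A)
    [hD : IsClosed (((StarAlgebra.adjoin ℂ s).topologicalClosure : StarSubalgebra ℂ A) : Set A)]
    {H : Type u} [NormedAddCommGroup H] [InnerProductSpace ℂ H] [CompleteSpace H]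
    (Φ : (StarAlgebra.adjoin ℂ s).topologicalClosure →⋆ₐ[ℂ] (H →L[ℂ] H))
    {x : H →L[ℂ] H}
    (h1 : ∀ d : (StarAlgebra.adjoin ℂ s).topologicalClosure, (d : A) ∈ s → x * Φ d = Φ d * x)
    (h2 : ∀ d : (StarAlgebra.adjoin ℂ s).topologicalClosure, (d : A) ∈ s →
      star x * Φ d = Φ d * star x)
    (d : (StarAlgebra.adjoin ℂ s).topologicalClosure) : x * Φ d = Φ d * x := by
  let C : StarSubalgebra ℂ (StarAlgebra.adjoin ℂ s).topologicalClosure :=
    (StarSubalgebra.centralizer ℂ {x}).comap Φ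
  have hmem : ∀ d, d ∈ C ↔ x * Φ d = Φ d * x ∧ star x * Φ d = Φ d * star x := by
    intro d
    show Φ d ∈ StarSubalgebra.centralizer ℂ {x} ↔ _
    rw [StarSubalgebra.mem_centralizer_iff]
    simp
  have hC : IsClosed (C : Set (StarAlgebra.adjoin ℂ s).topologicalClosure) := by
    have h3 : (C : Set (StarAlgebra.adjoin ℂ s).topologicalClosure) =
        {d | x * Φ d = Φ d * x} ∩ {d | star x * Φ d = Φ d * star x} := by
      ext d
      exact hmem d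
    rw [h3]
    have hΦ : Continuous Φ := Bm_cont Φ
    exact (isClosed_eq (continuous_const.mul hΦ) (hΦ.mul continuous_const)).inter
      (isClosed_eq (continuous_const.mul hΦ) (hΦ.mul continuous_const))
  let C' : StarSubalgebra ℂ A :=
    C.map ((StarAlgebra.adjoin ℂ s).topologicalClosure.subtype)
  have hmem' : ∀ t, t ∈ C' ↔ ∃ d ∈ C, (d : A) = t := by
    intro t
    exact StarSubalgebra.mem_map
  have hC' : IsClosed (C' : Set A) := by
    have h3 : (C' : Set A) = Subtype.val '' (C : Set (StarAlgebra.adjoin ℂ s).topologicalClosure) := by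
      ext t
      exact hmem' t
    rw [h3]
    exact hD.isClosedEmbedding_subtypeVal.isClosedMap _ hC
  have h4 : StarAlgebra.adjoin ℂ s ≤ C' := by
    rw [StarAlgebra.adjoin_le_iff]
    intro t ht
    have ht' : t ∈ (StarAlgebra.adjoin ℂ s).topologicalClosure :=
      StarSubalgebra.le_topologicalClosure _ (StarAlgebra.subset_adjoin ℂ s ht)
    exact (hmem' t).2 ⟨⟨t, ht'⟩, (hmem _).2 ⟨h1 _ ht, h2 _ ht⟩, rfl⟩
  have h5 : (StarAlgebra.adjoin ℂ s).topologicalClosure ≤ C' :=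
    StarSubalgebra.topologicalClosure_minimal h4 hC'
  obtain ⟨e, he, hed⟩ := (hmem' d).1 (h5 d.2)
  have : e = d := Subtype.ext hed
  rw [← this]
  exact ((hmem e).1 he).1

/-- Expanding the entries of a matrix. -/
theorem Bm_sum {D : Type*} [CStarAlgebra D] {G : Type*} [NormedAddCommGroup G]
    [InnerProductSpace ℂ G] [CompleteSpace G] (Ψ : D →⋆ₐ[ℂ] (G →L[ℂ] G)) {n m : ℕ}
    (c : Fin n → Fin n → Fin m → ℂ) (y' : Fin m → D) (k : Fin n → G) :
    (∑ p, ∑ q, ⟪k p, Ψ (∑ l, c p q l • y' l) (k q)⟫_ℂ) =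
      ∑ l, ∑ p, ∑ q, c p q l * ⟪k p, Ψ (y' l) (k q)⟫_ℂ := by
  have h1 : ∀ p q, ⟪k p, Ψ (∑ l, c p q l • y' l) (k q)⟫_ℂ =
      ∑ l, c p q l * ⟪k p, Ψ (y' l) (k q)⟫_ℂ := by
    intro p q
    rw [map_sum, sum_apply, inner_sum]
    refine Finset.sum_congr rfl fun l _ => ?_
    rw [map_smul, smul_apply, inner_smul_right]
  simp only [h1]
  calc (∑ p, ∑ q, ∑ l, c p q l * ⟪k p, Ψ (y' l) (k q)⟫_ℂ)
      = ∑ p, ∑ l, ∑ q, c p q l * ⟪k p, Ψ (y' l) (k q)⟫_ℂ :=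
        Finset.sum_congr rfl fun p _ => Finset.sum_comm
    _ = ∑ l, ∑ p, ∑ q, c p q l * ⟪k p, Ψ (y' l) (k q)⟫_ℂ := Finset.sum_comm

/-- The claim for extreme states. -/
theorem Bm_extreme {S : Type u} [CStarAlgebra S] [TopologicalSpace.SeparableSpace S]
    (hS : GoodFac S) {H : Type u} [NormedAddCommGroup H] [InnerProductSpace ℂ H] [CompleteSpace H]
    (π : S →⋆ₐ[ℂ] (H →L[ℂ] H)) {m : ℕ} (a : Fin m → S) (y : Fin m → H →L[ℂ] H)
    (hy : ∀ j, star (y j) = y j) (hy₁ : ∀ j s, y j * π s = π s * y j) (hpos : MinPos a y)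
    [hD : IsClosed (((StarAlgebra.adjoin ℂ (Set.range π ∪ Set.range y)).topologicalClosure :
      StarSubalgebra ℂ (H →L[ℂ] H)) : Set (H →L[ℂ] H))]
    (π' : S →⋆ₐ[ℂ] (StarAlgebra.adjoin ℂ (Set.range π ∪ Set.range y)).topologicalClosure)
    (hπ' : ∀ s, (π' s : H →L[ℂ] H) = π s)
    (y' : Fin m → (StarAlgebra.adjoin ℂ (Set.range π ∪ Set.range y)).topologicalClosure)
    (hy' : ∀ j, (y' j : H →L[ℂ] H) = y j)
    (ψ : WeakDual ℂ (StarAlgebra.adjoin ℂ (Set.range π ∪ Set.range y)).topologicalClosure)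
    (hψ : ψ ∈ Set.extremePoints ℝ
      (States (StarAlgebra.adjoin ℂ (Set.range π ∪ Set.range y)).topologicalClosure)) :
    0 ≤ (ψ (∑ j, π' (a j) * y' j)).re := by
  have hψS := hψ.1
  obtain ⟨H₀, i1, i2, i3, Φ, ζ₀, h1, h2⟩ := exists_gns
    ({ toFun := fun d => ψ d
       map_add' := fun d e => map_add ψ d e
       map_smul' := fun c d => map_smul ψ c d } :
      (StarAlgebra.adjoin ℂ (Set.range π ∪ Set.range y)).topologicalClosure →ₗ[ℂ] ℂ)
    (fun x => hψS.2 x)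
  have h1' : ∀ d, ψ d = ⟪ζ₀, Φ d ζ₀⟫_ℂ := h1
  have hsepD : TopologicalSpace.SeparableSpace
      (StarAlgebra.adjoin ℂ (Set.range π ∪ Set.range y)).topologicalClosure := by
    apply separable_topologicalClosure
    refine (TopologicalSpace.isSeparable_range (Bm_cont π)).union ?_
    exact (Set.finite_range y).isSeparable
  have hsep : TopologicalSpace.SeparableSpace H₀ := by
    refine DenseRange.separableSpace (f := fun d => Φ d ζ₀) h2 ?_
    exact (Bm_cont Φ).clm_apply continuous_const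
  have hstar' : ∀ j, star (y' j) = y' j := by
    intro j
    apply Subtype.ext
    show star (y' j : H →L[ℂ] H) = y' j
    rw [hy', hy]
  have hcomm' : ∀ j s, y' j * π' s = π' s * y' j := by
    intro j s
    apply Subtype.ext
    show (y' j : H →L[ℂ] H) * (π' s : H →L[ℂ] H) = (π' s : H →L[ℂ] H) * (y' j : H →L[ℂ] H)
    rw [hy', hπ', hy₁]
  have hz₁ : ∀ j s, Φ (y' j) * (Φ.comp π') s = (Φ.comp π') s * Φ (y' j) := by
    intro j s
    show Φ (y' j) * Φ (π' s) = Φ (π' s) * Φ (y' j)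
    rw [← map_mul, ← map_mul, hcomm']
  have hF : Factor (rangeAlg (Φ.comp π').toNonUnitalStarAlgHom) := by
    intro x hx hx'
    have hxπ : ∀ s, x * Φ (π' s) = Φ (π' s) * x := by
      intro s
      exact ((mem_Com.1 hx) (Φ (π' s)) (mem_rangeAlg.mpr ⟨0, s, by simp⟩)).symm
    have hxz : ∀ j, x * Φ (y' j) = Φ (y' j) * x := by
      intro j
      have hzj : Φ (y' j) ∈ Com (rangeAlg (Φ.comp π').toNonUnitalStarAlgHom) := by
        rw [mem_Com]
        intro g hg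
        obtain ⟨c, s, rfl⟩ := mem_rangeAlg.mp hg
        have h3 := hz₁ j s
        have h4 : (Φ.comp π').toNonUnitalStarAlgHom s = (Φ.comp π') s := rfl
        rw [h4, add_mul, mul_add, ← h3, smul_mul_assoc, mul_smul_comm, one_mul, mul_one]
      exact ((mem_Com.1 hx') _ hzj).symm
    have hxπs : ∀ s, star x * Φ (π' s) = Φ (π' s) * star x := by
      intro s
      have h3 := congrArg star (hxπ (star s))
      rw [star_mul, star_mul, map_star, map_star, star_star] at h3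
      exact h3.symm
    have hxzs : ∀ j, star x * Φ (y' j) = Φ (y' j) * star x := by
      intro j
      have h3 := congrArg star (hxz j)
      rw [star_mul, star_mul, ← map_star, hstar'] at h3
      exact h3.symm
    have hgen : ∀ d : (StarAlgebra.adjoin ℂ (Set.range π ∪ Set.range y)).topologicalClosure,
        (d : H →L[ℂ] H) ∈ Set.range π ∪ Set.range y → (∃ s, d = π' s) ∨ ∃ j, d = y' j := by
      rintro d (⟨s, hs⟩ | ⟨j, hj⟩)
      · exact Or.inl ⟨s, Subtype.ext (by rw [hπ', hs])⟩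
      · exact Or.inr ⟨j, Subtype.ext (by rw [hy', hj])⟩
    refine scalar_of_extreme hψ Φ ζ₀ h1' h2 (X := x) ?_
    refine Bm_comm (Set.range π ∪ Set.range y) Φ ?_ ?_
    · intro d hd
      rcases hgen d hd with ⟨s, rfl⟩ | ⟨j, rfl⟩
      · exact hxπ s
      · exact hxz j
    · intro d hd
      rcases hgen d hd with ⟨s, rfl⟩ | ⟨j, rfl⟩
      · exact hxπs s
      · exact hxzs j
  have hz : MinPos a (fun j => Sf.amp (Φ (y' j))) := by
    intro n H₁ j1 j2 j3 ρ hρ1 h k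
    have hmat := matrix_pos
      ((StarAlgebra.adjoin ℂ (Set.range π ∪ Set.range y)).topologicalClosure.subtype)
      Subtype.val_injective ((ampHom (K := H₀)).comp Φ)
      (fun p q => ∑ l, ⟪h p, ρ (a l) (h q)⟫_ℂ • y' l)
      (by
        intro k'
        have h3 := hpos n H₁ ρ hρ1 h k'
        rw [Bm_sum _ (fun p q l => ⟪h p, ρ (a l) (h q)⟫_ℂ) y' k']
        have h4 : ∀ l, ((StarAlgebra.adjoin ℂ (Set.range π ∪
            Set.range y)).topologicalClosure.subtype (y' l) : H →L[ℂ] H) = y l := hy'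
        simp only [h4]
        exact h3) k
    rw [Bm_sum _ (fun p q l => ⟪h p, ρ (a l) (h q)⟫_ℂ) y' k] at hmat
    exact hmat
  have hfin := fac_pos hS (Φ.comp π') hF a (fun j => Φ (y' j)) hz₁ hz ζ₀
  rw [h1']
  have h5 : ⟪ζ₀, Φ (∑ j, π' (a j) * y' j) ζ₀⟫_ℂ =
      ∑ j, ⟪ζ₀, (Φ.comp π') (a j) (Φ (y' j) ζ₀)⟫_ℂ := by
    rw [map_sum, sum_apply, inner_sum]
    refine Finset.sum_congr rfl fun j _ => ?_
    rw [map_mul]
    rfl
  rw [h5]
  exact hfin

/-- The main positivity statement.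

PROOF. Let `D` be the closed star subalgebra of `B(H)` generated by `π S` and the `y j`
(`(StarAlgebra.adjoin ℂ (Set.range π ∪ Set.range y)).topologicalClosure`; with
`haveI : IsClosed (D : Set _) := ..` it is a C*-algebra by `StarSubalgebra.cstarAlgebra`, in
universe `u`). `T = ∑ π (a j) * y j ∈ D`. For a unit vector `ζ` (scaling) the functional
`d ↦ ⟪ζ, d ζ⟫` is in `States D`, so by `states_nonneg` it suffices that `0 ≤ re (ψ T)` for every extreme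
point `ψ` of `States D`. Let `H₀, Π, ζ₀` be the GNS representation of `ψ` (`exists_gns`). `D` is separable
(`separable_topologicalClosure`; `S` is separable, so the range of the continuous map `π` is), so `H₀` is
(dense image of `d ↦ Π d ζ₀`, `Π` is contractive). `π₀ = Π ∘ (π : S → D)`, `z j = Π (y j)`, they
commute. `Factor (rangeAlg π₀)`: `x ∈ Com (rangeAlg π₀)` and `x ∈ Com (Com (rangeAlg π₀))`; the `z j` are in
`Com (rangeAlg π₀)`, so `x` commutes with `π₀ S` and all `z j`, hence (the set of `d ∈ D` with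
`x Π d = Π d x` is a closed star subalgebra because the generators are stable under `star`,
`star (y j) = y j`) with `Π D`, and `x` is a scalar by `scalar_of_extreme`.
`MinPos a (amp (z j))`: given `n, H₁, ρ, h, k` (`k i ∈ HH H₀`), put
`Z p q = ∑ j, ⟪h p, ρ (a j) (h q)⟫ • y j ∈ D`. For `k' : Fin n → H` the real part of
`∑ p, ∑ q, ⟪k' p, Z p q (k' q)⟫` is `≥ 0` by `hpos`; so by `matrix_pos` (`ρ` := the inclusion of `D`,
injective, `τ := ampHom ∘ Π`) the same is true for `τ` and `k`, which is the claim. Now `fac_pos`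
gives `0 ≤ re ∑ ⟪ζ₀, π₀ (a j) (z j ζ₀)⟫ = re ⟪ζ₀, Π T ζ₀⟫ = re (ψ T)`. -/
theorem main_pos {S : Type u} [CStarAlgebra S] [TopologicalSpace.SeparableSpace S]
    (hS : GoodFac S) {H : Type u} [NormedAddCommGroup H] [InnerProductSpace ℂ H] [CompleteSpace H]
    (π : S →⋆ₐ[ℂ] (H →L[ℂ] H)) {m : ℕ} (a : Fin m → S) (y : Fin m → H →L[ℂ] H)
    (hy : ∀ j, star (y j) = y j) (hy₁ : ∀ j s, y j * π s = π s * y j) (hpos : MinPos a y) (ζ : H) :
    0 ≤ (∑ j, ⟪ζ, π (a j) (y j ζ)⟫_ℂ).re := by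
  have hD : IsClosed (((StarAlgebra.adjoin ℂ (Set.range π ∪ Set.range y)).topologicalClosure :
      StarSubalgebra ℂ (H →L[ℂ] H)) : Set (H →L[ℂ] H)) :=
    StarSubalgebra.isClosed_topologicalClosure _
  set D : StarSubalgebra ℂ (H →L[ℂ] H) :=
    (StarAlgebra.adjoin ℂ (Set.range π ∪ Set.range y)).topologicalClosure with hDdef
  have hsub : (Set.range π ∪ Set.range y : Set (H →L[ℂ] H)) ⊆ D := fun t ht =>
    StarSubalgebra.le_topologicalClosure _ (StarAlgebra.subset_adjoin ℂ _ ht)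
  let π' : S →⋆ₐ[ℂ] D := StarAlgHom.codRestrict π D fun s => hsub (Or.inl ⟨s, rfl⟩)
  let y' : Fin m → D := fun j => ⟨y j, hsub (Or.inr ⟨j, rfl⟩)⟩
  rcases eq_or_ne ζ 0 with h0 | h0
  · rw [h0]
    simp
  have hn : ‖ζ‖ ≠ 0 := norm_ne_zero_iff.2 h0
  set ξ : H := ((‖ζ‖⁻¹ : ℝ) : ℂ) • ζ with hξ
  have hξ1 : ⟪ξ, ξ⟫_ℂ = 1 := by
    rw [inner_self_eq_norm_sq_to_K, hξ, norm_smul]
    simp [hn]
  let ψ : WeakDual ℂ D := StrongDual.toWeakDual (Irr_fn D.subtype ξ ξ)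
  have hψa : ∀ d : D, ψ d = ⟪ξ, (d : H →L[ℂ] H) ξ⟫_ℂ := fun d => rfl
  have hψ : ψ ∈ States D := by
    refine ⟨?_, ?_⟩
    · rw [hψa]
      exact hξ1
    · intro x
      have h1 : ψ (star x * x) = ⟪(x : H →L[ℂ] H) ξ, (x : H →L[ℂ] H) ξ⟫_ℂ := by
        rw [hψa]
        show ⟪ξ, (star (x : H →L[ℂ] H)) ((x : H →L[ℂ] H) ξ)⟫_ℂ = _
        rw [star_eq_adjoint, adjoint_inner_right]
      rw [h1]
      exact ⟨inner_self_nonneg (𝕜 := ℂ), inner_self_im (𝕜 := ℂ) _⟩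
  have hmain := states_nonneg (∑ j, π' (a j) * y' j) (fun φ hφ =>
    Bm_extreme hS π a y hy hy₁ hpos π' (fun _ => rfl) y' (fun _ => rfl) φ hφ) ψ hψ
  rw [hψa] at hmain
  have h2 : ((∑ j, π' (a j) * y' j : D) : H →L[ℂ] H) = ∑ j, π (a j) * y j := by
    rw [AddSubmonoidClass.coe_finsetSum]
    rfl
  rw [h2, sum_apply, inner_sum] at hmain
  have h3 : ∀ j, ⟪ξ, (π (a j) * y j) ξ⟫_ℂ =
      (((‖ζ‖⁻¹) ^ 2 : ℝ) : ℂ) * ⟪ζ, π (a j) (y j ζ)⟫_ℂ := by
    intro j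
    rw [hξ, map_smul, inner_smul_left, inner_smul_right, mul_apply_eq_comp, ← mul_assoc,
      Complex.conj_ofReal, ← Complex.ofReal_mul, sq]
  simp only [h3] at hmain
  rw [← Finset.mul_sum, Complex.re_ofReal_mul] at hmain
  have h4 : 0 < (‖ζ‖⁻¹) ^ 2 := by positivity
  exact nonneg_of_mul_nonneg_right hmain h4

end Pool.Agent.MP_86f3ed.Nu
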