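import Mathlib

namespace Pool.Agent.MP_86f3ed.Nu

/-- Almost convex bounded sequences almost decrease.

PROOF. Let `m = ⌈4 / η⌉₊ + 1` and `δ = 1 / (4 m²)`. If `γ 1 > γ 0 + η` put `Δ k = γ (k+1) - γ k`.
Then `Δ (k+1) ≥ Δ k - 4 δ`, so `Δ k ≥ Δ 0 - 4 k δ > η - 4 k δ` and
`γ m - γ 0 = ∑_{k<m} Δ k ≥ m η - 4 δ m² ≥ 4 - 1 = 3 > 2 ≥ γ m - γ 0`, a contradiction. -/
theorem chain {η : ℝ} (hη : 0 < η) : ∃ δ : ℝ, 0 < δ ∧ ∀ γ : ℕ → ℝ, (∀ k, |γ k| ≤ 1) →
    (∀ k, γ (k + 1) ≤ (γ k + γ (k + 2)) / 2 + 2 * δ) → γ 1 ≤ γ 0 + η := by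
  set m : ℕ := ⌈4 / η⌉₊ + 1 with hm
  have hmpos : (0 : ℝ) < m := by rw [hm]; positivity
  have hmη : 4 ≤ (m : ℝ) * η := by
    have h1 : 4 / η ≤ (m : ℝ) := by
      refine (Nat.le_ceil (4 / η)).trans ?_
      rw [hm]; push_cast; linarith
    rwa [div_le_iff₀ hη] at h1
  refine ⟨1 / (4 * (m : ℝ) ^ 2), by positivity, ?_⟩
  intro γ hγ hc
  by_contra hcon
  push Not at hcon
  set δ : ℝ := 1 / (4 * (m : ℝ) ^ 2) with hδ
  have hδpos : 0 < δ := by positivity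
  have hδm : 4 * δ * (m : ℝ) ^ 2 = 1 := by rw [hδ]; field_simp
  have hΔ : ∀ k : ℕ, η - 4 * k * δ ≤ γ (k + 1) - γ k := by
    intro k
    induction k with
    | zero => simp; linarith
    | succ k ih =>
      have h1 := hc k
      push_cast
      have : γ (k + 1 + 1) = γ (k + 2) := rfl
      rw [this]
      linarith
  have hsum : ∀ k : ℕ, (k : ℝ) * η - 4 * δ * (k : ℝ) ^ 2 ≤ γ k - γ 0 := by
    intro k
    induction k with
    | zero => simp
    | succ k ih =>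
      have h1 := hΔ k
      push_cast
      have hk : (0 : ℝ) ≤ k := Nat.cast_nonneg k
      nlinarith [mul_nonneg hδpos.le hk]
  have h2 := hsum m
  have h3 := (abs_le.1 (hγ m)).2
  have h4 := (abs_le.1 (hγ 0)).1
  linarith

/-- Two interlaced sequences: `s n = γ (2 n + 1)`, `f n = γ (2 n + 2)`, `f₀ = γ 0`. -/
theorem chain' {η : ℝ} (hη : 0 < η) : ∃ δ : ℝ, 0 < δ ∧ ∀ (f₀ : ℝ) (s f : ℕ → ℝ), |f₀| ≤ 1 →
    (∀ k, |s k| ≤ 1) → (∀ k, |f k| ≤ 1) → s 0 ≤ (f₀ + f 0) / 2 + 2 * δ →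
    (∀ k, f k ≤ (s k + s (k + 1)) / 2 + 2 * δ) →
    (∀ k, s (k + 1) ≤ (f k + f (k + 1)) / 2 + 2 * δ) → s 0 ≤ f₀ + η := by
  obtain ⟨δ, hδ, h⟩ := chain hη
  refine ⟨δ, hδ, ?_⟩
  intro f₀ s f h0 hs hf h1 h2 h3
  let γ : ℕ → ℝ := fun n => if n = 0 then f₀ else if n % 2 = 1 then s (n / 2) else f (n / 2 - 1)
  have g0 : γ 0 = f₀ := by simp [γ]
  have godd : ∀ k, γ (2 * k + 1) = s k := by
    intro k
    have e1 : (2 * k + 1) % 2 = 1 := by omega
    have e2 : (2 * k + 1) / 2 = k := by omega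
    simp only [γ]
    rw [if_neg (by omega), if_pos e1, e2]
  have geven : ∀ k, γ (2 * k + 2) = f k := by
    intro k
    have e2 : (2 * k + 2) / 2 - 1 = k := by omega
    simp only [γ]
    rw [if_neg (by omega), if_neg (by omega), e2]
  have hb : ∀ k, |γ k| ≤ 1 := by
    intro k
    rcases Nat.even_or_odd' k with ⟨j, rfl | rfl⟩
    · rcases j with _ | j
      · rw [show 2 * 0 = 0 from rfl, g0]; exact h0
      · rw [show 2 * (j + 1) = 2 * j + 2 by ring, geven]; exact hf j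
    · rw [godd]; exact hs j
  have hcx : ∀ k, γ (k + 1) ≤ (γ k + γ (k + 2)) / 2 + 2 * δ := by
    intro k
    rcases Nat.even_or_odd' k with ⟨j, rfl | rfl⟩
    · rcases j with _ | j
      · have e1 : γ (2 * 0 + 1) = s 0 := godd 0
        have e2 : γ (2 * 0 + 2) = f 0 := geven 0
        rw [e1, e2, show 2 * 0 = 0 from rfl, g0]
        exact h1
      · have e1 : γ (2 * (j + 1) + 1) = s (j + 1) := godd (j + 1)
        have e2 : γ (2 * (j + 1) + 2) = f (j + 1) := geven (j + 1)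
        have e3 : γ (2 * (j + 1)) = f j := geven j
        rw [e1, e2, e3]
        exact h3 j
    · have e1 : γ (2 * j + 1 + 1) = f j := geven j
      have e2 : γ (2 * j + 1 + 2) = s (j + 1) := godd (j + 1)
      rw [e1, e2, godd]
      exact h2 j
  have := h γ hb hcx
  rwa [g0, show (1 : ℕ) = 2 * 0 + 1 from rfl, godd] at this

end Pool.Agent.MP_86f3ed.Nu
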