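import Pool.Agent.H.MP_86f3ed_an.Nu.Ref
import Pool.Agent.H.MP_86f3ed_an.Nu.SepA

open scoped Topology
open Filter

namespace Pool.Agent.MP_86f3ed.Nu

universe u

/-- One step of closing off. -/
theorem Clo_step {B : Type u} [CStarAlgebra B]
    (v : ∀ r : ℕ, ℕ → (Fin r → B) → Set (Fin r → B)) (E : ∀ r : ℕ, ℕ → (Fin r → B) → Set B)
    (hv : ∀ r n a, {g | a ∈ v r n g}.Finite) (hE : ∀ r n g, (E r n g).Finite)
    (c : {c : Set B // c.Countable}) :
    ∃ c' : {c : Set B // c.Countable}, c.1 ⊆ c'.1 ∧
      (StarAlgebra.adjoin ℂ c.1 : Set B) ⊆ closure c'.1 ∧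
      ∀ (r n : ℕ) (s : Fin r → B), (∀ i, s i ∈ c.1) → ∀ g, s ∈ v r n g → E r n g ⊆ c'.1 := by
  obtain ⟨D, hD, hcD⟩ := isSeparable_adjoin c.2.isSeparable
  refine ⟨⟨(c.1 ∪ D) ∪ ⋃ (r : ℕ), ⋃ (n : ℕ), ⋃ s ∈ {s : Fin r → B | ∀ i, s i ∈ c.1},
    ⋃ g ∈ {g | s ∈ v r n g}, E r n g, ?_⟩, ?_, ?_, ?_⟩
  · refine (c.2.union hD).union ?_
    refine Set.countable_iUnion fun r => Set.countable_iUnion fun n => ?_
    refine Set.Countable.biUnion (Set.countable_pi fun _ => c.2) fun s _ => ?_
    exact Set.Countable.biUnion (hv r n s).countable fun g _ => (hE r n g).countable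
  · exact fun x hx => Or.inl (Or.inl hx)
  · exact hcD.trans (closure_mono fun x hx => Or.inl (Or.inr hx))
  · intro r n s hs g hg x hx
    refine Or.inr ?_
    simp only [Set.mem_iUnion]
    exact ⟨r, n, s, hs, g, hg, hx⟩

/-- A countable set which is dense in the closed star algebra generated by it and closed under a
countable family of finite valued operations.

PROOF. For a countable set `c ⊆ B` let `D c` be a countable set which is contained in and dense in the (separable,
`isSeparable_adjoin`, `TopologicalSpace.IsSeparable.closure`) set `closure (StarAlgebra.adjoin ℂ c)`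
(`TopologicalSpace.IsSeparable` in a metric space: `exists_countable_dense_subset`-type lemma,
`TopologicalSpace.IsSeparable.exists_countable_dense_subset`), and
`N c = c ∪ D c ∪ ⋃ r, ⋃ n, ⋃ s ∈ {s : Fin r → B | ∀ i, s i ∈ c}, ⋃ g ∈ {g | s ∈ v r n g}, E r n g`, countable
(`Set.Countable.biUnion`; the set of `s : Fin r → B` with values in a countable set is countable:
`Set.countable_pi`; `{g | s ∈ v r n g}` and `E r n g` are finite). Let `C_0 = F`, `C_{k+1} = N C_k`,
`C = ⋃ C_k` (increasing). The star algebra generated by `C` is the union of those generated by the `C_k`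
(directed union), each of which is in the closure of `C_{k+1}`, so
`closure (adjoin C) ⊆ closure C`. A tuple with values in `C` has values in some `C_k`, so
the `E r n g` are in `C_{k+1}`. -/
theorem exists_closed_off {B : Type u} [CStarAlgebra B] (F : Set B) (hF : F.Countable)
    (v : ∀ r : ℕ, ℕ → (Fin r → B) → Set (Fin r → B)) (E : ∀ r : ℕ, ℕ → (Fin r → B) → Set B)
    (hv : ∀ r n a, {g | a ∈ v r n g}.Finite) (hE : ∀ r n g, (E r n g).Finite) :
    ∃ C : Set B, C.Countable ∧ F ⊆ C ∧ (StarAlgebra.adjoin ℂ C : Set B) ⊆ closure C ∧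
      ∀ (r n : ℕ) (s : Fin r → B), (∀ i, s i ∈ C) → ∀ g, s ∈ v r n g → E r n g ⊆ C := by
  classical
  choose f hf1 hf2 hf3 using Clo_step v E hv hE
  let G : ℕ → {c : Set B // c.Countable} := fun k => Nat.rec ⟨F, hF⟩ (fun _ c => f c) k
  have hG : ∀ k, G (k + 1) = f (G k) := fun k => rfl
  have hmono : Monotone fun k => (G k).1 := by
    refine monotone_nat_of_le_succ fun k => ?_
    rw [hG]
    exact hf1 (G k)
  refine ⟨⋃ k, (G k).1, Set.countable_iUnion fun k => (G k).2, ?_, ?_, ?_⟩
  · exact Set.subset_iUnion (fun k => (G k).1) 0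
  · intro x hx
    have h1 : ∃ k, x ∈ StarAlgebra.adjoin ℂ (G k).1 := by
      induction hx using StarAlgebra.adjoin_induction with
      | mem y hy =>
        obtain ⟨k, hk⟩ := Set.mem_iUnion.mp hy
        exact ⟨k, StarAlgebra.subset_adjoin ℂ _ hk⟩
      | algebraMap r => exact ⟨0, (StarAlgebra.adjoin ℂ (G 0).1).algebraMap_mem r⟩
      | add y z _ _ hy hz =>
        obtain ⟨k, hk⟩ := hy
        obtain ⟨l, hl⟩ := hz
        refine ⟨max k l, add_mem ?_ ?_⟩
        · exact StarAlgebra.adjoin_mono (hmono (le_max_left k l)) hk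
        · exact StarAlgebra.adjoin_mono (hmono (le_max_right k l)) hl
      | mul y z _ _ hy hz =>
        obtain ⟨k, hk⟩ := hy
        obtain ⟨l, hl⟩ := hz
        refine ⟨max k l, mul_mem ?_ ?_⟩
        · exact StarAlgebra.adjoin_mono (hmono (le_max_left k l)) hk
        · exact StarAlgebra.adjoin_mono (hmono (le_max_right k l)) hl
      | star y _ hy =>
        obtain ⟨k, hk⟩ := hy
        exact ⟨k, star_mem hk⟩
    obtain ⟨k, hk⟩ := h1
    have h2 := hf2 (G k) hk
    rw [← hG] at h2
    exact closure_mono (Set.subset_iUnion (fun k => (G k).1) (k + 1)) h2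
  · intro r n s hs g hg
    have h1 : ∀ i, ∃ k, s i ∈ (G k).1 := fun i => Set.mem_iUnion.mp (hs i)
    choose k hk using h1
    have h2 : ∀ i, s i ∈ (G (Finset.univ.sup k)).1 := fun i =>
      hmono (Finset.le_sup (Finset.mem_univ i)) (hk i)
    have h3 := hf3 (G (Finset.univ.sup k)) r n s h2 g hg
    rw [← hG] at h3
    exact h3.trans (Set.subset_iUnion (fun k => (G k).1) (Finset.univ.sup k + 1))

/-- Tensors in a star subalgebra can be compared in the large algebra. -/
theorem Clo_sameT {B : Type u} [CStarAlgebra B] (S : StarSubalgebra ℂ B)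
    [hSc : IsClosed (S : Set B)] {I J : Type} [Fintype I] [Fintype J] (x y : I → S) (p q : J → S)
    (h : SameT (fun i => (x i : B)) (fun i => (y i : B)) (fun j => (p j : B))
      (fun j => (q j : B))) : SameT x y p q := by
  intro β
  let W : Submodule ℂ B := Subalgebra.toSubmodule S.toSubalgebra
  let ι : W →ₗ[ℂ] S :=
    { toFun := fun w => ⟨w.1, w.2⟩
      map_add' := fun _ _ => rfl
      map_smul' := fun _ _ => rfl }
  have h1 : SameT (B := W) (fun i => (⟨x i, (x i).2⟩ : W)) (fun i => (⟨y i, (y i).2⟩ : W))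
      (fun j => (⟨p j, (p j).2⟩ : W)) (fun j => (⟨q j, (q j).2⟩ : W)) := SameT.of_coe h
  exact h1 (β.compl₁₂ ι ι)

/-- Every finite set is contained in a separable closed star subalgebra with near diagonals.

PROOF. `v r n`, `E r n` from `exists_refinement` for `r` and `ε = 1/(n+1)`; `C` from `exists_closed_off`;
`S = (StarAlgebra.adjoin ℂ C).topologicalClosure`, closed, separable
(`separable_topologicalClosure`), `(S : Set B) = closure C`. `NDP S`: let `a : Fin r → S` enumerate
the finite set and `1/(n+1) ≤ ε`. As a tuple of `B` it is in some `v r n g` (open), and since its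
entries are in `closure C` there is a tuple `s` with entries in `C` in the same `v r n g`
(`Fin r → B` has the product topology: `closure_pi_set`, or directly with the sup norm). So `E r n g ⊆ C ⊆ S`, and `Good (v r n g)` gives
`x, y` in `S` and for each `i` families `p, q` in `S` (take the submodule of `S`). The identity in `B`
transfers to `S` by `SameT.of_coe` (`W` = `S` as a submodule), norms are the same. -/
theorem exists_separable_ndp {B : Type u} [CStarAlgebra B] (h : NDP B) (F : Set B)
    (hF : F.Countable) :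
    ∃ (S : StarSubalgebra ℂ B) (_ : IsClosed (S : Set B)), TopologicalSpace.SeparableSpace S ∧
      F ⊆ (S : Set B) ∧ NDP S := by
  classical
  have href : ∀ r n : ℕ, ∃ (v : (Fin r → B) → Set (Fin r → B)) (E : (Fin r → B) → Set B),
      (∀ g, IsOpen (v g)) ∧ (∀ a, ∃ g, a ∈ v g) ∧ (∀ a, {g | a ∈ v g}.Finite) ∧
      (∀ g, (E g).Finite) ∧ ∀ g, Good (v g) (1 / ((n : ℝ) + 1)) (E g) :=
    fun r n => exists_refinement h r Nat.one_div_pos_of_nat
  choose v E hopen hcov hfin hEfin hgood using href
  obtain ⟨C, hC, hFC, hadj, hCE⟩ := exists_closed_off F hF v E hfin hEfin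
  set S : StarSubalgebra ℂ B := (StarAlgebra.adjoin ℂ C).topologicalClosure with hS
  have hSc : IsClosed (S : Set B) := StarSubalgebra.isClosed_topologicalClosure _
  have hCS : C ⊆ (S : Set B) := fun x hx =>
    StarSubalgebra.le_topologicalClosure _ (StarAlgebra.subset_adjoin ℂ C hx)
  have hSC : (S : Set B) ⊆ closure C := by
    rw [hS, StarSubalgebra.topologicalClosure_coe]
    exact closure_minimal hadj isClosed_closure
  refine ⟨S, hSc, separable_topologicalClosure hC.isSeparable, hFC.trans hCS, ?_⟩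
  intro F' ε hε
  obtain ⟨n, hn⟩ := exists_nat_one_div_lt hε
  let a : Fin F'.card → S := fun i => (F'.equivFin.symm i : S)
  obtain ⟨g, hg⟩ := hcov F'.card n (fun i => (a i : B))
  have hcl : (fun i => (a i : B)) ∈ closure (Set.pi Set.univ fun _ : Fin F'.card => C) := by
    rw [closure_pi_set]
    exact fun i _ => hSC (a i).2
  obtain ⟨s, hs1, hs2⟩ := mem_closure_iff.mp hcl _ (hopen F'.card n g) hg
  have hES : E F'.card n g ⊆ (S : Set B) :=
    (hCE F'.card n s (fun i => hs2 i (Set.mem_univ i)) g hs1).trans hCS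
  obtain ⟨m, x, y, hxy, hsum, hnear⟩ := hgood F'.card n g
  refine ⟨m, fun k => ⟨x k, hES (hxy k).1⟩, fun k => ⟨y k, hES (hxy k).2⟩, ?_, ?_⟩
  · apply Subtype.ext
    exact (map_sum S.subtype _ _).trans hsum
  · intro a₀ ha₀
    obtain ⟨i, hi⟩ : ∃ i, a i = a₀ := ⟨F'.equivFin ⟨a₀, ha₀⟩, by simp [a]⟩
    obtain ⟨l, p, q, hpq, hpqS, hT⟩ := hnear _ hg i
    let W : Submodule ℂ B := Subalgebra.toSubmodule S.toSubalgebra
    obtain ⟨hp, hq⟩ := hpqS W hES (fun u hu v hv => S.mul_mem hu hv) (fun i => (a i).2)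
    refine ⟨l, fun j => ⟨p j, hp j⟩, fun j => ⟨q j, hq j⟩, ?_, ?_⟩
    · exact hpq.trans hn.le
    · rw [← hi]
      exact Clo_sameT S _ _ _ _ (by
        convert hT using 1
        · funext k
          rcases k with k | k <;> rfl
        · funext k
          rcases k with k | k <;> rfl)

end Pool.Agent.MP_86f3ed.Nu
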