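import Mathlib

open scoped InnerProductSpace Topology
open Filter ContinuousLinearMap

namespace Pool.Agent.MP_86f3ed.Nu


universe u

/-- Data of a completely positive finite rank map `Θ a = ∑ ⟪h_p, ρ a h_q⟫ b_p* b_q` of `S`. -/
structure CPD (S : Type u) [CStarAlgebra S] where
  n : ℕ
  H : Type u
  i₁ : NormedAddCommGroup H
  i₂ : InnerProductSpace ℂ H
  i₃ : CompleteSpace H
  ρ : S →⋆ₙₐ[ℂ] (H →L[ℂ] H)
  one : ρ 1 = 1
  h : Fin n → H
  b : Fin n → S

attribute [instance] CPD.i₁ CPD.i₂ CPD.i₃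

/-- The map of the data. -/
noncomputable def CPD.map {S : Type u} [CStarAlgebra S] (d : CPD S) (a : S) : S :=
  ∑ p, ∑ q, (⟪d.h p, d.ρ a (d.h q)⟫_ℂ) • (star (d.b p) * d.b q)

/-- The diagonal operator on the Hilbert sum. -/
noncomputable def CpD {H H' : Type*} [NormedAddCommGroup H] [InnerProductSpace ℂ H]
    [NormedAddCommGroup H'] [InnerProductSpace ℂ H'] (A : H →L[ℂ] H) (B : H' →L[ℂ] H') :
    WithLp 2 (H × H') →L[ℂ] WithLp 2 (H × H') :=
  ((WithLp.prodContinuousLinearEquiv 2 ℂ H H').symm : (H × H') →L[ℂ] WithLp 2 (H × H')) ∘L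
    (A.prodMap B) ∘L
    ((WithLp.prodContinuousLinearEquiv 2 ℂ H H') : WithLp 2 (H × H') →L[ℂ] (H × H'))

theorem CpD_apply {H H' : Type*} [NormedAddCommGroup H] [InnerProductSpace ℂ H]
    [NormedAddCommGroup H'] [InnerProductSpace ℂ H'] (A : H →L[ℂ] H) (B : H' →L[ℂ] H')
    (x : WithLp 2 (H × H')) : CpD A B x = WithLp.toLp 2 (A x.fst, B x.snd) := rfl

theorem CpD_add {H H' : Type*} [NormedAddCommGroup H] [InnerProductSpace ℂ H]
    [NormedAddCommGroup H'] [InnerProductSpace ℂ H'] (A A' : H →L[ℂ] H) (B B' : H' →L[ℂ] H') :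
    CpD (A + A') (B + B') = CpD A B + CpD A' B' := rfl

theorem CpD_smul {H H' : Type*} [NormedAddCommGroup H] [InnerProductSpace ℂ H]
    [NormedAddCommGroup H'] [InnerProductSpace ℂ H'] (c : ℂ) (A : H →L[ℂ] H)
    (B : H' →L[ℂ] H') : CpD (c • A) (c • B) = c • CpD A B := rfl

theorem CpD_mul {H H' : Type*} [NormedAddCommGroup H] [InnerProductSpace ℂ H]
    [NormedAddCommGroup H'] [InnerProductSpace ℂ H'] (A A' : H →L[ℂ] H) (B B' : H' →L[ℂ] H') :
    CpD (A * A') (B * B') = CpD A B * CpD A' B' := rfl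

theorem CpD_zero {H H' : Type*} [NormedAddCommGroup H] [InnerProductSpace ℂ H]
    [NormedAddCommGroup H'] [InnerProductSpace ℂ H'] :
    CpD (0 : H →L[ℂ] H) (0 : H' →L[ℂ] H') = 0 := rfl

theorem CpD_one {H H' : Type*} [NormedAddCommGroup H] [InnerProductSpace ℂ H]
    [NormedAddCommGroup H'] [InnerProductSpace ℂ H'] :
    CpD (1 : H →L[ℂ] H) (1 : H' →L[ℂ] H') = 1 := rfl

theorem CpD_star {H H' : Type*} [NormedAddCommGroup H] [InnerProductSpace ℂ H] [CompleteSpace H]
    [NormedAddCommGroup H'] [InnerProductSpace ℂ H'] [CompleteSpace H'] (A : H →L[ℂ] H)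
    (B : H' →L[ℂ] H') : CpD (star A) (star B) = star (CpD A B) := by
  rw [ContinuousLinearMap.star_eq_adjoint A, ContinuousLinearMap.star_eq_adjoint B,
    ContinuousLinearMap.star_eq_adjoint (CpD A B), ContinuousLinearMap.eq_adjoint_iff]
  intro x y
  rw [CpD_apply, CpD_apply, WithLp.prod_inner_apply, WithLp.prod_inner_apply]

  rw [ContinuousLinearMap.adjoint_inner_left, ContinuousLinearMap.adjoint_inner_left]
  rfl

/-- The diagonal representation. -/
noncomputable def CpR {S : Type*} [CStarAlgebra S] {H H' : Type*} [NormedAddCommGroup H]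
    [InnerProductSpace ℂ H] [CompleteSpace H] [NormedAddCommGroup H'] [InnerProductSpace ℂ H']
    [CompleteSpace H'] (π : S →⋆ₙₐ[ℂ] (H →L[ℂ] H)) (π' : S →⋆ₙₐ[ℂ] (H' →L[ℂ] H')) :
    S →⋆ₙₐ[ℂ] (WithLp 2 (H × H') →L[ℂ] WithLp 2 (H × H')) where
  toFun a := CpD (π a) (π' a)
  map_smul' c a := by
    show CpD (π (c • a)) (π' (c • a)) = c • CpD (π a) (π' a)
    rw [map_smul, map_smul, CpD_smul]
  map_zero' := by rw [map_zero, map_zero, CpD_zero]
  map_add' a b := by rw [map_add, map_add, CpD_add]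
  map_mul' a b := by rw [map_mul, map_mul, CpD_mul]
  map_star' a := by rw [map_star, map_star, CpD_star]

theorem CpR_apply {S : Type*} [CStarAlgebra S] {H H' : Type*} [NormedAddCommGroup H]
    [InnerProductSpace ℂ H] [CompleteSpace H] [NormedAddCommGroup H'] [InnerProductSpace ℂ H']
    [CompleteSpace H'] (π : S →⋆ₙₐ[ℂ] (H →L[ℂ] H)) (π' : S →⋆ₙₐ[ℂ] (H' →L[ℂ] H')) (a : S) :
    CpR π π' a = CpD (π a) (π' a) := rfl

/-- Sums of such maps are such maps.

PROOF. On the Hilbert sum `H ⊕ H'` (`WithLp 2 (H × H')`) with the diagonal representation, and the family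
`(h_p, 0)`, `(0, h'_p)` with `b_p`, `b'_p` (indexed by `Fin (n + n')`, `Fin.append`); the mixed
terms vanish. -/
theorem CPD.exists_add {S : Type u} [CStarAlgebra S] (d d' : CPD S) :
    ∃ e : CPD S, ∀ a, e.map a = d.map a + d'.map a := by
  let e : CPD S :=
    { n := d.n + d'.n
      H := WithLp 2 (d.H × d'.H)
      i₁ := inferInstance
      i₂ := inferInstance
      i₃ := inferInstance
      ρ := CpR d.ρ d'.ρ
      one := by rw [CpR_apply, d.one, d'.one, CpD_one]
      h := Fin.append (fun p => WithLp.toLp 2 (d.h p, 0)) (fun p => WithLp.toLp 2 (0, d'.h p))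
      b := Fin.append d.b d'.b }
  refine ⟨e, fun a => ?_⟩
  show (∑ p : Fin (d.n + d'.n), ∑ q : Fin (d.n + d'.n),
    (⟪Fin.append (fun p => (WithLp.toLp 2 (d.h p, 0) : WithLp 2 (d.H × d'.H)))
        (fun p => WithLp.toLp 2 (0, d'.h p)) p,
      CpD (d.ρ a) (d'.ρ a) (Fin.append (fun p => (WithLp.toLp 2 (d.h p, 0) : WithLp 2 (d.H × d'.H)))
        (fun p => WithLp.toLp 2 (0, d'.h p)) q)⟫_ℂ) •
      (star (Fin.append d.b d'.b p) * Fin.append d.b d'.b q)) = _
  simp only [Fin.sum_univ_add, Fin.append_left, Fin.append_right, CpD_apply,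
    WithLp.prod_inner_apply, WithLp.toLp_fst, WithLp.toLp_snd, map_zero, inner_zero_left,
    inner_zero_right, add_zero, zero_add, zero_smul, Finset.sum_const_zero]
  rfl

/-- PROOF. Replace `b` by `√t • b`. -/
theorem CPD.exists_smul {S : Type u} [CStarAlgebra S] (d : CPD S) {t : ℝ} (ht : 0 ≤ t) :
    ∃ e : CPD S, ∀ a, e.map a = (t : ℂ) • d.map a := by
  let e : CPD S :=
    { n := d.n
      H := d.H
      i₁ := inferInstance
      i₂ := inferInstance
      i₃ := inferInstance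
      ρ := d.ρ
      one := d.one
      h := d.h
      b := fun p => ((Real.sqrt t : ℝ) : ℂ) • d.b p }
  refine ⟨e, fun a => ?_⟩
  show (∑ p : Fin d.n, ∑ q : Fin d.n, (⟪d.h p, d.ρ a (d.h q)⟫_ℂ) •
    (star (((Real.sqrt t : ℝ) : ℂ) • d.b p) * (((Real.sqrt t : ℝ) : ℂ) • d.b q))) = _
  unfold CPD.map
  rw [Finset.smul_sum]
  refine Finset.sum_congr rfl fun p _ => ?_
  rw [Finset.smul_sum]
  refine Finset.sum_congr rfl fun q _ => ?_
  have h1 : star (((Real.sqrt t : ℝ) : ℂ) • d.b p) * (((Real.sqrt t : ℝ) : ℂ) • d.b q) =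
      (t : ℂ) • (star (d.b p) * d.b q) := by
    rw [star_smul, smul_mul_assoc, mul_smul_comm, smul_smul]
    congr 1
    have h2 : star ((Real.sqrt t : ℝ) : ℂ) = ((Real.sqrt t : ℝ) : ℂ) := by
      rw [Complex.star_def, Complex.conj_ofReal]
    rw [h2, ← Complex.ofReal_mul, Real.mul_self_sqrt ht]
  rw [h1, smul_comm]

/-- PROOF. `star (⟪h_p, ρ a h_q⟫ • (b_p* b_q)) = ⟪h_q, ρ (star a) h_p⟫ • (b_q* b_p)`; exchange the sums. -/
theorem CPD.map_star {S : Type u} [CStarAlgebra S] (d : CPD S) (a : S) :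
    d.map (star a) = star (d.map a) := by
  unfold CPD.map
  rw [star_sum, Finset.sum_comm]
  refine Finset.sum_congr rfl fun p _ => ?_
  rw [star_sum]
  refine Finset.sum_congr rfl fun q _ => ?_
  rw [star_smul, star_mul, star_star]
  congr 1
  rw [StarHomClass.map_star, ContinuousLinearMap.star_eq_adjoint,
    ContinuousLinearMap.adjoint_inner_right, Complex.star_def, inner_conj_symm]

end Pool.Agent.MP_86f3ed.Nu
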