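import Pool.Agent.H.MP_86f3ed_an.Nu.Gns

open scoped InnerProductSpace Topology
open Filter ContinuousLinearMap

namespace Pool.Agent.MP_86f3ed.Nu

universe u

/-- The open set of families whose real parts are `≤ δ` for some `δ < ε`. -/
def HBcU (S : Type u) [CStarAlgebra S] [PartialOrder S] (m : ℕ) (ε : ℝ) : Set (Fin m → S) :=
  {x | ∃ δ < ε, ∀ i, x i + star (x i) ≤ (2 * δ) • (1 : S)}

theorem HBc_smul_one_mono {S : Type u} [CStarAlgebra S] [PartialOrder S] [StarOrderedRing S]
    {a b : ℝ} (h : a ≤ b) : a • (1 : S) ≤ b • (1 : S) :=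
  smul_le_smul_of_nonneg_right h zero_le_one

theorem HBcU_convex (S : Type u) [CStarAlgebra S] [PartialOrder S] [StarOrderedRing S] (m : ℕ)
    (ε : ℝ) : Convex ℝ (HBcU S m ε) := by
  rintro x ⟨δ, hδ, hx⟩ y ⟨δ', hδ', hy⟩ a b ha hb hab
  refine ⟨max δ δ', max_lt hδ hδ', fun i => ?_⟩
  have e1 : (a • x + b • y) i + star ((a • x + b • y) i) =
      a • (x i + star (x i)) + b • (y i + star (y i)) := by
    simp only [Pi.add_apply, Pi.smul_apply, star_add, star_smul, star_trivial, smul_add]
    abel
  rw [e1]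
  have h1 : x i + star (x i) ≤ (2 * max δ δ') • (1 : S) :=
    (hx i).trans (HBc_smul_one_mono (by have := le_max_left δ δ'; linarith))
  have h2 : y i + star (y i) ≤ (2 * max δ δ') • (1 : S) :=
    (hy i).trans (HBc_smul_one_mono (by have := le_max_right δ δ'; linarith))
  calc a • (x i + star (x i)) + b • (y i + star (y i))
      ≤ a • ((2 * max δ δ') • (1 : S)) + b • ((2 * max δ δ') • (1 : S)) :=
        add_le_add (smul_le_smul_of_nonneg_left h1 ha) (smul_le_smul_of_nonneg_left h2 hb)
    _ = (2 * max δ δ') • (1 : S) := by rw [← add_smul, hab, one_smul]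

theorem HBcU_open (S : Type u) [CStarAlgebra S] [PartialOrder S] [StarOrderedRing S] (m : ℕ)
    (ε : ℝ) : IsOpen (HBcU S m ε) := by
  rw [Metric.isOpen_iff]
  rintro x ⟨δ, hδ, hx⟩
  refine ⟨(ε - δ) / 2, by linarith, fun y hy => ⟨δ + (ε - δ) / 2, by linarith, fun i => ?_⟩⟩
  rw [Metric.mem_ball, dist_eq_norm] at hy
  have h1 : ‖y i - x i‖ ≤ (ε - δ) / 2 := by
    have := norm_le_pi_norm (y - x) i
    rw [Pi.sub_apply] at this
    linarith
  set d := y i - x i with hd
  have hsa : IsSelfAdjoint (d + star d) := by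
    rw [isSelfAdjoint_iff, star_add, star_star, add_comm]
  have h2 : d + star d ≤ algebraMap ℝ S ‖d + star d‖ := hsa.le_algebraMap_norm_self
  rw [Algebra.algebraMap_eq_smul_one] at h2
  have h3 : ‖d + star d‖ ≤ 2 * ((ε - δ) / 2) := by
    calc ‖d + star d‖ ≤ ‖d‖ + ‖star d‖ := norm_add_le _ _
      _ = ‖d‖ + ‖d‖ := by rw [norm_star]
      _ ≤ 2 * ((ε - δ) / 2) := by linarith
  have e1 : y i + star (y i) = (x i + star (x i)) + (d + star d) := by
    rw [hd, star_sub]; abel
  rw [e1]
  calc (x i + star (x i)) + (d + star d)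
      ≤ (2 * δ) • (1 : S) + (2 * ((ε - δ) / 2)) • (1 : S) :=
        add_le_add (hx i) (h2.trans (HBc_smul_one_mono h3))
    _ = (2 * (δ + (ε - δ) / 2)) • (1 : S) := by rw [← add_smul]; ring_nf

/-- Separation of a convex set of families of selfadjoint elements from the families `≤ ε`, by positive
functionals. -/
theorem exists_pos_sep {S : Type u} [CStarAlgebra S] {m : ℕ} (C : Set (Fin m → S))
    (hne : C.Nonempty) (hconv : ∀ x ∈ C, ∀ y ∈ C, ∀ t : ℝ, 0 ≤ t → t ≤ 1 →
      (fun i => (t : ℂ) • x i + ((1 - t : ℝ) : ℂ) • y i) ∈ C)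
    (hsa : ∀ x ∈ C, ∀ i, star (x i) = x i) {ε : ℝ} (hε : 0 < ε)
    (hno : ¬ ∃ x ∈ C, ∀ i, ∃ w : S, (ε : ℂ) • (1 : S) - x i = star w * w) :
    ∃ g : Fin m → (S →ₗ[ℂ] ℂ), (∀ i, PosF (g i)) ∧ 0 < ∑ i, (g i 1).re ∧
      ∀ x ∈ C, ε * ∑ i, (g i 1).re ≤ ∑ i, (g i (x i)).re := by
  classical
  letI : PartialOrder S := CStarAlgebra.spectralOrder S
  letI : StarOrderedRing S := CStarAlgebra.spectralOrderedRing S
  have hCc : Convex ℝ C := by
    intro x hx y hy a b ha hb hab
    have h := hconv x hx y hy a ha (by linarith)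
    have e : (fun i => (a : ℂ) • x i + ((1 - a : ℝ) : ℂ) • y i) = a • x + b • y := by
      funext i
      have hb' : b = 1 - a := by linarith
      rw [hb', Pi.add_apply, Pi.smul_apply, Pi.smul_apply, Complex.coe_smul, Complex.coe_smul]
    rw [e] at h
    exact h
  have hdisj : Disjoint (HBcU S m ε) C := by
    rw [Set.disjoint_left]
    rintro x ⟨δ, hδ, hx⟩ hxC
    refine hno ⟨x, hxC, fun i => ?_⟩
    rw [← CStarAlgebra.nonneg_iff_eq_star_mul_self, Complex.coe_smul, sub_nonneg]
    have h1 := hx i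
    rw [hsa x hxC i, ← two_smul ℝ (x i), mul_smul] at h1
    have h2 : x i ≤ δ • (1 : S) := by
      have h3 := smul_le_smul_of_nonneg_left h1 (show (0 : ℝ) ≤ 1 / 2 by norm_num)
      rw [smul_smul, smul_smul] at h3
      norm_num at h3
      exact h3
    exact h2.trans (HBc_smul_one_mono hδ.le)
  obtain ⟨f, s, hf1, hf2⟩ := geometric_hahn_banach_open (HBcU_convex S m ε) (HBcU_open S m ε) hCc
    hdisj
  set fi : Fin m → (S →ₗ[ℝ] ℝ) := fun i =>
    (f : (Fin m → S) →ₗ[ℝ] ℝ).comp (LinearMap.single ℝ (fun _ : Fin m => S) i) with hfi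
  have hfi1 : ∀ i w, fi i w = f (Pi.single i w) := fun i w => rfl
  have hfs : ∀ x : Fin m → S, f x = ∑ i, fi i (x i) := by
    intro x
    simp only [hfi1]
    rw [← map_sum, Finset.univ_sum_single]
  have h0s : 0 < s := by
    have h := hf1 0 ⟨0, hε, fun i => by simp⟩
    simpa using h
  -- membership of single families
  have hmem : ∀ (i : Fin m) (w : S), w + star w ≤ 0 → Pi.single i w ∈ HBcU S m ε := by
    intro i w hw
    refine ⟨0, hε, fun j => ?_⟩
    rcases eq_or_ne j i with rfl | hj
    · simpa using hw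
    · simp [hj]
  have hpos : ∀ i (w : S), 0 ≤ fi i (star w * w) := by
    intro i w
    by_contra hlt
    push Not at hlt
    have h1 : ∀ t : ℝ, 0 ≤ t → -(t * fi i (star w * w)) < s := by
      intro t ht
      have h2 := hf1 _ (hmem i (-(t • (star w * w))) (by
        have h3 : -(t • (star w * w)) + star (-(t • (star w * w))) =
            -((2 * t) • (star w * w)) := by
          rw [star_neg, star_smul, star_mul, star_star, star_trivial t, mul_smul, two_smul]
          abel
        rw [h3, neg_nonpos]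
        exact smul_nonneg (by linarith) (star_mul_self_nonneg w)))
      rw [← hfi1, map_neg, map_smul, smul_eq_mul] at h2
      exact h2
    have h4 := h1 (s / -(fi i (star w * w))) (div_nonneg h0s.le (by linarith))
    have h5 : -(s / -(fi i (star w * w)) * fi i (star w * w)) = s := by
      have : fi i (star w * w) ≠ 0 := hlt.ne
      field_simp
    linarith
  have hI : ∀ i (h : S), star h = h → fi i (Complex.I • h) = 0 := by
    intro i h hh
    have h1 : ∀ t : ℝ, t * fi i (Complex.I • h) < s := by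
      intro t
      have h2 := hf1 _ (hmem i (t • (Complex.I • h)) (by
        rw [star_smul, star_smul, hh, star_trivial]
        have : star Complex.I = - Complex.I := Complex.conj_I
        rw [this, neg_smul, smul_neg, add_neg_cancel]))
      rw [← hfi1, map_smul, smul_eq_mul] at h2
      exact h2
    by_contra hne0
    have h4 := h1 (s / fi i (Complex.I • h))
    rw [div_mul_cancel₀ _ hne0] at h4
    exact lt_irrefl _ h4
  -- the complex functionals
  set g : Fin m → (S →ₗ[ℂ] ℂ) := fun i => Module.Dual.extendRCLike (𝕜 := ℂ) (fi i) with hg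
  have hre : ∀ i x, (g i x).re = fi i x := by
    intro i x
    exact Module.Dual.re_extendRCLike_apply (𝕜 := ℂ) (fi i) x
  have him : ∀ i x, (g i x).im = - fi i (Complex.I • x) := by
    intro i x
    exact Module.Dual.im_extendRCLike_apply (𝕜 := ℂ) (fi i) x
  have hgP : ∀ i, PosF (g i) := by
    intro i x
    refine ⟨?_, ?_⟩
    · rw [hre]; exact hpos i x
    · rw [him, hI i _ (by rw [star_mul, star_star]), neg_zero]
  have hA0 : ∀ i, 0 ≤ (g i 1).re := by
    intro i
    have := (hgP i 1).1
    simpa using this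
  have hsum : ∀ x : Fin m → S, f x = ∑ i, (g i (x i)).re := by
    intro x
    rw [hfs]
    exact Finset.sum_congr rfl fun i _ => (hre i _).symm
  set A := ∑ i, (g i 1).re with hA
  have hApos : 0 < A := by
    by_contra hle
    push Not at hle
    obtain ⟨c, hc⟩ := hne
    have hz : ∀ i, (g i 1).re = 0 := by
      intro i
      have h1 : (g i 1).re ≤ A := Finset.single_le_sum (f := fun i => (g i 1).re)
        (fun j _ => hA0 j) (Finset.mem_univ i)
      exact le_antisymm (h1.trans hle) (hA0 i)
    have h2 : f c ≤ 0 := by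
      rw [hsum]
      apply Finset.sum_nonpos
      intro i _
      have h3 := (hgP i).norm_le (c i)
      rw [hz i, zero_mul] at h3
      exact (Complex.re_le_norm _).trans h3
    have h4 := hf2 c hc
    linarith
  refine ⟨g, hgP, hApos, fun x hx => ?_⟩
  rw [← hsum x]
  refine le_trans ?_ (hf2 x hx)
  by_contra hlt
  push Not at hlt
  have h1 : s / A < ε := by rwa [div_lt_iff₀ hApos]
  have h2 := hf1 (fun _ => (s / A) • (1 : S)) ⟨s / A, h1, fun i => by
    rw [star_smul, star_one, star_trivial, mul_smul, two_smul]⟩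
  rw [hfs] at h2
  have h3 : ∑ i, fi i ((s / A) • (1 : S)) = s := by
    simp only [map_smul, smul_eq_mul]
    rw [← Finset.mul_sum]
    have h4 : ∑ i, fi i 1 = A := by
      rw [hA]
      exact Finset.sum_congr rfl fun i _ => (hre i _).symm
    rw [h4]
    field_simp
  rw [h3] at h2
  exact lt_irrefl _ h2

end Pool.Agent.MP_86f3ed.Nu
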