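import Pool.Agent.H.MP_86f3ed_an.Nu.Cp
import Pool.Agent.H.MP_86f3ed_an.Nu.HBc
import Pool.Agent.H.MP_86f3ed_an.Am.Defs
import Pool.Agent.H.MP_86f3ed_an.Nu.Bm

open scoped InnerProductSpace Topology
open Filter ContinuousLinearMap

namespace Pool.Agent.MP_86f3ed.Nu

open Pin Sf Fac Ty Am

universe u

/-- Two-sided order bounds give norm bounds. -/
theorem Cq_norm_le {S : Type u} [CStarAlgebra S] {x : S} (hx : star x = x) {ε : ℝ} (hε : 0 ≤ ε)
    (h1 : ∃ w : S, (ε : ℂ) • (1 : S) - x = star w * w)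
    (h2 : ∃ w : S, (ε : ℂ) • (1 : S) + x = star w * w) : ‖x‖ ≤ ε := by
  let := CStarAlgebra.spectralOrder S
  let := CStarAlgebra.spectralOrderedRing S
  have hsa : IsSelfAdjoint x := hx
  have hal : algebraMap ℝ S ε = (ε : ℂ) • (1 : S) := by
    rw [Algebra.algebraMap_eq_smul_one]
    exact (Complex.coe_smul ε (1 : S)).symm
  obtain ⟨w, hw⟩ := h1
  obtain ⟨w', hw'⟩ := h2
  have hle : x ≤ algebraMap ℝ S ε := by
    rw [hal, ← sub_nonneg, hw]
    exact star_mul_self_nonneg w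
  have hge : algebraMap ℝ S (-ε) ≤ x := by
    rw [map_neg, hal, ← sub_nonneg, sub_neg_eq_add, add_comm, hw']
    exact star_mul_self_nonneg w'
  rw [← cfc_id ℝ x hsa]
  refine norm_cfc_le hε fun t ht => ?_
  rw [id, Real.norm_eq_abs, abs_le]
  exact ⟨(algebraMap_le_iff_le_spectrum hsa).1 hge t ht,
    (le_algebraMap_iff_spectrum_le hsa).1 hle t ht⟩

/-- The trivial data. -/
theorem Cq_exists_zero (S : Type u) [CStarAlgebra S] : ∃ e : CPD S, ∀ a, e.map a = 0 := by
  obtain ⟨H, i₁, i₂, i₃, π, ζ, _, _⟩ := exists_gns (0 : S →ₗ[ℂ] ℂ) (fun x => by simp)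
  exact ⟨⟨0, H, i₁, i₂, i₃, π.toNonUnitalStarAlgHom, map_one π, Fin.elim0, Fin.elim0⟩,
    fun a => by simp [CPD.map]⟩

theorem Cq_map_add {S : Type u} [CStarAlgebra S] (d : CPD S) (a b : S) :
    d.map (a + b) = d.map a + d.map b := by
  simp only [CPD.map, map_add, add_apply, inner_add_right, add_smul, Finset.sum_add_distrib]

theorem Cq_map_smul {S : Type u} [CStarAlgebra S] (d : CPD S) (c : ℂ) (a : S) :
    d.map (c • a) = c • d.map a := by
  simp only [CPD.map, map_smul, smul_apply, inner_smul_right, mul_smul, Finset.smul_sum]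


/-- The identity is a point norm limit of the maps of `CPD S`, on selfadjoint elements.

PROOF. Suppose not. Let `C ⊂ Fin (m + m) → S` be the set of the families
`(Θ (a i) - a i)_{i < m}, (a i - Θ (a i))_{i < m}` (use `Fin.append`), `Θ = d.map`, `d : CPD S`; it is convex
(`CPD.exists_add`, `CPD.exists_smul`), selfadjoint (`CPD.map_star`), nonempty (`n = 0`). If
some `Θ` satisfied `± (Θ (a i) - a i) ≤ ε` for all `i` then `‖Θ (a i) - a i‖ ≤ ε` (for selfadjoint `x`,
`ε • 1 - x = star w * w` and `ε • 1 + x = star w' * w'` imply `‖x‖ ≤ ε`: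
`IsSelfAdjoint`, `CStarAlgebra.norm_le_..` or `CStarAlgebra.nonneg...`). So `exists_pos_sep` gives
positive functionals `g_i⁺`, `g_i⁻`, not all zero, `G = ∑ (g_i⁺ 1 + g_i⁻ 1) > 0`, with
`ε G ≤ ∑_i re (g_i⁺ - g_i⁻) (Θ (a i) - a i)` for all `Θ` (1). Applied to `t Θ` with `t → ∞`:
`0 ≤ ∑ re (g_i⁺ - g_i⁻) (Θ (a i))` (2); applied to `Θ = 0`: `∑ re (g_i⁺ - g_i⁻) (a i) ≤ - ε G < 0` (3).
Let `φ = ∑ (g_i⁺ + g_i⁻)`, `(H, π, ζ)` its GNS representation (`exists_gns`), and `t_i^± ∈ [0, 1]` in the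
commutant of `π` with `g_i^± a = ⟪ζ, π a (t_i^± ζ)⟫` (`exists_rn`; `φ (star x x) = ‖π x ζ‖²`),
`y i = t_i⁺ - t_i⁻`. `MinPos a y`: for `ρ, h` and vectors `k_p = π (b_p) ζ`:
`∑_i ∑_{pq} ⟪h_p, ρ (a i) h_q⟫ ⟪π (b_p) ζ, y_i π (b_q) ζ⟫ = ∑_i (g_i⁺ - g_i⁻) (Θ (a i))` for the
data `(ρ, h, b)` (`⟪π b_p ζ, y_i π b_q ζ⟫ = ⟪ζ, π (b_p* b_q) y_i ζ⟫`), real part `≥ 0` by (2); general `k` by
density and continuity. So `main_pos` gives `0 ≤ re ∑ ⟪ζ, π (a i) (y i ζ)⟫ = re ∑ (g_i⁺ - g_i⁻) (a i)`,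
contradicting (3). -/
theorem approx_sa {S : Type u} [CStarAlgebra S] [TopologicalSpace.SeparableSpace S]
    (hS : GoodFac S) {m : ℕ} (a : Fin m → S) (ha : ∀ i, star (a i) = a i) {ε : ℝ} (hε : 0 < ε) :
    ∃ d : CPD S, ∀ i, ‖d.map (a i) - a i‖ ≤ ε := by
  by_contra hcon
  set fam : CPD S → Fin (m + m) → S := fun d =>
    Fin.append (fun i => d.map (a i) - a i) (fun i => a i - d.map (a i)) with hfam
  obtain ⟨d₀, hd₀⟩ := Cq_exists_zero S
  have hsa : ∀ d : CPD S, ∀ i, star (d.map (a i)) = d.map (a i) := by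
    intro d i
    rw [← d.map_star, ha]
  obtain ⟨g, hg, hGpos, hgC⟩ := exists_pos_sep (Set.range fam) ⟨fam d₀, d₀, rfl⟩ (by
    rintro _ ⟨d, rfl⟩ _ ⟨d', rfl⟩ t ht0 ht1
    obtain ⟨e₁, he₁⟩ := d.exists_smul ht0
    obtain ⟨e₂, he₂⟩ := d'.exists_smul (sub_nonneg.2 ht1)
    obtain ⟨e, he⟩ := e₁.exists_add e₂
    refine ⟨e, ?_⟩
    funext i
    refine Fin.addCases (fun j => ?_) (fun j => ?_) i
    · simp only [hfam, Fin.append_left, he, he₁, he₂]
      push_cast
      module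
    · simp only [hfam, Fin.append_right, he, he₁, he₂]
      push_cast
      module) (by
    rintro _ ⟨d, rfl⟩ i
    refine Fin.addCases (fun j => ?_) (fun j => ?_) i
    · simp only [hfam, Fin.append_left, star_sub, hsa, ha]
    · simp only [hfam, Fin.append_right, star_sub, hsa, ha]) hε (by
    rintro ⟨_, ⟨d, rfl⟩, hx⟩
    refine hcon ⟨d, fun i => ?_⟩
    refine Cq_norm_le (by rw [star_sub, hsa, ha]) hε.le ?_ ?_
    · have h1 := hx (Fin.castAdd m i)
      simpa only [hfam, Fin.append_left] using h1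
    · obtain ⟨w, hw⟩ := hx (Fin.natAdd m i)
      refine ⟨w, ?_⟩
      rw [← hw]
      simp only [hfam, Fin.append_right]
      abel)
  set G : ℝ := ∑ i, (g i 1).re with hG
  set D : Fin m → (S →ₗ[ℂ] ℂ) := fun i => g (Fin.castAdd m i) - g (Fin.natAdd m i) with hD
  -- (1)
  have h1 : ∀ d : CPD S, ε * G ≤ ∑ i, (D i (d.map (a i))).re - ∑ i, (D i (a i)).re := by
    intro d
    have h := hgC (fam d) ⟨d, rfl⟩
    rw [Fin.sum_univ_add] at h
    simp only [hfam, Fin.append_left, Fin.append_right] at h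
    refine h.trans (le_of_eq ?_)
    rw [← Finset.sum_add_distrib, ← Finset.sum_sub_distrib]
    refine Finset.sum_congr rfl fun i _ => ?_
    simp only [hD, map_sub, LinearMap.sub_apply, Complex.sub_re]
    ring
  -- (3)
  have h3 : ∑ i, (D i (a i)).re < 0 := by
    have h := h1 d₀
    simp only [hd₀, map_zero, Complex.zero_re, Finset.sum_const_zero, zero_sub] at h
    have := mul_pos hε hGpos
    linarith
  -- (2)
  have h2 : ∀ d : CPD S, 0 ≤ ∑ i, (D i (d.map (a i))).re := by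
    intro d
    by_contra hneg
    push Not at hneg
    set L : ℝ := ∑ i, (D i (d.map (a i))).re with hL
    set A : ℝ := ∑ i, (D i (a i)).re with hA
    have ht : 0 ≤ (-A) / (-L) := by
      apply div_nonneg <;> linarith
    obtain ⟨e, he⟩ := d.exists_smul ht
    have h := h1 e
    have h4 : ∑ i, (D i (e.map (a i))).re = (-A) / (-L) * L := by
      rw [hL, Finset.mul_sum]
      refine Finset.sum_congr rfl fun i _ => ?_
      rw [he, map_smul, smul_eq_mul, Complex.re_ofReal_mul]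
    rw [h4] at h
    have h5 : (-A) / (-L) * L = A := by
      have : L ≠ 0 := hneg.ne
      rw [neg_div_neg_eq]
      field_simp
    rw [h5, sub_self] at h
    have := mul_pos hε hGpos
    linarith
  -- the GNS representation
  set φ : S →ₗ[ℂ] ℂ := ∑ i, g i with hφ
  have hφapp : ∀ x, φ x = ∑ i, g i x := fun x => by rw [hφ, LinearMap.sum_apply]
  have hφpos : PosF φ := by
    intro x
    rw [hφapp, Complex.re_sum, Complex.im_sum]
    exact ⟨Finset.sum_nonneg fun i _ => (hg i x).1,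
      Finset.sum_eq_zero fun i _ => (hg i x).2⟩
  obtain ⟨H, i₁, i₂, i₃, π, ζ, hπ, hdense⟩ := exists_gns φ hφpos
  have hstar : ∀ (x : S) (u v : H), ⟪π x u, v⟫_ℂ = ⟪u, π (star x) v⟫_ℂ := by
    intro x u v
    rw [map_star, ContinuousLinearMap.star_eq_adjoint, ContinuousLinearMap.adjoint_inner_right]
  have hnorm : ∀ x, ‖π x ζ‖ ^ 2 = (φ (star x * x)).re := by
    intro x
    rw [hπ, map_mul]
    have : ⟪ζ, (π (star x) * π x) ζ⟫_ℂ = ⟪π x ζ, π x ζ⟫_ℂ := by
      rw [hstar x ζ (π x ζ)]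
      rfl
    rw [this, ← inner_self_eq_norm_sq (𝕜 := ℂ)]
    rfl
  have hrn : ∀ i, ∃ T : H →L[ℂ] H, 0 ≤ T ∧ T ≤ 1 ∧ (∀ d, T * π d = π d * T) ∧
      ∀ d, g i d = ⟪ζ, π d (T ζ)⟫_ℂ := by
    intro i
    refine exists_rn π ζ hdense (g i) (hg i) fun x => ?_
    rw [hnorm, hφapp, Complex.re_sum]
    exact Finset.single_le_sum (f := fun i => (g i (star x * x)).re)
      (fun j _ => (hg j x).1) (Finset.mem_univ i)
  choose T hT0 hT1 hTcom hTg using hrn
  set y : Fin m → (H →L[ℂ] H) := fun i => T (Fin.castAdd m i) - T (Fin.natAdd m i) with hy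
  have hys : ∀ i, star (y i) = y i := by
    intro i
    have e1 : star (T (Fin.castAdd m i)) = T (Fin.castAdd m i) :=
      IsSelfAdjoint.of_nonneg (hT0 _)
    have e2 : star (T (Fin.natAdd m i)) = T (Fin.natAdd m i) :=
      IsSelfAdjoint.of_nonneg (hT0 _)
    simp only [hy, star_sub, e1, e2]
  have hyc : ∀ i s, y i * π s = π s * y i := by
    intro i s
    simp only [hy, sub_mul, mul_sub, hTcom]
  have hyD : ∀ i x, D i x = ⟪ζ, π x (y i ζ)⟫_ℂ := by
    intro i x
    simp only [hD, hy, LinearMap.sub_apply, hTg, sub_apply, map_sub,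
      inner_sub_right]
  have hmin : MinPos a y := by
    intro n H₁ j₁ j₂ j₃ ρ hρ h k
    have hclosed : IsClosed {k : Fin n → H |
        0 ≤ (∑ j, ∑ p, ∑ q, ⟪h p, ρ (a j) (h q)⟫_ℂ * ⟪k p, y j (k q)⟫_ℂ).re} := by
      refine isClosed_le continuous_const (Complex.continuous_re.comp ?_)
      refine continuous_finsetSum _ fun j _ => continuous_finsetSum _ fun p _ =>
        continuous_finsetSum _ fun q _ => continuous_const.mul ?_
      exact (continuous_apply p).inner ((y j).continuous.comp (continuous_apply q))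
    have hd : Dense (Set.pi Set.univ fun _ : Fin n => Set.range fun d => π d ζ) :=
      dense_pi _ fun _ _ => hdense
    have hsub : (Set.pi Set.univ fun _ : Fin n => Set.range fun d => π d ζ) ⊆
        {k : Fin n → H |
        0 ≤ (∑ j, ∑ p, ∑ q, ⟪h p, ρ (a j) (h q)⟫_ℂ * ⟪k p, y j (k q)⟫_ℂ).re} := by
      intro k hk
      have hk' : ∀ p, ∃ b, π b ζ = k p := fun p => hk p (Set.mem_univ p)
      choose b hb using hk'
      have h6 := h2 ⟨n, H₁, j₁, j₂, j₃, ρ, hρ, h, b⟩
      show 0 ≤ (∑ j, ∑ p, ∑ q, ⟪h p, ρ (a j) (h q)⟫_ℂ * ⟪k p, y j (k q)⟫_ℂ).re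
      rw [Complex.re_sum]
      refine h6.trans (le_of_eq ?_)
      refine Finset.sum_congr rfl fun j _ => ?_
      congr 1
      simp only [CPD.map, map_sum, map_smul, smul_eq_mul]
      refine Finset.sum_congr rfl fun p _ => Finset.sum_congr rfl fun q _ => ?_
      congr 1
      rw [hyD, ← hb p, ← hb q, hstar, map_mul]
      have e1 : y j (π (b q) ζ) = π (b q) (y j ζ) :=
        congrArg (fun R : H →L[ℂ] H => R ζ) (hyc j (b q))
      rw [e1]
      rfl
    have : k ∈ closure (Set.pi Set.univ fun _ : Fin n => Set.range fun d => π d ζ) := hd k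
    exact hclosed.closure_subset_iff.2 hsub this
  have h7 := main_pos hS π a y hys hyc hmin ζ
  rw [Complex.re_sum] at h7
  have h8 : ∑ i, (⟪ζ, π (a i) (y i ζ)⟫_ℂ).re = ∑ i, (D i (a i)).re :=
    Finset.sum_congr rfl fun i _ => by rw [hyD]
  rw [h8] at h7
  linarith

/-- `approx_sa` for a finite set. -/
theorem Cq_approx_finset {S : Type u} [CStarAlgebra S] [TopologicalSpace.SeparableSpace S]
    (hS : GoodFac S) (F : Finset S) (hF : ∀ x ∈ F, star x = x) {ε : ℝ} (hε : 0 < ε) :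
    ∃ d : CPD S, ∀ x ∈ F, ‖d.map x - x‖ ≤ ε := by
  obtain ⟨d, hd⟩ := approx_sa hS (fun i => ((F.equivFin.symm i : F) : S))
    (fun i => hF _ (F.equivFin.symm i).2) hε
  refine ⟨d, fun x hx => ?_⟩
  have h := hd (F.equivFin ⟨x, hx⟩)
  simpa using h

/-- The inverse square root near `1`. -/
theorem Cq_invsqrt {S : Type u} [CStarAlgebra S] {g : S} (hg : star g = g) {δ : ℝ}
    (hδ0 : 0 ≤ δ) (hδ : δ ≤ 1 / 2) (hg1 : ‖g - 1‖ ≤ δ) :
    ∃ r : S, star r = r ∧ r * g * r = 1 ∧ ‖r - 1‖ ≤ 2 * δ ∧ ‖r‖ ≤ 2 := by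
  have hsa : IsSelfAdjoint g := hg
  have hspec : ∀ t ∈ spectrum ℝ g, |t - 1| ≤ δ := by
    intro t ht
    rcases subsingleton_or_nontrivial S with hS | hS
    · have : spectrum ℝ g = ∅ := spectrum.of_subsingleton g
      rw [this] at ht
      exact absurd ht (Set.notMem_empty t)
    · have h1 : t - 1 ∈ spectrum ℝ (g - 1) := by
        have h2 := (spectrum.sub_singleton_eq (R := ℝ) g 1)
        rw [map_one] at h2
        rw [← h2]
        exact Set.sub_mem_sub ht (Set.mem_singleton 1)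
      have h3 := spectrum.norm_le_norm_of_mem h1
      rw [Real.norm_eq_abs] at h3
      exact h3.trans hg1
  have hpos : ∀ t ∈ spectrum ℝ g, 1 / 2 ≤ t := by
    intro t ht
    have := (abs_le.1 (hspec t ht)).1
    linarith
  set f : ℝ → ℝ := fun t => (Real.sqrt t)⁻¹ with hf
  have hcont : ContinuousOn f (spectrum ℝ g) := by
    refine ContinuousOn.inv₀ Real.continuous_sqrt.continuousOn fun t ht => ?_
    have := hpos t ht
    exact (Real.sqrt_pos.2 (by linarith)).ne'
  refine ⟨cfc f g, ?_, ?_, ?_, ?_⟩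
  · exact (cfc_predicate f g : IsSelfAdjoint (cfc f g))
  · have h1 : cfc f g * g * cfc f g = cfc (fun t => f t * t * f t) g := by
      rw [cfc_mul (fun t => f t * t) f g (hcont.mul continuousOn_id) hcont,
        cfc_mul f (fun t => t) g hcont continuousOn_id, cfc_id' ℝ g]
    rw [h1, ← cfc_one ℝ g]
    refine cfc_congr fun t ht => ?_
    have h2 := hpos t ht
    have h3 : 0 < Real.sqrt t := Real.sqrt_pos.2 (by linarith)
    have h4 : Real.sqrt t * Real.sqrt t = t := Real.mul_self_sqrt (by linarith)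
    simp only [hf, Pi.one_apply]
    rw [mul_assoc, inv_mul_eq_iff_eq_mul₀ h3.ne', mul_inv_eq_iff_eq_mul₀ h3.ne', mul_one, h4]
  · have h1 : cfc f g - 1 = cfc (fun t => f t - 1) g := by
      rw [cfc_sub f (fun _ => 1) g hcont continuousOn_const, cfc_const_one ℝ g]
    rw [h1]
    refine norm_cfc_le (by linarith) fun t ht => ?_
    have h2 := hpos t ht
    have h3 : 0 < Real.sqrt t := Real.sqrt_pos.2 (by linarith)
    have h4 : Real.sqrt t * Real.sqrt t = t := Real.mul_self_sqrt (by linarith)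
    have h5 := hspec t ht
    have h6 : f t - 1 = (1 - t) / (Real.sqrt t * (1 + Real.sqrt t)) := by
      simp only [hf]
      rw [eq_div_iff (by positivity)]
      field_simp
      nlinarith [h4]
    rw [Real.norm_eq_abs, h6, abs_div, abs_of_pos (by positivity : 0 < Real.sqrt t *
      (1 + Real.sqrt t)), div_le_iff₀ (by positivity), abs_sub_comm]
    have h7 : 1 / 2 ≤ Real.sqrt t * (1 + Real.sqrt t) := by nlinarith
    nlinarith [abs_nonneg (t - 1)]
  · refine norm_cfc_le (by norm_num) fun t ht => ?_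
    have h2 := hpos t ht
    have h3 : 0 < Real.sqrt t := Real.sqrt_pos.2 (by linarith)
    rw [Real.norm_eq_abs, abs_of_pos (inv_pos.2 h3)]
    have h4 : (1 / 2 : ℝ) ≤ Real.sqrt t := by
      rw [show (1 / 2 : ℝ) = Real.sqrt ((1 / 2) ^ 2) by
        rw [Real.sqrt_sq (by norm_num)]]
      exact Real.sqrt_le_sqrt (by linarith)
    rw [inv_le_comm₀ h3 (by norm_num)]
    linarith

/-- Expansion of the data in an orthonormal basis of the span of the vectors. -/
theorem Cq_expand {S : Type u} [CStarAlgebra S] (d : CPD S) :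
    ∃ (N : ℕ) (e : Fin N → d.H) (b' : Fin N → S), Orthonormal ℂ e ∧
      ∀ a, d.map a = ∑ r, ∑ s, (⟪e r, d.ρ a (e s)⟫_ℂ) • (star (b' r) * b' s) := by
  set V : Submodule ℂ d.H := Submodule.span ℂ (Set.range d.h) with hV
  have : FiniteDimensional ℂ V := FiniteDimensional.span_of_finite ℂ (Set.finite_range d.h)
  set e := stdOrthonormalBasis ℂ V with he
  have hmem : ∀ p, d.h p ∈ V := fun p => Submodule.subset_span ⟨p, rfl⟩
  refine ⟨_, fun r => (e r : d.H), fun r => ∑ p, ⟪(e r : d.H), d.h p⟫_ℂ • d.b p, ?_, ?_⟩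
  · exact e.orthonormal.comp_linearIsometry V.subtypeₗᵢ
  · intro a
    have hexp : ∀ p, d.h p = ∑ r, ⟪(e r : d.H), d.h p⟫_ℂ • (e r : d.H) := by
      intro p
      have h1 := e.sum_repr' (⟨d.h p, hmem p⟩ : V)
      have h2 := congrArg (fun v : V => (v : d.H)) h1
      simp only [Submodule.coe_sum, Submodule.coe_smul, Submodule.coe_inner] at h2
      exact h2.symm
    have hterm : ∀ p q, (⟪d.h p, d.ρ a (d.h q)⟫_ℂ) • (star (d.b p) * d.b q) =
        ∑ r, ∑ s, (⟪(e r : d.H), d.ρ a (e s)⟫_ℂ) •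
          (star (⟪(e r : d.H), d.h p⟫_ℂ • d.b p) * (⟪(e s : d.H), d.h q⟫_ℂ • d.b q)) := by
      intro p q
      have h1 : ⟪d.h p, d.ρ a (d.h q)⟫_ℂ = ∑ r, ∑ s,
          (starRingEnd ℂ) ⟪(e r : d.H), d.h p⟫_ℂ * (⟪(e s : d.H), d.h q⟫_ℂ *
            ⟪(e r : d.H), d.ρ a (e s)⟫_ℂ) := by
        conv_lhs => rw [hexp p, hexp q]
        simp only [map_sum, map_smul, sum_inner, inner_sum, inner_smul_left, inner_smul_right,
          Finset.mul_sum]
        rw [Finset.sum_comm]
        refine Finset.sum_congr rfl fun r _ => Finset.sum_congr rfl fun s _ => ?_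
        ring
      rw [h1]
      simp only [Finset.sum_smul]
      refine Finset.sum_congr rfl fun r _ => Finset.sum_congr rfl fun s _ => ?_
      rw [star_smul, smul_mul_smul_comm, smul_smul]
      congr 1
      simp only [RCLike.star_def]
      ring
    simp only [CPD.map]
    rw [Finset.sum_congr rfl fun p _ => Finset.sum_congr rfl fun q _ => hterm p q]
    simp only [star_sum, Finset.sum_mul, Finset.mul_sum, Finset.smul_sum]
    -- reorder the four sums
    have hswap : ∀ (G : Fin d.n → Fin d.n → Fin (Module.finrank ℂ V) →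
        Fin (Module.finrank ℂ V) → S),
        ∑ p, ∑ q, ∑ r, ∑ s, G p q r s = ∑ r, ∑ s, ∑ p, ∑ q, G p q r s := by
      intro G
      calc ∑ p, ∑ q, ∑ r, ∑ s, G p q r s = ∑ p, ∑ r, ∑ q, ∑ s, G p q r s :=
            Finset.sum_congr rfl fun p _ => Finset.sum_comm
        _ = ∑ r, ∑ p, ∑ q, ∑ s, G p q r s := Finset.sum_comm
        _ = ∑ r, ∑ p, ∑ s, ∑ q, G p q r s :=
            Finset.sum_congr rfl fun r _ => Finset.sum_congr rfl fun p _ => Finset.sum_comm
        _ = ∑ r, ∑ s, ∑ p, ∑ q, G p q r s :=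
            Finset.sum_congr rfl fun r _ => Finset.sum_comm
    rw [hswap]
    refine Finset.sum_congr rfl fun r _ => Finset.sum_congr rfl fun s _ => ?_
    rw [Finset.sum_comm]

/-- The isometry defined by an orthonormal family. -/
theorem Cq_iota {H : Type*} [NormedAddCommGroup H] [InnerProductSpace ℂ H] [CompleteSpace H]
    {N : ℕ} {e : Fin N → H} (he : Orthonormal ℂ e) :
    ∃ ι : EE N →L[ℂ] H, (∀ i, ι (EuclideanSpace.single i 1) = e i) ∧
      (∀ x, ‖ι x‖ = ‖x‖) := by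
  set L : EE N →ₗ[ℂ] H := (Fintype.linearCombination ℂ e).comp
    (WithLp.linearEquiv 2 ℂ (Fin N → ℂ)).toLinearMap with hL
  have hLapp : ∀ x : EE N, L x = ∑ i, x i • e i := by
    intro x
    rfl
  have hnorm : ∀ x : EE N, ‖L x‖ = ‖x‖ := by
    intro x
    rw [hLapp, EuclideanSpace.norm_eq, ← Real.sqrt_sq (norm_nonneg (∑ i, x i • e i))]
    congr 1
    rw [← inner_self_eq_norm_sq (𝕜 := ℂ), he.inner_sum]
    simp only [map_sum]
    refine Finset.sum_congr rfl fun i _ => ?_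
    rw [RCLike.conj_mul, ← RCLike.ofReal_pow, RCLike.ofReal_re]
  refine ⟨L.mkContinuous 1 (fun x => by rw [hnorm, one_mul]), fun i => ?_, fun x => hnorm x⟩
  show L (EuclideanSpace.single i 1) = e i
  rw [hLapp, Finset.sum_eq_single i]
  · simp
  · intro j _ hj
    simp [hj]
  · intro h
    exact absurd (Finset.mem_univ i) h

/-- The completely positive approximation property.

PROOF. Given `F`, `ε` (w.l.o.g. `ε ≤ 1`), let `M = 1 + ∑_{a ∈ F} ‖a‖`, and apply `approx_sa` to the real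
and imaginary parts of the elements of `F` and to `1`, with a small `ε₁ > 0` (`ε₁ ≤ ε / (20 M)`): `d`
with `‖d.map a - a‖ ≤ 2 ε₁` for `a ∈ F`, `g = d.map 1`, `‖g - 1‖ ≤ ε₁ ≤ 1/2`. `g` is selfadjoint (and positive) and
invertible; `r = g^{-1/2}` (`CFC.rpow` or `cfc (fun t => (√t)⁻¹) g`), `r` selfadjoint, `r g r = 1`,
`‖r - 1‖ ≤ 2 ε₁` (for `|t - 1| ≤ 1/2`, `|t^{-1/2} - 1| ≤ 2 |t - 1|`; `norm_cfc_le`). Let
`V = span {h_p}` (finite-dimensional), `e : OrthonormalBasis (Fin N) ℂ V` (`stdOrthonormalBasis`),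
`b'_r = ∑_p ⟪e_r, h_p⟫ • b_p`. Since `h_p = ∑_r ⟪e_r, h_p⟫ e_r`,
`d.map a = ∑_{rs} ⟪e_r, ρ a e_s⟫ • (b'_r* b'_s)`. Put `t 0 r = b'_r * r₀` with `r₀ = g^{-1/2}`,
`m = 1`, `n = N`, `S a` = the operator on `EE N` with `ent (S a) r s = ⟪e_r, ρ a e_s⟫`, that is
`S a = ι* ρ(a) ι` with the isometry `ι : EE N → H`, `ι x = ∑ x_r e_r` (from `e.repr.symm` and the
inclusion of `V`). `S 1 = 1`, `S (star a) = star (S a)`, `‖S a ξ‖² ≤ ‖ρ a ι ξ‖² = re ⟪ξ, S (star a * a) ξ⟫`.
`∑ star (t 0 r) * t 0 r = r₀ (∑ b'_r* b'_r) r₀ = r₀ g r₀ = 1` (orthonormality: `d.map 1 =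
∑_{rs} ⟪e_r, e_s⟫ b'_r* b'_s = ∑ b'_r* b'_r`), and the approximant is `r₀ (d.map a) r₀`,
within `‖r₀‖² 2 ε₁ + ‖r₀ a r₀ - a‖ ≤ ε` of `a`. -/
theorem kcp_of_goodFac {S : Type u} [CStarAlgebra S] [TopologicalSpace.SeparableSpace S]
    (hS : GoodFac S) : KCP S := by
  classical
  intro F ε₀ hε₀
  set ε : ℝ := min ε₀ 1 with hε
  have hεpos : 0 < ε := lt_min hε₀ one_pos
  have hε1 : ε ≤ 1 := min_le_right _ _
  set M : ℝ := 1 + ∑ a ∈ F, ‖a‖ with hM
  have hM1 : 1 ≤ M := by
    have : 0 ≤ ∑ a ∈ F, ‖a‖ := Finset.sum_nonneg fun a _ => norm_nonneg a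
    linarith
  have hMa : ∀ a ∈ F, ‖a‖ ≤ M := by
    intro a ha
    have := Finset.single_le_sum (f := fun a : S => ‖a‖) (fun b _ => norm_nonneg b) ha
    linarith
  set δ : ℝ := ε / (20 * M) with hδ
  have hδpos : 0 < δ := by positivity
  have hδM : δ * M = ε / 20 := by
    rw [hδ]
    field_simp
  have hδle : δ ≤ 1 / 2 := by
    have : δ ≤ δ * M := by nlinarith
    rw [hδM] at this
    linarith
  set R : S → S := fun a => (1 / 2 : ℂ) • (a + star a) with hR
  set Im : S → S := fun a => (-Complex.I / 2 : ℂ) • (a - star a) with hIm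
  have hRs : ∀ a, star (R a) = R a := by
    intro a
    show star ((1 / 2 : ℂ) • (a + star a)) = (1 / 2 : ℂ) • (a + star a)
    rw [star_smul, star_add, star_star, add_comm (star a) a]
    congr 1
    norm_num
  have hIms : ∀ a, star (Im a) = Im a := by
    intro a
    simp only [hIm, star_smul, star_sub, star_star]
    simp only [RCLike.star_def, map_div₀, map_neg, Complex.conj_I, map_ofNat, neg_neg]
    rw [← neg_sub a (star a), smul_neg, ← neg_smul]
    congr 1
    ring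
  have hdec : ∀ a, a = R a + Complex.I • Im a := by
    intro a
    simp only [hR, hIm, smul_smul]
    have e1 : Complex.I * (-Complex.I / 2) = 1 / 2 := by
      rw [mul_div_assoc', mul_neg, Complex.I_mul_I, neg_neg]
    rw [e1, ← smul_add]
    have : a + star a + (a - star a) = (2 : ℂ) • a := by
      rw [two_smul]; abel
    rw [this, smul_smul]
    norm_num
  obtain ⟨d, hd⟩ := Cq_approx_finset hS ((F.image R ∪ F.image Im) ∪ {1}) (by
    intro x hx
    rcases Finset.mem_union.1 hx with hx | hx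
    · rcases Finset.mem_union.1 hx with hx | hx
      · obtain ⟨a, _, rfl⟩ := Finset.mem_image.1 hx
        exact hRs a
      · obtain ⟨a, _, rfl⟩ := Finset.mem_image.1 hx
        exact hIms a
    · rw [Finset.mem_singleton.1 hx, star_one]) hδpos
  have hda : ∀ a ∈ F, ‖d.map a - a‖ ≤ 2 * δ := by
    intro a ha
    have h1 := hd (R a) (Finset.mem_union_left _ (Finset.mem_union_left _
      (Finset.mem_image_of_mem R ha)))
    have h2 := hd (Im a) (Finset.mem_union_left _ (Finset.mem_union_right _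
      (Finset.mem_image_of_mem Im ha)))
    have h3 : d.map a - a = (d.map (R a) - R a) + Complex.I • (d.map (Im a) - Im a) := by
      have e1 : d.map a = d.map (R a) + Complex.I • d.map (Im a) := by
        rw [← Cq_map_smul, ← Cq_map_add, ← hdec a]
      calc d.map a - a = (d.map (R a) + Complex.I • d.map (Im a))
            - (R a + Complex.I • Im a) := by rw [← e1, ← hdec a]
        _ = _ := by rw [smul_sub]; abel
    rw [h3]
    refine (norm_add_le _ _).trans ?_
    rw [norm_smul, Complex.norm_I, one_mul]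
    linarith
  have hd1 : ‖d.map 1 - 1‖ ≤ δ := hd 1 (Finset.mem_union_right _ (Finset.mem_singleton_self 1))
  have hgs : star (d.map 1) = d.map 1 := by rw [← d.map_star, star_one]
  obtain ⟨r₀, hr₀s, hr₀g, hr₀1, hr₀2⟩ := Cq_invsqrt hgs hδpos.le hδle hd1
  obtain ⟨N, e, b', he, hmap⟩ := Cq_expand d
  obtain ⟨ι, hι1, hιn⟩ := Cq_iota he
  have hιin : ∀ x y, ⟪ι x, ι y⟫_ℂ = ⟪x, y⟫_ℂ := by
    intro x y
    exact LinearMap.norm_map_iff_inner_map_map ι |>.1 hιn x y
  have hιι : ι.adjoint ∘L ι = 1 := by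
    ext1 x
    refine ext_inner_left ℂ fun y => ?_
    rw [comp_apply, ContinuousLinearMap.adjoint_inner_right, hιin]
    rfl
  set T : S →ₗ[ℂ] (EE N →L[ℂ] EE N) :=
    { toFun := fun a => ι.adjoint ∘L (d.ρ a ∘L ι)
      map_add' := fun a b => by
        ext1 x
        simp only [comp_apply, map_add, add_apply]
      map_smul' := fun c a => by
        ext1 x
        simp only [comp_apply, map_smul, smul_apply, RingHom.id_apply] } with hT
  have hTapp : ∀ a x, T a x = ι.adjoint (d.ρ a (ι x)) := fun a x => rfl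
  have hadj : ∀ x, ‖ι.adjoint x‖ ≤ ‖x‖ := by
    intro x
    have h1 : ‖ι.adjoint‖ ≤ 1 := by
      rw [LinearIsometryEquiv.norm_map]
      exact ContinuousLinearMap.opNorm_le_bound _ zero_le_one fun x => by rw [hιn, one_mul]
    calc ‖ι.adjoint x‖ ≤ ‖ι.adjoint‖ * ‖x‖ := le_opNorm _ _
      _ ≤ 1 * ‖x‖ := by gcongr
      _ = ‖x‖ := one_mul _
  have hent : ∀ a i j, Am.ent (T a) i j = ⟪e i, d.ρ a (e j)⟫_ℂ := by
    intro a i j
    have h1 : Am.ent (T a) i j = ⟪EuclideanSpace.single i (1 : ℂ), T a (EuclideanSpace.single j 1)⟫_ℂ := by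
      rw [EuclideanSpace.inner_single_left]
      simp [Am.ent]
    rw [h1, hTapp, ContinuousLinearMap.adjoint_inner_right, hι1, hι1]
  have hρ1 : d.ρ 1 = 1 := d.one
  refine ⟨N, 1, T, fun _ r => b' r * r₀, ?_, ?_, ?_, ?_, ?_⟩
  · ext1 x
    rw [hTapp, hρ1]
    exact congrArg (fun A : EE N →L[ℂ] EE N => A x) hιι
  · intro a
    ext1 x
    refine ext_inner_left ℂ fun y => ?_
    rw [ContinuousLinearMap.star_eq_adjoint, ContinuousLinearMap.adjoint_inner_right, hTapp, hTapp,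
      ContinuousLinearMap.adjoint_inner_right, ContinuousLinearMap.adjoint_inner_left, map_star,
      ContinuousLinearMap.star_eq_adjoint, ContinuousLinearMap.adjoint_inner_right]
  · intro a ξ
    have h1 : ⟪ξ, T (star a * a) ξ⟫_ℂ = ⟪d.ρ a (ι ξ), d.ρ a (ι ξ)⟫_ℂ := by
      rw [hTapp, ContinuousLinearMap.adjoint_inner_right, map_mul, map_star]
      show ⟪ι ξ, star (d.ρ a) (d.ρ a (ι ξ))⟫_ℂ = _
      rw [ContinuousLinearMap.star_eq_adjoint, ContinuousLinearMap.adjoint_inner_right]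
    rw [h1]
    have h2 : (⟪d.ρ a (ι ξ), d.ρ a (ι ξ)⟫_ℂ).re = ‖d.ρ a (ι ξ)‖ ^ 2 :=
      inner_self_eq_norm_sq (𝕜 := ℂ) _
    rw [h2, hTapp]
    exact pow_le_pow_left₀ (norm_nonneg _) (hadj _) 2
  · rw [Fin.sum_univ_one]
    have h1 : ∀ i, star (b' i * r₀) * (b' i * r₀) = r₀ * (star (b' i) * b' i) * r₀ := by
      intro i
      rw [star_mul, hr₀s]
      simp only [mul_assoc]
    rw [Finset.sum_congr rfl fun i _ => h1 i, ← Finset.sum_mul, ← Finset.mul_sum]
    have h2 : ∑ i, star (b' i) * b' i = d.map 1 := by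
      rw [hmap]
      refine Finset.sum_congr rfl fun i _ => ?_
      rw [Finset.sum_eq_single i]
      · rw [hρ1]
        show _ = ⟪e i, e i⟫_ℂ • _
        rw [inner_self_eq_norm_sq_to_K, he.1 i]
        simp
      · intro j _ hj
        rw [hρ1]
        show ⟪e i, e j⟫_ℂ • _ = _
        rw [he.2 (Ne.symm hj), zero_smul]
      · intro h
        exact absurd (Finset.mem_univ i) h
    rw [h2, hr₀g]
  · intro a ha
    rw [Fin.sum_univ_one]
    have h1 : ∑ i, ∑ j, (Am.ent (T a) i j) • (star (b' i * r₀) * (b' j * r₀)) =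
        r₀ * d.map a * r₀ := by
      rw [hmap, Finset.mul_sum, Finset.sum_mul]
      refine Finset.sum_congr rfl fun i _ => ?_
      rw [Finset.mul_sum, Finset.sum_mul]
      refine Finset.sum_congr rfl fun j _ => ?_
      rw [hent, star_mul, hr₀s, mul_smul_comm, smul_mul_assoc]
      simp only [mul_assoc]
    rw [h1]
    have h2 : r₀ * d.map a * r₀ - a = r₀ * (d.map a - a) * r₀ + ((r₀ - 1) * a * r₀
        + a * (r₀ - 1)) := by
      simp only [mul_sub, sub_mul, one_mul, mul_one]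
      abel
    have h3 : ‖r₀ * (d.map a - a) * r₀‖ ≤ 2 * (2 * δ) * 2 := by
      refine (norm_mul_le _ _).trans ?_
      refine mul_le_mul ((norm_mul_le _ _).trans ?_) hr₀2 (norm_nonneg _) (by positivity)
      exact mul_le_mul hr₀2 (hda a ha) (norm_nonneg _) (by norm_num)
    have h4 : ‖(r₀ - 1) * a * r₀‖ ≤ (2 * δ) * M * 2 := by
      refine (norm_mul_le _ _).trans ?_
      refine mul_le_mul ((norm_mul_le _ _).trans ?_) hr₀2 (norm_nonneg _) (by positivity)
      exact mul_le_mul hr₀1 (hMa a ha) (norm_nonneg _) (by positivity)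
    have h5 : ‖a * (r₀ - 1)‖ ≤ M * (2 * δ) :=
      (norm_mul_le _ _).trans (mul_le_mul (hMa a ha) hr₀1 (norm_nonneg _) (by positivity))
    rw [h2]
    refine (norm_add_le _ _).trans ((add_le_add h3 ((norm_add_le _ _).trans
      (add_le_add h4 h5))).trans ?_)
    have h6 : δ ≤ δ * M := by nlinarith
    have h7 : ε ≤ ε₀ := min_le_left _ _
    nlinarith [hδM]

end Pool.Agent.MP_86f3ed.Nu
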