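import Pool.Agent.H.MP_86f3ed_an.Nu.Defs
import Pool.Agent.H.MP_86f3ed_an.Fac.TrCom
import Pool.Agent.H.MP_86f3ed_an.Fac.Cyc
import Pool.Agent.H.MP_86f3ed_an.Sf.AmpCom
import Pool.Agent.H.MP_86f3ed_an.Fac.Ind

open scoped InnerProductSpace Topology
open Filter ContinuousLinearMap

namespace Pool.Agent.MP_86f3ed.Nu

open Pin Sf Fac Ty

universe u

/-- PROOF. `mem_rangeAlg`, `Ampl`, `ampHom_apply`, `amp_one`, `amp_add`, `amp_smul`: both sides consist of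
the operators `c • 1 + amp (π s) = amp (c • 1 + π s)`. (`π.toNonUnitalStarAlgHom`.) -/
theorem rangeAlg_ampRep {S : Type u} [CStarAlgebra S] {H : Type u} [NormedAddCommGroup H]
    [InnerProductSpace ℂ H] [CompleteSpace H] (π : S →⋆ₐ[ℂ] (H →L[ℂ] H)) :
    rangeAlg (ampRep π) = Ampl (rangeAlg π.toNonUnitalStarAlgHom) := by
  ext y
  rw [mem_rangeAlg, mem_Ampl]
  constructor
  · rintro ⟨c, a, rfl⟩
    refine ⟨c • 1 + π a, mem_rangeAlg.mpr ⟨c, a, rfl⟩, ?_⟩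
    rw [amp_add, amp_smul, amp_one]
    rfl
  · rintro ⟨b, hb, rfl⟩
    obtain ⟨c, a, rfl⟩ := mem_rangeAlg.mp hb
    refine ⟨c, a, ?_⟩
    rw [amp_add, amp_smul, amp_one]
    rfl

/-- A factor representation has, in its amplification, a vector which is cyclic for the commutant.

PROOF. `η` from `Fac.exists_sep`. Let `𝔅 = rangeAlg π`. The closed linear space `V` spanned by the `x η`,
`x ∈ Com (Ampl 𝔅)` (it is `Cyc_W (Com (Ampl 𝔅)) η` of `Fac/Cyc.lean`, with projection `q = Cyc_P ..`,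
`Cyc_com : q ∈ Com (Com (Ampl 𝔅))`), so by `mem_Com_Com_amp` `q = amp m` with `m ∈ Com (Com 𝔅)`.
`q η = η` (`η = 1 η ∈ V`), so `amp (1 - m) η = 0`, `m = 1`, `q = 1`, `V` is everything. -/
theorem exists_eta {S : Type u} [CStarAlgebra S] {H : Type u} [NormedAddCommGroup H]
    [InnerProductSpace ℂ H] [CompleteSpace H] [TopologicalSpace.SeparableSpace H] [Nontrivial H]
    (π : S →⋆ₐ[ℂ] (H →L[ℂ] H)) :
    ∃ η : HH H, ‖η‖ = 1 ∧ Cyc (Com (rangeAlg (ampRep π))) η := by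
  obtain ⟨η, hη, hsep⟩ := exists_sep (K := H)
  refine ⟨η, hη, ?_⟩
  rw [rangeAlg_ampRep]
  set 𝔅 := rangeAlg π.toNonUnitalStarAlgHom with h𝔅
  have h1 : Cyc_P (Com (Ampl 𝔅)) η ∈ Com (Com (Ampl 𝔅)) := Cyc_com _ _
  obtain ⟨m, hm, hq⟩ := mem_Com_Com_amp.mp h1
  have h2 : Cyc_P (Com (Ampl 𝔅)) η η = η :=
    Submodule.starProjection_eq_self_iff.mpr (Cyc_mem _ _ (one_mem _))
  have h3 : 1 - m = 0 := by
    refine hsep _ ?_
    rw [amp_sub, amp_one, sub_apply, ← hq, h2]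
    exact sub_self η
  have h4 : m = 1 := (sub_eq_zero.mp h3).symm
  intro x
  have h5 : Cyc_P (Com (Ampl 𝔅)) η x = x := by
    rw [hq, h4, amp_one]
    rfl
  have h6 : x ∈ Cyc_W (Com (Ampl 𝔅)) η := by
    rw [← h5]
    exact Submodule.starProjection_apply_mem _ _
  exact h6

/-- Compression of a representation to an invariant subspace. -/
noncomputable def cs_rep {S : Type u} [CStarAlgebra S] {K : Type u} [NormedAddCommGroup K]
    [InnerProductSpace ℂ K] [CompleteSpace K] (ρ : S →⋆ₙₐ[ℂ] (K →L[ℂ] K)) (W : Submodule ℂ K)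
    [CompleteSpace W] (hW : ∀ s, ∀ w ∈ W, ρ s w ∈ W) : S →⋆ₙₐ[ℂ] (W →L[ℂ] W) where
  toFun s := cmp W (ρ s)
  map_zero' := by
    ext w
    rw [Ind_cmp_coe, map_zero]
    simp
  map_add' s t := by
    ext w
    rw [add_apply, Submodule.coe_add, Ind_cmp_coe, Ind_cmp_coe, Ind_cmp_coe, map_add, add_apply,
      map_add]
  map_smul' c s := by
    ext w
    show ((cmp W (ρ (c • s)) w : W) : K) = c • ((cmp W (ρ s) w : W) : K)
    rw [Ind_cmp_coe, Ind_cmp_coe, map_smul, smul_apply, map_smul]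
  map_mul' s t := by
    ext w
    show ((cmp W (ρ (s * t)) w : W) : K) = ((cmp W (ρ s) (cmp W (ρ t) w) : W) : K)
    have h1 : ∀ (r : S) (v : W), ((cmp W (ρ r) v : W) : K) = ρ r v := fun r v => by
      rw [Ind_cmp_coe]
      exact Submodule.starProjection_eq_self_iff.mpr (hW r v v.2)
    rw [h1, h1, h1, map_mul]
    rfl
  map_star' s := by
    rw [star_eq_adjoint]
    refine (ContinuousLinearMap.eq_adjoint_iff _ _).mpr fun x y => ?_
    have h1 : ∀ (r : S) (v : W), ((cmp W (ρ r) v : W) : K) = ρ r v := fun r v => by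
      rw [Ind_cmp_coe]
      exact Submodule.starProjection_eq_self_iff.mpr (hW r v v.2)
    rw [Submodule.coe_inner, Submodule.coe_inner, h1, h1, map_star, star_eq_adjoint,
      adjoint_inner_left]

theorem cs_rep_coe {S : Type u} [CStarAlgebra S] {K : Type u} [NormedAddCommGroup K]
    [InnerProductSpace ℂ K] [CompleteSpace K] (ρ : S →⋆ₙₐ[ℂ] (K →L[ℂ] K)) (W : Submodule ℂ K)
    [CompleteSpace W] (hW : ∀ s, ∀ w ∈ W, ρ s w ∈ W) (s : S) (w : W) :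
    ((cs_rep ρ W hW s w : W) : K) = ρ s w := by
  show ((cmp W (ρ s) w : W) : K) = ρ s w
  rw [Ind_cmp_coe]
  exact Submodule.starProjection_eq_self_iff.mpr (hW s w w.2)

/-- The cyclic subrepresentation generated by `η`.

PROOF. `ρ = ampRep π`, `W` = the topological closure of the submodule `{ρ s η}` (range of a linear map);
it is invariant under all `ρ s`; `σ s` = the restriction of `ρ s` to `W` (use `ContinuousLinearMap.restrict`-like
constructions or `cmp W (ρ s)`; it is a star homomorphism because `W` is invariant under `ρ s` and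
`ρ (star s)`). `Sub ρ W σ` holds (`Fac/Ind.lean`). `η = ρ 1 η ∈ W`. `Cyc (rangeAlg σ) η`: the vectors
`σ s η` are dense in `W`. `Cyc (Com (rangeAlg σ)) η`: for `w ∈ W` and `ε > 0` there is
`x ∈ Com (rangeAlg ρ)` with `‖x η - w‖ < ε`, and `cmp W x ∈ Com (rangeAlg σ)` (`Sub.cmp_mem`),
`cmp W x η = P_W (x η)` is within `ε` of `w`. Factor: `rangeAlg ρ = Ampl 𝔅`, `𝔅 = rangeAlg π`. If
`x ∈ Com (Ampl 𝔅)` and `x ∈ Com (Com (Ampl 𝔅))` then `x = amp m`, `m ∈ Com (Com 𝔅)`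
(`mem_Com_Com_amp`), and `m ∈ Com 𝔅` because `amp m` commutes with `amp b`; so `m` is a scalar.
Hence `Factor (rangeAlg ρ)`, so `Factor (Com (rangeAlg ρ))` (use `Com (Com (Com 𝔓)) = Com 𝔓`,
`Sf.Com_Com_Com`, or the definition), `Sub.factor` and `Ind_factor` give
`Factor (rangeAlg σ)`. (If `Sub.factor` has another form: the statement wanted is
`∀ x ∈ Com (rangeAlg σ), x ∈ Com (Com (rangeAlg σ)) → ∃ c, x = c • 1`.) -/
theorem exists_cyc_sub {S : Type u} [CStarAlgebra S] {H : Type u} [NormedAddCommGroup H]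
    [InnerProductSpace ℂ H] [CompleteSpace H] [TopologicalSpace.SeparableSpace H] [Nontrivial H]
    (π : S →⋆ₐ[ℂ] (H →L[ℂ] H)) (hF : Factor (rangeAlg π.toNonUnitalStarAlgHom)) {η : HH H}
    (hη : Cyc (Com (rangeAlg (ampRep π))) η) :
    ∃ (W : Submodule ℂ (HH H)) (_ : CompleteSpace W) (σ : S →⋆ₙₐ[ℂ] (W →L[ℂ] W)) (hW : η ∈ W),
      Sub (ampRep π) W σ ∧ σ 1 = 1 ∧ Factor (rangeAlg σ) ∧
      Cyc (rangeAlg σ) (⟨η, hW⟩ : W) ∧ Cyc (Com (rangeAlg σ)) (⟨η, hW⟩ : W) := by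
  set ρ := ampRep π with hρ
  have hρ1 : ρ 1 = 1 := by
    rw [hρ, ampRep_apply, map_one, amp_one]
  have hmemρ : ∀ s, ρ s ∈ rangeAlg ρ := fun s => mem_rangeAlg.mpr ⟨0, s, by simp⟩
  have hinv : ∀ s, ∀ w ∈ Cyc_W (rangeAlg ρ) η, ρ s w ∈ Cyc_W (rangeAlg ρ) η :=
    fun s w hw => Cyc_inv (rangeAlg ρ) η (hmemρ s) hw
  have hηW : η ∈ Cyc_W (rangeAlg ρ) η := Cyc_mem (rangeAlg ρ) η (one_mem _)
  have hcoe := cs_rep_coe ρ (Cyc_W (rangeAlg ρ) η) hinv
  have hsub : Sub ρ (Cyc_W (rangeAlg ρ) η) (cs_rep ρ (Cyc_W (rangeAlg ρ) η) hinv) := ⟨hcoe⟩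
  have hF1 : Factor (rangeAlg ρ) := by
    rw [hρ, rangeAlg_ampRep]
    intro x hx hxc
    obtain ⟨m, hm, rfl⟩ := mem_Com_Com_amp.mp hxc
    have hm1 : m ∈ Com (rangeAlg π.toNonUnitalStarAlgHom) := by
      have h2 := mem_Com_amp.mp hx 0 0
      have h3 : ent 0 0 (amp m) = m := by
        ext z
        rw [ent_apply, amp_inc, pr_inc_same]
      rwa [h3] at h2
    obtain ⟨c, hc⟩ := hF m hm1 hm
    exact ⟨c, by rw [hc, amp_smul, amp_one]⟩
  have hF2 : Factor (Com (rangeAlg ρ)) := by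
    intro x hx hxc
    rw [Com_Com_Com] at hxc
    exact hF1 x hxc hx
  refine ⟨Cyc_W (rangeAlg ρ) η, inferInstance, cs_rep ρ (Cyc_W (rangeAlg ρ) η) hinv, hηW, hsub,
    ?_, ?_, ?_, ?_⟩
  · ext w
    rw [hcoe, hρ1]
    rfl
  · exact hsub.factor hF2
  · intro w
    rw [Metric.mem_closure_iff]
    intro ε hε
    have h1 : (w : HH H) ∈ closure {z | ∃ m ∈ rangeAlg ρ, z = m η} := w.2
    obtain ⟨z, ⟨m, hm, rfl⟩, hz⟩ := Metric.mem_closure_iff.mp h1 ε hε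
    obtain ⟨c, s, rfl⟩ := mem_rangeAlg.mp hm
    refine ⟨(c • 1 + cs_rep ρ (Cyc_W (rangeAlg ρ) η) hinv s) ⟨η, hηW⟩,
      ⟨c • 1 + cs_rep ρ (Cyc_W (rangeAlg ρ) η) hinv s, mem_rangeAlg.mpr ⟨c, s, rfl⟩, rfl⟩, ?_⟩
    have h2 : (((c • 1 + cs_rep ρ (Cyc_W (rangeAlg ρ) η) hinv s) ⟨η, hηW⟩ :
        Cyc_W (rangeAlg ρ) η) : HH H) = (c • 1 + ρ s) η := by
      rw [add_apply, Submodule.coe_add, hcoe]
      rfl
    rw [Subtype.dist_eq, h2]
    exact hz
  · intro w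
    rw [Metric.mem_closure_iff]
    intro ε hε
    obtain ⟨z, ⟨x, hx, rfl⟩, hz⟩ := Metric.mem_closure_iff.mp (hη (w : HH H)) ε hε
    refine ⟨cmp (Cyc_W (rangeAlg ρ) η) x ⟨η, hηW⟩, ⟨_, hsub.cmp_mem hx, rfl⟩, ?_⟩
    rw [Subtype.dist_eq, Ind_cmp_coe]
    have h1 : (Cyc_W (rangeAlg ρ) η).starProjection (w : HH H) = w :=
      Submodule.starProjection_eq_self_iff.mpr w.2
    have h2 : dist (w : HH H) ((Cyc_W (rangeAlg ρ) η).starProjection (x η))
        = ‖(Cyc_W (rangeAlg ρ) η).starProjection ((w : HH H) - x η)‖ := by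
      rw [map_sub, h1, dist_eq_norm]
    have h3 := (Cyc_W (rangeAlg ρ) η).norm_starProjection_apply_le ((w : HH H) - x η)
    rw [dist_eq_norm] at hz
    show dist (w : HH H) ((Cyc_W (rangeAlg ρ) η).starProjection (x η)) < ε
    rw [h2]
    exact lt_of_le_of_lt h3 hz

end Pool.Agent.MP_86f3ed.Nu
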