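import Pool.Agent.H.MP_86f3ed_an.Nu.FS

open scoped InnerProductSpace Topology
open Filter ContinuousLinearMap

namespace Pool.Agent.MP_86f3ed.Nu

variable {K : Type*} [NormedAddCommGroup K] [InnerProductSpace ℂ K] [CompleteSpace K]

theorem fSb_inner_star_mul (X Y : K →L[ℂ] K) (u v : K) :
    ⟪u, (star X * Y) v⟫_ℂ = ⟪X u, Y v⟫_ℂ := by
  show ⟪u, (star X) (Y v)⟫_ℂ = _
  rw [star_eq_adjoint, adjoint_inner_right]

theorem fSb_inner_star (X : K →L[ℂ] K) (u v : K) :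
    ⟪u, (star X) v⟫_ℂ = ⟪X u, v⟫_ℂ := by
  rw [star_eq_adjoint, adjoint_inner_right]

namespace FS

variable (F : FS K)

/-- PROOF. `⟪u, star X u⟫ = ⟪X u, u⟫ = conj ⟪u, X u⟫` (`star_eq_adjoint`, `adjoint_inner_right`). -/
theorem val_star (X : K →L[ℂ] K) : F.val (star X) = (starRingEnd ℂ) (F.val X) := by
  simp only [val, map_sum, map_mul, Complex.conj_ofReal]
  refine Finset.sum_congr rfl fun p _ => ?_
  rw [fSb_inner_star, inner_conj_symm]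

/-- PROOF. `⟪u, (star X * X) u⟫ = ‖X u‖²`, so `val (star X * X) = ∑ l_p² ‖X u_p‖²`. -/
theorem val_star_mul_self (X : K →L[ℂ] K) :
    F.val (star X * X) = ((∑ p, F.l p ^ 2 * ‖X (F.u p)‖ ^ 2 : ℝ) : ℂ) := by
  simp only [val, Complex.ofReal_sum, Complex.ofReal_mul]
  refine Finset.sum_congr rfl fun p _ => ?_
  rw [fSb_inner_star_mul, inner_self_eq_norm_sq_to_K]
  simp

/-- PROOF. `∑ l_p² |⟪u_p, X u_p⟫| ≤ ∑ l_p² ‖X‖ = ‖X‖` (`‖u_p‖ = 1`). -/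
theorem norm_val_le (X : K →L[ℂ] K) : ‖F.val X‖ ≤ ‖X‖ := by
  have h1 : ‖F.val X‖ ≤ ∑ p, F.l p ^ 2 * ‖X‖ := by
    refine (norm_sum_le _ _).trans (Finset.sum_le_sum fun p _ => ?_)
    rw [norm_mul, Complex.norm_real, Real.norm_of_nonneg (sq_nonneg _)]
    refine mul_le_mul_of_nonneg_left ?_ (sq_nonneg _)
    calc ‖⟪F.u p, X (F.u p)⟫_ℂ‖ ≤ ‖F.u p‖ * ‖X (F.u p)‖ := norm_inner_le_norm _ _
      _ ≤ ‖F.u p‖ * (‖X‖ * ‖F.u p‖) := by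
          gcongr
          exact X.le_opNorm _
      _ = ‖X‖ := by rw [F.ortho.1 p]; ring
  rwa [← Finset.sum_mul, F.sum_sq, one_mul] at h1

/-- Cauchy-Schwarz. PROOF. `val (star X * Y) = ∑ l_p² ⟪X u_p, Y u_p⟫`, so
`|..| ≤ ∑ (l_p ‖X u_p‖) (l_p ‖Y u_p‖)`, and `Finset.sum_mul_sq_le_sq_mul_sq` with
`val_star_mul_self`. -/
theorem norm_val_sq_le (X Y : K →L[ℂ] K) :
    ‖F.val (star X * Y)‖ ^ 2 ≤ (F.val (star X * X)).re * (F.val (star Y * Y)).re := by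
  rw [val_star_mul_self, val_star_mul_self, Complex.ofReal_re, Complex.ofReal_re]
  have h1 : ‖F.val (star X * Y)‖ ≤ ∑ p, (F.l p * ‖X (F.u p)‖) * (F.l p * ‖Y (F.u p)‖) := by
    refine (norm_sum_le _ _).trans (Finset.sum_le_sum fun p _ => ?_)
    rw [norm_mul, Complex.norm_real, Real.norm_of_nonneg (sq_nonneg _), fSb_inner_star_mul]
    calc F.l p ^ 2 * ‖⟪X (F.u p), Y (F.u p)⟫_ℂ‖
        ≤ F.l p ^ 2 * (‖X (F.u p)‖ * ‖Y (F.u p)‖) :=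
          mul_le_mul_of_nonneg_left (norm_inner_le_norm _ _) (sq_nonneg _)
      _ = _ := by ring
  calc ‖F.val (star X * Y)‖ ^ 2
      ≤ (∑ p, (F.l p * ‖X (F.u p)‖) * (F.l p * ‖Y (F.u p)‖)) ^ 2 :=
        pow_le_pow_left₀ (norm_nonneg _) h1 2
    _ ≤ (∑ p, (F.l p * ‖X (F.u p)‖) ^ 2) * (∑ p, (F.l p * ‖Y (F.u p)‖) ^ 2) :=
        Finset.sum_mul_sq_le_sq_mul_sq _ _ _
    _ = _ := by simp only [mul_pow]

/-- PROOF. `val X = ∑ l_p² ⟪u_p, X u_p⟫`, all terms have nonnegative real part. -/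
theorem val_nonneg {X : K →L[ℂ] K} (hX : 0 ≤ X) : 0 ≤ (F.val X).re := by
  rw [val, Complex.re_sum]
  refine Finset.sum_nonneg fun p _ => ?_
  rw [Complex.re_ofReal_mul]
  refine mul_nonneg (sq_nonneg _) ?_
  have h := (ContinuousLinearMap.nonneg_iff_isPositive X).1 hX
  exact h.re_inner_nonneg_right (F.u p)

/-- PROOF. `conj (⟪u_p, X u_q⟫ ⟪u_q, Y u_p⟫) = ⟪u_q, star X u_p⟫ ⟪u_p, star Y u_q⟫`; exchange the
two sums. -/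
theorem frm_star (X Y : K →L[ℂ] K) :
    F.frm (star X) (star Y) = (starRingEnd ℂ) (F.frm X Y) := by
  simp only [frm, map_sum, map_mul, Complex.conj_ofReal]
  rw [Finset.sum_comm]
  refine Finset.sum_congr rfl fun p _ => Finset.sum_congr rfl fun q _ => ?_
  rw [fSb_inner_star, fSb_inner_star, inner_conj_symm, inner_conj_symm, mul_comm (F.l q)]

/-- PROOF. For selfadjoint `X`: `⟪u_p, X u_q⟫ ⟪u_q, X u_p⟫ = |⟪u_p, X u_q⟫|²`. -/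
theorem frm_self_nonneg {X : K →L[ℂ] K} (hX : star X = X) : 0 ≤ (F.frm X X).re := by
  rw [frm, Complex.re_sum]
  refine Finset.sum_nonneg fun p _ => ?_
  rw [Complex.re_sum]
  refine Finset.sum_nonneg fun q _ => ?_
  rw [Complex.re_ofReal_mul]
  refine mul_nonneg (mul_nonneg (F.nonneg p) (F.nonneg q)) ?_
  have h : ⟪F.u q, X (F.u p)⟫_ℂ = (starRingEnd ℂ) ⟪F.u p, X (F.u q)⟫_ℂ := by
    rw [inner_conj_symm]
    conv_lhs => rw [← hX]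
    rw [fSb_inner_star]
  rw [h, Complex.mul_conj, Complex.ofReal_re]
  exact Complex.normSq_nonneg _

/-- The bound used in `norm_frm_le`. -/
theorem fSb_sum_le (X : K →L[ℂ] K) :
    ∑ p, ∑ q, (F.l p * F.l q) * ‖⟪F.u p, X (F.u q)⟫_ℂ‖ ^ 2 ≤ ‖X‖ ^ 2 := by
  have hX : ∀ q, ∑ p, ‖⟪F.u p, X (F.u q)⟫_ℂ‖ ^ 2 ≤ ‖X‖ ^ 2 := by
    intro q
    refine (F.ortho.sum_inner_products_le (X (F.u q)) (s := Finset.univ)).trans ?_
    refine pow_le_pow_left₀ (norm_nonneg _) ?_ 2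
    calc ‖X (F.u q)‖ ≤ ‖X‖ * ‖F.u q‖ := X.le_opNorm _
      _ = ‖X‖ := by rw [F.ortho.1 q, mul_one]
  have hX' : ∀ p, ∑ q, ‖⟪F.u p, X (F.u q)⟫_ℂ‖ ^ 2 ≤ ‖X‖ ^ 2 := by
    intro p
    have h1 : ∀ q, ‖⟪F.u p, X (F.u q)⟫_ℂ‖ = ‖⟪F.u q, (star X) (F.u p)⟫_ℂ‖ := by
      intro q
      rw [fSb_inner_star, ← inner_conj_symm, Complex.norm_conj]
    simp only [h1]
    refine (F.ortho.sum_inner_products_le ((star X) (F.u p)) (s := Finset.univ)).trans ?_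
    refine pow_le_pow_left₀ (norm_nonneg _) ?_ 2
    calc ‖(star X) (F.u p)‖ ≤ ‖star X‖ * ‖F.u p‖ := (star X).le_opNorm _
      _ = ‖X‖ := by rw [F.ortho.1 p, mul_one, norm_star]
  have h2 : ∑ p, ∑ q, (F.l p * F.l q) * ‖⟪F.u p, X (F.u q)⟫_ℂ‖ ^ 2 ≤
      ∑ p, ∑ q, (F.l p ^ 2 / 2 * ‖⟪F.u p, X (F.u q)⟫_ℂ‖ ^ 2 +
        F.l q ^ 2 / 2 * ‖⟪F.u p, X (F.u q)⟫_ℂ‖ ^ 2) := by
    refine Finset.sum_le_sum fun p _ => Finset.sum_le_sum fun q _ => ?_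
    rw [← add_mul]
    refine mul_le_mul_of_nonneg_right ?_ (sq_nonneg _)
    nlinarith [sq_nonneg (F.l p - F.l q)]
  refine h2.trans ?_
  simp only [Finset.sum_add_distrib]
  have h3 : ∑ p, ∑ q, F.l p ^ 2 / 2 * ‖⟪F.u p, X (F.u q)⟫_ℂ‖ ^ 2 ≤ ‖X‖ ^ 2 / 2 := by
    calc ∑ p, ∑ q, F.l p ^ 2 / 2 * ‖⟪F.u p, X (F.u q)⟫_ℂ‖ ^ 2
        = ∑ p, F.l p ^ 2 / 2 * ∑ q, ‖⟪F.u p, X (F.u q)⟫_ℂ‖ ^ 2 := by
          simp only [Finset.mul_sum]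
      _ ≤ ∑ p, F.l p ^ 2 / 2 * ‖X‖ ^ 2 :=
          Finset.sum_le_sum fun p _ =>
            mul_le_mul_of_nonneg_left (hX' p) (by positivity)
      _ = (∑ p, F.l p ^ 2) * (‖X‖ ^ 2 / 2) := by
          rw [Finset.sum_mul]
          exact Finset.sum_congr rfl fun p _ => by ring
      _ = ‖X‖ ^ 2 / 2 := by rw [F.sum_sq, one_mul]
  have h4 : ∑ p, ∑ q, F.l q ^ 2 / 2 * ‖⟪F.u p, X (F.u q)⟫_ℂ‖ ^ 2 ≤ ‖X‖ ^ 2 / 2 := by
    rw [Finset.sum_comm]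
    calc ∑ q, ∑ p, F.l q ^ 2 / 2 * ‖⟪F.u p, X (F.u q)⟫_ℂ‖ ^ 2
        = ∑ q, F.l q ^ 2 / 2 * ∑ p, ‖⟪F.u p, X (F.u q)⟫_ℂ‖ ^ 2 := by
          simp only [Finset.mul_sum]
      _ ≤ ∑ q, F.l q ^ 2 / 2 * ‖X‖ ^ 2 :=
          Finset.sum_le_sum fun q _ =>
            mul_le_mul_of_nonneg_left (hX q) (by positivity)
      _ = (∑ q, F.l q ^ 2) * (‖X‖ ^ 2 / 2) := by
          rw [Finset.sum_mul]
          exact Finset.sum_congr rfl fun p _ => by ring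
      _ = ‖X‖ ^ 2 / 2 := by rw [F.sum_sq, one_mul]
  linarith

/-- PROOF. By Cauchy-Schwarz for the sum over pairs,
`|frm X Y|² ≤ (∑ l_p l_q |⟪u_p, X u_q⟫|²) (∑ l_p l_q |⟪u_q, Y u_p⟫|²)`, and
`∑ l_p l_q |⟪u_p, X u_q⟫|² ≤ 1/2 ∑ (l_p² + l_q²) |⟪u_p, X u_q⟫|²`; by Bessel's inequality
(`Orthonormal.sum_inner_products_le` or `Orthonormal.sum_inner_products_le` for finite sums)
`∑_p |⟪u_p, X u_q⟫|² ≤ ‖X u_q‖² ≤ ‖X‖²` and `∑_q |⟪u_p, X u_q⟫|² = ∑_q |⟪star X u_p, u_q⟫|² ≤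
‖star X‖² = ‖X‖²`. So the sum is at most `‖X‖²`. -/
theorem norm_frm_le (X Y : K →L[ℂ] K) : ‖F.frm X Y‖ ≤ ‖X‖ * ‖Y‖ := by
  have hl : ∀ p q, 0 ≤ F.l p * F.l q := fun p q => mul_nonneg (F.nonneg p) (F.nonneg q)
  have h1 : ‖F.frm X Y‖ ≤ ∑ z : Fin F.n × Fin F.n,
      (Real.sqrt (F.l z.1 * F.l z.2) * ‖⟪F.u z.1, X (F.u z.2)⟫_ℂ‖) *
      (Real.sqrt (F.l z.1 * F.l z.2) * ‖⟪F.u z.2, Y (F.u z.1)⟫_ℂ‖) := by
    rw [Fintype.sum_prod_type]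
    refine (norm_sum_le _ _).trans (Finset.sum_le_sum fun p _ => ?_)
    refine (norm_sum_le _ _).trans (Finset.sum_le_sum fun q _ => ?_)
    rw [norm_mul, norm_mul, Complex.norm_real, Real.norm_of_nonneg (hl p q)]
    have := Real.mul_self_sqrt (hl p q)
    refine le_of_eq ?_
    calc F.l p * F.l q * (‖⟪F.u p, X (F.u q)⟫_ℂ‖ * ‖⟪F.u q, Y (F.u p)⟫_ℂ‖)
        = (Real.sqrt (F.l p * F.l q) * Real.sqrt (F.l p * F.l q)) *
          (‖⟪F.u p, X (F.u q)⟫_ℂ‖ * ‖⟪F.u q, Y (F.u p)⟫_ℂ‖) := by rw [this]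
      _ = _ := by ring
  have h2 : ∑ z : Fin F.n × Fin F.n,
      (Real.sqrt (F.l z.1 * F.l z.2) * ‖⟪F.u z.1, X (F.u z.2)⟫_ℂ‖) ^ 2 ≤ ‖X‖ ^ 2 := by
    rw [Fintype.sum_prod_type]
    refine le_trans (le_of_eq ?_) (F.fSb_sum_le X)
    refine Finset.sum_congr rfl fun p _ => Finset.sum_congr rfl fun q _ => ?_
    rw [mul_pow, Real.sq_sqrt (hl p q)]
  have h3 : ∑ z : Fin F.n × Fin F.n,
      (Real.sqrt (F.l z.1 * F.l z.2) * ‖⟪F.u z.2, Y (F.u z.1)⟫_ℂ‖) ^ 2 ≤ ‖Y‖ ^ 2 := by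
    rw [Fintype.sum_prod_type, Finset.sum_comm]
    refine le_trans (le_of_eq ?_) (F.fSb_sum_le Y)
    refine Finset.sum_congr rfl fun p _ => Finset.sum_congr rfl fun q _ => ?_
    rw [mul_pow, Real.sq_sqrt (hl q p), mul_comm (F.l q)]
  have h4 : ‖F.frm X Y‖ ^ 2 ≤ (‖X‖ * ‖Y‖) ^ 2 := by
    refine (pow_le_pow_left₀ (norm_nonneg _) h1 2).trans ?_
    refine (Finset.sum_mul_sq_le_sq_mul_sq _ _ _).trans ?_
    rw [mul_pow]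
    exact mul_le_mul h2 h3 (Finset.sum_nonneg fun _ _ => sq_nonneg _) (sq_nonneg _)
  exact le_of_sq_le_sq h4 (by positivity)

/-- PROOF (Schur product). Let `A = √X`, `B = √Y` (`CFC.sqrt`, selfadjoint, `A * A = X`). Then
`frm X Y = ∑_{pq} l_p l_q ⟪A u_p, A u_q⟫ ⟪B u_q, B u_p⟫`. Let `W` be the (finite-dimensional) span of
the vectors `B u_p` and `e` an orthonormal basis of `W` (`stdOrthonormalBasis ℂ W`); then
`⟪B u_q, B u_p⟫ = ∑_r ⟪B u_q, e_r⟫ ⟪e_r, B u_p⟫`, and so `frm X Y = ∑_r ‖∑_p l_p ⟪B u_p, e_r⟫ • A u_p‖²`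
(inner product linear in the second, conjugate linear in the first variable). -/
theorem frm_nonneg {X Y : K →L[ℂ] K} (hX : 0 ≤ X) (hY : 0 ≤ Y) : 0 ≤ (F.frm X Y).re := by
  obtain ⟨A, hA⟩ := CStarAlgebra.nonneg_iff_eq_star_mul_self.1 hX
  obtain ⟨B, hB⟩ := CStarAlgebra.nonneg_iff_eq_star_mul_self.1 hY
  let W : Submodule ℂ K := Submodule.span ℂ (Set.range fun p => B (F.u p))
  have hW : ∀ p, B (F.u p) ∈ W := fun p => Submodule.subset_span ⟨p, rfl⟩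
  haveI : FiniteDimensional ℂ W := FiniteDimensional.span_of_finite ℂ (Set.finite_range _)
  let e := stdOrthonormalBasis ℂ W
  have he : ∀ p q, ⟪B (F.u q), B (F.u p)⟫_ℂ =
      ∑ r, ⟪B (F.u q), (e r : K)⟫_ℂ * ⟪(e r : K), B (F.u p)⟫_ℂ := by
    intro p q
    have := e.sum_inner_mul_inner (⟨B (F.u q), hW q⟩ : W) (⟨B (F.u p), hW p⟩ : W)
    simpa only [Submodule.coe_inner] using this.symm
  have h1 : F.frm X Y = ∑ r, ⟪∑ p, ((F.l p : ℂ) * ⟪B (F.u p), (e r : K)⟫_ℂ) • A (F.u p),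
      ∑ q, ((F.l q : ℂ) * ⟪B (F.u q), (e r : K)⟫_ℂ) • A (F.u q)⟫_ℂ := by
    have h2 : ∀ r, ⟪∑ p, ((F.l p : ℂ) * ⟪B (F.u p), (e r : K)⟫_ℂ) • A (F.u p),
        ∑ q, ((F.l q : ℂ) * ⟪B (F.u q), (e r : K)⟫_ℂ) • A (F.u q)⟫_ℂ =
        ∑ p, ∑ q, ((F.l p * F.l q : ℝ) : ℂ) * (⟪A (F.u p), A (F.u q)⟫_ℂ *
          (⟪B (F.u q), (e r : K)⟫_ℂ * ⟪(e r : K), B (F.u p)⟫_ℂ)) := by
      intro r
      rw [sum_inner]
      refine Finset.sum_congr rfl fun p _ => ?_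
      rw [inner_sum]
      refine Finset.sum_congr rfl fun q _ => ?_
      rw [inner_smul_left, inner_smul_right, map_mul, Complex.conj_ofReal, inner_conj_symm]
      push_cast
      ring
    simp only [h2]
    rw [Finset.sum_comm, frm]
    refine Finset.sum_congr rfl fun p _ => ?_
    rw [Finset.sum_comm]
    refine Finset.sum_congr rfl fun q _ => ?_
    rw [← Finset.mul_sum, ← Finset.mul_sum, ← he p q, hA, hB, fSb_inner_star_mul,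
      fSb_inner_star_mul]
  rw [h1, Complex.re_sum]
  refine Finset.sum_nonneg fun r _ => ?_
  exact inner_self_nonneg (𝕜 := ℂ)

end FS

end Pool.Agent.MP_86f3ed.Nu
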