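import Pool.Agent.H.MP_86f3ed_an.Nu.LevFD
import Pool.Agent.H.MP_86f3ed_an.Nu.FSb

open scoped InnerProductSpace Topology
open Filter ContinuousLinearMap

namespace Pool.Agent.MP_86f3ed.Nu

section LevKV

set_option linter.unusedSectionVars false

variable {V : Type*} [NormedAddCommGroup V] [InnerProductSpace ℂ V] [FiniteDimensional ℂ V]
  [CompleteSpace V]

theorem levK_tr_rankOne (T : V →L[ℂ] V) (x y : V) :
    tr (T * InnerProductSpace.rankOne ℂ x y) = ⟪y, T x⟫_ℂ := by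
  have h : T * InnerProductSpace.rankOne ℂ x y = InnerProductSpace.rankOne ℂ (T x) y :=
    InnerProductSpace.comp_rankOne x y T
  rw [h]
  exact InnerProductSpace.trace_rankOne (T x) y

theorem levK_tr_mul_sum {n : ℕ} (T : V →L[ℂ] V) (a : Fin n → ℂ) (x : Fin n → V) :
    tr (T * ∑ p, a p • InnerProductSpace.rankOne ℂ (x p) (x p)) = ∑ p, a p * ⟪x p, T (x p)⟫_ℂ := by
  have hsum : ∀ s : Finset (Fin n), tr (T * ∑ p ∈ s, a p • InnerProductSpace.rankOne ℂ (x p) (x p)) =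
      ∑ p ∈ s, a p * ⟪x p, T (x p)⟫_ℂ := by
    intro s
    induction s using Finset.induction_on with
    | empty => simp [tr]
    | insert i s hi ih =>
      rw [Finset.sum_insert hi, Finset.sum_insert hi, mul_add, tr_add, ih, mul_smul_comm, tr_smul,
        levK_tr_rankOne]
  exact hsum Finset.univ

theorem levK_nonneg {n : ℕ} (a : Fin n → ℝ) (ha : ∀ p, 0 ≤ a p) (x : Fin n → V) :
    0 ≤ ∑ p, ((a p : ℝ) : ℂ) • InnerProductSpace.rankOne ℂ (x p) (x p) := by
  refine Finset.sum_nonneg fun p _ => ?_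
  rw [ContinuousLinearMap.nonneg_iff_isPositive]
  exact (InnerProductSpace.isPositive_rankOne_self (x p)).smul_of_nonneg (by exact_mod_cast ha p)

end LevKV

variable {K : Type*} [NormedAddCommGroup K] [InnerProductSpace ℂ K] [CompleteSpace K]

theorem levK_nonneg_conj (U : Submodule ℂ K) [CompleteSpace U] {Y : U →L[ℂ] U} (hY : 0 ≤ Y) :
    0 ≤ U.subtypeL ∘L Y ∘L U.orthogonalProjectionOnto := by
  rw [ContinuousLinearMap.nonneg_iff_isPositive] at hY ⊢
  have h := hY.conj_adjoint U.subtypeL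
  rwa [Submodule.adjoint_subtypeL] at h

theorem levK_le_one_conj (U : Submodule ℂ K) [CompleteSpace U] {Y : U →L[ℂ] U} (hY : Y ≤ 1) :
    U.subtypeL ∘L Y ∘L U.orthogonalProjectionOnto ≤ 1 := by
  have h1 : 0 ≤ U.subtypeL ∘L (1 - Y) ∘L U.orthogonalProjectionOnto :=
    levK_nonneg_conj U (sub_nonneg.mpr hY)
  have h2 : 0 ≤ (1 : K →L[ℂ] K) - U.subtypeL ∘L U.orthogonalProjectionOnto := by
    rw [ContinuousLinearMap.nonneg_iff_isPositive]
    have h3 : (1 : K →L[ℂ] K) - U.subtypeL ∘L U.orthogonalProjectionOnto =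
        Uᗮ.starProjection := by
      rw [Submodule.starProjection_orthogonal]
      rfl
    rw [h3]
    exact (ContinuousLinearMap.IsPositive.of_isStarProjection isStarProjection_starProjection)
  have h4 : (1 : K →L[ℂ] K) - U.subtypeL ∘L Y ∘L U.orthogonalProjectionOnto =
      (1 - U.subtypeL ∘L U.orthogonalProjectionOnto) +
        U.subtypeL ∘L (1 - Y) ∘L U.orthogonalProjectionOnto := by
    ext x
    simp
  rw [← sub_nonneg, h4]
  exact add_nonneg h2 h1

/-- The level lemma for a finite rank density operator.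

PROOF. Let `V` be the span of all `u_p` and all `c u_p` (finite-dimensional), `j = V.subtypeL`,
`P = V.orthogonalProjectionOnto` (or `V.orthogonalProjection`, the adjoint of `j`). For `X` on `K` put
`X' = P X j` on `V` (`‖X'‖ ≤ ‖X‖`). For vectors `u'_p = ⟨u_p, _⟩` of `V`, `w'_p = ⟨c u_p, _⟩` put
`g = ∑ l_p |u'_p⟩⟨u'_p|`, `D = ∑ l_p² |w'_p⟩⟨w'_p|`, where `|x⟩⟨y| v = ⟪y, v⟫ • x`
(`InnerProductSpace.rankOne` in Mathlib, or
`(innerSL ℂ y).smulRight x`). Then `g, D ≥ 0`, `g g = ∑ l_p² |u'_p⟩⟨u'_p|`, `tr (g g) = 1`, and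
(`tr (X |x⟩⟨y|) = ⟪y, X x⟫`, e.g. from `tr_eq_sum` or `LinearMap.trace` of a rank one map)
`tr (X' (g Y g)) = ∑_{pq} l_p l_q ⟪u_p, X u_q⟫ ⟪u'_q, Y u'_p⟫`,
`tr (X' D) = ∑ l_p² ⟪c u_p, X c u_p⟫ = val (star c * X * c)`. `level_fd` gives `p₁, Y₁` on `V`; put
`p = j p₁ P`, `Y = j Y₁ P` on `K`. They are in `[0, 1]` (`⟪x, j Y₁ P x⟫ = ⟪P x, Y₁ P x⟫`, `‖P x‖ ≤ ‖x‖`),
`⟪u_q, Y u_p⟫ = ⟪u'_q, Y₁ u'_p⟫`, `tr (D p₁) = val (star c * p * c)`, `tr (g g p₁) = val p`. -/
theorem FS.level (F : FS K) (c : K →L[ℂ] K) {ε : ℝ} (hε : 0 < ε) :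
    ∃ p Y : K →L[ℂ] K, 0 ≤ p ∧ p ≤ 1 ∧ 0 ≤ Y ∧ Y ≤ 1 ∧
      0 ≤ (F.val (star c * p * c) - F.val p).re ∧
      ∀ X : K →L[ℂ] K, ‖F.frm X Y - F.val (star c * X * c)‖ ≤
        ‖X‖ * (2 * Real.sqrt ((F.val (star c * p * c) - F.val p).re + ε) +
          ((F.val (star c * p * c) - F.val p).re + ε)) := by
  classical
  obtain ⟨U, hU1, hU2, hUf⟩ : ∃ U : Submodule ℂ K, (∀ p, F.u p ∈ U) ∧ (∀ p, c (F.u p) ∈ U) ∧
      FiniteDimensional ℂ U := by
    refine ⟨Submodule.span ℂ (Set.range F.u ∪ Set.range (fun p => c (F.u p))), ?_, ?_, ?_⟩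
    · intro p
      exact Submodule.subset_span (Or.inl ⟨p, rfl⟩)
    · intro p
      exact Submodule.subset_span (Or.inr ⟨p, rfl⟩)
    · exact FiniteDimensional.span_of_finite ℂ ((Set.finite_range _).union (Set.finite_range _))
  have : CompleteSpace U := FiniteDimensional.complete ℂ U
  set u' : Fin F.n → U := fun p => ⟨F.u p, hU1 p⟩ with hu'
  set w' : Fin F.n → U := fun p => ⟨c (F.u p), hU2 p⟩ with hw'
  set g : U →L[ℂ] U := ∑ p, ((F.l p : ℝ) : ℂ) • InnerProductSpace.rankOne ℂ (u' p) (u' p) with hgdef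
  set D : U →L[ℂ] U := ∑ p, ((F.l p ^ 2 : ℝ) : ℂ) • InnerProductSpace.rankOne ℂ (w' p) (w' p)
    with hDdef
  have hg : 0 ≤ g := levK_nonneg F.l F.nonneg u'
  have hD : 0 ≤ D := levK_nonneg (fun p => F.l p ^ 2) (fun p => sq_nonneg _) w'
  -- orthonormality of `u'`
  have hort : ∀ p q, ⟪u' p, u' q⟫_ℂ = if p = q then 1 else 0 := by
    intro p q
    rw [Submodule.coe_inner]
    exact orthonormal_iff_ite.mp F.ortho p q
  have hgapp : ∀ v : U, g v = ∑ p, (((F.l p : ℝ) : ℂ) * ⟪u' p, v⟫_ℂ) • u' p := by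
    intro v
    simp only [hgdef, sum_apply, smul_apply,
      InnerProductSpace.rankOne_apply, smul_smul]
  have hgg : g * g = ∑ p, ((F.l p ^ 2 : ℝ) : ℂ) • InnerProductSpace.rankOne ℂ (u' p) (u' p) := by
    refine ContinuousLinearMap.ext fun v => ?_
    rw [mul_apply_eq_comp, hgapp (g v)]
    simp only [sum_apply, smul_apply,
      InnerProductSpace.rankOne_apply, smul_smul]
    refine Finset.sum_congr rfl fun p _ => ?_
    congr 1
    rw [hgapp v, inner_sum]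
    simp only [inner_smul_right, hort]
    simp only [mul_ite, mul_one, mul_zero, Finset.sum_ite_eq, Finset.mem_univ, if_true]
    push_cast
    ring
  have h1 : (tr (g * g)).re = 1 := by
    have h2 : tr (g * g) = 1 := by
      rw [← one_mul (g * g), hgg, levK_tr_mul_sum]
      have h3 : ∀ p, ⟪u' p, (1 : U →L[ℂ] U) (u' p)⟫_ℂ = 1 := by
        intro p
        rw [one_apply_eq_self, hort p p, if_pos rfl]
      simp only [h3, mul_one]
      exact_mod_cast F.sum_sq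
    rw [h2, Complex.one_re]
  obtain ⟨p₁, Y₁, hp0, hp1, hY0, hY1, hpos, hX⟩ := level_fd hg hD h1 hε
  set P := U.orthogonalProjectionOnto with hP
  have hPin : ∀ (x : U) (y : K), ⟪x, P y⟫_ℂ = ⟪(x : K), y⟫_ℂ := by
    intro x y
    rw [hP, ← Submodule.adjoint_subtypeL, ContinuousLinearMap.adjoint_inner_right]
    rfl
  have hPu : ∀ p, P (F.u p) = u' p := fun p =>
    Submodule.orthogonalProjectionOnto_mem_subspace_eq_self (u' p)
  have hPw : ∀ p, P (c (F.u p)) = w' p := fun p =>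
    Submodule.orthogonalProjectionOnto_mem_subspace_eq_self (w' p)
  -- values of operators from `U`
  have hval : ∀ Z : U →L[ℂ] U, F.val (U.subtypeL ∘L Z ∘L P) = tr (Z * (g * g)) := by
    intro Z
    rw [hgg, levK_tr_mul_sum, FS.val]
    refine Finset.sum_congr rfl fun p _ => ?_
    congr 1
    rw [ContinuousLinearMap.comp_apply, ContinuousLinearMap.comp_apply, hPu p,
      Submodule.coe_inner]
    rfl
  have hvalc : ∀ X : K →L[ℂ] K, F.val (star c * X * c) =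
      ∑ p, ((F.l p ^ 2 : ℝ) : ℂ) * ⟪c (F.u p), X (c (F.u p))⟫_ℂ := by
    intro X
    rw [FS.val]
    refine Finset.sum_congr rfl fun p _ => ?_
    congr 1
    rw [mul_apply_eq_comp, mul_apply_eq_comp,
      ContinuousLinearMap.star_eq_adjoint, ContinuousLinearMap.adjoint_inner_right]
  have hvalcU : ∀ Z : U →L[ℂ] U, F.val (star c * (U.subtypeL ∘L Z ∘L P) * c) = tr (Z * D) := by
    intro Z
    rw [hDdef, levK_tr_mul_sum, hvalc]
    refine Finset.sum_congr rfl fun p _ => ?_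
    congr 1
    rw [ContinuousLinearMap.comp_apply, ContinuousLinearMap.comp_apply, hPw p,
      Submodule.coe_inner]
    rfl
  have hvalX : ∀ X : K →L[ℂ] K, F.val (star c * X * c) = tr ((P ∘L X ∘L U.subtypeL) * D) := by
    intro X
    rw [hDdef, levK_tr_mul_sum, hvalc]
    refine Finset.sum_congr rfl fun p _ => ?_
    congr 1
    rw [ContinuousLinearMap.comp_apply, hPin]
    rfl
  have hfrm : ∀ X : K →L[ℂ] K, F.frm X (U.subtypeL ∘L Y₁ ∘L P) =
      tr ((P ∘L X ∘L U.subtypeL) * (g * Y₁ * g)) := by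
    intro X
    rw [← mul_assoc, ← mul_assoc]
    conv_rhs => rw [hgdef]
    rw [levK_tr_mul_sum, FS.frm]
    refine Finset.sum_congr rfl fun p _ => ?_
    rw [mul_apply_eq_comp, mul_apply_eq_comp]
    have h5 : (∑ p, ((F.l p : ℝ) : ℂ) • InnerProductSpace.rankOne ℂ (u' p) (u' p) : U →L[ℂ] U) = g :=
      rfl
    rw [h5, hgapp, map_sum, inner_sum, Finset.mul_sum]
    refine Finset.sum_congr rfl fun q _ => ?_
    have h6 : ⟪F.u q, (U.subtypeL ∘L Y₁ ∘L P) (F.u p)⟫_ℂ = ⟪u' q, Y₁ (u' p)⟫_ℂ := by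
      rw [ContinuousLinearMap.comp_apply, ContinuousLinearMap.comp_apply, hPu p,
        Submodule.coe_inner]
      rfl
    have h7 : ⟪u' p, (P ∘L X ∘L U.subtypeL) (u' q)⟫_ℂ = ⟪F.u p, X (F.u q)⟫_ℂ := by
      rw [ContinuousLinearMap.comp_apply, hPin]
      rfl
    rw [map_smul, inner_smul_right, h6, h7]
    push_cast
    ring
  have hdiff : tr ((D - g * g) * p₁) =
      F.val (star c * (U.subtypeL ∘L p₁ ∘L P) * c) - F.val (U.subtypeL ∘L p₁ ∘L P) := by
    rw [hvalcU, hval, tr_mul_comm, mul_sub, tr_sub]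
  refine ⟨U.subtypeL ∘L p₁ ∘L P, U.subtypeL ∘L Y₁ ∘L P, levK_nonneg_conj U hp0,
    levK_le_one_conj U hp1, levK_nonneg_conj U hY0, levK_le_one_conj U hY1, ?_, ?_⟩
  · rw [← hdiff]
    exact hpos
  · intro X
    rw [← hdiff, hfrm X, hvalX X]
    refine (hX (P ∘L X ∘L U.subtypeL)).trans ?_
    refine mul_le_mul_of_nonneg_right ?_ ?_
    · have h9 : ‖P ∘L X ∘L U.subtypeL‖ ≤ ‖P‖ * (‖X‖ * ‖U.subtypeL‖) :=
        (ContinuousLinearMap.opNorm_comp_le _ _).trans
          (mul_le_mul_of_nonneg_left (ContinuousLinearMap.opNorm_comp_le _ _) (norm_nonneg _))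
      have h10 : ‖P‖ ≤ 1 := Submodule.orthogonalProjectionOnto_norm_le U
      have h11 : ‖U.subtypeL‖ ≤ 1 := Submodule.norm_subtypeL_le U
      have h12 : ‖X‖ * ‖U.subtypeL‖ ≤ ‖X‖ := by
        have := mul_le_mul_of_nonneg_left h11 (norm_nonneg X)
        linarith
      have h13 : ‖P‖ * (‖X‖ * ‖U.subtypeL‖) ≤ 1 * ‖X‖ :=
        mul_le_mul h10 h12 (mul_nonneg (norm_nonneg X) (ContinuousLinearMap.opNorm_nonneg U.subtypeL))
          zero_le_one
      linarith
    · have h14 := Real.sqrt_nonneg ((tr ((D - g * g) * p₁)).re + ε)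
      linarith
end Pool.Agent.MP_86f3ed.Nu
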