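import Pool.Agent.H.MP_86f3ed_an.Nu.Et
import Pool.Agent.H.MP_86f3ed_an.Nu.LevK

open scoped InnerProductSpace Topology
open Filter ContinuousLinearMap

namespace Pool.Agent.MP_86f3ed.Nu

open Pin Ty

universe v

variable {K : Type v} [NormedAddCommGroup K] [InnerProductSpace ℂ K] [CompleteSpace K]
  {P : StarSubalgebra ℂ (K →L[ℂ] K)} {Ω : K} {I : Type v} {𝒰 : Ultrafilter I} {S : I → FS K}
  {J : K → K}

theorem Dag_sqrt (G : K →L[ℂ] K) (hG : 0 ≤ G) : ∃ r : K →L[ℂ] K, 0 ≤ r ∧ r * r = G ∧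
    ∀ b, Commute G b → Commute r b := by
  refine ⟨CFC.sqrt G, CFC.sqrt_nonneg G, CFC.sqrt_mul_sqrt_self G hG, ?_⟩
  intro b hb
  rw [CFC.sqrt]
  exact hb.cfcₙ_nnreal _

theorem Dag_isE_unique (cyc : Cyc P Ω) {X : I → K →L[ℂ] K} {T T' : K →L[ℂ] K}
    (h : IsE P Ω 𝒰 S X T) (h' : IsE P Ω 𝒰 S X T') : T = T' := by
  have key : ∀ c ∈ P, ∀ c' ∈ P, ⟪c' Ω, T (c Ω)⟫_ℂ = ⟪c' Ω, T' (c Ω)⟫_ℂ := fun c hc c' hc' =>
    tendsto_nhds_unique (h.lim c hc c' hc') (h'.lim c hc c' hc')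
  have h1 : ∀ c ∈ P, T (c Ω) = T' (c Ω) := by
    intro c hc
    have h2 : ∀ x, ⟪x, T (c Ω)⟫_ℂ = ⟪x, T' (c Ω)⟫_ℂ := by
      have hcl : IsClosed {x : K | ⟪x, T (c Ω)⟫_ℂ = ⟪x, T' (c Ω)⟫_ℂ} :=
        isClosed_eq (by fun_prop) (by fun_prop)
      intro x
      refine hcl.closure_subset_iff.2 ?_ (cyc x)
      rintro _ ⟨c', hc', rfl⟩
      exact key c hc c' hc'
    exact ext_inner_left ℂ h2
  refine ContinuousLinearMap.ext fun x => ?_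
  have hcl : IsClosed {x : K | T x = T' x} := isClosed_eq T.continuous T'.continuous
  refine hcl.closure_subset_iff.2 ?_ (cyc x)
  rintro _ ⟨c, hc, rfl⟩
  exact h1 c hc

/-- For `0 ≤ b ≤ 1` in `P` there is `g ∈ Com P`, `0 ≤ g ≤ 1`, with `g (g Ω) = J (b Ω)`.

PROOF. `s = CFC.sqrt b ∈ P` (`exists_sqrt` in `Trc/Root.lean`: it commutes with everything commuting
with `b`, so `s ∈ Com (Com P) = P`), `0 ≤ s ≤ 1`. `M_to_N`: `g ∈ Com P` with `g x = J (s (J x))`.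
`⟪x, J y⟫ = ⟪y, J x⟫` (`inner` and `invol`), so `⟪x, g x⟫ = ⟪x, J (s (J x))⟫ = ⟪s (J x), J x⟫`, real in
`[0, ‖J x‖²] = [0, ‖x‖²]`; hence `0 ≤ g ≤ 1`. `g (g Ω) = J (s (J (J (s (J Ω))))) = J (s (s Ω)) =
J (b Ω)`. -/
theorem exists_root_com (bic : Com (Com P) = P) (hJ : TomitaJ P Ω J) {b : K →L[ℂ] K} (hb : b ∈ P)
    (h0 : 0 ≤ b) (h1 : b ≤ 1) : ∃ g ∈ Com P, 0 ≤ g ∧ g ≤ 1 ∧ g (g Ω) = J (b Ω) := by
  obtain ⟨s, hs0, hss, hsc⟩ := Dag_sqrt b h0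
  have hsP : s ∈ P := by
    rw [← bic, mem_Com]
    intro x hx
    exact (hsc x (mem_Com.1 hx b hb)).eq.symm
  have hssa : star s = s := (IsSelfAdjoint.of_nonneg hs0).star_eq
  have hs1 : ‖s‖ ≤ 1 := by
    have e : ‖s‖ * ‖s‖ = ‖b‖ := by
      rw [← CStarRing.norm_star_mul_self, hssa, hss]
    have hb1 : ‖b‖ ≤ 1 := norm_le_one_of h0 h1
    nlinarith [norm_nonneg s]
  obtain ⟨g, hg, hgx⟩ := hJ.M_to_N s hsP
  have hJn : ∀ x, ‖J x‖ = ‖x‖ := by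
    intro x
    have e := hJ.inner x x
    rw [inner_self_eq_norm_sq_to_K, inner_self_eq_norm_sq_to_K] at e
    have e2 : ‖J x‖ ^ 2 = ‖x‖ ^ 2 := by exact_mod_cast e
    exact (sq_eq_sq₀ (norm_nonneg _) (norm_nonneg _)).1 e2
  have hg0 : 0 ≤ g := by
    rw [ContinuousLinearMap.nonneg_iff_isPositive, ContinuousLinearMap.isPositive_iff_complex]
    intro x
    have hpos := (ContinuousLinearMap.isPositive_iff_complex s).1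
      ((ContinuousLinearMap.nonneg_iff_isPositive s).1 hs0) (J x)
    have e : ⟪g x, x⟫_ℂ = ⟪s (J x), J x⟫_ℂ := by
      have e1 : ⟪g x, x⟫_ℂ = ⟪J (s (J x)), J (J x)⟫_ℂ := by rw [hgx, hJ.invol]
      rw [e1, hJ.inner]
      have e2 : ⟪J x, s (J x)⟫_ℂ = ⟪(star s) (J x), J x⟫_ℂ := by
        rw [star_eq_adjoint, adjoint_inner_left]
      rw [e2, hssa]
    rw [e]
    exact hpos
  have hgn : ‖g‖ ≤ 1 := by
    refine g.opNorm_le_bound zero_le_one fun x => ?_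
    rw [← hgx, hJn, one_mul]
    calc ‖s (J x)‖ ≤ ‖s‖ * ‖J x‖ := s.le_opNorm _
      _ ≤ 1 * ‖J x‖ := mul_le_mul_of_nonneg_right hs1 (norm_nonneg _)
      _ = ‖x‖ := by rw [one_mul, hJn]
  refine ⟨g, hg, hg0, (CStarAlgebra.norm_le_one_iff_of_nonneg g hg0).1 hgn, ?_⟩
  rw [← hgx Ω, ← hgx, hJ.invol, hJ.fix]
  have e : s (s Ω) = (s * s) Ω := rfl
  rw [e, hss]

/-- The adjoint relation.

PROOF. Let `g` be as in `exists_root_com` and let `0 < τ ≤ 1` be small (depending on `δ` only; e.g.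
with `3 √τ`-type estimates below, `τ = (δ/20)²` and `τ ≤ 1`). By `cyc` choose `c ∈ P` with
`‖c Ω - g Ω‖ ≤ τ`; `‖c Ω‖ ≤ 2`, `‖g Ω‖ ≤ 1`. For every `i` let `p i, Y i` be given by `FS.level` for
`S i`, `c` and `ε = τ`. This `Y` works. Let `t i = re (val (star c * p i * c) - val (p i)) ≥ 0`.
`p` has an expectation `T_p` (`Sys.exists_E`), `0 ≤ T_p ≤ 1` (`IsE.mem_Icc`), and
`lim t i = re (⟪c Ω, T_p c Ω⟫ - ⟪Ω, T_p Ω⟫)` (`IsE.lim` with `c' = c` and with `c = c' = 1`)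
`≤ re ⟪g Ω, T_p g Ω⟫ + 3 τ - re ⟪Ω, T_p Ω⟫ ≤ 3 τ`, because
`|⟪c Ω, T c Ω⟫ - ⟪g Ω, T g Ω⟫| ≤ ‖T‖ τ (‖c Ω‖ + ‖g Ω‖) ≤ 3 τ ‖T‖` and
`⟪g Ω, T_p g Ω⟫ = ‖√T_p g Ω‖² = ‖g √T_p Ω‖² ≤ ‖√T_p Ω‖² = ⟪Ω, T_p Ω⟫` (`√T_p` commutes with
`g` since `T_p ∈ P`, `g ∈ Com P`; `exists_sqrt`). So eventually `t i ≤ 4 τ`.
For `X`, `T` as in the statement: `|frm (X i) (Y i) - val (star c * X i * c)| ≤ 2 √(5 τ) + 5 τ`
eventually, `val (star c * X i * c) → ⟪c Ω, T c Ω⟫`, `‖T‖ ≤ 1` (from `Sys.exists_E` and uniqueness of the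
expectation, or directly from the limit), `|⟪c Ω, T c Ω⟫ - ⟪g Ω, T g Ω⟫| ≤ 3 τ` and
`⟪g Ω, T g Ω⟫ = ⟪Ω, T g g Ω⟫ = ⟪Ω, T (J (b Ω))⟫` (`star g = g` commutes with `T ∈ P`). -/
theorem Sys.dag (h : Sys P Ω 𝒰 S) (bic : Com (Com P) = P) (cyc : Cyc P Ω) (hΩ : ‖Ω‖ = 1)
    (hJ : TomitaJ P Ω J) {b : K →L[ℂ] K} (hb : b ∈ P) (h0 : 0 ≤ b) (h1 : b ≤ 1) {δ : ℝ}
    (hδ : 0 < δ) :
    ∃ Y : I → K →L[ℂ] K, (∀ i, 0 ≤ Y i ∧ Y i ≤ 1) ∧ ∀ (X : I → K →L[ℂ] K) (T : K →L[ℂ] K),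
      (∀ i, ‖X i‖ ≤ 1) → IsE P Ω 𝒰 S X T →
      ∀ᶠ i in 𝒰, ‖(S i).frm (X i) (Y i) - ⟪Ω, T (J (b Ω))⟫_ℂ‖ ≤ δ := by
  obtain ⟨g, hg, hg0, hg1, hgg⟩ := exists_root_com bic hJ hb h0 h1
  obtain ⟨σ, hσ0, hσ1, hσδ⟩ : ∃ σ : ℝ, 0 < σ ∧ σ ≤ 1 ∧ σ ≤ δ / 20 :=
    ⟨min 1 (δ / 20), lt_min one_pos (by positivity), min_le_left _ _, min_le_right _ _⟩
  obtain ⟨τ, hτ⟩ : ∃ τ : ℝ, τ = σ ^ 2 := ⟨_, rfl⟩
  have hτ0 : 0 < τ := by rw [hτ]; positivity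
  have hτσ : τ ≤ σ := by rw [hτ]; nlinarith
  obtain ⟨w, hw, c, hc, rfl⟩ := Metric.dense_iff.1 cyc (g Ω) τ hτ0
  have hcg : ‖c Ω - g Ω‖ ≤ τ := by
    have := Metric.mem_ball.1 hw
    rw [dist_eq_norm] at this
    exact this.le
  choose p Y hp0 hp1 hY0 hY1 _ hYX using fun i => (S i).level c hτ0
  refine ⟨Y, fun i => ⟨hY0 i, hY1 i⟩, ?_⟩
  intro X T hX hT
  have hgs : star g = g := (IsSelfAdjoint.of_nonneg hg0).star_eq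
  have hgn : ‖g‖ ≤ 1 := norm_le_one_of hg0 hg1
  have hgΩ : ‖g Ω‖ ≤ 1 := by
    refine (g.le_opNorm Ω).trans ?_
    rw [hΩ, mul_one]
    exact hgn
  have hcΩ : ‖c Ω‖ ≤ 2 := by
    have e : ‖c Ω‖ ≤ ‖c Ω - g Ω‖ + ‖g Ω‖ := by
      have := norm_add_le (c Ω - g Ω) (g Ω)
      rwa [sub_add_cancel] at this
    linarith
  have close : ∀ T' : K →L[ℂ] K, ‖T'‖ ≤ 1 →
      ‖⟪c Ω, T' (c Ω)⟫_ℂ - ⟪g Ω, T' (g Ω)⟫_ℂ‖ ≤ 3 * τ := by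
    intro T' hT'
    have hT'n : ∀ x, ‖T' x‖ ≤ ‖x‖ := fun x => by
      refine (T'.le_opNorm x).trans ?_
      calc ‖T'‖ * ‖x‖ ≤ 1 * ‖x‖ := mul_le_mul_of_nonneg_right hT' (norm_nonneg _)
        _ = ‖x‖ := one_mul _
    have e : ⟪c Ω, T' (c Ω)⟫_ℂ - ⟪g Ω, T' (g Ω)⟫_ℂ =
        ⟪c Ω - g Ω, T' (c Ω)⟫_ℂ + ⟪g Ω, T' (c Ω - g Ω)⟫_ℂ := by
      rw [map_sub, inner_sub_left, inner_sub_right]
      ring
    rw [e]
    refine (norm_add_le _ _).trans ?_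
    have h1 : ‖⟪c Ω - g Ω, T' (c Ω)⟫_ℂ‖ ≤ τ * 2 :=
      (norm_inner_le_norm _ _).trans (mul_le_mul hcg ((hT'n _).trans hcΩ) (norm_nonneg _) hτ0.le)
    have h2 : ‖⟪g Ω, T' (c Ω - g Ω)⟫_ℂ‖ ≤ 1 * τ :=
      (norm_inner_le_norm _ _).trans (mul_le_mul hgΩ ((hT'n _).trans hcg) (norm_nonneg _) one_pos.le)
    linarith
  -- the expectation of `p`
  obtain ⟨Tp, hTp, hTpn⟩ := h.exists_E bic cyc (X := p) (C := 1)
    (fun i => norm_le_one_of (hp0 i) (hp1 i))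
  obtain ⟨hTp0, -⟩ := hTp.mem_Icc h cyc (fun i => ⟨hp0 i, hp1 i⟩)
  have lim1 : Tendsto (fun i => (S i).val (star c * p i * c) - (S i).val (p i)) 𝒰
      (𝓝 (⟪c Ω, Tp (c Ω)⟫_ℂ - ⟪Ω, Tp Ω⟫_ℂ)) := by
    refine (hTp.lim c hc c hc).sub ?_
    have := hTp.lim 1 (one_mem P) 1 (one_mem P)
    simpa using this
  have lim1re := (Complex.continuous_re.tendsto _).comp lim1
  have hle : (⟪c Ω, Tp (c Ω)⟫_ℂ - ⟪Ω, Tp Ω⟫_ℂ).re ≤ 3 * τ := by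
    obtain ⟨r, hr0, hrr, hrc⟩ := Dag_sqrt Tp hTp0
    have hrs : star r = r := (IsSelfAdjoint.of_nonneg hr0).star_eq
    have hsq : ∀ x, (⟪x, Tp x⟫_ℂ).re = ‖r x‖ ^ 2 := by
      intro x
      have e1 : ⟪x, Tp x⟫_ℂ = ⟪r x, r x⟫_ℂ := by
        rw [← hrr]
        show ⟪x, r (r x)⟫_ℂ = _
        have e2 : ⟪x, r (r x)⟫_ℂ = ⟪(star r) x, r x⟫_ℂ := by
          rw [star_eq_adjoint, adjoint_inner_left]
        rw [e2, hrs]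
      rw [e1, inner_self_eq_norm_sq_to_K]
      norm_cast
    have hcomm : r * g = g * r := (hrc g (mem_Com.1 hg Tp hTp.mem)).eq
    have e3 : r (g Ω) = g (r Ω) := congrArg (fun z : K →L[ℂ] K => z Ω) hcomm
    have e4 : ‖r (g Ω)‖ ≤ ‖r Ω‖ := by
      rw [e3]
      refine (g.le_opNorm _).trans ?_
      calc ‖g‖ * ‖r Ω‖ ≤ 1 * ‖r Ω‖ := mul_le_mul_of_nonneg_right hgn (norm_nonneg _)
        _ = ‖r Ω‖ := one_mul _
    have e5 : (⟪g Ω, Tp (g Ω)⟫_ℂ).re ≤ (⟪Ω, Tp Ω⟫_ℂ).re := by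
      rw [hsq, hsq]
      exact pow_le_pow_left₀ (norm_nonneg _) e4 2
    have e6 := (Complex.re_le_norm _).trans (close Tp hTpn)
    rw [Complex.sub_re] at e6 ⊢
    linarith
  have ev1 : ∀ᶠ i in (𝒰 : Filter I),
      ((S i).val (star c * p i * c) - (S i).val (p i)).re < 4 * τ :=
    lim1re.eventually (gt_mem_nhds (by linarith : _ < 4 * τ))
  -- the expectation of `X`
  have hTn : ‖T‖ ≤ 1 := by
    obtain ⟨T', hT', hT'n⟩ := h.exists_E bic cyc (X := X) (C := 1) hX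
    rw [Dag_isE_unique cyc hT hT']
    exact hT'n
  have ev2 : ∀ᶠ i in (𝒰 : Filter I),
      ‖(S i).val (star c * X i * c) - ⟪c Ω, T (c Ω)⟫_ℂ‖ < τ := by
    have := (Metric.tendsto_nhds.1 (hT.lim c hc c hc)) τ hτ0
    filter_upwards [this] with i hi
    rwa [dist_eq_norm] at hi
  have hgT : ⟪g Ω, T (g Ω)⟫_ℂ = ⟪Ω, T (J (b Ω))⟫_ℂ := by
    have e1 : T * g = g * T := mem_Com.1 hg T hT.mem
    have e2 : T (g Ω) = g (T Ω) := congrArg (fun z : K →L[ℂ] K => z Ω) e1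
    have e3 : T (g (g Ω)) = g (T (g Ω)) := congrArg (fun z : K →L[ℂ] K => z (g Ω)) e1
    rw [← hgg, e3]
    have e4 : ⟪Ω, g (T (g Ω))⟫_ℂ = ⟪(star g) Ω, T (g Ω)⟫_ℂ := by
      rw [star_eq_adjoint, adjoint_inner_left]
    rw [e4, hgs]
  filter_upwards [ev1, ev2] with i hi1 hi2
  have hs : Real.sqrt (((S i).val (star c * p i * c) - (S i).val (p i)).re + τ) ≤ 5 / 2 * σ := by
    refine Real.sqrt_le_iff.2 ⟨by positivity, ?_⟩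
    rw [hτ] at hi1 ⊢
    nlinarith
  have k1 : ‖(S i).frm (X i) (Y i) - (S i).val (star c * X i * c)‖ ≤ 5 * σ + 5 * τ := by
    refine (hYX i (X i)).trans ?_
    have hpos : 0 ≤ 2 * Real.sqrt (((S i).val (star c * p i * c) - (S i).val (p i)).re + τ) +
          (((S i).val (star c * p i * c) - (S i).val (p i)).re + τ) := by
      have := ‹∀ i, 0 ≤ ((S i).val (star c * p i * c) - (S i).val (p i)).re› i
      have := Real.sqrt_nonneg (((S i).val (star c * p i * c) - (S i).val (p i)).re + τ)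
      linarith
    have := mul_le_mul_of_nonneg_right (hX i) hpos
    linarith
  have k2 : ‖⟪c Ω, T (c Ω)⟫_ℂ - ⟪Ω, T (J (b Ω))⟫_ℂ‖ ≤ 3 * τ := by
    rw [← hgT]
    exact close T hTn
  have k3 : (S i).frm (X i) (Y i) - ⟪Ω, T (J (b Ω))⟫_ℂ =
      ((S i).frm (X i) (Y i) - (S i).val (star c * X i * c)) +
      ((S i).val (star c * X i * c) - ⟪c Ω, T (c Ω)⟫_ℂ) +
      (⟪c Ω, T (c Ω)⟫_ℂ - ⟪Ω, T (J (b Ω))⟫_ℂ) := by ring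
  rw [k3]
  refine (norm_add₃_le).trans ?_
  linarith

end Pool.Agent.MP_86f3ed.Nu
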