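import Pool.Agent.H.MP_86f3ed_an.Ty.TomI
import Pool.Agent.H.MP_86f3ed_an.Fac.Base
import Pool.Agent.H.MP_86f3ed_an.Pin.Pub

open scoped InnerProductSpace Topology
open Filter ContinuousLinearMap

namespace Pool.Agent.MP_86f3ed.Nu

open Pin Sf Fac Ty

universe u

/-- The hypothesis on factor representations: for every factor representation of `S` on a separable
space with a cyclic and separating vector the commutant is injective, and there is a modular
conjugation. -/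
def GoodFac (S : Type u) [CStarAlgebra S] : Prop :=
  ∀ (K : Type u) [NormedAddCommGroup K] [InnerProductSpace ℂ K] [CompleteSpace K]
    [TopologicalSpace.SeparableSpace K] (π : S →⋆ₙₐ[ℂ] (K →L[ℂ] K)) (Ω : K), ‖Ω‖ = 1 →
    Factor (rangeAlg π) → Cyc (rangeAlg π) Ω → Cyc (Com (rangeAlg π)) Ω →
    IsInjective (Com (rangeAlg π) : Set (K →L[ℂ] K)) ∧ ∃ J, TomitaJ (Com (rangeAlg π)) Ω J

/-- The amplification of a representation. -/
noncomputable def ampRep {S : Type u} [CStarAlgebra S] {H : Type u} [NormedAddCommGroup H]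
    [InnerProductSpace ℂ H] [CompleteSpace H] (π : S →⋆ₐ[ℂ] (H →L[ℂ] H)) :
    S →⋆ₙₐ[ℂ] (HH H →L[ℂ] HH H) :=
  ((ampHom (K := H)).comp π : S →⋆ₐ[ℂ] (HH H →L[ℂ] HH H)).toNonUnitalStarAlgHom

@[simp] theorem ampRep_apply {S : Type u} [CStarAlgebra S] {H : Type u} [NormedAddCommGroup H]
    [InnerProductSpace ℂ H] [CompleteSpace H] (π : S →⋆ₐ[ℂ] (H →L[ℂ] H)) (s : S) :
    ampRep π s = Sf.amp (π s) := rfl

/-- The tensor `∑ a_j ⊗ y_j` has nonnegative real part in all product representations. -/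
def MinPos {S : Type u} [CStarAlgebra S] {H : Type u} [NormedAddCommGroup H]
    [InnerProductSpace ℂ H] [CompleteSpace H] {m : ℕ} (a : Fin m → S)
    (y : Fin m → H →L[ℂ] H) : Prop :=
  ∀ (n : ℕ) (H₁ : Type u) [NormedAddCommGroup H₁] [InnerProductSpace ℂ H₁] [CompleteSpace H₁]
    (ρ : S →⋆ₙₐ[ℂ] (H₁ →L[ℂ] H₁)), ρ 1 = 1 → ∀ (h : Fin n → H₁) (k : Fin n → H),
    0 ≤ (∑ j, ∑ p, ∑ q, ⟪h p, ρ (a j) (h q)⟫_ℂ * ⟪k p, y j (k q)⟫_ℂ).re

end Pool.Agent.MP_86f3ed.Nu
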