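import Pool.Agent.H.MP_86f3ed_an.Nu.FS
import Pool.Agent.H.MP_86f3ed_an.Trc.Mazur

open scoped InnerProductSpace Topology
open Filter ContinuousLinearMap

namespace Pool.Agent.MP_86f3ed.Nu

variable {K : Type*} [NormedAddCommGroup K] [InnerProductSpace ℂ K]

/-- Finite sums of vector functionals over an arbitrary finite index type. -/
theorem Dg_exists {ι : Type*} [Fintype ι] (w : ι → K) (hw : ∑ k, ‖w k‖ ^ 2 = 1) :
    ∃ F : FS K, ∀ X : K →L[ℂ] K, F.val X = ∑ k, ⟪w k, X (w k)⟫_ℂ := by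
  classical
  let D : K →ₗ[ℂ] K := ∑ k, ((innerSL ℂ (w k)).toLinearMap).smulRight (w k)
  have hD : ∀ v, D v = ∑ k, ⟪w k, v⟫_ℂ • w k := by
    intro v
    simp [D, LinearMap.sum_apply]
  have hsym : ∀ x y, ⟪D x, y⟫_ℂ = ⟪x, D y⟫_ℂ := by
    intro x y
    rw [hD, hD, sum_inner, inner_sum]
    refine Finset.sum_congr rfl fun k _ => ?_
    rw [inner_smul_left, inner_smul_right, inner_conj_symm]
    ring
  let W : Submodule ℂ K := Submodule.span ℂ (Set.range w)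
  have : FiniteDimensional ℂ W := FiniteDimensional.span_of_finite ℂ (Set.finite_range w)
  have hwW : ∀ k, w k ∈ W := fun k => Submodule.subset_span ⟨k, rfl⟩
  have hW : ∀ x, D x ∈ W := by
    intro x
    rw [hD]
    exact W.sum_mem fun k _ => W.smul_mem _ (hwW k)
  obtain ⟨m, g, ν, hg, -, hexp, heig, -⟩ := exists_spectral D hsym W hW
  have key : ∀ X : K →L[ℂ] K, ∑ k, ⟪w k, X (w k)⟫_ℂ = ∑ i, (ν i : ℂ) * ⟪g i, X (g i)⟫_ℂ := by
    intro X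
    have h1 : ∀ k, ⟪w k, X (w k)⟫_ℂ = ∑ i, ⟪g i, w k⟫_ℂ * ⟪w k, X (g i)⟫_ℂ := by
      intro k
      conv_lhs => rw [show X (w k) = X (∑ i, ⟪g i, w k⟫_ℂ • g i) from by rw [← hexp _ (hwW k)]]
      rw [map_sum, inner_sum]
      refine Finset.sum_congr rfl fun i _ => ?_
      rw [map_smul, inner_smul_right]
    have h2 : ∀ i, (ν i : ℂ) * ⟪g i, X (g i)⟫_ℂ = ∑ k, ⟪g i, w k⟫_ℂ * ⟪w k, X (g i)⟫_ℂ := by
      intro i
      have h3 : ⟪D (g i), X (g i)⟫_ℂ = (ν i : ℂ) * ⟪g i, X (g i)⟫_ℂ := by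
        rw [heig, inner_smul_left, Complex.conj_ofReal]
      rw [← h3, hD, sum_inner]
      refine Finset.sum_congr rfl fun k _ => ?_
      rw [inner_smul_left, inner_conj_symm]
    simp only [h1, h2]
    exact Finset.sum_comm
  have hν : ∀ i, 0 ≤ ν i := by
    intro i
    have h1 : ⟪g i, D (g i)⟫_ℂ = (ν i : ℂ) := by
      rw [heig, inner_smul_right, inner_self_eq_norm_sq_to_K, hg.1 i]
      simp
    have h2 : ⟪g i, D (g i)⟫_ℂ = ((∑ k, ‖⟪w k, g i⟫_ℂ‖ ^ 2 : ℝ) : ℂ) := by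
      rw [hD, inner_sum]
      push_cast
      refine Finset.sum_congr rfl fun k _ => ?_
      rw [inner_smul_right, ← inner_conj_symm (g i) (w k), Complex.mul_conj,
        Complex.normSq_eq_norm_sq]
      push_cast
      rfl
    have h3 : ν i = ∑ k, ‖⟪w k, g i⟫_ℂ‖ ^ 2 := by
      have := h1.symm.trans h2
      exact_mod_cast this
    rw [h3]
    positivity
  have hsum : ∑ i, ν i = 1 := by
    have h := key 1
    have h1 : ∀ k, ⟪w k, (1 : K →L[ℂ] K) (w k)⟫_ℂ = ((‖w k‖ ^ 2 : ℝ) : ℂ) := by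
      intro k
      show ⟪w k, w k⟫_ℂ = _
      rw [inner_self_eq_norm_sq_to_K]
      push_cast
      rfl
    have h2 : ∀ i, (ν i : ℂ) * ⟪g i, (1 : K →L[ℂ] K) (g i)⟫_ℂ = (ν i : ℂ) := by
      intro i
      have : ⟪g i, (1 : K →L[ℂ] K) (g i)⟫_ℂ = 1 := by
        show ⟪g i, g i⟫_ℂ = 1
        rw [inner_self_eq_norm_sq_to_K, hg.1 i]
        simp
      rw [this, mul_one]
    simp only [h1, h2] at h
    have h3 : ((∑ k, ‖w k‖ ^ 2 : ℝ) : ℂ) = ((∑ i, ν i : ℝ) : ℂ) := by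
      push_cast at h ⊢
      exact h
    have h4 : (∑ k, ‖w k‖ ^ 2 : ℝ) = ∑ i, ν i := by exact_mod_cast h3
    rw [← h4, hw]
  refine ⟨⟨m, g, fun i => Real.sqrt (ν i), hg, fun i => Real.sqrt_nonneg _, ?_⟩, ?_⟩
  · simp only [Real.sq_sqrt (hν _)]
    exact hsum
  · intro X
    rw [key X]
    simp only [FS.val, Real.sq_sqrt (hν _)]

/-- Every finite sum of vector functionals of total mass one is a finite rank state.

PROOF. Let `D v = ∑ ⟪w_k, v⟫ • w_k` (symmetric, values in the finite-dimensional span `W` of the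
`w_k`). `exists_spectral` (`Trc/Mazur.lean`) gives orthonormal `g_i ∈ W` and real `ν_i` with
`w = ∑ ⟪g_i, w⟫ • g_i` for `w ∈ W` and `D g_i = ν_i g_i`. `ν_i = ⟪g_i, D g_i⟫ = ∑_k |⟪w_k, g_i⟫|² ≥ 0`.
Expanding both `w_k`: `∑_k ⟪w_k, X w_k⟫ = ∑_k ∑_{ij} ⟪w_k, g_i⟫ ⟪g_j, w_k⟫ ⟪g_i, X g_j⟫
= ∑_{ij} ⟪g_j, D g_i⟫ ⟪g_i, X g_j⟫ = ∑_i ν_i ⟪g_i, X g_i⟫` since
`⟪g_j, D g_i⟫ = ∑_k ⟪w_k, g_i⟫ ⟪g_j, w_k⟫ = ν_i δ_ij`. With `l_i = √ν_i`; `X = 1` gives
`∑ l_i² = ∑ ‖w_k‖² = 1`. -/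
theorem exists_FS {n : ℕ} (w : Fin n → K) (hw : ∑ k, ‖w k‖ ^ 2 = 1) :
    ∃ F : FS K, ∀ X : K →L[ℂ] K, F.val X = ∑ k, ⟪w k, X (w k)⟫_ℂ :=
  Dg_exists w hw

/-- Convex combinations of finite rank states are finite rank states.

PROOF. `exists_FS` for the family `√a l_p u_p`, `√b l'_q u'_q` indexed by
`Fin (F.n + G.n)` (`Fin.append`, `Fin.sum_univ_add`). -/
theorem exists_FS_convex (F G : FS K) {a b : ℝ} (ha : 0 ≤ a) (hb : 0 ≤ b) (hab : a + b = 1) :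
    ∃ E : FS K, ∀ X : K →L[ℂ] K, E.val X = (a : ℂ) * F.val X + (b : ℂ) * G.val X := by
  let w : Fin F.n ⊕ Fin G.n → K := Sum.elim (fun p => ((Real.sqrt a * F.l p : ℝ) : ℂ) • F.u p)
    (fun q => ((Real.sqrt b * G.l q : ℝ) : ℂ) • G.u q)
  have hn : ∀ (c : ℝ) (x : K), ‖x‖ = 1 → ‖((c : ℝ) : ℂ) • x‖ ^ 2 = c ^ 2 := by
    intro c x hx
    rw [norm_smul, hx, mul_one, Complex.norm_real, Real.norm_eq_abs, sq_abs]
  have hw : ∑ k, ‖w k‖ ^ 2 = 1 := by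
    rw [Fintype.sum_sum_type]
    simp only [w, Sum.elim_inl, Sum.elim_inr]
    rw [Finset.sum_congr rfl (fun p _ => hn (Real.sqrt a * F.l p) (F.u p) (F.ortho.1 p)),
      Finset.sum_congr rfl (fun q _ => hn (Real.sqrt b * G.l q) (G.u q) (G.ortho.1 q))]
    simp only [mul_pow, Real.sq_sqrt ha, Real.sq_sqrt hb]
    rw [← Finset.mul_sum, ← Finset.mul_sum, F.sum_sq, G.sum_sq, mul_one, mul_one, hab]
  obtain ⟨E, hE⟩ := Dg_exists w hw
  refine ⟨E, fun X => ?_⟩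
  rw [hE X, Fintype.sum_sum_type]
  simp only [w, Sum.elim_inl, Sum.elim_inr, FS.val, map_smul, inner_smul_left, inner_smul_right,
    Complex.conj_ofReal, Finset.mul_sum]
  have hs : ∀ {c : ℝ}, 0 ≤ c → ((Real.sqrt c : ℝ) : ℂ) * ((Real.sqrt c : ℝ) : ℂ) = (c : ℂ) := by
    intro c hc
    rw [← Complex.ofReal_mul, Real.mul_self_sqrt hc]
  congr 1
  · refine Finset.sum_congr rfl fun p _ => ?_
    rw [← hs ha]
    push_cast
    ring
  · refine Finset.sum_congr rfl fun q _ => ?_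
    rw [← hs hb]
    push_cast
    ring

end Pool.Agent.MP_86f3ed.Nu
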