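import Pool.Agent.H.MP_86f3ed_an.Pin.Space

open scoped InnerProductSpace Topology
open Filter ContinuousLinearMap

namespace Pool.Agent.MP_86f3ed.Nu

variable {K : Type*} [NormedAddCommGroup K] [InnerProductSpace ℂ K] [CompleteSpace K]

omit [CompleteSpace K] in
/-- Vectors which have the same inner products with a dense family are equal. -/
theorem Ext_eq_of_dense {V : Type*} {f : V → K} (hf : DenseRange f) {x y : K}
    (h : ∀ v, ⟪f v, x⟫_ℂ = ⟪f v, y⟫_ℂ) : x = y := by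
  have h1 : ∀ z : K, ⟪z, x⟫_ℂ = ⟪z, y⟫_ℂ := fun z =>
    hf.induction (P := fun z => ⟪z, x⟫_ℂ = ⟪z, y⟫_ℂ) (by rintro _ ⟨v, rfl⟩; exact h v)
      (isClosed_eq (by fun_prop) (by fun_prop)) z
  exact ext_inner_left ℂ h1

/-- One half of `exists_op_of_form`. -/
theorem Ext_exists_vec {V : Type*} [AddCommGroup V] [Module ℂ V] (f : V →ₗ[ℂ] K)
    (hf : DenseRange f) (B : V →ₗ⋆[ℂ] V →ₗ[ℂ] ℂ) {C : ℝ} (hC : 0 ≤ C)
    (hB : ∀ v w, ‖B v w‖ ≤ C * ‖f v‖ * ‖f w‖) (w : V) :
    ∃ t : K, ‖t‖ ≤ C * ‖f w‖ ∧ ∀ v, ⟪f v, t⟫_ℂ = B v w := by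
  let φ : V →ₗ[ℂ] ℂ :=
    { toFun := fun v => (starRingEnd ℂ) (B v w)
      map_add' := fun a b => by rw [map_add, LinearMap.add_apply, map_add]
      map_smul' := fun a b => by
        rw [LinearMap.map_smulₛₗ, LinearMap.smul_apply, smul_eq_mul, map_mul, RingHom.id_apply,
          smul_eq_mul, Complex.conj_conj] }
  have hφ : ∀ v, ‖φ v‖ ≤ (C * ‖f w‖) * ‖f v‖ := fun v => by
    have h1 : ‖φ v‖ = ‖B v w‖ := by
      change ‖(starRingEnd ℂ) (B v w)‖ = _
      rw [RCLike.norm_conj]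
    rw [h1]
    calc ‖B v w‖ ≤ C * ‖f v‖ * ‖f w‖ := hB v w
      _ = (C * ‖f w‖) * ‖f v‖ := by ring
  have hC' : 0 ≤ C * ‖f w‖ := mul_nonneg hC (norm_nonneg _)
  have h1 : ∀ v, φ.extendOfNorm f (f v) = φ v := fun v =>
    LinearMap.extendOfNorm_eq hf ⟨_, hφ⟩ v
  have h2 : ‖φ.extendOfNorm f‖ ≤ C * ‖f w‖ := LinearMap.opNorm_extendOfNorm_le hf hC' hφ
  refine ⟨(InnerProductSpace.toDual ℂ K).symm (φ.extendOfNorm f), ?_, fun v => ?_⟩
  · rw [LinearIsometryEquiv.norm_map]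
    exact h2
  · rw [← inner_conj_symm, InnerProductSpace.toDual_symm_apply, h1]
    exact Complex.conj_conj _

/-- A bounded sesquilinear form on a space with dense image in `K` is given by an operator.

PROOF. For fixed `w` the conjugate of `v ↦ B v w` is linear and bounded by `C ‖f w‖ ‖f v‖`; it extends
to `K` and is `⟪t w, ·⟫` with `t w ∈ K`, `‖t w‖ ≤ C ‖f w‖` and `⟪f v, t w⟫ = B v w` (one can use
`LinearMap.extendOfNorm` with the norm of `K` via `f`, see `Trc/Diag.lean`, and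
`InnerProductSpace.toDual`). `t w` is unique (density), so `t` is linear; `extendOfNorm` of `t` along
`f` is `T`. -/
theorem exists_op_of_form {V : Type*} [AddCommGroup V] [Module ℂ V] (f : V →ₗ[ℂ] K)
    (hf : DenseRange f) (B : V →ₗ⋆[ℂ] V →ₗ[ℂ] ℂ) {C : ℝ} (hC : 0 ≤ C)
    (hB : ∀ v w, ‖B v w‖ ≤ C * ‖f v‖ * ‖f w‖) :
    ∃ T : K →L[ℂ] K, ‖T‖ ≤ C ∧ ∀ v w, ⟪f v, T (f w)⟫_ℂ = B v w := by
  choose t ht ht' using Ext_exists_vec f hf B hC hB
  let τ : V →ₗ[ℂ] K :=
    { toFun := t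
      map_add' := fun a b => Ext_eq_of_dense hf fun v => by
        rw [ht', inner_add_right, ht', ht', map_add]
      map_smul' := fun a b => Ext_eq_of_dense hf fun v => by
        rw [ht', inner_smul_right, ht', map_smul, smul_eq_mul, RingHom.id_apply] }
  have hτ : ∀ v, ‖τ v‖ ≤ C * ‖f v‖ := ht
  refine ⟨τ.extendOfNorm f, LinearMap.opNorm_extendOfNorm_le hf hC hτ, fun v w => ?_⟩
  rw [LinearMap.extendOfNorm_eq hf ⟨C, hτ⟩ w]
  exact ht' w v

omit [CompleteSpace K] in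
/-- Positivity of an operator from its quadratic form on a dense family. -/
theorem Ext_nonneg {V : Type*} {f : V → K} (hf : DenseRange f) (T : K →L[ℂ] K)
    (h : ∀ v, 0 ≤ (⟪f v, T (f v)⟫_ℂ).re ∧ (⟪f v, T (f v)⟫_ℂ).im = 0) : 0 ≤ T := by
  have hc : Continuous fun z : K => ⟪z, T z⟫_ℂ := by fun_prop
  have h1 : ∀ z : K, 0 ≤ (⟪z, T z⟫_ℂ).re ∧ (⟪z, T z⟫_ℂ).im = 0 := fun z =>
    ⟨hf.induction (P := fun z => 0 ≤ (⟪z, T z⟫_ℂ).re)
      (by rintro _ ⟨v, rfl⟩; exact (h v).1)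
      (isClosed_le continuous_const (Complex.continuous_re.comp hc)) z,
    hf.induction (P := fun z => (⟪z, T z⟫_ℂ).im = 0)
      (by rintro _ ⟨v, rfl⟩; exact (h v).2)
      (isClosed_eq (Complex.continuous_im.comp hc) continuous_const) z⟩
  rw [ContinuousLinearMap.nonneg_iff_isPositive, ContinuousLinearMap.isPositive_iff_complex]
  intro x
  have h2 : ⟪T x, x⟫_ℂ = (starRingEnd ℂ) ⟪x, T x⟫_ℂ := (inner_conj_symm _ _).symm
  obtain ⟨h3, h4⟩ := h1 x
  have h5 : (⟪T x, x⟫_ℂ).re = (⟪x, T x⟫_ℂ).re := by rw [h2, Complex.conj_re]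
  have h6 : (⟪T x, x⟫_ℂ).im = 0 := by rw [h2, Complex.conj_im, h4, neg_zero]
  refine ⟨?_, ?_⟩
  · apply Complex.ext
    · simp
    · simp [h6]
  · change 0 ≤ (⟪T x, x⟫_ℂ).re
    rw [h5]
    exact h3

section RN

variable {D : Type*} [Ring D] [StarRing D] [Algebra ℂ D] [StarModule ℂ D]

/-- Hermitian symmetry of a positive functional. -/
theorem Ext_symm (g : D →ₗ[ℂ] ℂ) (hg : ∀ x, (g (star x * x)).im = 0) (x y : D) :
    (starRingEnd ℂ) (g (star y * x)) = g (star x * y) := by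
  have h1 := hg (x + y)
  have h2 := hg (x + Complex.I • y)
  have hx := hg x
  have hy := hg y
  have e1 : star (x + y) * (x + y) = star x * x + star x * y + star y * x + star y * y := by
    rw [star_add]; noncomm_ring
  have e2 : star (x + Complex.I • y) * (x + Complex.I • y)
      = star x * x + Complex.I • (star x * y) - Complex.I • (star y * x) + star y * y := by
    rw [star_add, star_smul, add_mul, mul_add, mul_add, mul_smul_comm, smul_mul_assoc,
      smul_mul_assoc, mul_smul_comm, smul_smul]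
    have h3 : star Complex.I = -Complex.I := Complex.conj_I
    rw [h3, neg_smul, neg_mul, Complex.I_mul_I, neg_neg, one_smul]
    abel
  rw [e1, map_add, map_add, map_add] at h1
  rw [e2, map_add, map_sub, map_add, map_smul, map_smul] at h2
  simp only [Complex.add_im, Complex.sub_im, smul_eq_mul, Complex.mul_im, Complex.I_re,
    Complex.I_im, zero_mul, one_mul, zero_add] at h1 h2
  apply Complex.ext
  · rw [Complex.conj_re]
    linarith
  · rw [Complex.conj_im]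
    linarith

/-- Cauchy-Schwarz for a positive functional. -/
theorem Ext_cs (g : D →ₗ[ℂ] ℂ) (hg : ∀ x, 0 ≤ (g (star x * x)).re ∧ (g (star x * x)).im = 0)
    (x y : D) : ‖g (star x * y)‖ * ‖g (star x * y)‖ ≤ (g (star x * x)).re * (g (star y * y)).re := by
  let c : PreInnerProductSpace.Core ℂ D :=
    { inner := fun x y => g (star x * y)
      conj_inner_symm := fun x y => Ext_symm g (fun x => (hg x).2) x y
      re_inner_nonneg := fun x => (hg x).1
      add_left := fun x y z => by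
        change g (star (x + y) * z) = _
        rw [star_add, add_mul, map_add]
      smul_left := fun x y r => by
        change g (star (r • x) * y) = _
        rw [star_smul, smul_mul_assoc, map_smul, smul_eq_mul]
        rfl }
  have h1 := @InnerProductSpace.Core.inner_mul_inner_self_le ℂ D _ _ _ c x y
  have h2 : ‖g (star x * y)‖ * ‖g (star y * x)‖ ≤ (g (star x * x)).re * (g (star y * y)).re := h1
  have h3 : ‖g (star y * x)‖ = ‖g (star x * y)‖ := by
    rw [← Ext_symm g (fun x => (hg x).2) x y, RCLike.norm_conj]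
  rwa [h3] at h2

end RN

/-- Radon-Nikodym: a positive functional `g` on a star algebra `D`, dominated by the vector
functional of the cyclic vector `ζ` of the representation `ρ`, is given by a positive contraction
in the commutant.

PROOF. `B x y = g (star x * y)` is a positive sesquilinear form on `D`, so (Cauchy-Schwarz for
positive forms; `g (star x * x) ≥ 0` gives `g (star x * y) = conj (g (star y * x))` by polarization)
`|B x y|² ≤ g (star x * x) g (star y * y) ≤ ‖ρ x ζ‖² ‖ρ y ζ‖²`. `exists_op_of_form` with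
`f x = ρ x ζ`, `C = 1`: `T` with `⟪ρ x ζ, T (ρ y ζ)⟫ = g (star x * y)`. `0 ≤ T` and `T ≤ 1` by density
(`⟪ρ x ζ, T ρ x ζ⟫ = g (star x * x) ∈ [0, ‖ρ x ζ‖²]`). `T` commutes with `ρ d`:
`⟪ρ x ζ, T ρ (d y) ζ⟫ = g (star x d y) = g (star (star d) x) y) = ⟪ρ (star d) ρ x ζ, T ρ y ζ⟫`. Finally
`g d = g (star (star d) * 1) = ⟪ρ (star d) ζ, T ζ⟫ = ⟪ζ, ρ d (T ζ)⟫`. -/
theorem exists_rn {D : Type*} [Ring D] [StarRing D] [Algebra ℂ D] [StarModule ℂ D]
    (ρ : D →⋆ₐ[ℂ] (K →L[ℂ] K)) (ζ : K) (hζ : Dense (Set.range fun d => ρ d ζ)) (g : D →ₗ[ℂ] ℂ)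
    (hg : ∀ x, 0 ≤ (g (star x * x)).re ∧ (g (star x * x)).im = 0)
    (hle : ∀ x, (g (star x * x)).re ≤ ‖ρ x ζ‖ ^ 2) :
    ∃ T : K →L[ℂ] K, 0 ≤ T ∧ T ≤ 1 ∧ (∀ d, T * ρ d = ρ d * T) ∧ ∀ d, g d = ⟪ζ, ρ d (T ζ)⟫_ℂ := by
  let f : D →ₗ[ℂ] K :=
    { toFun := fun d => ρ d ζ
      map_add' := fun a b => by rw [map_add, add_apply]
      map_smul' := fun a b => by rw [map_smul, RingHom.id_apply, smul_apply] }
  have hf : DenseRange f := hζ
  let B : D →ₗ⋆[ℂ] D →ₗ[ℂ] ℂ := LinearMap.mk₂'ₛₗ (starRingEnd ℂ) (RingHom.id ℂ)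
    (fun x y => g (star x * y))
    (fun x y z => by rw [star_add, add_mul, map_add])
    (fun c x y => by
      rw [star_smul, smul_mul_assoc, map_smul]
      rfl)
    (fun x y z => by rw [mul_add, map_add])
    (fun c x y => by rw [mul_smul_comm, map_smul, RingHom.id_apply])
  have hB0 : ∀ x y, B x y = g (star x * y) := fun x y => rfl
  have hB : ∀ x y, ‖B x y‖ ≤ 1 * ‖f x‖ * ‖f y‖ := fun x y => by
    rw [hB0, one_mul]
    have h1 := Ext_cs g hg x y
    have h2 : (g (star x * x)).re * (g (star y * y)).re ≤ (‖f x‖ * ‖f y‖) * (‖f x‖ * ‖f y‖) := by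
      calc (g (star x * x)).re * (g (star y * y)).re ≤ ‖f x‖ ^ 2 * ‖f y‖ ^ 2 :=
            mul_le_mul (hle x) (hle y) (hg y).1 (by positivity)
        _ = _ := by ring
    exact nonneg_le_nonneg_of_sq_le_sq (by positivity) (h1.trans h2)
  obtain ⟨T, -, hT⟩ := exists_op_of_form f hf B zero_le_one hB
  have hT' : ∀ x y, ⟪ρ x ζ, T (ρ y ζ)⟫_ℂ = g (star x * y) := hT
  have hadj : ∀ (d : D) (u v : K), ⟪u, ρ d v⟫_ℂ = ⟪ρ (star d) u, v⟫_ℂ := fun d u v => by
    rw [map_star, ContinuousLinearMap.star_eq_adjoint, ContinuousLinearMap.adjoint_inner_left]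
  have hmul : ∀ (d y : D), ρ (d * y) ζ = ρ d (ρ y ζ) := fun d y => by
    rw [map_mul]; rfl
  have hone : ρ 1 ζ = ζ := by rw [map_one]; rfl
  refine ⟨T, ?_, ?_, fun d => ?_, fun d => ?_⟩
  · refine Ext_nonneg hf T fun v => ?_
    have h1 : ⟪f v, T (f v)⟫_ℂ = g (star v * v) := hT v v
    rw [h1]
    exact hg v
  · rw [← sub_nonneg]
    refine Ext_nonneg hf _ fun v => ?_
    have h1 : ⟪f v, (1 - T) (f v)⟫_ℂ = ((‖f v‖ ^ 2 : ℝ) : ℂ) - g (star v * v) := by
      have h2 : (1 - T) (f v) = f v - T (f v) := rfl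
      have h3 : ⟪f v, T (f v)⟫_ℂ = g (star v * v) := hT v v
      rw [h2, inner_sub_right, h3, inner_self_eq_norm_sq_to_K]
      push_cast
      rfl
    rw [h1, Complex.sub_re, Complex.sub_im, Complex.ofReal_re, Complex.ofReal_im, (hg v).2]
    refine ⟨sub_nonneg.2 (hle v), by norm_num⟩
  · refine ContinuousLinearMap.ext fun u => ?_
    refine hf.induction (P := fun u => (T * ρ d) u = (ρ d * T) u) ?_
      (isClosed_eq (by fun_prop) (by fun_prop)) u
    rintro _ ⟨y, rfl⟩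
    refine Ext_eq_of_dense hf fun x => ?_
    change ⟪ρ x ζ, T (ρ d (ρ y ζ))⟫_ℂ = ⟪ρ x ζ, ρ d (T (ρ y ζ))⟫_ℂ
    rw [hadj, ← hmul, ← hmul, hT', hT', star_mul, star_star, mul_assoc]
  · have h1 := hT' (star d) 1
    rw [hone, star_star, mul_one] at h1
    rw [hadj, h1]

end Pool.Agent.MP_86f3ed.Nu
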