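import Pool.Agent.H.MP_86f3ed_an.Nu.Sys
import Pool.Agent.H.MP_86f3ed_an.Nu.Ext
import Pool.Agent.H.MP_86f3ed_an.Trc.Limit

open scoped InnerProductSpace Topology
open Filter ContinuousLinearMap

namespace Pool.Agent.MP_86f3ed.Nu

open Pin Ty

universe v

variable {K : Type v} [NormedAddCommGroup K] [InnerProductSpace ℂ K] [CompleteSpace K]
  {P : StarSubalgebra ℂ (K →L[ℂ] K)} {Ω : K} {I : Type v} {𝒰 : Ultrafilter I} {S : I → FS K}

/-- `T ∈ P` is the expectation of the net `X` of operators. -/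
structure IsE (P : StarSubalgebra ℂ (K →L[ℂ] K)) (Ω : K) {I : Type v} (𝒰 : Ultrafilter I)
    (S : I → FS K) (X : I → K →L[ℂ] K) (T : K →L[ℂ] K) : Prop where
  mem : T ∈ P
  lim : ∀ c ∈ P, ∀ c' ∈ P,
    Tendsto (fun i => (S i).val (star c' * X i * c)) 𝒰 (𝓝 ⟪c' Ω, T (c Ω)⟫_ℂ)

theorem Et_norm_le (a X c : K →L[ℂ] K) {C : ℝ} (hX : ‖X‖ ≤ C) :
    ‖star a * X * c‖ ≤ ‖a‖ * C * ‖c‖ := by
  refine (norm_mul_le _ _).trans (mul_le_mul_of_nonneg_right ?_ (norm_nonneg _))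
  refine (norm_mul_le _ _).trans ?_
  rw [norm_star]
  exact mul_le_mul_of_nonneg_left hX (norm_nonneg _)

theorem Et_val_le (F : FS K) (X c : K →L[ℂ] K) {C : ℝ} (hX : ‖X‖ ≤ C) :
    (F.val (star (X * c) * (X * c))).re ≤ C ^ 2 * (F.val (star c * c)).re := by
  have hC : 0 ≤ C := (norm_nonneg _).trans hX
  rw [FS.val_star_mul_self, FS.val_star_mul_self, Complex.ofReal_re, Complex.ofReal_re,
    Finset.mul_sum]
  refine Finset.sum_le_sum fun p _ => ?_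
  have h1 : ‖(X * c) (F.u p)‖ ≤ C * ‖c (F.u p)‖ := by
    rw [mul_apply_eq_comp]
    exact (le_opNorm _ _).trans (mul_le_mul_of_nonneg_right hX (norm_nonneg _))
  calc F.l p ^ 2 * ‖(X * c) (F.u p)‖ ^ 2 ≤ F.l p ^ 2 * (C * ‖c (F.u p)‖) ^ 2 := by gcongr
    _ = C ^ 2 * (F.l p ^ 2 * ‖c (F.u p)‖ ^ 2) := by ring

theorem Et_lim_re (h : Sys P Ω 𝒰 S) {c : K →L[ℂ] K} (hc : c ∈ P) :
    Tendsto (fun i => ((S i).val (star c * c)).re) 𝒰 (𝓝 (‖c Ω‖ ^ 2)) := by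
  have h1 := h.lim (star c * c) (mul_mem (star_mem hc) hc)
  have h2 := (Complex.continuous_re.tendsto _).comp h1
  have e : (⟪Ω, (star c * c) Ω⟫_ℂ).re = ‖c Ω‖ ^ 2 := by
    rw [mul_apply_eq_comp, star_eq_adjoint, adjoint_inner_right, inner_self_eq_norm_sq_to_K]
    norm_cast
  rw [e] at h2
  exact h2

theorem Et_approx (cyc : Cyc P Ω) (z : K) {δ : ℝ} (hδ : 0 < δ) :
    ∃ d ∈ P, ‖d Ω - z‖ ≤ δ := by
  obtain ⟨w, hw, hwd⟩ := Metric.dense_iff.1 cyc z δ hδ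
  obtain ⟨d, hd, rfl⟩ := hwd
  refine ⟨d, hd, ?_⟩
  rw [← dist_eq_norm]
  exact (Metric.mem_ball.1 hw).le

/-- Every bounded net of operators has an expectation.

PROOF. `B c' c = lim (S i).val (star c' * X i * c)` (exists: `exists_ultralimit`, bounded by
`‖c'‖ C ‖c‖`; limits along an ultrafilter are unique and additive, so `B` is sesquilinear on `P`,
conjugate linear in `c'`). By `FS.norm_val_sq_le`
`|val (star c' * X * c)|² ≤ val (star c' c') val (star (X c) * (X c))` and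
`val (star c * star X * X * c) ≤ ‖X‖² val (star c * c)` (all terms `‖X c u_p‖² ≤ ‖X‖² ‖c u_p‖²`, see
`val_star_mul_self`), and `val (star c * c) → ‖c Ω‖²`, so `|B c' c| ≤ C ‖c' Ω‖ ‖c Ω‖`.
`exists_op_of_form` for `V = P`, `f c = c Ω` gives `T`, `‖T‖ ≤ C`. `T ∈ Com (Com P) = P`: let
`x ∈ Com P`, `c, c' ∈ P`, `δ > 0`; choose `d, d' ∈ P` with `‖d Ω - x Ω‖ ≤ δ`, `‖d' Ω - star x Ω‖ ≤ δ`
(`cyc`). `⟪c' Ω, T x c Ω⟫ = ⟪c' Ω, T c x Ω⟫` is within `C ‖c' Ω‖ ‖c‖ δ` of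
`⟪c' Ω, T (c d) Ω⟫ = lim val (star c' X (c d))`; `⟪c' Ω, x T c Ω⟫ = ⟪star x c' Ω, T c Ω⟫ =
⟪c' star x Ω, T c Ω⟫` is within `C ‖c Ω‖ ‖c'‖ δ` of `⟪(c' d') Ω, T c Ω⟫ = lim val (star d' star c' X c)`;
and by `near` with `Z = star c' * X i * c`, `‖Z‖ ≤ ‖c'‖ C ‖c‖` the two limits differ by at most
`3 δ ‖c'‖ C ‖c‖`. Let `δ → 0`, then use density. -/
theorem Sys.exists_E (h : Sys P Ω 𝒰 S) (bic : Com (Com P) = P) (cyc : Cyc P Ω)
    {X : I → K →L[ℂ] K} {C : ℝ} (hX : ∀ i, ‖X i‖ ≤ C) : ∃ T, IsE P Ω 𝒰 S X T ∧ ‖T‖ ≤ C := by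
  have hI : Nonempty I := 𝒰.neBot.nonempty
  have hC : 0 ≤ C := (norm_nonneg _).trans (hX hI.some)
  have hex : ∀ c' c : P, ∃ z : ℂ, ‖z‖ ≤ ‖(c' : K →L[ℂ] K)‖ * C * ‖(c : K →L[ℂ] K)‖ ∧
      Tendsto (fun i => (S i).val (star (c' : K →L[ℂ] K) * X i * (c : K →L[ℂ] K))) 𝒰 (𝓝 z) := by
    intro c' c
    refine exists_ultralimit 𝒰 (fun i => (S i).val (star (c' : K →L[ℂ] K) * X i *
      (c : K →L[ℂ] K))) (‖(c' : K →L[ℂ] K)‖ * C * ‖(c : K →L[ℂ] K)‖) fun i => ?_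
    exact (FS.norm_val_le (S i) (star (c' : K →L[ℂ] K) * X i * (c : K →L[ℂ] K))).trans
      (Et_norm_le (c' : K →L[ℂ] K) (X i) (c : K →L[ℂ] K) (hX i))
  choose L hLn hL using hex
  have uq : ∀ {c' c : P} {z : ℂ}, Tendsto (fun i => (S i).val
      (star (c' : K →L[ℂ] K) * X i * (c : K →L[ℂ] K))) 𝒰 (𝓝 z) → L c' c = z :=
    fun h => tendsto_nhds_unique (hL _ _) h
  have hadd1 : ∀ x x' y : P, L (x + x') y = L x y + L x' y := by
    intro x x' y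
    refine uq ?_
    have e : ∀ i, (S i).val (star ((x + x' : P) : K →L[ℂ] K) * X i * (y : K →L[ℂ] K)) =
        (S i).val (star (x : K →L[ℂ] K) * X i * (y : K →L[ℂ] K)) +
        (S i).val (star (x' : K →L[ℂ] K) * X i * (y : K →L[ℂ] K)) := by
      intro i
      rw [← FS.val_add]
      congr 1
      show star ((x : K →L[ℂ] K) + (x' : K →L[ℂ] K)) * X i * (y : K →L[ℂ] K) = _
      rw [star_add, add_mul, add_mul]
    simp_rw [e]
    exact (hL x y).add (hL x' y)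
  have hsmul1 : ∀ (a : ℂ) (x y : P), L (a • x) y = (starRingEnd ℂ) a * L x y := by
    intro a x y
    refine uq ?_
    have e : ∀ i, (S i).val (star ((a • x : P) : K →L[ℂ] K) * X i * (y : K →L[ℂ] K)) =
        (starRingEnd ℂ) a * (S i).val (star (x : K →L[ℂ] K) * X i * (y : K →L[ℂ] K)) := by
      intro i
      rw [← FS.val_smul]
      congr 1
      show star (a • (x : K →L[ℂ] K)) * X i * (y : K →L[ℂ] K) = _
      rw [star_smul, smul_mul_assoc, smul_mul_assoc]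
      rfl
    simp_rw [e]
    exact (hL x y).const_mul _
  have hadd2 : ∀ x y y' : P, L x (y + y') = L x y + L x y' := by
    intro x y y'
    refine uq ?_
    have e : ∀ i, (S i).val (star (x : K →L[ℂ] K) * X i * ((y + y' : P) : K →L[ℂ] K)) =
        (S i).val (star (x : K →L[ℂ] K) * X i * (y : K →L[ℂ] K)) +
        (S i).val (star (x : K →L[ℂ] K) * X i * (y' : K →L[ℂ] K)) := by
      intro i
      rw [← FS.val_add]
      congr 1
      show star (x : K →L[ℂ] K) * X i * ((y : K →L[ℂ] K) + (y' : K →L[ℂ] K)) = _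
      rw [mul_add]
    simp_rw [e]
    exact (hL x y).add (hL x y')
  have hsmul2 : ∀ (a : ℂ) (x y : P), L x (a • y) = a * L x y := by
    intro a x y
    refine uq ?_
    have e : ∀ i, (S i).val (star (x : K →L[ℂ] K) * X i * ((a • y : P) : K →L[ℂ] K)) =
        a * (S i).val (star (x : K →L[ℂ] K) * X i * (y : K →L[ℂ] K)) := by
      intro i
      rw [← FS.val_smul]
      congr 1
      show star (x : K →L[ℂ] K) * X i * (a • (y : K →L[ℂ] K)) = _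
      rw [mul_smul_comm]
    simp_rw [e]
    exact (hL x y).const_mul _
  have hb : ∀ x y : P, ‖L x y‖ ≤ C * ‖(x : K →L[ℂ] K) Ω‖ * ‖(y : K →L[ℂ] K) Ω‖ := by
    intro x y
    have hx := Et_lim_re h x.2
    have hy := Et_lim_re h y.2
    have h1 : ‖L x y‖ ^ 2 ≤
        ‖(x : K →L[ℂ] K) Ω‖ ^ 2 * (C ^ 2 * ‖(y : K →L[ℂ] K) Ω‖ ^ 2) := by
      refine le_of_tendsto_of_tendsto ((hL x y).norm.pow 2) (hx.mul (hy.const_mul (C ^ 2))) ?_
      refine Filter.Eventually.of_forall fun i => ?_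
      show ‖(S i).val (star (x : K →L[ℂ] K) * X i * (y : K →L[ℂ] K))‖ ^ 2 ≤
        ((S i).val (star (x : K →L[ℂ] K) * (x : K →L[ℂ] K))).re *
          (C ^ 2 * ((S i).val (star (y : K →L[ℂ] K) * (y : K →L[ℂ] K))).re)
      rw [mul_assoc (star (x : K →L[ℂ] K))]
      refine (FS.norm_val_sq_le (S i) (x : K →L[ℂ] K) (X i * (y : K →L[ℂ] K))).trans ?_
      refine mul_le_mul_of_nonneg_left ?_ ?_
      · exact Et_val_le (S i) (X i) (y : K →L[ℂ] K) (hX i)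
      · rw [FS.val_star_mul_self, Complex.ofReal_re]
        exact Finset.sum_nonneg fun p _ => by positivity
    have h2 : ‖L x y‖ ^ 2 ≤ (C * ‖(x : K →L[ℂ] K) Ω‖ * ‖(y : K →L[ℂ] K) Ω‖) ^ 2 :=
      h1.trans (le_of_eq (by ring))
    exact (sq_le_sq₀ (norm_nonneg _) (by positivity)).1 h2
  let f : P →ₗ[ℂ] K :=
    { toFun := fun c => (c : K →L[ℂ] K) Ω
      map_add' := fun c d => rfl
      map_smul' := fun a c => rfl }
  have hf : DenseRange f := by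
    intro z
    refine closure_mono ?_ (cyc z)
    rintro _ ⟨a, ha, rfl⟩
    exact ⟨⟨a, ha⟩, rfl⟩
  let B : P →ₗ⋆[ℂ] P →ₗ[ℂ] ℂ := LinearMap.mk₂'ₛₗ (starRingEnd ℂ) (RingHom.id ℂ)
    (fun x y => L x y) hadd1 (fun c x y => hsmul1 c x y) hadd2 (fun c x y => hsmul2 c x y)
  obtain ⟨T, hTn, hT⟩ := exists_op_of_form f hf B hC hb
  have hTL : ∀ c' c : P, ⟪(c' : K →L[ℂ] K) Ω, T ((c : K →L[ℂ] K) Ω)⟫_ℂ = L c' c := hT
  have hlim : ∀ c ∈ P, ∀ c' ∈ P,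
      Tendsto (fun i => (S i).val (star c' * X i * c)) 𝒰 (𝓝 ⟪c' Ω, T (c Ω)⟫_ℂ) := by
    intro c hc c' hc'
    have h1 := hL ⟨c', hc'⟩ ⟨c, hc⟩
    rw [← hTL] at h1
    exact h1
  refine ⟨T, ⟨?_, hlim⟩, hTn⟩
  rw [← bic, mem_Com]
  intro x hx
  have key : ∀ c ∈ P, ∀ c' ∈ P, ⟪c' Ω, T (x (c Ω))⟫_ℂ = ⟪c' Ω, x (T (c Ω))⟫_ℂ := by
    intro c hc c' hc'
    have hxc : x (c Ω) = c (x Ω) := by
      have := mem_Com.1 hx c hc
      exact (congrArg (fun Y : K →L[ℂ] K => Y Ω) this).symm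
    have hsx : star x ∈ Com P := star_mem hx
    have hxc' : star x (c' Ω) = c' (star x Ω) := by
      have := mem_Com.1 hsx c' hc'
      exact (congrArg (fun Y : K →L[ℂ] K => Y Ω) this).symm
    set M : ℝ := ‖c' Ω‖ * (C * ‖c‖) + ‖c'‖ * (C * ‖c Ω‖) + 3 * (‖c'‖ * C * ‖c‖) with hM
    have hM0 : 0 ≤ M := by positivity
    have est : ∀ δ : ℝ, 0 < δ → ‖⟪c' Ω, T (x (c Ω))⟫_ℂ - ⟪c' Ω, x (T (c Ω))⟫_ℂ‖ ≤ δ * M := by
      intro δ hδ
      obtain ⟨d, hd, hdx⟩ := Et_approx cyc (x Ω) hδ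
      obtain ⟨d', hd', hdx'⟩ := Et_approx cyc (star x Ω) hδ
      have e1 : ‖⟪c' Ω, T (x (c Ω))⟫_ℂ - ⟪c' Ω, T ((c * d) Ω)⟫_ℂ‖ ≤ δ * (‖c' Ω‖ * (C * ‖c‖)) := by
        rw [← inner_sub_right, ← map_sub, hxc, mul_apply_eq_comp, ← map_sub]
        refine (norm_inner_le_norm _ _).trans ?_
        have h1 : ‖T (c (x Ω - d Ω))‖ ≤ C * (‖c‖ * δ) := by
          refine (le_opNorm _ _).trans ?_
          refine mul_le_mul hTn ?_ (norm_nonneg _) hC
          refine (le_opNorm _ _).trans ?_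
          refine mul_le_mul_of_nonneg_left ?_ (norm_nonneg _)
          rw [norm_sub_rev]
          exact hdx
        calc ‖c' Ω‖ * ‖T (c (x Ω - d Ω))‖ ≤ ‖c' Ω‖ * (C * (‖c‖ * δ)) :=
              mul_le_mul_of_nonneg_left h1 (norm_nonneg _)
          _ = δ * (‖c' Ω‖ * (C * ‖c‖)) := by ring
      have e2 : ‖⟪(c' * d') Ω, T (c Ω)⟫_ℂ - ⟪c' Ω, x (T (c Ω))⟫_ℂ‖ ≤
          δ * (‖c'‖ * (C * ‖c Ω‖)) := by
        have h0 : ⟪c' Ω, x (T (c Ω))⟫_ℂ = ⟪c' (star x Ω), T (c Ω)⟫_ℂ := by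
          rw [← hxc', star_eq_adjoint, adjoint_inner_left]
        rw [h0, ← inner_sub_left, mul_apply_eq_comp, ← map_sub]
        refine (norm_inner_le_norm _ _).trans ?_
        have h1 : ‖c' (d' Ω - star x Ω)‖ ≤ ‖c'‖ * δ :=
          (le_opNorm _ _).trans (mul_le_mul_of_nonneg_left hdx' (norm_nonneg _))
        have h2 : ‖T (c Ω)‖ ≤ C * ‖c Ω‖ :=
          (le_opNorm _ _).trans (mul_le_mul_of_nonneg_right hTn (norm_nonneg _))
        calc ‖c' (d' Ω - star x Ω)‖ * ‖T (c Ω)‖ ≤ (‖c'‖ * δ) * (C * ‖c Ω‖) :=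
              mul_le_mul h1 h2 (norm_nonneg _) (by positivity)
          _ = δ * (‖c'‖ * (C * ‖c Ω‖)) := by ring
      have e3 : ‖⟪c' Ω, T ((c * d) Ω)⟫_ℂ - ⟪(c' * d') Ω, T (c Ω)⟫_ℂ‖ ≤
          δ * (3 * (‖c'‖ * C * ‖c‖)) := by
        have l1 := hlim (c * d) (mul_mem hc hd) c' hc'
        have l2 := hlim c hc (c' * d') (mul_mem hc' hd')
        have l3 := (l1.sub l2).norm
        refine le_of_tendsto l3 ?_
        filter_upwards [h.near x hx d hd d' hd' δ hδ hdx hdx'] with i hi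
        have h1 := hi (star c' * X i * c)
        have e : (S i).val (star c' * X i * (c * d)) - (S i).val (star (c' * d') * X i * c) =
            (S i).val (star c' * X i * c * d) - (S i).val (star d' * (star c' * X i * c)) := by
          rw [star_mul]
          simp only [mul_assoc]
        rw [e]
        refine h1.trans ?_
        calc 3 * δ * ‖star c' * X i * c‖ ≤ 3 * δ * (‖c'‖ * C * ‖c‖) :=
              mul_le_mul_of_nonneg_left (Et_norm_le c' (X i) c (hX i)) (by positivity)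
          _ = δ * (3 * (‖c'‖ * C * ‖c‖)) := by ring
      calc ‖⟪c' Ω, T (x (c Ω))⟫_ℂ - ⟪c' Ω, x (T (c Ω))⟫_ℂ‖
          = ‖(⟪c' Ω, T (x (c Ω))⟫_ℂ - ⟪c' Ω, T ((c * d) Ω)⟫_ℂ) +
              (⟪c' Ω, T ((c * d) Ω)⟫_ℂ - ⟪(c' * d') Ω, T (c Ω)⟫_ℂ) +
              (⟪(c' * d') Ω, T (c Ω)⟫_ℂ - ⟪c' Ω, x (T (c Ω))⟫_ℂ)‖ := by
            congr 1; ring
        _ ≤ ‖⟪c' Ω, T (x (c Ω))⟫_ℂ - ⟪c' Ω, T ((c * d) Ω)⟫_ℂ‖ +
              ‖⟪c' Ω, T ((c * d) Ω)⟫_ℂ - ⟪(c' * d') Ω, T (c Ω)⟫_ℂ‖ +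
              ‖⟪(c' * d') Ω, T (c Ω)⟫_ℂ - ⟪c' Ω, x (T (c Ω))⟫_ℂ‖ := norm_add₃_le
        _ ≤ δ * (‖c' Ω‖ * (C * ‖c‖)) + δ * (3 * (‖c'‖ * C * ‖c‖)) +
              δ * (‖c'‖ * (C * ‖c Ω‖)) := add_le_add (add_le_add e1 e3) e2
        _ = δ * M := by rw [hM]; ring
    have h0 : ‖⟪c' Ω, T (x (c Ω))⟫_ℂ - ⟪c' Ω, x (T (c Ω))⟫_ℂ‖ ≤ 0 := by
      refine le_of_forall_pos_le_add fun ε hε => ?_
      have h1 := est (ε / (M + 1)) (by positivity)
      refine h1.trans ?_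
      rw [zero_add, div_mul_eq_mul_div, div_le_iff₀ (by positivity)]
      nlinarith
    exact sub_eq_zero.1 (norm_le_zero_iff.1 h0)
  have key2 : ∀ c ∈ P, T (x (c Ω)) = x (T (c Ω)) := by
    intro c hc
    refine Dense.eq_of_inner_right ℂ cyc ?_
    rintro _ ⟨c', hc', rfl⟩
    exact key c hc c' hc'
  have key3 : (fun v => (x * T) v) = fun v => (T * x) v := by
    refine Continuous.ext_on cyc (x * T).continuous (T * x).continuous ?_
    rintro _ ⟨c, hc, rfl⟩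
    exact (key2 c hc).symm
  exact ContinuousLinearMap.ext fun v => congrFun key3 v

/-- PROOF. `val (star c' * a * c) → ⟪Ω, star c' a c Ω⟫ = ⟪c' Ω, a c Ω⟫`. -/
theorem Sys.isE_const (h : Sys P Ω 𝒰 S) {a : K →L[ℂ] K} (ha : a ∈ P) :
    IsE P Ω 𝒰 S (fun _ => a) a := by
  refine ⟨ha, fun c hc c' hc' => ?_⟩
  have h1 := h.lim (star c' * a * c) (mul_mem (mul_mem (star_mem hc') ha) hc)
  have e : ⟪Ω, (star c' * a * c) Ω⟫_ℂ = ⟪c' Ω, a (c Ω)⟫_ℂ := by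
    rw [mul_apply_eq_comp, mul_apply_eq_comp, star_eq_adjoint, adjoint_inner_right]
  rw [e] at h1
  exact h1

/-- PROOF. `⟪c Ω, T c Ω⟫ = lim val (star c * X i * c)` has real part in `[0, ‖c Ω‖²]` and imaginary
part `0` since `0 ≤ star c * X i * c ≤ star c * c` (`FS.val_nonneg`; `conjugate_nonneg`); for the
imaginary part use `FS.val_star`. By density of `P Ω` this holds for all vectors. -/
theorem IsE.mem_Icc (h : Sys P Ω 𝒰 S) (cyc : Cyc P Ω) {X : I → K →L[ℂ] K} {T : K →L[ℂ] K}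
    (hT : IsE P Ω 𝒰 S X T) (hX : ∀ i, 0 ≤ X i ∧ X i ≤ 1) : 0 ≤ T ∧ T ≤ 1 := by
  have hsa : ∀ i, star (X i) = X i := fun i => (IsSelfAdjoint.of_nonneg (hX i).1).star_eq
  -- real values on the dense set
  have him : ∀ c ∈ P, (⟪c Ω, T (c Ω)⟫_ℂ).im = 0 := by
    intro c hc
    have h1 := (Complex.continuous_im.tendsto _).comp (hT.lim c hc c hc)
    refine tendsto_nhds_unique h1 ?_
    refine tendsto_const_nhds.congr fun i => ?_
    show 0 = ((S i).val (star c * X i * c)).im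
    have h2 : star (star c * X i * c) = star c * X i * c := by
      rw [star_mul, star_mul, star_star, hsa i, mul_assoc]
    have h3 := FS.val_star (S i) (star c * X i * c)
    rw [h2] at h3
    exact (Complex.conj_eq_iff_im.1 h3.symm).symm
  have hre0 : ∀ c ∈ P, 0 ≤ (⟪c Ω, T (c Ω)⟫_ℂ).re := by
    intro c hc
    have h1 := (Complex.continuous_re.tendsto _).comp (hT.lim c hc c hc)
    refine ge_of_tendsto h1 (Filter.Eventually.of_forall fun i => ?_)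
    exact FS.val_nonneg (S i) (star_left_conjugate_nonneg (hX i).1 c)
  have hre1 : ∀ c ∈ P, (⟪c Ω, T (c Ω)⟫_ℂ).re ≤ ‖c Ω‖ ^ 2 := by
    intro c hc
    have h1 := (Complex.continuous_re.tendsto _).comp (hT.lim c hc c hc)
    refine le_of_tendsto_of_tendsto h1 (Et_lim_re h hc) (Filter.Eventually.of_forall fun i => ?_)
    show ((S i).val (star c * X i * c)).re ≤ ((S i).val (star c * c)).re
    have h2 : star c * X i * c ≤ star c * 1 * c := star_left_conjugate_le_conjugate (hX i).2 c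
    have h3 : 0 ≤ star c * c - star c * X i * c := by
      rw [mul_one] at h2
      exact sub_nonneg.2 h2
    have h4 := FS.val_nonneg (S i) h3
    rw [FS.val_sub, Complex.sub_re] at h4
    linarith
  -- extension by density
  have hc0 : Continuous fun v : K => ⟪v, T v⟫_ℂ := continuous_id.inner T.continuous
  have him' : ∀ v : K, (⟪v, T v⟫_ℂ).im = 0 := by
    intro v
    have hcl : IsClosed {v : K | (⟪v, T v⟫_ℂ).im = 0} :=
      isClosed_eq (Complex.continuous_im.comp hc0) continuous_const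
    refine hcl.closure_subset_iff.2 ?_ (cyc v)
    rintro _ ⟨c, hc, rfl⟩
    exact him c hc
  have hre0' : ∀ v : K, 0 ≤ (⟪v, T v⟫_ℂ).re := by
    intro v
    have hcl : IsClosed {v : K | 0 ≤ (⟪v, T v⟫_ℂ).re} :=
      isClosed_le continuous_const (Complex.continuous_re.comp hc0)
    refine hcl.closure_subset_iff.2 ?_ (cyc v)
    rintro _ ⟨c, hc, rfl⟩
    exact hre0 c hc
  have hre1' : ∀ v : K, (⟪v, T v⟫_ℂ).re ≤ ‖v‖ ^ 2 := by
    intro v
    have hcl : IsClosed {v : K | (⟪v, T v⟫_ℂ).re ≤ ‖v‖ ^ 2} :=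
      isClosed_le (Complex.continuous_re.comp hc0) (continuous_norm.pow 2)
    refine hcl.closure_subset_iff.2 ?_ (cyc v)
    rintro _ ⟨c, hc, rfl⟩
    exact hre1 c hc
  have hpos : ∀ Y : K →L[ℂ] K, (∀ v, (⟪v, Y v⟫_ℂ).im = 0) → (∀ v, 0 ≤ (⟪v, Y v⟫_ℂ).re) → 0 ≤ Y := by
    intro Y hi hr
    rw [ContinuousLinearMap.nonneg_iff_isPositive, ContinuousLinearMap.isPositive_iff_complex]
    intro v
    have e : ⟪Y v, v⟫_ℂ = (starRingEnd ℂ) ⟪v, Y v⟫_ℂ := (inner_conj_symm _ _).symm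
    have e1 : (⟪Y v, v⟫_ℂ).re = (⟪v, Y v⟫_ℂ).re := by rw [e, Complex.conj_re]
    have e2 : (⟪Y v, v⟫_ℂ).im = 0 := by rw [e, Complex.conj_im, hi v, neg_zero]
    refine ⟨?_, ?_⟩
    · apply Complex.ext
      · rfl
      · exact e2.symm
    · exact (hr v).trans (le_of_eq e1.symm)
  refine ⟨hpos T him' hre0', ?_⟩
  rw [← sub_nonneg]
  have e1 : ∀ v : K, ⟪v, (1 - T) v⟫_ℂ = ((‖v‖ ^ 2 : ℝ) : ℂ) - ⟪v, T v⟫_ℂ := by
    intro v
    rw [sub_apply, inner_sub_right]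
    congr 1
    show ⟪v, v⟫_ℂ = _
    rw [inner_self_eq_norm_sq_to_K]
    norm_cast
  refine hpos (1 - T) (fun v => ?_) fun v => ?_
  · rw [e1, Complex.sub_im, him' v, Complex.ofReal_im, sub_zero]
  · rw [e1, Complex.sub_re, Complex.ofReal_re]
    exact sub_nonneg.2 (hre1' v)

/-- `0 ≤ X ≤ 1` implies `‖X‖ ≤ 1`. PROOF. `CStarAlgebra.norm_le_one_iff_of_nonneg`. -/
theorem norm_le_one_of {X : K →L[ℂ] K} (h0 : 0 ≤ X) (h1 : X ≤ 1) : ‖X‖ ≤ 1 := by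
  exact (CStarAlgebra.norm_le_one_iff_of_nonneg X h0).2 h1

end Pool.Agent.MP_86f3ed.Nu
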