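import Pool.Agent.H.MP_86f3ed_an.Pin.Space

open scoped InnerProductSpace Topology
open Filter ContinuousLinearMap

namespace Pool.Agent.MP_86f3ed.Nu

variable {K : Type*} [NormedAddCommGroup K] [InnerProductSpace ℂ K]

/-- A finite rank density operator in diagonal form: orthonormal vectors `u p` with weights
`(l p)²`, `∑ (l p)² = 1`. -/
structure FS (K : Type*) [NormedAddCommGroup K] [InnerProductSpace ℂ K] where
  n : ℕ
  u : Fin n → K
  l : Fin n → ℝ
  ortho : Orthonormal ℂ u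
  nonneg : ∀ p, 0 ≤ l p
  sum_sq : ∑ p, l p ^ 2 = 1

namespace FS

/-- The value of the state: `Tr (h X)`, `h = ∑ l_p² |u_p⟩⟨u_p|`. -/
noncomputable def val (F : FS K) (X : K →L[ℂ] K) : ℂ :=
  ∑ p, ((F.l p ^ 2 : ℝ) : ℂ) * ⟪F.u p, X (F.u p)⟫_ℂ

/-- The form `Tr (h^{1/2} X h^{1/2} Y)`. -/
noncomputable def frm (F : FS K) (X Y : K →L[ℂ] K) : ℂ :=
  ∑ p, ∑ q, ((F.l p * F.l q : ℝ) : ℂ) * (⟪F.u p, X (F.u q)⟫_ℂ * ⟪F.u q, Y (F.u p)⟫_ℂ)

variable (F : FS K)

theorem val_add (X Y : K →L[ℂ] K) : F.val (X + Y) = F.val X + F.val Y := by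
  simp only [val, add_apply, inner_add_right, mul_add, Finset.sum_add_distrib]

theorem val_smul (c : ℂ) (X : K →L[ℂ] K) : F.val (c • X) = c * F.val X := by
  simp only [val, smul_apply, inner_smul_right, Finset.mul_sum]
  exact Finset.sum_congr rfl fun p _ => by ring

theorem val_sub (X Y : K →L[ℂ] K) : F.val (X - Y) = F.val X - F.val Y := by
  simp only [val, sub_apply, inner_sub_right, mul_sub, Finset.sum_sub_distrib]

theorem val_one : F.val 1 = 1 := by
  have h : ∀ p, ⟪F.u p, (1 : K →L[ℂ] K) (F.u p)⟫_ℂ = 1 := by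
    intro p
    show ⟪F.u p, F.u p⟫_ℂ = 1
    rw [inner_self_eq_norm_sq_to_K, F.ortho.1 p]
    simp
  simp only [val, h, mul_one]
  exact_mod_cast F.sum_sq

theorem frm_add_left (X X' Y : K →L[ℂ] K) : F.frm (X + X') Y = F.frm X Y + F.frm X' Y := by
  simp only [frm, add_apply, inner_add_right, add_mul, mul_add, Finset.sum_add_distrib]

theorem frm_add_right (X Y Y' : K →L[ℂ] K) : F.frm X (Y + Y') = F.frm X Y + F.frm X Y' := by
  simp only [frm, add_apply, inner_add_right, mul_add, Finset.sum_add_distrib]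

theorem frm_smul_left (c : ℂ) (X Y : K →L[ℂ] K) : F.frm (c • X) Y = c * F.frm X Y := by
  simp only [frm, smul_apply, inner_smul_right, Finset.mul_sum]
  exact Finset.sum_congr rfl fun p _ => Finset.sum_congr rfl fun q _ => by ring

theorem frm_smul_right (c : ℂ) (X Y : K →L[ℂ] K) : F.frm X (c • Y) = c * F.frm X Y := by
  simp only [frm, smul_apply, inner_smul_right, Finset.mul_sum]
  exact Finset.sum_congr rfl fun p _ => Finset.sum_congr rfl fun q _ => by ring

theorem frm_comm (X Y : K →L[ℂ] K) : F.frm X Y = F.frm Y X := by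
  simp only [frm]
  rw [Finset.sum_comm]
  exact Finset.sum_congr rfl fun p _ => Finset.sum_congr rfl fun q _ => by
    push_cast; ring

/-- PROOF. `∑ q, l_q ⟪u_p, X u_q⟫ ⟪u_q, u_p⟫ = l_p ⟪u_p, X u_p⟫` by orthonormality
(`orthonormal_iff_ite`). -/
theorem frm_one_right (X : K →L[ℂ] K) : F.frm X 1 = F.val X := by
  simp only [frm, val]
  refine Finset.sum_congr rfl fun p _ => ?_
  rw [Finset.sum_eq_single p]
  · have h : ⟪F.u p, (1 : K →L[ℂ] K) (F.u p)⟫_ℂ = 1 := by
      show ⟪F.u p, F.u p⟫_ℂ = 1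
      rw [inner_self_eq_norm_sq_to_K, F.ortho.1 p]
      simp
    rw [h, mul_one, sq]
  · intro q _ hq
    have h : ⟪F.u q, (1 : K →L[ℂ] K) (F.u p)⟫_ℂ = 0 := F.ortho.2 hq
    rw [h, mul_zero, mul_zero]
  · intro h
    exact absurd (Finset.mem_univ p) h

end FS

end Pool.Agent.MP_86f3ed.Nu
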