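import Pool.Agent.H.MP_86f3ed_an.Nu.Cq
import Pool.Agent.H.MP_86f3ed_an.Nu.Clo
import Pool.Agent.H.MP_86f3ed_an.Nu.Aa
import Pool.Agent.H.MP_86f3ed_an.Fac.All
import Pool.Agent.H.MP_86f3ed_an.Ty.TomG
import Pool.Agent.H.MP_86f3ed_an.Am.Fin
import Pool.Agent.H.MP_86f3ed_an.Nu.Defs

open scoped InnerProductSpace Topology
open Filter ContinuousLinearMap

namespace Pool.Agent.MP_86f3ed.Nu

open Pin Sf Fac Ty Am Reg

universe u v

/-- Separable approximately amenable unital C*-algebras satisfy the hypothesis on factor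
representations. -/
theorem goodFac_of_approximatelyAmenable {S : Type u} [CStarAlgebra S]
    (hS : ApproximatelyAmenable.{u, u} S) : GoodFac S := by
  intro K _ _ _ _ π Ω _ hfac h1 h2
  refine ⟨inj_of_factor hS π hfac, ?_⟩
  refine exists_tomitaJ (Com (rangeAlg π)) (Com_Com_Com _) Ω h2 ?_
  refine h1.mono ?_
  rintro _ ⟨a, ha, rfl⟩
  exact ⟨a, mem_Com.mpr fun b hb => (mem_Com.mp hb a ha).symm, rfl⟩

/-- Every approximately amenable C*-algebra is amenable. -/
theorem amenable_of_approximatelyAmenable {A : Type u} [NonUnitalCStarAlgebra A]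
    (hA : ApproximatelyAmenable.{u, u} A) : Amenable.{u, v} A := by
  refine amenable_of_local_kcp fun F => ?_
  have h1 : NDP (Unitization ℂ A) :=
    ndp_of_nearDiag (nearDiag_unitization (approxAmenable_of_public hA))
  obtain ⟨S, hcl, hsep, hF, hS⟩ := exists_separable_ndp h1 (F : Set (Unitization ℂ A))
    F.countable_toSet
  refine ⟨S, StarSubalgebra.cstarAlgebra S, S.subtype,
    kcp_of_goodFac (goodFac_of_approximatelyAmenable (approximatelyAmenable_of_ndp hS)),
    fun a ha => ⟨⟨a, hF (Finset.mem_coe.mpr ha)⟩, rfl⟩⟩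

end Pool.Agent.MP_86f3ed.Nu
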