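import Pool.Agent.H.MP_86f3ed_an.Pin.Space

open scoped InnerProductSpace Topology
open Filter ContinuousLinearMap

namespace Pool.Agent.MP_86f3ed.Nu

set_option linter.unusedSectionVars false

variable {V : Type*} [NormedAddCommGroup V] [InnerProductSpace ℂ V] [FiniteDimensional ℂ V]
  [CompleteSpace V]

/-- The trace of an operator on a finite-dimensional Hilbert space. -/
noncomputable def tr (T : V →L[ℂ] V) : ℂ := LinearMap.trace ℂ V (T : V →ₗ[ℂ] V)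

theorem tr_add (S T : V →L[ℂ] V) : tr (S + T) = tr S + tr T := by
  simp [tr]

theorem tr_sub (S T : V →L[ℂ] V) : tr (S - T) = tr S - tr T := by
  simp [tr]

theorem tr_smul (c : ℂ) (T : V →L[ℂ] V) : tr (c • T) = c * tr T := by
  simp [tr]

/-- PROOF. `LinearMap.trace_mul_comm`. -/
theorem tr_mul_comm (S T : V →L[ℂ] V) : tr (S * T) = tr (T * S) := by
  exact LinearMap.trace_mul_comm ℂ (S : V →ₗ[ℂ] V) (T : V →ₗ[ℂ] V)

/-- PROOF. `LinearMap.trace_eq_sum_inner` (Mathlib) for `stdOrthonormalBasis ℂ V`. -/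
theorem tr_eq_sum {ι : Type*} [Fintype ι] (e : OrthonormalBasis ι ℂ V) (T : V →L[ℂ] V) :
    tr T = ∑ i, ⟪e i, T (e i)⟫_ℂ := by
  exact LinearMap.trace_eq_sum_inner (T : V →ₗ[ℂ] V) e

theorem FinTr_star_mul {ι : Type*} [Fintype ι] (e : OrthonormalBasis ι ℂ V) (S T : V →L[ℂ] V) :
    tr (star S * T) = ∑ i, ⟪S (e i), T (e i)⟫_ℂ := by
  rw [tr_eq_sum e]
  refine Finset.sum_congr rfl fun i _ => ?_
  have h : (star S * T) (e i) = star S (T (e i)) := rfl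
  rw [h, star_eq_adjoint, adjoint_inner_right]

theorem FinTr_sq {ι : Type*} [Fintype ι] (e : OrthonormalBasis ι ℂ V) (T : V →L[ℂ] V) :
    (tr (star T * T)).re = ∑ i, ‖T (e i)‖ ^ 2 := by
  rw [FinTr_star_mul e, Complex.re_sum]
  exact Finset.sum_congr rfl fun i _ => (norm_sq_eq_re_inner (𝕜 := ℂ) (T (e i))).symm

/-- PROOF. `tr (star T) = ∑ ⟪e i, star T (e i)⟫ = ∑ ⟪T (e i), e i⟫`. -/
theorem tr_star (T : V →L[ℂ] V) : tr (star T) = (starRingEnd ℂ) (tr T) := by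
  rw [tr_eq_sum (stdOrthonormalBasis ℂ V), tr_eq_sum (stdOrthonormalBasis ℂ V) T, map_sum]
  refine Finset.sum_congr rfl fun i _ => ?_
  rw [inner_conj_symm, star_eq_adjoint, adjoint_inner_right]

/-- PROOF. `tr (star T * T) = ∑ ‖T (e i)‖²` is real and nonnegative; the same for `A ≥ 0`,
`tr A = ∑ ⟪e i, A (e i)⟫`. -/
theorem tr_nonneg {A : V →L[ℂ] V} (hA : 0 ≤ A) : 0 ≤ (tr A).re := by
  rw [tr_eq_sum (stdOrthonormalBasis ℂ V), Complex.re_sum]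
  rw [ContinuousLinearMap.nonneg_iff_isPositive] at hA
  exact Finset.sum_nonneg fun i _ => hA.re_inner_nonneg_right _

theorem tr_mono {A B : V →L[ℂ] V} (h : A ≤ B) : (tr A).re ≤ (tr B).re := by
  have h1 := tr_nonneg (sub_nonneg.mpr h)
  rw [tr_sub, Complex.sub_re] at h1
  linarith

/-- PROOF. `tr (A B) = tr (√A B √A)` and `√A B √A ≥ 0` (`CFC.sqrt`, conjugation of a nonnegative
element, e.g. `IsSelfAdjoint.conjugate_nonneg` / `conjugate_nonneg`). -/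
theorem tr_mul_nonneg {A B : V →L[ℂ] V} (hA : 0 ≤ A) (hB : 0 ≤ B) : 0 ≤ (tr (A * B)).re := by
  have h1 : tr (A * B) = tr (CFC.sqrt A * B * CFC.sqrt A) := by
    conv_lhs => rw [← CFC.sqrt_mul_sqrt_self A hA]
    rw [mul_assoc, tr_mul_comm]
  rw [h1]
  have hs : star (CFC.sqrt A) = CFC.sqrt A := (CFC.sqrt_nonneg A).isSelfAdjoint
  have h2 : 0 ≤ CFC.sqrt A * B * CFC.sqrt A := by
    have := star_left_conjugate_nonneg hB (CFC.sqrt A)
    rwa [hs] at this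
  exact tr_nonneg h2

/-- The Hilbert-Schmidt norm. -/
noncomputable def hs (T : V →L[ℂ] V) : ℝ := Real.sqrt (tr (star T * T)).re

/-- PROOF. `hs T ^ 2 = (tr (star T * T)).re`, nonnegative by `tr_nonneg` (`star_mul_self_nonneg`). -/
theorem hs_sq (T : V →L[ℂ] V) : hs T ^ 2 = (tr (star T * T)).re := by
  exact Real.sq_sqrt (tr_nonneg (star_mul_self_nonneg T))

theorem FinTr_hs {ι : Type*} [Fintype ι] (e : OrthonormalBasis ι ℂ V) (T : V →L[ℂ] V) :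
    hs T = Real.sqrt (∑ i, ‖T (e i)‖ ^ 2) := by
  rw [hs, FinTr_sq e]

theorem FinTr_hs_nonneg (T : V →L[ℂ] V) : 0 ≤ hs T := Real.sqrt_nonneg _

/-- Cauchy-Schwarz for the trace. PROOF. With an orthonormal basis
`tr (star S * T) = ∑ ⟪S e_i, T e_i⟫`, so `|..| ≤ ∑ ‖S e_i‖ ‖T e_i‖ ≤ hs S * hs T`
(`Finset.sum_mul_sq_le_sq_mul_sq` or `Real.inner_le_nnorm_mul_nnorm`). -/
theorem norm_tr_le (S T : V →L[ℂ] V) : ‖tr (star S * T)‖ ≤ hs S * hs T := by
  rw [FinTr_star_mul (stdOrthonormalBasis ℂ V), FinTr_hs (stdOrthonormalBasis ℂ V) S,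
    FinTr_hs (stdOrthonormalBasis ℂ V) T]
  refine (norm_sum_le _ _).trans ?_
  refine (Finset.sum_le_sum fun i _ => norm_inner_le_norm _ _).trans ?_
  exact Real.sum_mul_le_sqrt_mul_sqrt _ _ _

/-- PROOF. `star (X T) X T ≤ ‖X‖² star T T`: `∑ ‖X T e_i‖² ≤ ‖X‖² ∑ ‖T e_i‖²`. -/
theorem hs_mul_le (X T : V →L[ℂ] V) : hs (X * T) ≤ ‖X‖ * hs T := by
  rw [FinTr_hs (stdOrthonormalBasis ℂ V) (X * T), FinTr_hs (stdOrthonormalBasis ℂ V) T,
    ← Real.sqrt_sq (norm_nonneg X), ← Real.sqrt_mul (sq_nonneg _), Finset.mul_sum]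
  refine Real.sqrt_le_sqrt (Finset.sum_le_sum fun i _ => ?_)
  rw [← mul_pow]
  exact pow_le_pow_left₀ (norm_nonneg _) (X.le_opNorm _) 2

/-- PROOF. `tr (star (star T) * star T) = tr (T * star T) = tr (star T * T)`. -/
theorem hs_star (T : V →L[ℂ] V) : hs (star T) = hs T := by
  rw [hs, hs, star_star, tr_mul_comm]

/-- PROOF. `hs (T X) = hs (star X * star T) ≤ ‖star X‖ hs (star T)`. -/
theorem hs_mul_le' (X T : V →L[ℂ] V) : hs (T * X) ≤ hs T * ‖X‖ := by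
  rw [← hs_star (T * X), star_mul, ← hs_star T, mul_comm (hs (star T)), ← norm_star X]
  exact hs_mul_le _ _

/-- Powers-Stormer in the easy case `h ≤ k`: `tr ((√k - √h)²) ≤ tr (k - h)`.

PROOF. Let `s = CFC.sqrt k`, `g = CFC.sqrt h`; `g ≤ s` (`CFC.sqrt_le_sqrt`). Then `tr (g (s - g)) ≥ 0`
by `tr_mul_nonneg`, i.e. `tr (g s) ≥ tr (g g) = tr h`. Since `star (s - g) * (s - g) = s s + g g -
s g - g s` and `tr (s g) = tr (g s)` we get `tr = tr k + tr h - 2 tr (g s) ≤ tr k - tr h`. -/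
theorem powers_stormer {h k : V →L[ℂ] V} (hh : 0 ≤ h) (hk : h ≤ k) :
    hs (CFC.sqrt k - CFC.sqrt h) ^ 2 ≤ (tr (k - h)).re := by
  have hk0 : 0 ≤ k := hh.trans hk
  have hs1 : star (CFC.sqrt k) = CFC.sqrt k := (CFC.sqrt_nonneg k).isSelfAdjoint
  have hs2 : star (CFC.sqrt h) = CFC.sqrt h := (CFC.sqrt_nonneg h).isSelfAdjoint
  have e1 : CFC.sqrt k * CFC.sqrt k = k := CFC.sqrt_mul_sqrt_self k hk0
  have e2 : CFC.sqrt h * CFC.sqrt h = h := CFC.sqrt_mul_sqrt_self h hh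
  have hle : CFC.sqrt h ≤ CFC.sqrt k := CFC.sqrt_le_sqrt _ _ hk
  have h1 := tr_mul_nonneg (CFC.sqrt_nonneg h) (sub_nonneg.mpr hle)
  rw [mul_sub, e2, tr_sub, Complex.sub_re] at h1
  have h2 : star (CFC.sqrt k - CFC.sqrt h) * (CFC.sqrt k - CFC.sqrt h) =
      (k - CFC.sqrt h * CFC.sqrt k) - (CFC.sqrt k * CFC.sqrt h - h) := by
    rw [star_sub, hs1, hs2, sub_mul, mul_sub, mul_sub, e1, e2]
    abel
  have h3 : tr (CFC.sqrt k * CFC.sqrt h) = tr (CFC.sqrt h * CFC.sqrt k) := tr_mul_comm _ _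
  rw [hs_sq, h2, tr_sub, tr_sub, tr_sub, h3, tr_sub]
  simp only [Complex.sub_re]
  linarith

end Pool.Agent.MP_86f3ed.Nu
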