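import Pool.Agent.H.MP_86f3ed_an.Nu.Gns

open scoped InnerProductSpace Topology
open Filter ContinuousLinearMap

namespace Pool.Agent.MP_86f3ed.Nu

universe u

/-- The state space of a unital C*-algebra. -/
def States (D : Type u) [CStarAlgebra D] : Set (WeakDual ℂ D) :=
  {ψ | ψ 1 = 1 ∧ ∀ x, 0 ≤ (ψ (star x * x)).re ∧ (ψ (star x * x)).im = 0}

theorem KM_isClosed_states (D : Type u) [CStarAlgebra D] : IsClosed (States D) := by
  have h1 : ∀ x : D, Continuous fun ψ : WeakDual ℂ D => ψ x := fun x => WeakDual.eval_continuous x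
  have hset : States D = {ψ : WeakDual ℂ D | ψ 1 = 1} ∩
      ⋂ x : D, ({ψ : WeakDual ℂ D | 0 ≤ (ψ (star x * x)).re} ∩
        {ψ : WeakDual ℂ D | (ψ (star x * x)).im = 0}) := by
    ext ψ
    simp only [States, Set.mem_ofPred_eq, Set.mem_inter_iff, Set.mem_iInter]
  rw [hset]
  refine IsClosed.inter (isClosed_eq (h1 1) continuous_const) (isClosed_iInter fun x => ?_)
  refine IsClosed.inter ?_ ?_
  · exact isClosed_le continuous_const (Complex.continuous_re.comp (h1 _))
  · exact isClosed_eq (Complex.continuous_im.comp (h1 _)) continuous_const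

/-- PROOF. The conditions are closed in the weak star topology (`WeakDual.eval_continuous`), and
`States D` is contained in the closed unit ball (`PosF.norm_le`), which is compact
(`WeakDual.isCompact_closedBall`). -/
theorem isCompact_states (D : Type u) [CStarAlgebra D] : IsCompact (States D) := by
  refine (WeakDual.isCompact_closedBall (𝕜 := ℂ) (E := D) 0 1).of_isClosed_subset
    (KM_isClosed_states D) ?_
  intro ψ hψ
  rw [Set.mem_preimage, mem_closedBall_zero_iff]
  refine ContinuousLinearMap.opNorm_le_bound _ zero_le_one fun x => ?_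
  have hp : PosF ((WeakDual.toStrongDual ψ).toLinearMap : D →ₗ[ℂ] ℂ) := fun x => hψ.2 x
  have h2 := hp.norm_le x
  have h3 : (((WeakDual.toStrongDual ψ).toLinearMap : D →ₗ[ℂ] ℂ) 1) = 1 := hψ.1
  rw [h3] at h2
  simpa using h2

theorem KM_convex_states (D : Type u) [CStarAlgebra D] : Convex ℝ (States D) := by
  intro ψ hψ φ hφ a b ha hb hab
  have hev : ∀ x : D, (a • ψ + b • φ : WeakDual ℂ D) x = (a : ℂ) * ψ x + (b : ℂ) * φ x := by
    intro x
    have : (a • ψ + b • φ : WeakDual ℂ D) x = a • ψ x + b • φ x := rfl
    rw [this, Complex.real_smul, Complex.real_smul]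
  refine ⟨?_, fun x => ?_⟩
  · rw [hev, hψ.1, hφ.1, mul_one, mul_one, ← Complex.ofReal_add, hab, Complex.ofReal_one]
  · rw [hev]
    have h1 := hψ.2 x
    have h2 := hφ.2 x
    refine ⟨?_, ?_⟩
    · simp only [Complex.add_re, Complex.mul_re, Complex.ofReal_re, Complex.ofReal_im, zero_mul,
        sub_zero]
      exact add_nonneg (mul_nonneg ha h1.1) (mul_nonneg hb h2.1)
    · simp [h1.2, h2.2]

theorem KM_isScalarTower (D : Type u) [CStarAlgebra D] : IsScalarTower ℝ ℂ (WeakDual ℂ D) :=
  inferInstanceAs (IsScalarTower ℝ ℂ (D →L[ℂ] ℂ))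

theorem KM_continuousSMul (D : Type u) [CStarAlgebra D] : ContinuousSMul ℝ (WeakDual ℂ D) :=
  have := KM_isScalarTower D
  IsScalarTower.continuousSMul ℂ

theorem KM_locallyConvexSpace (D : Type u) [CStarAlgebra D] :
    LocallyConvexSpace ℝ (WeakDual ℂ D) := by
  have := KM_isScalarTower D
  have := (inferInstance : LocallyConvexSpace ℝ (WeakBilin (topDualPairing ℂ D)))
  exact this

/-- Krein-Milman for one inequality.

PROOF. `States D` is convex and compact; the set `{ψ | 0 ≤ re (ψ T)}` is closed and convex and contains the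
extreme points, so it contains `closure (convexHull ℝ (extremePoints ℝ (States D))) = States D`
(`closure_convexHull_extremePoints`; `WeakDual ℂ D` is a locally convex Hausdorff real
topological vector space; if instances over `ℝ` are missing use `Module.complexToReal` and
`WeakBilin` instances; `IsScalarTower`). -/
theorem states_nonneg {D : Type u} [CStarAlgebra D] (T : D)
    (h : ∀ ψ ∈ Set.extremePoints ℝ (States D), 0 ≤ (ψ T).re) (ψ : WeakDual ℂ D)
    (hψ : ψ ∈ States D) : 0 ≤ (ψ T).re := by
  have hkm := @closure_convexHull_extremePoints (WeakDual ℂ D) _ (WeakDual.instModule' ℝ) _ _ _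
    (KM_continuousSMul D) (KM_locallyConvexSpace D) (States D) (isCompact_states D)
    (KM_convex_states D)
  have hsub : closure (convexHull ℝ (Set.extremePoints ℝ (States D))) ⊆
      {φ : WeakDual ℂ D | 0 ≤ (φ T).re} := by
    refine closure_minimal (convexHull_min h ?_) ?_
    · intro φ hφ χ hχ a b ha hb hab
      have : (a • φ + b • χ : WeakDual ℂ D) T = a • φ T + b • χ T := rfl
      rw [Set.mem_ofPred_eq, this, Complex.add_re, Complex.real_smul, Complex.real_smul,
        Complex.re_ofReal_mul, Complex.re_ofReal_mul]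
      exact add_nonneg (mul_nonneg ha hφ) (mul_nonneg hb hχ)
    · exact isClosed_le continuous_const (Complex.continuous_re.comp (WeakDual.eval_continuous T))
  rw [hkm] at hsub
  exact hsub hψ

end Pool.Agent.MP_86f3ed.Nu
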