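import Pool.Agent.H.MP_86f3ed_an.Nu.FinTr

open scoped InnerProductSpace Topology
open Filter ContinuousLinearMap

namespace Pool.Agent.MP_86f3ed.Nu

set_option linter.unusedSectionVars false

variable {V : Type*} [NormedAddCommGroup V] [InnerProductSpace ℂ V] [FiniteDimensional ℂ V]
  [CompleteSpace V]

theorem levFD_tr_one_le : (tr (1 : V →L[ℂ] V)).re = (Module.finrank ℂ V : ℝ) := by
  unfold tr
  have : ((1 : V →L[ℂ] V) : V →ₗ[ℂ] V) = LinearMap.id := rfl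
  rw [this, LinearMap.trace_id]
  simp

theorem levFD_smul_tr (r : ℝ) : (tr ((r : ℂ) • (1 : V →L[ℂ] V))).re = r * (Module.finrank ℂ V : ℝ) := by
  rw [tr_smul, Complex.mul_re, levFD_tr_one_le]
  simp

theorem levFD_smul_nonneg {r : ℝ} (hr : 0 ≤ r) : 0 ≤ (r : ℂ) • (1 : V →L[ℂ] V) := by
  have h := star_mul_self_nonneg (((Real.sqrt r : ℝ) : ℂ) • (1 : V →L[ℂ] V))
  have h2 : star (((Real.sqrt r : ℝ) : ℂ) • (1 : V →L[ℂ] V)) * (((Real.sqrt r : ℝ) : ℂ) • (1 : V →L[ℂ] V))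
      = (r : ℂ) • (1 : V →L[ℂ] V) := by
    rw [star_smul, star_one, smul_mul_smul_comm, one_mul, Complex.star_def, Complex.conj_ofReal,
      ← Complex.ofReal_mul, Real.mul_self_sqrt hr]
  rwa [h2] at h

/-- For a selfadjoint `a` and `ε > 0` there are `q ≥ 0` with `a ≤ q` and `0 ≤ p ≤ 1` with
`tr q ≤ tr (a p) + ε`, `0 ≤ tr (a p)`.

PROOF. Let `N = dim V`, `η = ε / (N + 1)`, `f t = max t 0`, `g t = max t 0 / (max t 0 + η)` (continuous,
`0 ≤ g ≤ 1`), `q = cfc f a`, `p = cfc g a` (real functional calculus). `a ≤ q` since `t ≤ f t`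
(`cfc_mono`, `cfc_id`), `q ≥ 0` (`cfc_nonneg`), `0 ≤ p ≤ 1` (`cfc_nonneg`, `cfc_le_one`),
`a * p = cfc (t * g t) a ≥ 0` so `0 ≤ tr (a p)`; `f t - t g t = max t 0 * η / (max t 0 + η) ≤ η`
for all real `t` (for `t ≤ 0` both sides vanish), so `q ≤ a p + η • 1` and
`tr q ≤ tr (a p) + η N ≤ tr (a p) + ε` (`tr 1 = N`). -/
theorem exists_pos_part {a : V →L[ℂ] V} (ha : IsSelfAdjoint a) {ε : ℝ} (hε : 0 < ε) :
    ∃ q p : V →L[ℂ] V, 0 ≤ q ∧ a ≤ q ∧ 0 ≤ p ∧ p ≤ 1 ∧ 0 ≤ (tr (a * p)).re ∧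
      (tr q).re ≤ (tr (a * p)).re + ε := by
  set N : ℝ := (Module.finrank ℂ V : ℝ) with hN
  have hN0 : 0 ≤ N := by positivity
  set η : ℝ := ε / (N + 1) with hη
  have hη0 : 0 < η := by positivity
  set f : ℝ → ℝ := fun t => max t 0 with hf
  set g : ℝ → ℝ := fun t => max t 0 / (max t 0 + η) with hg
  have hden : ∀ t : ℝ, 0 < max t 0 + η := fun t => by
    have := le_max_right t 0
    linarith
  have hfc : Continuous f := continuous_id.max continuous_const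
  have hgc : Continuous g := by
    refine (hfc).div (hfc.add continuous_const) (fun t => (hden t).ne')
  have hg0 : ∀ t, 0 ≤ g t := fun t => div_nonneg (le_max_right _ _) (hden t).le
  have hg1 : ∀ t, g t ≤ 1 := fun t => by
    rw [hg]
    simp only
    rw [div_le_one (hden t)]
    linarith
  have hap : a * cfc g a = cfc (fun t => t * g t) a := by
    rw [cfc_mul (fun t => t) g a (by fun_prop) hgc.continuousOn, cfc_id' ℝ a]
  refine ⟨cfc f a, cfc g a, ?_, ?_, ?_, ?_, ?_, ?_⟩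
  · exact cfc_nonneg (fun t _ => le_max_right _ _)
  · conv_lhs => rw [← cfc_id' ℝ a]
    exact cfc_mono (fun t _ => le_max_left _ _) (by fun_prop) hfc.continuousOn
  · exact cfc_nonneg (fun t _ => hg0 t)
  · exact cfc_le_one g a (fun t _ => hg1 t)
  · rw [hap]
    apply tr_nonneg
    refine cfc_nonneg (fun t _ => ?_)
    rcases le_total t 0 with ht | ht
    · have : g t = 0 := by simp [hg, max_eq_right ht]
      rw [this, mul_zero]
    · exact mul_nonneg ht (hg0 t)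
  · rw [hap]
    have h1 : cfc f a ≤ cfc (fun t => t * g t + η) a := by
      refine cfc_mono (fun t _ => ?_) hfc.continuousOn (by fun_prop)
      rcases le_total t 0 with ht | ht
      · simp [hf, hg, max_eq_right ht, hη0.le]
      · simp only [hf, hg, max_eq_left ht]
        have h2 : 0 < t + η := by linarith
        have h3 : t * (t / (t + η)) + η - t = η * η / (t + η) := by
          field_simp
          ring
        have h4 : 0 ≤ η * η / (t + η) := by positivity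
        linarith
    have h2 := tr_mono h1
    rw [cfc_add a (fun t => t * g t) (fun _ => η) (by fun_prop) (by fun_prop), cfc_const η a,
      tr_add, Complex.add_re] at h2
    have h3 : (algebraMap ℝ (V →L[ℂ] V)) η = (η : ℂ) • (1 : V →L[ℂ] V) := by
      rw [Algebra.algebraMap_eq_smul_one]
      ext v
      simp
    rw [h3, levFD_smul_tr] at h2
    have h4 : η * N ≤ ε := by
      rw [hη, div_mul_eq_mul_div, div_le_iff₀ (by linarith)]
      nlinarith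
    linarith

/-- For `0 ≤ D ≤ k` there is `0 ≤ Y ≤ 1` with `√k Y √k = D`, up to a small change of `k`:
precisely, if moreover `k ≥ δ > 0`.

PROOF. `s = CFC.sqrt k`; `s` is invertible since `k` is (`k ≥ δ`). `Y = s⁻¹ D s⁻¹` with
`s⁻¹ = Ring.inverse s` or `(↑(unit)⁻¹)`, selfadjoint; `0 ≤ Y` and `Y ≤ s⁻¹ k s⁻¹ = 1` by conjugation
(`conjugate_le_conjugate`), `s Y s = D`. -/
theorem exists_quot {k D : V →L[ℂ] V} {δ : ℝ} (hδ : 0 < δ) (hk : (δ : ℂ) • (1 : V →L[ℂ] V) ≤ k)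
    (hD : 0 ≤ D) (hDk : D ≤ k) :
    ∃ Y : V →L[ℂ] V, 0 ≤ Y ∧ Y ≤ 1 ∧ CFC.sqrt k * Y * CFC.sqrt k = D := by
  have h1 : (0 : V →L[ℂ] V) ≤ (1 : V →L[ℂ] V) := zero_le_one
  have h2 : (0 : V →L[ℂ] V) ≤ (δ : ℂ) • (1 : V →L[ℂ] V) := levFD_smul_nonneg hδ.le
  have hu : IsUnit ((δ : ℂ) • (1 : V →L[ℂ] V)) := by
    refine ⟨⟨(δ : ℂ) • 1, ((δ : ℂ)⁻¹) • 1, ?_, ?_⟩, rfl⟩
    · rw [smul_mul_smul_comm, mul_inv_cancel₀ (by exact_mod_cast hδ.ne'), one_smul, one_mul]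
    · rw [smul_mul_smul_comm, inv_mul_cancel₀ (by exact_mod_cast hδ.ne'), one_smul, one_mul]
  have hk0 : 0 ≤ k := h2.trans hk
  have hku : IsUnit k := CStarAlgebra.isUnit_of_le _ hk ⟨h2, hu⟩
  have hsu : IsUnit (CFC.sqrt k) := (CFC.isUnit_sqrt_iff k hk0).mpr hku
  obtain ⟨u, hu'⟩ := hsu
  have hs0 : 0 ≤ CFC.sqrt k := CFC.sqrt_nonneg k
  have hss : CFC.sqrt k * CFC.sqrt k = k := CFC.sqrt_mul_sqrt_self k hk0
  set w : V →L[ℂ] V := ((u⁻¹ : (V →L[ℂ] V)ˣ) : V →L[ℂ] V) with hw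
  have hsw : CFC.sqrt k * w = 1 := by rw [← hu', hw]; exact u.mul_inv
  have hws : w * CFC.sqrt k = 1 := by rw [← hu', hw]; exact u.inv_mul
  have hwsa : IsSelfAdjoint w := by
    have h3 : star (CFC.sqrt k) = CFC.sqrt k := (IsSelfAdjoint.of_nonneg hs0).star_eq
    have h4 : star w * CFC.sqrt k = 1 := by
      have := congrArg star hsw
      rwa [star_mul, h3, star_one] at this
    calc star w = star w * (CFC.sqrt k * w) := by rw [hsw, mul_one]
      _ = w := by rw [← mul_assoc, h4, one_mul]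
  refine ⟨w * D * w, ?_, ?_, ?_⟩
  · exact IsSelfAdjoint.conjugate_nonneg hD hwsa
  · have h5 := IsSelfAdjoint.conjugate_le_conjugate hDk hwsa
    have h6 : w * k * w = 1 := by
      nth_rewrite 1 [← hss]
      rw [← mul_assoc, hws, one_mul, hsw]
    rwa [h6] at h5
  · calc CFC.sqrt k * (w * D * w) * CFC.sqrt k = (CFC.sqrt k * w) * D * (w * CFC.sqrt k) := by
          simp only [mul_assoc]
      _ = D := by rw [hsw, hws, one_mul, mul_one]

/-- The level lemma in finite dimension (`g = √h`, `tr h = 1`).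

PROOF. `h = g * g`, so `CFC.sqrt h = g` (`CFC.sqrt_unique` or `CFC.sqrt_mul_self`). Let `N = dim V` and
apply `exists_pos_part` to `a = D - h` with `ε/2`: `q, p`. `δ = ε / (2 (N + 1))`,
`k = h + q + δ • 1 ≥ D`, `k ≥ h`, `k ≥ δ`. `Y` from `exists_quot`. Put `t = (tr ((D - h) p)).re ≥ 0`,
`τ = (tr (k - h)).re = (tr q).re + δ N ≤ t + ε`. With `s = CFC.sqrt k`:
`g Y g - s Y s = g Y (g - s) + (g - s) Y s`. So
`tr (X (g Y g)) - tr (X D) = tr (X g Y (g - s)) + tr (X (g - s) Y s)`, and with `norm_tr_le` (in the form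
`|tr (A B)| ≤ hs A * hs B`, `hs (star A) = hs A`), `hs_mul_le`, `hs_mul_le'`, `‖Y‖ ≤ 1`:
`≤ ‖X‖ hs g hs (g - s) + ‖X‖ hs (g - s) hs s`. `hs g = 1`, `hs s = √(tr k) = √(1 + τ) ≤ 1 + √τ`,
`hs (g - s) ≤ √τ` (`powers_stormer`). Total `≤ ‖X‖ (2 √τ + τ) ≤ ‖X‖ (2 √(t + ε) + (t + ε))`. -/
theorem level_fd {g D : V →L[ℂ] V} (hg : 0 ≤ g) (hD : 0 ≤ D) (h1 : (tr (g * g)).re = 1)
    {ε : ℝ} (hε : 0 < ε) :
    ∃ p Y : V →L[ℂ] V, 0 ≤ p ∧ p ≤ 1 ∧ 0 ≤ Y ∧ Y ≤ 1 ∧ 0 ≤ (tr ((D - g * g) * p)).re ∧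
      ∀ X : V →L[ℂ] V, ‖tr (X * (g * Y * g)) - tr (X * D)‖ ≤
        ‖X‖ * (2 * Real.sqrt ((tr ((D - g * g) * p)).re + ε) + ((tr ((D - g * g) * p)).re + ε)) := by
  set N : ℝ := (Module.finrank ℂ V : ℝ) with hN
  have hN0 : 0 ≤ N := by positivity
  have hgs : star g = g := (IsSelfAdjoint.of_nonneg hg).star_eq
  have hh0 : 0 ≤ g * g := by
    have := star_mul_self_nonneg g
    rwa [hgs] at this
  have ha : IsSelfAdjoint (D - g * g) := (IsSelfAdjoint.of_nonneg hD).sub (IsSelfAdjoint.of_nonneg hh0)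
  obtain ⟨q, p, hq0, hq, hp0, hp1, ht0, htq⟩ := exists_pos_part ha (half_pos hε)
  set t : ℝ := (tr ((D - g * g) * p)).re with ht
  set δ : ℝ := ε / (2 * (N + 1)) with hδ
  have hδ0 : 0 < δ := by positivity
  have hδN : δ * N ≤ ε / 2 := by
    rw [hδ, div_mul_eq_mul_div, div_le_iff₀ (by positivity)]
    nlinarith
  have hδ1 : (0 : V →L[ℂ] V) ≤ (δ : ℂ) • (1 : V →L[ℂ] V) :=
    levFD_smul_nonneg hδ0.le
  set k : V →L[ℂ] V := g * g + q + (δ : ℂ) • (1 : V →L[ℂ] V) with hk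
  have hDk : D ≤ k := by
    have h2 : D ≤ g * g + q := by
      have := add_le_add_right hq (g * g)
      simpa using this
    exact h2.trans (le_add_of_nonneg_right hδ1)
  have hhk : g * g ≤ k := by
    rw [hk, add_assoc]
    exact le_add_of_nonneg_right (add_nonneg hq0 hδ1)
  have hkδ : (δ : ℂ) • (1 : V →L[ℂ] V) ≤ k := le_add_of_nonneg_left (add_nonneg hh0 hq0)
  have hk0 : 0 ≤ k := hδ1.trans hkδ
  obtain ⟨Y, hY0, hY1, hY⟩ := exists_quot hδ0 hkδ hD hDk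
  have hYn : ‖Y‖ ≤ 1 := by
    exact (CStarAlgebra.norm_le_one_iff_of_nonneg Y hY0).mpr hY1
  set s : V →L[ℂ] V := CFC.sqrt k with hsdef
  have hs0 : 0 ≤ s := CFC.sqrt_nonneg k
  have hss : star s = s := (IsSelfAdjoint.of_nonneg hs0).star_eq
  have hsk : s * s = k := CFC.sqrt_mul_sqrt_self k hk0
  have hgsq : CFC.sqrt (g * g) = g := CFC.sqrt_mul_self g hg
  set τ : ℝ := (tr (k - g * g)).re with hτ
  have hτ0 : 0 ≤ τ := tr_nonneg (sub_nonneg.mpr hhk)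
  have hτ1 : τ ≤ t + ε := by
    have h3 : k - g * g = q + (δ : ℂ) • (1 : V →L[ℂ] V) := by rw [hk]; abel
    rw [hτ, h3, tr_add, Complex.add_re, levFD_smul_tr]
    linarith
  have hps : hs (s - g) ^ 2 ≤ τ := by
    have := powers_stormer hh0 hhk
    rwa [hgsq] at this
  have hsg0 : 0 ≤ hs (s - g) := Real.sqrt_nonneg _
  have hps1 : hs (s - g) ≤ Real.sqrt τ := by
    apply Real.le_sqrt_of_sq_le hps
  have hgs' : hs g = 1 := by
    have h3 := hs_sq g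
    rw [hgs, h1] at h3
    have h4 : 0 ≤ hs g := Real.sqrt_nonneg _
    nlinarith
  have hsn : hs s ≤ 1 + Real.sqrt τ := by
    have h3 := hs_sq s
    rw [hss, hsk] at h3
    have h4 : (tr k).re = 1 + τ := by
      rw [hτ, tr_sub, Complex.sub_re, h1]
      ring
    rw [h4] at h3
    have h5 : 0 ≤ hs s := Real.sqrt_nonneg _
    have h6 := Real.sqrt_nonneg τ
    have h7 := Real.sq_sqrt hτ0
    nlinarith
  refine ⟨p, Y, hp0, hp1, hY0, hY1, ht0, fun X => ?_⟩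
  have hgs2 : hs (g - s) ≤ Real.sqrt τ := by
    have : hs (g - s) = hs (s - g) := by
      unfold hs
      rw [← neg_sub s g, star_neg, neg_mul_neg]
    rw [this]
    exact hps1
  have hX0 := norm_nonneg X
  have hgs0 : 0 ≤ hs (g - s) := Real.sqrt_nonneg _
  have hss0 : 0 ≤ hs s := Real.sqrt_nonneg _
  have hsq0 := Real.sqrt_nonneg τ
  have hcs : ∀ A B : V →L[ℂ] V, ‖tr (A * B)‖ ≤ hs A * hs B := fun A B => by
    have := norm_tr_le (star A) B
    rwa [star_star, hs_star] at this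
  have hsplit : tr (X * (g * Y * g)) - tr (X * D) =
      tr ((X * (g * Y)) * (g - s)) + tr ((X * ((g - s) * Y)) * s) := by
    rw [← hY, ← tr_sub, ← tr_add]
    congr 1
    noncomm_ring
  have e1 : ‖tr ((X * (g * Y)) * (g - s))‖ ≤ ‖X‖ * Real.sqrt τ := by
    have h3 : hs (X * (g * Y)) ≤ ‖X‖ := by
      calc hs (X * (g * Y)) ≤ ‖X‖ * hs (g * Y) := hs_mul_le _ _
        _ ≤ ‖X‖ * (hs g * ‖Y‖) := by gcongr; exact hs_mul_le' _ _
        _ ≤ ‖X‖ * (1 * 1) := by rw [hgs']; gcongr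
        _ = ‖X‖ := by ring
    calc ‖tr ((X * (g * Y)) * (g - s))‖ ≤ hs (X * (g * Y)) * hs (g - s) := hcs _ _
      _ ≤ ‖X‖ * Real.sqrt τ := by gcongr
  have e2 : ‖tr ((X * ((g - s) * Y)) * s)‖ ≤ ‖X‖ * Real.sqrt τ * (1 + Real.sqrt τ) := by
    have h3 : hs (X * ((g - s) * Y)) ≤ ‖X‖ * Real.sqrt τ := by
      calc hs (X * ((g - s) * Y)) ≤ ‖X‖ * hs ((g - s) * Y) := hs_mul_le _ _
        _ ≤ ‖X‖ * (hs (g - s) * ‖Y‖) := by gcongr; exact hs_mul_le' _ _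
        _ ≤ ‖X‖ * (Real.sqrt τ * 1) := by gcongr
        _ = ‖X‖ * Real.sqrt τ := by ring
    calc ‖tr ((X * ((g - s) * Y)) * s)‖ ≤ hs (X * ((g - s) * Y)) * hs s := hcs _ _
      _ ≤ ‖X‖ * Real.sqrt τ * (1 + Real.sqrt τ) := by gcongr
  have e3 : ‖tr (X * (g * Y * g)) - tr (X * D)‖ ≤ ‖X‖ * (2 * Real.sqrt τ + τ) := by
    rw [hsplit]
    calc _ ≤ _ := norm_add_le _ _
      _ ≤ ‖X‖ * Real.sqrt τ + ‖X‖ * Real.sqrt τ * (1 + Real.sqrt τ) := add_le_add e1 e2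
      _ = ‖X‖ * (2 * Real.sqrt τ + Real.sqrt τ ^ 2) := by ring
      _ = ‖X‖ * (2 * Real.sqrt τ + τ) := by rw [Real.sq_sqrt hτ0]
  refine e3.trans ?_
  have e4 : Real.sqrt τ ≤ Real.sqrt (t + ε) := Real.sqrt_le_sqrt hτ1
  gcongr

end Pool.Agent.MP_86f3ed.Nu
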