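import Pool.Agent.H.MP_86f3ed_an.Nu.Dag
import Pool.Agent.H.MP_86f3ed_an.Nu.Chain

open scoped InnerProductSpace Topology
open Filter ContinuousLinearMap

namespace Pool.Agent.MP_86f3ed.Nu

open Pin Ty

universe v

variable {K : Type v} [NormedAddCommGroup K] [InnerProductSpace ℂ K] [CompleteSpace K]
  {P : StarSubalgebra ℂ (K →L[ℂ] K)} {Ω : K} {I : Type v} {𝒰 : Ultrafilter I} {S : I → FS K}
  {J : K → K}

/-- The self-polar form on selfadjoint elements of `P`. -/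
noncomputable def sp (J : K → K) (Ω : K) (x y : K →L[ℂ] K) : ℝ := (⟪Ω, x (J (y Ω))⟫_ℂ).re

theorem Low_sp_eq {x y : K →L[ℂ] K} (hx : star x = x) :
    sp J Ω x y = (⟪x Ω, J (y Ω)⟫_ℂ).re := by
  rw [sp]
  conv_lhs => rw [← hx]
  rw [star_eq_adjoint, adjoint_inner_right]

/-- PROOF. `⟪Ω, x (J (y Ω))⟫ = ⟪x Ω, J (y Ω)⟫` for `star x = x`, and `⟪ξ, J ζ⟫ = ⟪ζ, J ξ⟫`
(`hJ.inner`, `hJ.invol`). -/
theorem sp_comm (hJ : TomitaJ P Ω J) {x y : K →L[ℂ] K} (hx : star x = x) (hy : star y = y) :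
    sp J Ω x y = sp J Ω y x := by
  rw [Low_sp_eq hx, Low_sp_eq hy]
  conv_lhs => rw [← hJ.invol (x Ω)]
  rw [hJ.inner]

/-- PROOF. `0 ≤ sp (x - y) (x - y)` by `hJ.pos`, expand by bilinearity (real) and `sp_comm`. -/
theorem sp_le (hJ : TomitaJ P Ω J) {x y : K →L[ℂ] K} (hxP : x ∈ P) (hyP : y ∈ P)
    (hx : star x = x) (hy : star y = y) :
    sp J Ω x y ≤ (sp J Ω x x + sp J Ω y y) / 2 := by
  have h1 := hJ.pos (x - y) (sub_mem hxP hyP) (by rw [star_sub, hx, hy])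
  have hneg : J (-(y Ω)) = -(J (y Ω)) := by
    have := hJ.smul (-1) (y Ω)
    simpa using this
  have h2 : J ((x - y) Ω) = J (x Ω) - J (y Ω) := by
    rw [sub_apply, sub_eq_add_neg, hJ.add, hneg, sub_eq_add_neg]
  have h3 := sp_comm hJ hx hy
  rw [h2, sub_apply, inner_sub_left, inner_sub_right, inner_sub_right, Complex.sub_re,
    Complex.sub_re, Complex.sub_re, ← Low_sp_eq hx, ← Low_sp_eq hx, ← Low_sp_eq hy,
    ← Low_sp_eq hy] at h1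
  linarith

/-- PROOF. `|⟪x Ω, J (y Ω)⟫| ≤ ‖x Ω‖ ‖y Ω‖` (`‖J ζ‖ = ‖ζ‖` by `hJ.inner`). -/
theorem abs_sp_le (hJ : TomitaJ P Ω J) (hΩ : ‖Ω‖ = 1) {x y : K →L[ℂ] K} (hx : ‖x‖ ≤ 1)
    (hy : ‖y‖ ≤ 1) : |sp J Ω x y| ≤ 1 := by
  have hJn : ∀ z, ‖J z‖ = ‖z‖ := by
    intro z
    have h1 := hJ.inner z z
    have h2 : ‖J z‖ ^ 2 = ‖z‖ ^ 2 := by
      rw [inner_self_eq_norm_sq_to_K, inner_self_eq_norm_sq_to_K] at h1
      exact_mod_cast h1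
    exact (sq_eq_sq₀ (norm_nonneg _) (norm_nonneg _)).mp h2
  rw [sp]
  refine (Complex.abs_re_le_norm _).trans ((norm_inner_le_norm _ _).trans ?_)
  rw [hΩ, one_mul]
  calc ‖x (J (y Ω))‖ ≤ ‖x‖ * ‖J (y Ω)‖ := le_opNorm _ _
    _ = ‖x‖ * ‖y Ω‖ := by rw [hJn]
    _ ≤ ‖x‖ * (‖y‖ * ‖Ω‖) := mul_le_mul_of_nonneg_left (le_opNorm _ _) (norm_nonneg _)
    _ = ‖x‖ * ‖y‖ := by rw [hΩ, mul_one]
    _ ≤ 1 * 1 := mul_le_mul hx hy (norm_nonneg _) zero_le_one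
    _ = 1 := one_mul _

/-- PROOF. `0 ≤ re frm (X - Y) (X - Y)` (`FS.frm_self_nonneg`), bilinearity and `FS.frm_comm`. -/
theorem FS.frm_le (F : FS K) {X Y : K →L[ℂ] K} (hX : star X = X) (hY : star Y = Y) :
    (F.frm X Y).re ≤ ((F.frm X X).re + (F.frm Y Y).re) / 2 := by
  have h1 := F.frm_self_nonneg (X := X + (-1 : ℂ) • Y) (by
    rw [star_add, star_smul, hX, hY, star_neg, star_one])
  rw [F.frm_add_left, F.frm_add_right, F.frm_add_right, F.frm_smul_left, F.frm_smul_left,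
    F.frm_smul_right, F.frm_smul_right, F.frm_comm Y X] at h1
  have h2 : (F.frm X X + -1 * F.frm X Y + (-1 * F.frm X Y + -1 * (-1 * F.frm Y Y))).re =
      (F.frm X X).re - 2 * (F.frm X Y).re + (F.frm Y Y).re := by
    simp only [Complex.add_re, Complex.mul_re, Complex.neg_re, Complex.neg_im, Complex.one_re,
      Complex.one_im, Complex.mul_im]
    ring
  rw [h2] at h1
  linarith

/-- The lower bound.

PROOF. Let `η > 0`, `δ` from `chain' (η := η/2)`, made smaller so that also `δ ≤ η / 8` is possible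
(a smaller `δ` is still good). Define recursively `b 0 = b`, and for `b n ∈ P`, `0 ≤ b n ≤ 1` let `Y n` be
the net of `Sys.dag` for `b n`, `δ`, and `b (n+1)` an expectation of `Y n` (`Sys.exists_E`,
`IsE.mem_Icc`); so `b (n+1) ∈ P`, `0 ≤ b (n+1) ≤ 1`. (Build the sequence of triples by
`exists_seq`-type choice: a function on the subtype `{b // b ∈ P ∧ 0 ≤ b ∧ b ≤ 1}` and `Nat.rec`.)
Let `Lim` be the limit along `𝒰` of bounded real functions (it exists: compactness of `[-1,1]`, or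
`exists_ultralimit`); `f₀ = Lim re frm b b`, `s n = sp (b n) (b n)`, `f n = sp (b (n+1)) (b n)`.
`Sys.dag` with `X = b` (constant, `Sys.isE_const`), `T = b`: `|re frm b (Y 0) - s 0| ≤ δ`
eventually. With `X = Y m`, `T = b (m+1)`: `|re frm (Y m) (Y n) - sp (b (m+1)) (b n)| ≤ δ`.
Hence (with `FS.frm_le`, `sp_le`):
`s 0 ≤ Lim re frm b (Y 0) + δ ≤ (f₀ + Lim re frm (Y 0) (Y 0)) / 2 + δ ≤ (f₀ + f 0) / 2 + 2 δ`;
`f n = sp (b (n+1)) (b n) ≤ (s (n+1) + s n) / 2`;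
`s (n+1) = sp (b (n+1)) (b (n+1)) ≤ Lim re frm (Y n) (Y (n+1)) + δ ≤
(Lim re frm (Y n) (Y n) + Lim re frm (Y (n+1)) (Y (n+1))) / 2 + δ ≤ (f n + f (n+1)) / 2 + 2 δ`.
So `chain'` gives `s 0 ≤ f₀ + η/2`, i.e. `sp b b ≤ re frm b b + η` eventually. -/
theorem Sys.low (h : Sys P Ω 𝒰 S) (bic : Com (Com P) = P) (cyc : Cyc P Ω) (hΩ : ‖Ω‖ = 1)
    (hJ : TomitaJ P Ω J) {b : K →L[ℂ] K} (hb : b ∈ P) (h0 : 0 ≤ b) (h1 : b ≤ 1) {η : ℝ}
    (hη : 0 < η) : ∀ᶠ i in 𝒰, sp J Ω b b ≤ ((S i).frm b b).re + η := by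
  classical
  obtain ⟨δ, hδ, hchain⟩ := chain' (half_pos hη)
  -- the step
  have hstep : ∀ c : {b : K →L[ℂ] K // b ∈ P ∧ 0 ≤ b ∧ b ≤ 1},
      ∃ (Y : I → K →L[ℂ] K) (c' : {b : K →L[ℂ] K // b ∈ P ∧ 0 ≤ b ∧ b ≤ 1}),
        (∀ i, 0 ≤ Y i ∧ Y i ≤ 1) ∧ IsE P Ω 𝒰 S Y c'.1 ∧
        ∀ (X : I → K →L[ℂ] K) (T : K →L[ℂ] K), (∀ i, ‖X i‖ ≤ 1) → IsE P Ω 𝒰 S X T →
          ∀ᶠ i in 𝒰, ‖(S i).frm (X i) (Y i) - ⟪Ω, T (J (c.1 Ω))⟫_ℂ‖ ≤ δ := by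
    intro c
    obtain ⟨Y, hY, hYr⟩ := h.dag bic cyc hΩ hJ c.2.1 c.2.2.1 c.2.2.2 hδ
    obtain ⟨T, hT, -⟩ := h.exists_E bic cyc (X := Y) (C := 1)
      (fun i => norm_le_one_of (hY i).1 (hY i).2)
    obtain ⟨hT0, hT1⟩ := hT.mem_Icc h cyc hY
    exact ⟨Y, ⟨T, hT.mem, hT0, hT1⟩, hY, hT, hYr⟩
  choose Yf nb hY01 hYE hYr using hstep
  -- limits of forms
  have hlim : ∀ X Y : I → K →L[ℂ] K, (∀ i, ‖X i‖ ≤ 1) → (∀ i, ‖Y i‖ ≤ 1) →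
      ∃ z : ℂ, ‖z‖ ≤ 1 ∧ Tendsto (fun i => (S i).frm (X i) (Y i)) 𝒰 (𝓝 z) := by
    intro X Y hX hY
    refine exists_ultralimit 𝒰 _ 1 fun i => ?_
    refine ((S i).norm_frm_le _ _).trans ?_
    calc ‖X i‖ * ‖Y i‖ ≤ 1 * 1 := mul_le_mul (hX i) (hY i) (norm_nonneg _) zero_le_one
      _ = 1 := one_mul _
  have hn1 : ∀ c i, ‖Yf c i‖ ≤ 1 := fun c i => norm_le_one_of (hY01 c i).1 (hY01 c i).2
  have hs1 : ∀ c i, star (Yf c i) = Yf c i := fun c i => (hY01 c i).1.isSelfAdjoint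
  have hcn : ∀ c : {b : K →L[ℂ] K // b ∈ P ∧ 0 ≤ b ∧ b ≤ 1}, ‖c.1‖ ≤ 1 := fun c =>
    norm_le_one_of c.2.2.1 c.2.2.2
  have hcs : ∀ c : {b : K →L[ℂ] K // b ∈ P ∧ 0 ≤ b ∧ b ≤ 1}, star c.1 = c.1 := fun c =>
    c.2.2.1.isSelfAdjoint
  -- comparison of the limits
  have hcmp : ∀ {X Y : I → K →L[ℂ] K}, (∀ i, star (X i) = X i) → (∀ i, star (Y i) = Y i) →
      ∀ {z x y : ℂ}, Tendsto (fun i => (S i).frm (X i) (Y i)) 𝒰 (𝓝 z) →
      Tendsto (fun i => (S i).frm (X i) (X i)) 𝒰 (𝓝 x) →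
      Tendsto (fun i => (S i).frm (Y i) (Y i)) 𝒰 (𝓝 y) → z.re ≤ (x.re + y.re) / 2 := by
    intro X Y hX hY z x y hz hx hy
    have h1 := (Complex.continuous_re.tendsto _).comp hz
    have h2 := (Complex.continuous_re.tendsto _).comp hx
    have h3 := (Complex.continuous_re.tendsto _).comp hy
    refine le_of_tendsto_of_tendsto' h1 ((h2.add h3).div_const 2) fun i => ?_
    exact (S i).frm_le (hX i) (hY i)
  have hnear : ∀ (c : {b : K →L[ℂ] K // b ∈ P ∧ 0 ≤ b ∧ b ≤ 1}) (X : I → K →L[ℂ] K)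
      (T : K →L[ℂ] K), (∀ i, ‖X i‖ ≤ 1) → IsE P Ω 𝒰 S X T → ∀ {z : ℂ},
      Tendsto (fun i => (S i).frm (X i) (Yf c i)) 𝒰 (𝓝 z) → |z.re - sp J Ω T c.1| ≤ δ := by
    intro c X T hX hT z hz
    have h1 := hYr c X T hX hT
    have h2 : ‖z - ⟪Ω, T (J (c.1 Ω))⟫_ℂ‖ ≤ δ :=
      le_of_tendsto ((hz.sub_const _).norm) h1
    rw [sp, ← Complex.sub_re]
    exact (Complex.abs_re_le_norm _).trans h2
  let bs : ℕ → {b : K →L[ℂ] K // b ∈ P ∧ 0 ≤ b ∧ b ≤ 1} := fun n => nb^[n] ⟨b, hb, h0, h1⟩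
  have hbs0 : bs 0 = ⟨b, hb, h0, h1⟩ := rfl
  have hbs : ∀ n, bs (n + 1) = nb (bs n) := fun n => Function.iterate_succ_apply' nb n _
  have hE : ∀ n, IsE P Ω 𝒰 S (Yf (bs n)) (bs (n + 1)).1 := fun n => by
    rw [hbs n]; exact hYE (bs n)
  have hb1 : ‖b‖ ≤ 1 := norm_le_one_of h0 h1
  have hbsa : star b = b := h0.isSelfAdjoint
  obtain ⟨z₀, hz₀n, hz₀⟩ := hlim (fun _ => b) (fun _ => b) (fun _ => hb1) (fun _ => hb1)
  have key := hchain z₀.re (fun n => sp J Ω (bs n).1 (bs n).1)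
    (fun n => sp J Ω (bs (n + 1)).1 (bs n).1)
    ((Complex.abs_re_le_norm _).trans hz₀n)
    (fun n => abs_sp_le hJ hΩ (hcn _) (hcn _)) (fun n => abs_sp_le hJ hΩ (hcn _) (hcn _))
    (by
      obtain ⟨z, -, hz⟩ := hlim (fun _ => b) (Yf (bs 0)) (fun _ => hb1) (hn1 _)
      obtain ⟨y, -, hy⟩ := hlim (Yf (bs 0)) (Yf (bs 0)) (hn1 _) (hn1 _)
      have e1 := hcmp (fun _ => hbsa) (hs1 (bs 0)) hz hz₀ hy
      have e2 := abs_le.mp (hnear (bs 0) (fun _ => b) b (fun _ => hb1) (h.isE_const hb) hz)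
      have e3 := abs_le.mp (hnear (bs 0) (Yf (bs 0)) _ (hn1 _) (hE 0) hy)
      have e4 : sp J Ω (bs 0).1 (bs 0).1 = sp J Ω b (bs 0).1 := rfl
      simp only [zero_add] at e3 ⊢
      rw [e4]
      linarith [e2.1, e3.2])
    (by
      intro k
      have e1 := sp_le hJ (bs (k + 1)).2.1 (bs k).2.1 (hcs _) (hcs _)
      show sp J Ω (bs (k + 1)).1 (bs k).1 ≤ _
      linarith)
    (by
      intro k
      obtain ⟨z, -, hz⟩ := hlim (Yf (bs k)) (Yf (bs (k + 1))) (hn1 _) (hn1 _)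
      obtain ⟨x, -, hx⟩ := hlim (Yf (bs k)) (Yf (bs k)) (hn1 _) (hn1 _)
      obtain ⟨y, -, hy⟩ := hlim (Yf (bs (k + 1))) (Yf (bs (k + 1))) (hn1 _) (hn1 _)
      have e1 := hcmp (hs1 (bs k)) (hs1 (bs (k + 1))) hz hx hy
      have e2 := abs_le.mp (hnear (bs (k + 1)) (Yf (bs k)) _ (hn1 _) (hE k) hz)
      have e3 := abs_le.mp (hnear (bs k) (Yf (bs k)) _ (hn1 _) (hE k) hx)
      have e4 := abs_le.mp (hnear (bs (k + 1)) (Yf (bs (k + 1))) _ (hn1 _) (hE (k + 1)) hy)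
      show sp J Ω (bs (k + 1)).1 (bs (k + 1)).1 ≤
        (sp J Ω (bs (k + 1)).1 (bs k).1 + sp J Ω (bs (k + 1 + 1)).1 (bs (k + 1)).1) / 2 + 2 * δ
      linarith [e2.1, e3.2, e4.2])
  have key' : sp J Ω b b ≤ z₀.re + η / 2 := key
  have h2 := ((Complex.continuous_re.tendsto _).comp hz₀).eventually
    (lt_mem_nhds (show z₀.re - η / 2 < z₀.re by linarith))
  filter_upwards [h2] with i hi
  simp only [Function.comp] at hi
  linarith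

end Pool.Agent.MP_86f3ed.Nu
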