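import Pool.Agent.H.MP_86f3ed_an.Nu.NF
import Pool.Agent.H.MP_86f3ed_an.Nu.FSb
import Pool.Agent.H.MP_86f3ed_an.Nu.Dg

open scoped InnerProductSpace Topology
open Filter ContinuousLinearMap

namespace Pool.Agent.MP_86f3ed.Nu

variable {K : Type*} [NormedAddCommGroup K] [InnerProductSpace ℂ K] [CompleteSpace K]

/-- A contractive unital functional has nonnegative real part on accretive operators.

PROOF. For `s > 0`: `‖(s - A) x‖² = s² ‖x‖² - 2 s re⟪x, A x⟫ + ‖A x‖² ≤ (s² + ‖A‖²) ‖x‖²`, so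
`s - re (Ψ A) ≤ |Ψ (s • 1 - A)| ≤ √(s² + ‖A‖²)`, `re (Ψ A) ≥ s - √(s² + ‖A‖²) ≥ - ‖A‖² / (2 s)`; let
`s → ∞`. -/
theorem accretive (Ψ : (K →L[ℂ] K) →ₗ[ℂ] ℂ) (h1 : Ψ 1 = 1) (h2 : ∀ X, ‖Ψ X‖ ≤ ‖X‖)
    {A : K →L[ℂ] K} (hA : ∀ x, 0 ≤ (⟪x, A x⟫_ℂ).re) : 0 ≤ (Ψ A).re := by
  by_contra hneg
  push Not at hneg
  have key : ∀ s : ℝ, 0 < s → (s - (Ψ A).re) ^ 2 ≤ s ^ 2 + ‖A‖ ^ 2 := by
    intro s hs
    have hb : ‖((s : ℂ) • (1 : K →L[ℂ] K) - A)‖ ≤ Real.sqrt (s ^ 2 + ‖A‖ ^ 2) := by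
      refine ContinuousLinearMap.opNorm_le_bound _ (Real.sqrt_nonneg _) ?_
      intro x
      have h3 : ‖((s : ℂ) • (1 : K →L[ℂ] K) - A) x‖ ^ 2 ≤ (s ^ 2 + ‖A‖ ^ 2) * ‖x‖ ^ 2 := by
        have e : ((s : ℂ) • (1 : K →L[ℂ] K) - A) x = (s : ℂ) • x - A x := by
          simp
        rw [e, @norm_sub_sq ℂ, inner_smul_left, norm_smul]
        have h4 : (RCLike.re ((starRingEnd ℂ) (s : ℂ) * ⟪x, A x⟫_ℂ) : ℝ) = s * (⟪x, A x⟫_ℂ).re := by
          simp
        rw [h4]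
        have h5 : ‖A x‖ ≤ ‖A‖ * ‖x‖ := A.le_opNorm x
        have h6 : ‖A x‖ ^ 2 ≤ (‖A‖ * ‖x‖) ^ 2 := pow_le_pow_left₀ (norm_nonneg _) h5 2
        have h7 : 0 ≤ s * (⟪x, A x⟫_ℂ).re := mul_nonneg hs.le (hA x)
        have h8 : ‖(s : ℂ)‖ = s := by simp [abs_of_pos hs]
        rw [h8]
        nlinarith
      have h9 : ‖((s : ℂ) • (1 : K →L[ℂ] K) - A) x‖ ≤
          Real.sqrt ((s ^ 2 + ‖A‖ ^ 2) * ‖x‖ ^ 2) := Real.le_sqrt_of_sq_le h3
      rwa [Real.sqrt_mul (by positivity), Real.sqrt_sq (norm_nonneg _)] at h9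
    have h3 : ‖Ψ ((s : ℂ) • (1 : K →L[ℂ] K) - A)‖ ≤ Real.sqrt (s ^ 2 + ‖A‖ ^ 2) := (h2 _).trans hb
    have h4 : (Ψ ((s : ℂ) • (1 : K →L[ℂ] K) - A)).re = s - (Ψ A).re := by
      rw [map_sub, map_smul, h1]
      simp
    have h5 : s - (Ψ A).re ≤ Real.sqrt (s ^ 2 + ‖A‖ ^ 2) := by
      rw [← h4]
      exact ((le_abs_self _).trans (Complex.abs_re_le_norm _)).trans h3
    have h6 : 0 ≤ s - (Ψ A).re := by linarith
    calc (s - (Ψ A).re) ^ 2 ≤ (Real.sqrt (s ^ 2 + ‖A‖ ^ 2)) ^ 2 := pow_le_pow_left₀ h6 h5 2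
      _ = s ^ 2 + ‖A‖ ^ 2 := Real.sq_sqrt (by positivity)
  set c := -(Ψ A).re with hc
  have hc0 : 0 < c := by linarith
  have hk := key ((‖A‖ ^ 2 + 1) / (2 * c)) (by positivity)
  have e1 : (Ψ A).re = -c := by rw [hc]; ring
  rw [e1] at hk
  have e2 : 2 * ((‖A‖ ^ 2 + 1) / (2 * c)) * c = ‖A‖ ^ 2 + 1 := by field_simp
  nlinarith

/-- Lower bounds pass from the finite rank states to contractive unital functionals.

PROOF. For a unit vector `x` there is an `FS` (`n = 1`, `u = x`, `l = 1`) with `val X = ⟪x, X x⟫`. So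
`re ⟪x, T x⟫ ≥ γ ‖x‖²` for all `x` (scaling) and `accretive` applies to `T - γ • 1`. -/
theorem state_ge (Ψ : (K →L[ℂ] K) →ₗ[ℂ] ℂ) (h1 : Ψ 1 = 1) (h2 : ∀ X, ‖Ψ X‖ ≤ ‖X‖)
    {T : K →L[ℂ] K} {γ : ℝ} (h : ∀ F : FS K, γ ≤ (F.val T).re) : γ ≤ (Ψ T).re := by
  have hA : ∀ x, 0 ≤ (⟪x, (T - (γ : ℂ) • (1 : K →L[ℂ] K)) x⟫_ℂ).re := by
    intro x
    by_cases hx : x = 0
    · subst hx; simp
    have hx0 : ‖x‖ ≠ 0 := norm_ne_zero_iff.mpr hx
    have hxp : 0 < ‖x‖ := norm_pos_iff.mpr hx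
    set e : K := ((‖x‖⁻¹ : ℝ) : ℂ) • x with he
    have hen : ‖e‖ = 1 := by
      rw [he, norm_smul]
      simp [hx0]
    let F : FS K :=
      { n := 1
        u := fun _ => e
        l := fun _ => 1
        ortho := by
          rw [orthonormal_iff_ite]
          intro i j
          have hij : i = j := Subsingleton.elim _ _
          rw [if_pos hij, inner_self_eq_norm_sq_to_K, hen]
          simp
        nonneg := fun _ => zero_le_one
        sum_sq := by simp }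
    have hv : F.val T = ⟪e, T e⟫_ℂ := by
      show ∑ p : Fin 1, (((1 : ℝ) ^ 2 : ℝ) : ℂ) * ⟪e, T e⟫_ℂ = ⟪e, T e⟫_ℂ
      simp
    have h3 := h F
    rw [hv, he, map_smul, inner_smul_left, inner_smul_right] at h3
    have h4 : ((starRingEnd ℂ) ((‖x‖⁻¹ : ℝ) : ℂ) * (((‖x‖⁻¹ : ℝ) : ℂ) * ⟪x, T x⟫_ℂ)).re =
        (‖x‖⁻¹) ^ 2 * (⟪x, T x⟫_ℂ).re := by
      rw [Complex.conj_ofReal, ← mul_assoc, ← Complex.ofReal_mul, Complex.re_ofReal_mul]
      ring
    rw [h4] at h3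
    have h5 : (⟪x, (T - (γ : ℂ) • (1 : K →L[ℂ] K)) x⟫_ℂ).re = (⟪x, T x⟫_ℂ).re - γ * ‖x‖ ^ 2 := by
      have e1 : (T - (γ : ℂ) • (1 : K →L[ℂ] K)) x = T x - (γ : ℂ) • x := by simp
      rw [e1, inner_sub_right, inner_smul_right, inner_self_eq_norm_sq_to_K, Complex.sub_re,
        Complex.re_ofReal_mul]
      norm_cast
    rw [h5]
    have h6 : γ * ‖x‖ ^ 2 ≤ ((‖x‖⁻¹) ^ 2 * (⟪x, T x⟫_ℂ).re) * ‖x‖ ^ 2 :=
      mul_le_mul_of_nonneg_right h3 (by positivity)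
    have h7 : ((‖x‖⁻¹) ^ 2 * (⟪x, T x⟫_ℂ).re) * ‖x‖ ^ 2 = (⟪x, T x⟫_ℂ).re := by
      field_simp
    linarith
  have h8 := accretive Ψ h1 h2 hA
  rw [map_sub, map_smul, h1] at h8
  simp at h8
  linarith

/-- The functional `Z ↦ val (Z d) - val (d' Z)` as an element of `NF`. -/
theorem Mz_rel_mem (F : FS K) (d d' : K →L[ℂ] K) :
    (∑ p, ((F.l p ^ 2 : ℝ) : ℂ) • (nev (F.u p) (d (F.u p)) - nev ((star d') (F.u p)) (F.u p))) ∈
      NFS K :=
  Submodule.sum_mem _ fun _ _ => Submodule.smul_mem _ _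
    (Submodule.sub_mem _ (nev_mem _ _) (nev_mem _ _))

/-- The functional `Z ↦ val (Z d) - val (d' Z)` as an element of `NF`. -/
noncomputable def MzR (F : FS K) (d d' : K →L[ℂ] K) : NF K := NF.mk _ (Mz_rel_mem F d d')

theorem MzR_apply (F : FS K) (d d' Z : K →L[ℂ] K) :
    inN K (MzR F d d') Z = F.val (Z * d) - F.val (d' * Z) := by
  rw [MzR, inN_mk, ContinuousLinearMap.sum_apply, FS.val, FS.val, ← Finset.sum_sub_distrib]
  refine Finset.sum_congr rfl fun p _ => ?_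
  rw [ContinuousLinearMap.smul_apply, ContinuousLinearMap.sub_apply, nev_apply, nev_apply,
    smul_eq_mul, mul_sub, ContinuousLinearMap.star_eq_adjoint,
    ContinuousLinearMap.adjoint_inner_left]
  rfl

/-- Decomposition of a functional on the product space. -/
theorem Mz_decomp {M L : ℕ} (f : StrongDual ℂ ((Fin M → NF K) × (Fin L → ℂ))) :
    ∃ (Z : Fin M → K →L[ℂ] K) (ζ : Fin L → ℂ), ∀ (w : Fin M → NF K) (z : Fin L → ℂ),
      f (w, z) = ∑ m, inN K (w m) (Z m) + ∑ s, ζ s * z s := by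
  classical
  have hφ : ∀ m : Fin M, ∃ Z : K →L[ℂ] K, ∀ w : NF K, f (Pi.single m w, 0) = inN K w Z := by
    intro m
    obtain ⟨Z, -, hZ⟩ := NF_dual (f.comp ((ContinuousLinearMap.inl ℂ (Fin M → NF K) (Fin L → ℂ)).comp
      (ContinuousLinearMap.single ℂ (fun _ : Fin M => NF K) m)))
    exact ⟨Z, fun w => hZ w⟩
  choose Z hZ using hφ
  refine ⟨Z, fun s => f (0, Pi.single s 1), fun w z => ?_⟩
  have e : (w, z) = ∑ m, ((Pi.single m (w m) : Fin M → NF K), (0 : Fin L → ℂ)) +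
      ∑ s, z s • ((0 : Fin M → NF K), (Pi.single s 1 : Fin L → ℂ)) := by
    refine Prod.ext ?_ ?_
    · rw [Prod.fst_add, Prod.fst_sum, Prod.fst_sum]
      simp only [Prod.smul_fst, smul_zero, Finset.sum_const_zero, add_zero]
      exact (Finset.univ_sum_single w).symm
    · rw [Prod.snd_add, Prod.snd_sum, Prod.snd_sum]
      simp only [Prod.smul_snd, Finset.sum_const_zero, zero_add]
      funext t
      rw [Finset.sum_apply, Finset.sum_eq_single t]
      · simp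
      · intro b _ hb
        simp [Pi.single_apply, hb.symm]
      · intro h
        exact absurd (Finset.mem_univ t) h
  rw [e, map_add, map_sum, map_sum]
  congr 1
  · exact Finset.sum_congr rfl fun m _ => hZ m (w m)
  · refine Finset.sum_congr rfl fun t _ => ?_
    rw [map_smul, smul_eq_mul, mul_comm]

/-- Finite rank states which approximate a contractive unital functional `Ψ` on finitely many
operators, and which almost satisfy, uniformly on the ball of `B(K)`, finitely many relations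
`Z d ∼ d' Z` satisfied by `Ψ`.

PROOF. Assume there is no such `F`. (`K` is nontrivial because `Ψ 1 = 1`, `FS K` is nonempty.)
For `F : FS K` and `m` let `R F m : NF K` be the functional `Z ↦ F.val (Z * d m) - F.val (d' m * Z)`
(it is `∑ l_p² (nev (u_p) (d u_p) - nev (star d' u_p) (u_p))`). In the normed space
`E = (Fin M → NF K) × (Fin L → ℂ)` the set
`C = {((R F m)_m, (F.val (c s) - Ψ (c s))_s) | F}` is convex (`exists_FS_convex`) and is disjoint from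
the open convex set `U = {(w, z) | ∀ m, ‖w m‖ < r m + ε, ∀ s, ‖z s‖ < ε}` (note `‖w‖` is the norm of the
functional, so `‖w Z‖ ≤ ‖w‖ ‖Z‖`). `RCLike.geometric_hahn_banach_open`: `f : E →L[ℂ] ℂ`, `u`,
`re (f a) < u ≤ re (f b)` for `a ∈ U`, `b ∈ C`. Decompose `f (w, z) = ∑ φ_m (w m) + ∑ ζ_s z_s`;
`NF_dual`: `φ_m w = w Z_m`. With `T = ∑ (Z_m d_m - d'_m Z_m) + ∑ ζ_s c_s` we get for every `F`:
`u ≤ re (F.val T) - re ∑ ζ_s Ψ (c s)`, so by `state_ge`
`u ≤ re (Ψ T) - re ∑ ζ_s Ψ(c s) = re ∑ (Ψ (Z_m d_m) - Ψ (d'_m Z_m)) ≤ ∑ r_m ‖Z_m‖`.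
On the other hand for every `δ ∈ (0, 1)` the point `a` with `w m = (r m + ε) (1 - δ) w'_m`
(`exists_NF_norming` for `Z_m` and `δ`), `z s = 0` is in `U`, which in the limit gives
`∑ (r_m + ε) ‖Z_m‖ ≤ u`. Hence `ε ∑ ‖Z_m‖ ≤ 0`, all `Z_m = 0`, `u ≤ 0`; but `0 ∈ U` gives
`0 < u`, a contradiction. (`r m ≥ 0` is assumed.) -/
theorem exists_normal (Ψ : (K →L[ℂ] K) →ₗ[ℂ] ℂ) (h1 : Ψ 1 = 1) (h2 : ∀ X, ‖Ψ X‖ ≤ ‖X‖)
    {M L : ℕ} (d d' : Fin M → K →L[ℂ] K) (r : Fin M → ℝ) (hr : ∀ m, 0 ≤ r m)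
    (hd : ∀ m Z, ‖Ψ (Z * d m) - Ψ (d' m * Z)‖ ≤ r m * ‖Z‖) (c : Fin L → K →L[ℂ] K)
    {ε : ℝ} (hε : 0 < ε) :
    ∃ F : FS K, (∀ m Z, ‖F.val (Z * d m) - F.val (d' m * Z)‖ ≤ (r m + ε) * ‖Z‖) ∧
      ∀ s, ‖F.val (c s) - Ψ (c s)‖ ≤ ε := by
  by_contra hcon
  push Not at hcon
  let U : Set ((Fin M → NF K) × (Fin L → ℂ)) :=
    (Set.univ.pi fun m => Metric.ball (0 : NF K) (r m + ε)) ×ˢ
      (Set.univ.pi fun _ => Metric.ball (0 : ℂ) ε)
  let C : Set ((Fin M → NF K) × (Fin L → ℂ)) :=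
    Set.range fun F : FS K => ((fun m => MzR F (d m) (d' m)), fun s => F.val (c s) - Ψ (c s))
  have hU1 : Convex ℝ U := by
    have g1 : Convex ℝ (Set.univ.pi fun m => Metric.ball (0 : NF K) (r m + ε)) :=
      convex_pi fun m _ => convex_ball _ _
    have g2 : Convex ℝ (Set.univ.pi fun _ : Fin L => Metric.ball (0 : ℂ) ε) :=
      convex_pi fun m _ => convex_ball _ _
    intro x hx y hy a b ha hb hab
    exact ⟨g1 hx.1 hy.1 ha hb hab, g2 hx.2 hy.2 ha hb hab⟩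
  have hU2 : IsOpen U :=
    (isOpen_set_pi Set.finite_univ fun m _ => Metric.isOpen_ball).prod
      (isOpen_set_pi Set.finite_univ fun m _ => Metric.isOpen_ball)
  have hC : Convex ℝ C := by
    rintro _ ⟨F, rfl⟩ _ ⟨G, rfl⟩ a b ha hb hab
    obtain ⟨E, hE⟩ := exists_FS_convex F G ha hb hab
    refine ⟨E, ?_⟩
    refine Prod.ext ?_ ?_
    · funext m
      show MzR E (d m) (d' m) = a • MzR F (d m) (d' m) + b • MzR G (d m) (d' m)
      apply (inN K).injective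
      have ea : ∀ (t : ℝ) (w : NF K), t • w = (t : ℂ) • w := fun t w => rfl
      rw [map_add, ea, ea, map_smul, map_smul]
      ext Z
      rw [ContinuousLinearMap.add_apply, ContinuousLinearMap.smul_apply,
        ContinuousLinearMap.smul_apply, MzR_apply, MzR_apply, MzR_apply, hE, hE, smul_eq_mul,
        smul_eq_mul]
      ring
    · funext t
      show E.val (c t) - Ψ (c t) = a • (F.val (c t) - Ψ (c t)) + b • (G.val (c t) - Ψ (c t))
      rw [hE, Complex.real_smul, Complex.real_smul]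
      have hab' : (a : ℂ) + (b : ℂ) = 1 := by exact_mod_cast hab
      linear_combination (Ψ (c t)) * hab'
  have hdisj : Disjoint U C := by
    rw [Set.disjoint_left]
    rintro _ ⟨hx1, hx2⟩ ⟨F, rfl⟩
    have hF1 : ∀ m Z, ‖F.val (Z * d m) - F.val (d' m * Z)‖ ≤ (r m + ε) * ‖Z‖ := by
      intro m Z
      have h3 := hx1 m (Set.mem_univ m)
      rw [mem_ball_zero_iff] at h3
      rw [← MzR_apply]
      refine ((inN K (MzR F (d m) (d' m))).le_opNorm Z).trans ?_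
      rw [← NF.norm_eq]
      exact mul_le_mul_of_nonneg_right h3.le (norm_nonneg _)
    obtain ⟨t, ht⟩ := hcon F hF1
    have h4 := hx2 t (Set.mem_univ t)
    rw [mem_ball_zero_iff] at h4
    exact absurd h4 (not_lt.mpr ht.le)
  obtain ⟨f, u, hfU, hfC⟩ := RCLike.geometric_hahn_banach_open (𝕜 := ℂ) hU1 hU2 hC hdisj
  obtain ⟨Z, ζ, hf⟩ := Mz_decomp f
  -- the upper bound for `u`
  have hu1 : u ≤ ∑ m, r m * ‖Z m‖ := by
    set T : K →L[ℂ] K := ∑ m, (Z m * d m - d' m * Z m) + ∑ s, ζ s • c s with hT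
    have hval : ∀ F : FS K, F.val T = ∑ m, (F.val (Z m * d m) - F.val (d' m * Z m)) +
        ∑ s, ζ s * F.val (c s) := by
      intro F
      let V : (K →L[ℂ] K) →ₗ[ℂ] ℂ :=
        { toFun := F.val, map_add' := F.val_add, map_smul' := F.val_smul }
      show V T = ∑ m, (V (Z m * d m) - V (d' m * Z m)) + ∑ s, ζ s * V (c s)
      rw [hT, map_add, map_sum, map_sum]
      simp only [map_sub, map_smul, smul_eq_mul]
    have hT2 : Ψ T = ∑ m, (Ψ (Z m * d m) - Ψ (d' m * Z m)) + ∑ s, ζ s * Ψ (c s) := by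
      rw [hT, map_add, map_sum, map_sum]
      simp only [map_sub, map_smul, smul_eq_mul]
    have h3 : ∀ F : FS K, u + (∑ s, ζ s * Ψ (c s)).re ≤ (F.val T).re := by
      intro F
      have h4 := hfC _ ⟨F, rfl⟩
      rw [hf] at h4
      simp only [MzR_apply, mul_sub, Finset.sum_sub_distrib] at h4
      rw [hval F]
      simp only [Finset.sum_sub_distrib]
      have h5 : ∀ x : ℂ, RCLike.re x = x.re := fun x => rfl
      rw [h5] at h4
      simp only [Complex.add_re, Complex.sub_re] at h4 ⊢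
      linarith
    have h4 := state_ge Ψ h1 h2 h3
    rw [hT2, Complex.add_re] at h4
    have h5 : u ≤ (∑ m, (Ψ (Z m * d m) - Ψ (d' m * Z m))).re := by linarith
    refine h5.trans ?_
    rw [Complex.re_sum]
    refine Finset.sum_le_sum fun m _ => ?_
    exact ((le_abs_self _).trans (Complex.abs_re_le_norm _)).trans (hd m (Z m))
  -- the lower bound for `u`
  have hu2 : ∑ m, (r m + ε) * ‖Z m‖ ≤ u := by
    have h3 : ∀ δ : ℝ, 0 < δ → δ < 1 → ∑ m, (r m + ε) * (1 - δ) * (‖Z m‖ - δ) ≤ u := by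
      intro δ hδ hδ1
      have hw : ∀ m, ∃ w : NF K, ‖w‖ ≤ 1 ∧ ‖Z m‖ - δ ≤ (inN K w (Z m)).re :=
        fun m => exists_NF_norming (Z m) hδ
      choose w hw1 hw2 using hw
      have hmem : ((fun m => (((r m + ε) * (1 - δ) : ℝ) : ℂ) • w m), (0 : Fin L → ℂ)) ∈ U := by
        refine ⟨?_, ?_⟩
        · intro m _
          rw [mem_ball_zero_iff]
          show ‖(((r m + ε) * (1 - δ) : ℝ) : ℂ) • w m‖ < r m + ε
          have h5 : 0 < r m + ε := by have := hr m; linarith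
          have h6 : 0 < (r m + ε) * (1 - δ) := mul_pos h5 (by linarith)
          rw [norm_smul, Complex.norm_real, Real.norm_eq_abs, abs_of_pos h6]
          calc (r m + ε) * (1 - δ) * ‖w m‖ ≤ (r m + ε) * (1 - δ) * 1 :=
                mul_le_mul_of_nonneg_left (hw1 m) h6.le
            _ < r m + ε := by nlinarith
        · intro t _
          rw [mem_ball_zero_iff]
          show ‖(0 : ℂ)‖ < ε
          rw [norm_zero]
          exact hε
      have h4 := hfU _ hmem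
      rw [hf] at h4
      have h5 : (∑ m, inN K ((((r m + ε) * (1 - δ) : ℝ) : ℂ) • w m) (Z m) +
          ∑ s, ζ s * (0 : Fin L → ℂ) s).re =
          ∑ m, ((r m + ε) * (1 - δ)) * (inN K (w m) (Z m)).re := by
        simp only [Pi.zero_apply, mul_zero, Finset.sum_const_zero, add_zero]
        rw [Complex.re_sum]
        refine Finset.sum_congr rfl fun m _ => ?_
        rw [map_smul, ContinuousLinearMap.smul_apply, smul_eq_mul, Complex.re_ofReal_mul]
      have h6 : ∀ x : ℂ, RCLike.re x = x.re := fun x => rfl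
      rw [h6, h5] at h4
      refine le_trans (Finset.sum_le_sum fun m _ => ?_) h4.le
      have h7 : 0 < r m + ε := by have := hr m; linarith
      exact mul_le_mul_of_nonneg_left (hw2 m) (mul_nonneg h7.le (by linarith))
    have h4 : Tendsto (fun δ : ℝ => ∑ m, (r m + ε) * (1 - δ) * (‖Z m‖ - δ)) (𝓝[>] 0)
        (𝓝 (∑ m, (r m + ε) * (1 - 0) * (‖Z m‖ - 0))) := by
      refine Tendsto.mono_left ?_ nhdsWithin_le_nhds
      have hcont : Continuous (fun δ : ℝ => ∑ m, (r m + ε) * (1 - δ) * (‖Z m‖ - δ)) := by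
        fun_prop
      exact hcont.tendsto 0
    simp only [sub_zero, mul_one] at h4
    refine le_of_tendsto h4 ?_
    have h5 : Set.Ioo (0 : ℝ) 1 ∈ 𝓝[>] (0 : ℝ) := Ioo_mem_nhdsGT zero_lt_one
    filter_upwards [h5] with δ hδ
    exact h3 δ hδ.1 hδ.2
  have hsum : ∑ m, ‖Z m‖ ≤ 0 := by
    have h3 : ∑ m, (r m + ε) * ‖Z m‖ = ∑ m, r m * ‖Z m‖ + ε * ∑ m, ‖Z m‖ := by
      rw [Finset.mul_sum, ← Finset.sum_add_distrib]
      exact Finset.sum_congr rfl fun m _ => by ring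
    have h4 : ε * ∑ m, ‖Z m‖ ≤ 0 := by linarith
    by_contra h5
    push Not at h5
    have := mul_pos hε h5
    linarith
  have hZ0 : ∀ m, ‖Z m‖ = 0 := by
    intro m
    have h3 : ‖Z m‖ ≤ ∑ m, ‖Z m‖ :=
      Finset.single_le_sum (f := fun m => ‖Z m‖) (fun i _ => norm_nonneg _) (Finset.mem_univ m)
    exact le_antisymm (h3.trans hsum) (norm_nonneg _)
  have hu3 : u ≤ 0 := by
    refine hu1.trans ?_
    simp [hZ0]
  have h0 : (0 : (Fin M → NF K) × (Fin L → ℂ)) ∈ U := by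
    refine ⟨?_, ?_⟩
    · intro m _
      rw [mem_ball_zero_iff]
      show ‖(0 : NF K)‖ < r m + ε
      rw [norm_zero]
      have := hr m
      linarith
    · intro t _
      rw [mem_ball_zero_iff]
      show ‖(0 : ℂ)‖ < ε
      rw [norm_zero]
      exact hε
  have h3 := hfU 0 h0
  rw [map_zero, map_zero] at h3
  linarith

end Pool.Agent.MP_86f3ed.Nu
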