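import Pool.Agent.H.MP_86f3ed_an.Pin.Space

open scoped InnerProductSpace Topology
open Filter ContinuousLinearMap

namespace Pool.Agent.MP_86f3ed.Nu

set_option linter.unusedSectionVars false

variable {K : Type*} [NormedAddCommGroup K] [InnerProductSpace ℂ K] [CompleteSpace K]

/-- The vector functional `X ↦ ⟪η, X ξ⟫` on `B(K)`. -/
noncomputable def nev (η ξ : K) : StrongDual ℂ (K →L[ℂ] K) :=
  LinearMap.mkContinuous
    { toFun := fun X : K →L[ℂ] K => ⟪η, X ξ⟫_ℂ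
      map_add' := by intro X Y; rw [add_apply, inner_add_right]
      map_smul' := by intro c X; rw [smul_apply, inner_smul_right]; rfl }
    (‖η‖ * ‖ξ‖) (by
      intro X
      refine (norm_inner_le_norm _ _).trans ?_
      rw [mul_assoc, mul_comm ‖ξ‖]
      exact mul_le_mul_of_nonneg_left (ContinuousLinearMap.le_opNorm _ _) (norm_nonneg _))

@[simp] theorem nev_apply (η ξ : K) (X : K →L[ℂ] K) : nev η ξ X = ⟪η, X ξ⟫_ℂ := rfl

theorem norm_nev_le (η ξ : K) : ‖nev η ξ‖ ≤ ‖η‖ * ‖ξ‖ :=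
  LinearMap.mkContinuous_norm_le _ (by positivity) _

variable (K) in
/-- The space of finite rank functionals on `B(K)`. -/
noncomputable def NFS : Submodule ℂ (StrongDual ℂ (K →L[ℂ] K)) :=
  Submodule.span ℂ {f | ∃ η ξ : K, f = nev η ξ}

theorem nev_mem (η ξ : K) : nev η ξ ∈ NFS K := Submodule.subset_span ⟨η, ξ, rfl⟩

variable (K) in
/-- The space of finite rank functionals on `B(K)`, as a normed space. -/
def NF : Type _ := ↥(NFS K)

noncomputable instance : NormedAddCommGroup (NF K) := inferInstanceAs (NormedAddCommGroup (NFS K))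
noncomputable instance : NormedSpace ℂ (NF K) := inferInstanceAs (NormedSpace ℂ (NFS K))

variable (K) in
/-- The inclusion. -/
noncomputable def inN : NF K →ₗᵢ[ℂ] StrongDual ℂ (K →L[ℂ] K) := (NFS K).subtypeₗᵢ

/-- A functional of `NFS` as an element of `NF`. -/
noncomputable def NF.mk (w : StrongDual ℂ (K →L[ℂ] K)) (hw : w ∈ NFS K) : NF K := (⟨w, hw⟩ : NFS K)

@[simp] theorem inN_mk (w : StrongDual ℂ (K →L[ℂ] K)) (hw : w ∈ NFS K) :
    inN K (NF.mk w hw) = w := rfl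

theorem NF.norm_eq (w : NF K) : ‖w‖ = ‖inN K w‖ := rfl

/-- The vector functional as an element of `NF`. -/
noncomputable def NFev (η ξ : K) : NF K := NF.mk (nev η ξ) (nev_mem η ξ)

@[simp] theorem NF_inN_ev (η ξ : K) : inN K (NFev η ξ) = nev η ξ := rfl

theorem NF_norm_ev_le (η ξ : K) : ‖NFev η ξ‖ ≤ ‖η‖ * ‖ξ‖ := norm_nev_le η ξ

theorem NF_ext {w w' : NF K} (h : ∀ X, inN K w X = inN K w' X) : w = w' :=
  (inN K).injective (ContinuousLinearMap.ext h)

theorem NFev_add_left (η η' ξ : K) : NFev (η + η') ξ = NFev η ξ + NFev η' ξ := by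
  apply NF_ext; intro X
  rw [map_add, add_apply, NF_inN_ev, NF_inN_ev, NF_inN_ev, nev_apply, nev_apply, nev_apply,
    inner_add_left]

theorem NFev_add_right (η ξ ξ' : K) : NFev η (ξ + ξ') = NFev η ξ + NFev η ξ' := by
  apply NF_ext; intro X
  rw [map_add, add_apply, NF_inN_ev, NF_inN_ev, NF_inN_ev, nev_apply, nev_apply, nev_apply,
    map_add, inner_add_right]

theorem NFev_smul_left (c : ℂ) (η ξ : K) :
    NFev (c • η) ξ = (starRingEnd ℂ) c • NFev η ξ := by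
  apply NF_ext; intro X
  rw [map_smul, smul_apply, NF_inN_ev, NF_inN_ev, nev_apply, nev_apply, inner_smul_left]
  rfl

theorem NFev_smul_right (c : ℂ) (η ξ : K) : NFev η (c • ξ) = c • NFev η ξ := by
  apply NF_ext; intro X
  rw [map_smul, smul_apply, NF_inN_ev, NF_inN_ev, nev_apply, nev_apply, map_smul,
    inner_smul_right]
  rfl

theorem NF_induction {p : NF K → Prop} (hev : ∀ η ξ, p (NFev η ξ)) (h0 : p 0)
    (hadd : ∀ a b, p a → p b → p (a + b)) (hsmul : ∀ (c : ℂ) a, p a → p (c • a)) (w : NF K) :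
    p w := by
  obtain ⟨w, hw⟩ := w
  induction hw using Submodule.span_induction with
  | mem x hx =>
    obtain ⟨η, ξ, rfl⟩ := hx
    exact hev η ξ
  | zero => exact h0
  | add x y hx hy ihx ihy => exact hadd _ _ ihx ihy
  | smul c x hx ih => exact hsmul c _ ih

/-- Bounded functionals on the space of finite rank functionals are evaluations at operators.

PROOF. As `dual_repr` in `Pin/Dual.lean`: `(η, ξ) ↦ φ (nev η ξ)` is a bounded sesquilinear form
(conjugate linear in `η`), of norm at most `‖φ‖`, so it is `⟪η, Z ξ⟫` for an operator `Z`,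
`‖Z‖ ≤ ‖φ‖` (`InnerProductSpace.continuousLinearMapOfBilin`). The equality `φ w = w Z` extends from
the generators to the span (`Submodule.span_induction`). -/
theorem NF_dual (φ : StrongDual ℂ (NF K)) :
    ∃ Z : K →L[ℂ] K, ‖Z‖ ≤ ‖φ‖ ∧ ∀ w : NF K, φ w = inN K w Z := by
  have hb : ∀ (ξ η : K), ‖φ (NFev η ξ)‖ ≤ ‖φ‖ * ‖ξ‖ * ‖η‖ := by
    intro ξ η
    refine (φ.le_opNorm _).trans ?_
    have := mul_le_mul_of_nonneg_left (NF_norm_ev_le η ξ) (norm_nonneg φ)
    calc ‖φ‖ * ‖NFev η ξ‖ ≤ ‖φ‖ * (‖η‖ * ‖ξ‖) := this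
      _ = ‖φ‖ * ‖ξ‖ * ‖η‖ := by ring
  let B₀ : K →ₗ⋆[ℂ] K →ₗ[ℂ] ℂ := LinearMap.mk₂'ₛₗ (starRingEnd ℂ) (RingHom.id ℂ)
    (fun η ξ => φ (NFev η ξ))
    (fun η η' ξ => by show φ _ = φ _ + φ _; rw [NFev_add_left, map_add])
    (fun c η ξ => by show φ _ = _ • φ _; rw [NFev_smul_left, map_smul])
    (fun η ξ ξ' => by show φ _ = φ _ + φ _; rw [NFev_add_right, map_add])
    (fun c η ξ => by show φ _ = _ • φ _; rw [NFev_smul_right, map_smul]; rfl)
  let B : K →L⋆[ℂ] K →L[ℂ] ℂ := LinearMap.mkContinuous₂ B₀ ‖φ‖ (fun η ξ => by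
    have := hb ξ η
    show ‖φ (NFev η ξ)‖ ≤ _
    linarith [mul_right_comm ‖φ‖ ‖η‖ ‖ξ‖])
  have hB : ∀ ξ η, ⟪InnerProductSpace.continuousLinearMapOfBilin B η, ξ⟫_ℂ =
      φ (NFev η ξ) := by
    intro ξ η
    rw [InnerProductSpace.continuousLinearMapOfBilin_apply]
    rfl
  refine ⟨adjoint (InnerProductSpace.continuousLinearMapOfBilin B), ?_, ?_⟩
  · rw [LinearIsometryEquiv.norm_map]
    refine opNorm_le_bound _ (by positivity) fun η => ?_
    set z := InnerProductSpace.continuousLinearMapOfBilin B η with hz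
    have h1 : ‖z‖ ^ 2 ≤ ‖φ‖ * ‖z‖ * ‖η‖ := by
      have h2 := hb z η
      rw [← hB, inner_self_eq_norm_sq_to_K] at h2
      simpa using h2
    rcases (norm_nonneg z).eq_or_lt with h0 | h0
    · rw [← h0]; positivity
    · have h3 : ‖z‖ * ‖z‖ ≤ (‖φ‖ * ‖η‖) * ‖z‖ := by nlinarith
      exact le_of_mul_le_mul_right h3 h0
  · intro w
    induction w using NF_induction with
    | hev η ξ =>
      rw [NF_inN_ev, nev_apply, adjoint_inner_right]
      exact (hB ξ η).symm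
    | h0 => simp
    | hadd a b ha hb => rw [map_add, map_add, add_apply, ha, hb]
    | hsmul c a ha => rw [map_smul, map_smul, smul_apply, ha]

/-- The norm of an operator is attained up to `ε` on the unit ball of `NF`.

PROOF. If `‖Z‖ < ε`: `w = 0`. Otherwise there is `ξ`, `‖ξ‖ ≤ 1`, with `‖Z ξ‖ > ‖Z‖ - ε`
(`ContinuousLinearMap.exists_lt_apply_of_lt_opNorm` gives one with `‖ξ‖ < 1`, `‖Z‖ - ε < ‖Z ξ‖`),
`w = nev (‖Z ξ‖⁻¹ • Z ξ) ξ`, `w Z = ‖Z ξ‖`. (If `Z ξ = 0` then `w = 0`, still fine.) -/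
theorem exists_NF_norming (Z : K →L[ℂ] K) {ε : ℝ} (hε : 0 < ε) :
    ∃ w : NF K, ‖w‖ ≤ 1 ∧ ‖Z‖ - ε ≤ (inN K w Z).re := by
  by_cases hZ : ‖Z‖ < ε
  · refine ⟨0, by simp, ?_⟩
    simp
    exact hZ.le
  · push Not at hZ
    obtain ⟨ξ, hξ, hξ2⟩ := ContinuousLinearMap.exists_lt_apply_of_lt_opNorm Z
      (show ‖Z‖ - ε < ‖Z‖ by linarith)
    have hpos : 0 < ‖Z ξ‖ := by linarith
    have hne : ((‖Z ξ‖ : ℝ) : ℂ) ≠ 0 := by exact_mod_cast hpos.ne'
    refine ⟨NFev (((‖Z ξ‖ : ℝ) : ℂ)⁻¹ • Z ξ) ξ, ?_, ?_⟩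
    · refine (NF_norm_ev_le _ _).trans ?_
      rw [norm_smul, norm_inv, Complex.norm_real, norm_norm, inv_mul_cancel₀ hpos.ne', one_mul]
      exact hξ.le
    · have : inN K (NFev (((‖Z ξ‖ : ℝ) : ℂ)⁻¹ • Z ξ) ξ) Z = ((‖Z ξ‖ : ℝ) : ℂ) := by
        rw [NF_inN_ev, nev_apply, inner_smul_left, inner_self_eq_norm_sq_to_K, map_inv₀,
          Complex.conj_ofReal]
        field_simp
        rfl
      rw [this, Complex.ofReal_re]
      exact hξ2.le

end Pool.Agent.MP_86f3ed.Nu
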