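import Pool.Agent.H.MP_86f3ed_an.Nu.Pj
import Pool.Agent.H.MP_86f3ed_an.Reg.Diag0

open scoped Topology
open Filter

namespace Pool.Agent.MP_86f3ed.Nu

open Reg

universe u

/-- `x, y` is a diagonal which commutes with `a` up to `ε` in the projective norm, in an algebraically
verifiable way. -/
def NearC {B : Type u} [CStarAlgebra B] {m : ℕ} (x y : Fin m → B) (a : B) (ε : ℝ) : Prop :=
  ∃ (n : ℕ) (p q : Fin n → B), ∑ j, ‖p j‖ * ‖q j‖ ≤ ε ∧
    SameT (I := Fin m ⊕ Fin m) (Sum.elim (fun k => a * x k) (fun k => - x k))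
      (Sum.elim y (fun k => y k * a)) p q

/-- Near diagonals in the projective norm. -/
def NDP (B : Type u) [CStarAlgebra B] : Prop :=
  ∀ (F : Finset B) (ε : ℝ), 0 < ε → ∃ (m : ℕ) (x y : Fin m → B),
    ∑ k, x k * y k = 1 ∧ ∀ a ∈ F, NearC x y a ε

/-- The unit of a `C*`-algebra has norm at most one. -/
theorem nd_norm_one (B : Type u) [CStarAlgebra B] : ‖(1 : B)‖ ≤ 1 := by
  rcases subsingleton_or_nontrivial B with h | h
  · have h1 : (1 : B) = 0 := Subsingleton.elim _ _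
    rw [h1, norm_zero]
    exact zero_le_one
  · rw [CStarRing.norm_one]

/-- The sum over the two families. -/
theorem nd_sum {B : Type u} [CStarAlgebra B] {m : ℕ} (x y : Fin m → B) (a : B)
    (G : B →L[ℂ] B →L[ℂ] ℂ) :
    ∑ i : Fin m ⊕ Fin m, G (Sum.elim (fun k => a * x k) (fun k => - x k) i)
      (Sum.elim y (fun k => y k * a) i) = ∑ k, (G (a * x k) (y k) - G (x k) (y k * a)) := by
  rw [Fintype.sum_sum_type, Finset.sum_sub_distrib, sub_eq_add_neg, ← Finset.sum_neg_distrib]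
  congr 1
  refine Finset.sum_congr rfl fun k _ => ?_
  simp only [Sum.elim_inr, map_neg, neg_apply]

/-- PROOF. Given `F` and `ε` (w.l.o.g. `ε ≤ 1`) let `M = 1 + ∑_{a ∈ F} ‖a‖` and take `x, y` from `NearDiag B`
for `F`, `ε₁ = ε / (8 M)`. Put `c = ∑ x_k y_k`, `‖c - 1‖ ≤ ε₁`, and add the pair `(1, 1 - c)` (`Fin.snoc` or
`Fin.append` with a family of length one): the new sum is `1`. For `a ∈ F` the tensor
`∑ (a x_k ⊗ y_k - x_k ⊗ y_k a)` has all `|G|`-values `≤ ε₁ ‖G‖` and the new term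
`a ⊗ (1 - c) - 1 ⊗ (1 - c) a` has `|G|`-value at most `2 ‖a‖ ε₁ ‖G‖` (`‖(1 : B)‖ ≤ 1`). Total at most
`3 M ε₁ ‖G‖ < ε ‖G‖`-like; `exists_proj_rep` with `3 M ε₁ < ε`. -/
theorem ndp_of_nearDiag {B : Type u} [CStarAlgebra B] (h : NearDiag B) : NDP B := by
  intro F ε hε
  obtain ⟨M, hM⟩ : ∃ M : ℝ, M = 1 + ∑ a ∈ F, ‖a‖ := ⟨_, rfl⟩
  have hM1 : 1 ≤ M := by
    rw [hM]
    have : 0 ≤ ∑ a ∈ F, ‖a‖ := Finset.sum_nonneg fun a _ => norm_nonneg a
    linarith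
  have hMa : ∀ a ∈ F, ‖a‖ ≤ M := by
    intro a ha
    rw [hM]
    have := Finset.single_le_sum (f := fun a : B => ‖a‖) (fun a _ => norm_nonneg a) ha
    linarith
  have hM0 : 0 < M := by linarith
  obtain ⟨ε₁, hε₁⟩ : ∃ ε₁ : ℝ, ε₁ = ε / (4 * M) := ⟨_, rfl⟩
  have hε₁0 : 0 < ε₁ := by rw [hε₁]; positivity
  have hε₁M : 3 * M * ε₁ < ε := by
    rw [hε₁, mul_div_assoc', div_lt_iff₀ (by positivity)]
    nlinarith
  obtain ⟨m, x, y, h1, h2⟩ := h F ε₁ hε₁0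
  obtain ⟨c, hc⟩ : ∃ c : B, c = ∑ k, x k * y k := ⟨_, rfl⟩
  rw [← hc] at h1
  have h1' : ‖1 - c‖ ≤ ε₁ := by
    rw [← norm_neg, neg_sub]
    exact h1
  refine ⟨m + 1, Fin.cons 1 x, Fin.cons (1 - c) y, ?_, ?_⟩
  · rw [Fin.sum_univ_succ]
    simp only [Fin.cons_zero, Fin.cons_succ, one_mul]
    rw [← hc, sub_add_cancel]
  · intro a ha
    obtain ⟨n, p, q, hT, hs⟩ := exists_proj_rep
      (Sum.elim (fun k => a * (Fin.cons 1 x : Fin (m + 1) → B) k)
        (fun k => - (Fin.cons 1 x : Fin (m + 1) → B) k))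
      (Sum.elim (Fin.cons (1 - c) y : Fin (m + 1) → B)
        (fun k => (Fin.cons (1 - c) y : Fin (m + 1) → B) k * a)) hε₁M (by positivity) (by
      intro G
      have hG : 0 ≤ ‖G‖ := ContinuousLinearMap.opNorm_nonneg G
      rw [nd_sum, Fin.sum_univ_succ]
      simp only [Fin.cons_zero, Fin.cons_succ]
      have h3 : ‖G (a * 1) (1 - c)‖ ≤ M * ε₁ * ‖G‖ := by
        rw [mul_one]
        refine (G.le_opNorm₂ _ _).trans ?_
        have h4 : ‖a‖ * ‖1 - c‖ ≤ M * ε₁ :=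
          mul_le_mul (hMa a ha) h1' (norm_nonneg _) hM0.le
        calc ‖G‖ * ‖a‖ * ‖1 - c‖ = (‖a‖ * ‖1 - c‖) * ‖G‖ := by ring
          _ ≤ M * ε₁ * ‖G‖ := mul_le_mul_of_nonneg_right h4 hG
      have h5 : ‖G 1 ((1 - c) * a)‖ ≤ M * ε₁ * ‖G‖ := by
        refine (G.le_opNorm₂ _ _).trans ?_
        have h4 : ‖(1 - c) * a‖ ≤ M * ε₁ := by
          refine (norm_mul_le _ _).trans ?_
          rw [mul_comm M]
          exact mul_le_mul h1' (hMa a ha) (norm_nonneg _) hε₁0.le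
        have h6 : ‖(1 : B)‖ * ‖(1 - c) * a‖ ≤ 1 * (M * ε₁) :=
          mul_le_mul (nd_norm_one B) h4 (norm_nonneg _) zero_le_one
        calc ‖G‖ * ‖(1 : B)‖ * ‖(1 - c) * a‖ = (‖(1 : B)‖ * ‖(1 - c) * a‖) * ‖G‖ := by ring
          _ ≤ 1 * (M * ε₁) * ‖G‖ := mul_le_mul_of_nonneg_right h6 hG
          _ = M * ε₁ * ‖G‖ := by ring
      have h7 : ‖∑ k, (G (a * x k) (y k) - G (x k) (y k * a))‖ ≤ M * ε₁ * ‖G‖ := by
        refine (h2 G a ha).trans ?_
        apply mul_le_mul_of_nonneg_right _ hG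
        nlinarith
      refine (norm_add_le _ _).trans ?_
      have h8 := norm_sub_le (G (a * 1) (1 - c)) (G 1 ((1 - c) * a))
      linarith)
    exact ⟨n, p, q, hs, hT⟩

/-- PROOF. If `x, y` commute with `a` up to `ε` and `‖a - a'‖ ≤ δ` then they commute with `a'` up to
`ε + 2 δ ∑ ‖x_k‖ ‖y_k‖`: `a' x_k ⊗ y_k - x_k ⊗ y_k a' = (a x_k ⊗ y_k - x_k ⊗ y_k a) + (a' - a) x_k ⊗ y_k -
x_k ⊗ y_k (a' - a)`; add the pairs `((a' - a) x_k, y_k)` and `(- x_k, y_k (a' - a))` to `p, q`. -/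
theorem NearC.perturb {B : Type u} [CStarAlgebra B] {m : ℕ} {x y : Fin m → B} {a a' : B} {ε δ : ℝ}
    (h : NearC x y a ε) (hδ : ‖a' - a‖ ≤ δ) :
    NearC x y a' (ε + 2 * δ * ∑ k, ‖x k‖ * ‖y k‖) := by
  obtain ⟨n, p, q, hs, hT⟩ := h
  refine ⟨n + (m + m), Fin.append p (Fin.append (fun k => (a' - a) * x k) (fun k => - x k)),
    Fin.append q (Fin.append y (fun k => y k * (a' - a))), ?_, ?_⟩
  · rw [Fin.sum_univ_add, Fin.sum_univ_add]
    simp only [Fin.append_left, Fin.append_right]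
    have h1 : ∑ k, ‖(a' - a) * x k‖ * ‖y k‖ ≤ δ * ∑ k, ‖x k‖ * ‖y k‖ := by
      rw [Finset.mul_sum]
      refine Finset.sum_le_sum fun k _ => ?_
      rw [← mul_assoc]
      apply mul_le_mul_of_nonneg_right _ (norm_nonneg _)
      exact (norm_mul_le _ _).trans (mul_le_mul_of_nonneg_right hδ (norm_nonneg _))
    have h2 : ∑ k, ‖- x k‖ * ‖y k * (a' - a)‖ ≤ δ * ∑ k, ‖x k‖ * ‖y k‖ := by
      rw [Finset.mul_sum]
      refine Finset.sum_le_sum fun k _ => ?_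
      rw [norm_neg]
      have h3 : ‖y k * (a' - a)‖ ≤ ‖y k‖ * δ :=
        (norm_mul_le _ _).trans (mul_le_mul_of_nonneg_left hδ (norm_nonneg _))
      calc ‖x k‖ * ‖y k * (a' - a)‖ ≤ ‖x k‖ * (‖y k‖ * δ) :=
            mul_le_mul_of_nonneg_left h3 (norm_nonneg _)
        _ = δ * (‖x k‖ * ‖y k‖) := by ring
    linarith
  · intro β
    have h1 := hT β
    rw [Fintype.sum_sum_type] at h1
    rw [Fintype.sum_sum_type, Fin.sum_univ_add, Fin.sum_univ_add]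
    simp only [Sum.elim_inl, Sum.elim_inr, Fin.append_left, Fin.append_right] at h1 ⊢
    rw [← h1]
    have h2 : ∀ k, β (a' * x k) (y k) = β (a * x k) (y k) + β ((a' - a) * x k) (y k) := by
      intro k
      rw [← LinearMap.add_apply, ← map_add, ← add_mul, add_sub_cancel]
    have h3 : ∀ k, β (- x k) (y k * a') = β (- x k) (y k * a) + β (- x k) (y k * (a' - a)) := by
      intro k
      rw [← map_add, ← mul_add, add_sub_cancel]
    simp only [h2, h3, Finset.sum_add_distrib]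
    ring

end Pool.Agent.MP_86f3ed.Nu
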