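import Mathlib

open scoped Topology
open Filter

namespace Pool.Agent.MP_86f3ed.Nu

universe u

/-- Two finite families of pairs define the same tensor (tested on all bilinear forms). -/
def SameT {B : Type u} [AddCommGroup B] [Module ℂ B] {I J : Type} [Fintype I] [Fintype J]
    (x y : I → B) (p q : J → B) : Prop :=
  ∀ β : B →ₗ[ℂ] B →ₗ[ℂ] ℂ, ∑ i, β (x i) (y i) = ∑ j, β (p j) (q j)

/-- The multilinear form of a bilinear form. -/
def Pj_ml {B : Type u} [AddCommGroup B] [Module ℂ B] (β : B →ₗ[ℂ] B →ₗ[ℂ] ℂ) :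
    MultilinearMap ℂ (fun _ : Fin 2 => B) ℂ where
  toFun m := β (m 0) (m 1)
  map_update_add' := by
    intro _ m i u v
    fin_cases i
    · simp [Function.update]
    · simp [Function.update]
  map_update_smul' := by
    intro _ m i c u
    fin_cases i
    · simp [Function.update]
    · simp [Function.update]

theorem Pj_up0 {B : Type u} (p q z : B) : Function.update ![p, q] 0 z = ![z, q] := by
  funext i
  fin_cases i
  · rfl
  · rfl

theorem Pj_up1 {B : Type u} (p q z : B) : Function.update ![p, q] 1 z = ![p, z] := by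
  funext i
  fin_cases i
  · rfl
  · rfl

/-- The bilinear form of a linear form on the tensor product. -/
noncomputable def Pj_bil {B : Type u} [NormedAddCommGroup B] [NormedSpace ℂ B]
    (g : StrongDual ℂ (PiTensorProduct ℂ (fun _ : Fin 2 => B))) : B →ₗ[ℂ] B →ₗ[ℂ] ℂ :=
  LinearMap.mk₂ ℂ (fun p q => g (PiTensorProduct.tprod ℂ ![p, q]))
    (fun p p' q => by
      rw [← map_add]
      congr 1
      have h := (PiTensorProduct.tprod ℂ (s := fun _ : Fin 2 => B)).map_update_add ![p, q] 0 p p'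
      rw [Pj_up0, Pj_up0, Pj_up0] at h
      exact h)
    (fun c p q => by
      rw [← map_smul]
      congr 1
      have h := (PiTensorProduct.tprod ℂ (s := fun _ : Fin 2 => B)).map_update_smul ![p, q] 0 c p
      rw [Pj_up0, Pj_up0] at h
      exact h)
    (fun p q q' => by
      rw [← map_add]
      congr 1
      have h := (PiTensorProduct.tprod ℂ (s := fun _ : Fin 2 => B)).map_update_add ![p, q] 1 q q'
      rw [Pj_up1, Pj_up1, Pj_up1] at h
      exact h)
    (fun c p q => by
      rw [← map_smul]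
      congr 1
      have h := (PiTensorProduct.tprod ℂ (s := fun _ : Fin 2 => B)).map_update_smul ![p, q] 1 c q
      rw [Pj_up1, Pj_up1] at h
      exact h)

/-- The projective norm is computed by bounded bilinear forms (Hahn-Banach).

PROOF. On the complex vector space `E = B ⊗[ℂ] B` let
`π t = ⨅ ∑ ‖p_j‖ ‖q_j‖` over all representations `t = ∑ p_j ⊗ q_j` (finite; every tensor has one).
`π` is a seminorm: `π (t + t') ≤ π t + π t'` (concatenate), `π (c t) ≤ |c| π t` (scale). Let
`t₀ = ∑ x_i ⊗ y_i` and suppose `π t₀ > ε`. Hahn-Banach for seminorms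
(`exists_extension_of_le_sublinear` for the real functional `s t₀ ↦ s π t₀` on the real line
spanned by `t₀`, then `f` real linear with `f ≤ π`, and `Γ t = f t - i f (i t)`
(`LinearMap.extendTo𝕜'`), `|Γ t| ≤ π t` since `|Γ t| = Γ (c t) = f (c t)` for some `|c| = 1`;
`re (Γ t₀) = π t₀`). `G p q = Γ (p ⊗ q)` is a bounded bilinear form, `|G p q| ≤ ‖p‖ ‖q‖`, so `‖G‖ ≤ 1` and
`ε ≥ |∑ G (x_i) (y_i)| = |Γ t₀| ≥ π t₀`, a contradiction. So `π t₀ ≤ ε < ε'` and there is a
representation `t₀ = ∑ p_j ⊗ q_j` with `∑ ‖p_j‖ ‖q_j‖ < ε'`; apply `TensorProduct.lift β`. -/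
theorem exists_proj_rep {B : Type u} [NormedAddCommGroup B] [NormedSpace ℂ B] {I : Type}
    [Fintype I] (x y : I → B) {ε ε' : ℝ} (hε : ε < ε') (hε0 : 0 ≤ ε)
    (h : ∀ G : B →L[ℂ] B →L[ℂ] ℂ, ‖∑ i, G (x i) (y i)‖ ≤ ε * ‖G‖) :
    ∃ (n : ℕ) (p q : Fin n → B), SameT x y p q ∧ ∑ j, ‖p j‖ * ‖q j‖ ≤ ε' := by
  set t : PiTensorProduct ℂ (fun _ : Fin 2 => B) :=
    ∑ i, PiTensorProduct.tprod ℂ ![x i, y i] with ht
  obtain ⟨g, hg1, hg2⟩ := exists_dual_vector'' ℂ t
  have hb : ∀ p q, ‖Pj_bil g p q‖ ≤ 1 * ‖p‖ * ‖q‖ := by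
    intro p q
    show ‖g (PiTensorProduct.tprod ℂ ![p, q])‖ ≤ 1 * ‖p‖ * ‖q‖
    have h1 := g.le_opNorm (PiTensorProduct.tprod ℂ ![p, q])
    have h2 := PiTensorProduct.projectiveSeminorm_tprod_le (𝕜 := ℂ) (E := fun _ : Fin 2 => B)
      ![p, q]
    rw [Fin.prod_univ_two] at h2
    simp only [Matrix.cons_val_zero, Matrix.cons_val_one] at h2
    have h3 := norm_nonneg (PiTensorProduct.tprod ℂ ![p, q] :
      PiTensorProduct ℂ (fun _ : Fin 2 => B))
    have h4 := norm_nonneg g
    nlinarith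
  set G : B →L[ℂ] B →L[ℂ] ℂ := (Pj_bil g).mkContinuous₂ 1 hb with hG
  have hG1 : ‖G‖ ≤ 1 := LinearMap.mkContinuous₂_norm_le _ zero_le_one hb
  have hGt : ∑ i, G (x i) (y i) = g t := by
    rw [ht, map_sum]
    rfl
  have hnt : ‖t‖ ≤ ε := by
    have h1 := h G
    rw [hGt, hg2] at h1
    have h2 : ‖((‖t‖ : ℝ) : ℂ)‖ = ‖t‖ := by
      rw [Complex.norm_real, norm_norm]
    have h3 : ‖((‖t‖ : ℝ) : ℂ)‖ ≤ ε * ‖G‖ := h1
    rw [h2] at h3
    nlinarith [norm_nonneg G]
  have hlt : iInf (fun (p : PiTensorProduct.lifts t) =>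
      PiTensorProduct.projectiveSeminormAux p.val) < ε' := by
    rw [← PiTensorProduct.norm_def]
    exact lt_of_le_of_lt hnt hε
  obtain ⟨⟨l, hl⟩, hl2⟩ := exists_lt_of_ciInf_lt hlt
  rw [PiTensorProduct.mem_lifts_iff] at hl
  unfold PiTensorProduct.projectiveSeminormAux at hl2
  set L := l.toList with hL
  refine ⟨L.length, fun j => (L.get j).1 • (L.get j).2 0, fun j => (L.get j).2 1, ?_, ?_⟩
  · intro β
    have h1 : PiTensorProduct.lift (Pj_ml β) t = ∑ i, β (x i) (y i) := by
      rw [ht, map_sum]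
      refine Finset.sum_congr rfl fun i _ => ?_
      rw [PiTensorProduct.lift.tprod]
      rfl
    have h2 : (List.map (fun x => x.1 • PiTensorProduct.tprod ℂ (fun i => x.2 i)) L) =
        List.ofFn (fun j : Fin L.length => (L.get j).1 • PiTensorProduct.tprod ℂ
          (fun i => (L.get j).2 i)) := by
      conv_lhs => rw [← List.ofFn_get L, List.map_ofFn]
      rfl
    rw [← h1, ← hl, h2, List.sum_ofFn, map_sum]
    refine Finset.sum_congr rfl fun j _ => ?_
    rw [map_smul, PiTensorProduct.lift.tprod]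
    show (L.get j).1 • β ((L.get j).2 0) ((L.get j).2 1) = _
    rw [map_smul, LinearMap.smul_apply]
  · refine le_trans (le_of_eq ?_) hl2.le
    have h2 : (List.map (fun p : ℂ × (Fin 2 → B) => ‖p.1‖ * ∏ i, ‖p.2 i‖) L) =
        List.ofFn (fun j : Fin L.length => ‖(L.get j).1‖ * ∏ i, ‖(L.get j).2 i‖) := by
      conv_lhs => rw [← List.ofFn_get L, List.map_ofFn]
      rfl
    show _ = (List.map (fun p : ℂ × (Fin 2 → B) => ‖p.1‖ * ∏ i, ‖p.2 i‖) L).sum
    rw [h2, List.sum_ofFn]
    refine Finset.sum_congr rfl fun j _ => ?_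
    rw [norm_smul, Fin.prod_univ_two, mul_assoc]

/-- Bilinear forms on a subspace extend to the whole space, so `SameT` can be tested in a larger space.

PROOF. Given `β : W →ₗ W →ₗ ℂ` choose a linear projection `P : B → W` onto `W`
(`LinearMap.exists_leftInverse_of_injective` for `W.subtype`, or `Submodule.exists_isCompl`) and use
`β' u v = β (P u) (P v)` (`LinearMap.compl₁₂`). -/
theorem SameT.of_coe {B : Type u} [AddCommGroup B] [Module ℂ B] {W : Submodule ℂ B} {I J : Type}
    [Fintype I] [Fintype J] {x y : I → W} {p q : J → W}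
    (h : SameT (fun i => (x i : B)) (fun i => (y i : B)) (fun j => (p j : B))
      (fun j => (q j : B))) : SameT x y p q := by
  intro β
  obtain ⟨P, hP⟩ := LinearMap.exists_leftInverse_of_injective W.subtype
    (LinearMap.ker_eq_bot.2 Subtype.val_injective)
  have hP' : ∀ w : W, P (w : B) = w := fun w => LinearMap.congr_fun hP w
  have h1 := h (β.compl₁₂ P P)
  simpa [LinearMap.compl₁₂_apply, hP'] using h1

end Pool.Agent.MP_86f3ed.Nu
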