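import Pool.Agent.H.MP_86f3ed_an.Nu.Nd

open scoped Topology
open Filter

namespace Pool.Agent.MP_86f3ed.Nu

universe u

/-- The elements used by near diagonals which are good for all points of an open set. -/
def Good {B : Type u} [CStarAlgebra B] {r : ℕ} (V : Set (Fin r → B)) (ε : ℝ) (E : Set B) : Prop :=
  ∃ (m : ℕ) (x y : Fin m → B), (∀ k, x k ∈ E ∧ y k ∈ E) ∧ ∑ k, x k * y k = 1 ∧
    ∀ a ∈ V, ∀ i, ∃ (n : ℕ) (p q : Fin n → B), ∑ j, ‖p j‖ * ‖q j‖ ≤ ε ∧
      (∀ (S : Submodule ℂ B), E ⊆ (S : Set B) → (∀ u ∈ S, ∀ v ∈ S, u * v ∈ S) → (∀ i, a i ∈ S) →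
        (∀ j, p j ∈ S) ∧ (∀ j, q j ∈ S)) ∧
      SameT (I := Fin m ⊕ Fin m) (Sum.elim (fun k => a i * x k) (fun k => - x k))
        (Sum.elim y (fun k => y k * a i)) p q

/-- The pairs for a perturbed element. -/
theorem Ref_perturb {B : Type u} [CStarAlgebra B] {m n : ℕ} {x y : Fin m → B} {a g : B} {ε ρ R : ℝ}
    {p q : Fin n → B} (hR : ∑ k, ‖x k‖ * ‖y k‖ ≤ R) (hpq : ∑ j, ‖p j‖ * ‖q j‖ ≤ ε)
    (hs : SameT (I := Fin m ⊕ Fin m) (Sum.elim (fun k => g * x k) (fun k => - x k))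
      (Sum.elim y (fun k => y k * g)) p q) (ha : ‖a - g‖ ≤ ρ) (hρ : 0 ≤ ρ) :
    ∃ (n' : ℕ) (p' q' : Fin n' → B), ∑ j, ‖p' j‖ * ‖q' j‖ ≤ ε + 2 * (ρ * R) ∧
      (∀ (S : Submodule ℂ B), (∀ u ∈ S, ∀ v ∈ S, u * v ∈ S) → a ∈ S → g ∈ S →
        (∀ k, x k ∈ S) → (∀ k, y k ∈ S) → (∀ j, p j ∈ S) → (∀ j, q j ∈ S) →
        (∀ j, p' j ∈ S) ∧ (∀ j, q' j ∈ S)) ∧
      SameT (I := Fin m ⊕ Fin m) (Sum.elim (fun k => a * x k) (fun k => - x k))
        (Sum.elim y (fun k => y k * a)) p' q' := by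
  let J := Fin n ⊕ (Fin m ⊕ Fin m)
  let e : J ≃ Fin (Fintype.card J) := Fintype.equivFin J
  let p1 : J → B := Sum.elim p (Sum.elim (fun k => (a - g) * x k) (fun k => - x k))
  let q1 : J → B := Sum.elim q (Sum.elim y (fun k => y k * (a - g)))
  have hp1 : ∀ j, (p1 ∘ e.symm) j = p1 (e.symm j) := fun _ => rfl
  have hq1 : ∀ j, (q1 ∘ e.symm) j = q1 (e.symm j) := fun _ => rfl
  refine ⟨Fintype.card J, p1 ∘ e.symm, q1 ∘ e.symm, ?_, ?_, ?_⟩
  · simp only [hp1, hq1]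
    rw [Equiv.sum_comp e.symm (fun j => ‖p1 j‖ * ‖q1 j‖), Fintype.sum_sum_type,
      Fintype.sum_sum_type]
    simp only [p1, q1, Sum.elim_inl, Sum.elim_inr, norm_neg]
    have h1 : ∑ k, ‖(a - g) * x k‖ * ‖y k‖ ≤ ρ * R := by
      calc ∑ k, ‖(a - g) * x k‖ * ‖y k‖ ≤ ∑ k, ρ * (‖x k‖ * ‖y k‖) := by
            refine Finset.sum_le_sum fun k _ => ?_
            rw [← mul_assoc]
            refine mul_le_mul_of_nonneg_right ?_ (norm_nonneg _)
            exact (norm_mul_le _ _).trans (mul_le_mul_of_nonneg_right ha (norm_nonneg _))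
        _ = ρ * ∑ k, ‖x k‖ * ‖y k‖ := by rw [Finset.mul_sum]
        _ ≤ ρ * R := mul_le_mul_of_nonneg_left hR hρ
    have h2 : ∑ k, ‖x k‖ * ‖y k * (a - g)‖ ≤ ρ * R := by
      calc ∑ k, ‖x k‖ * ‖y k * (a - g)‖ ≤ ∑ k, ρ * (‖x k‖ * ‖y k‖) := by
            refine Finset.sum_le_sum fun k _ => ?_
            have h3 : ‖y k * (a - g)‖ ≤ ‖y k‖ * ρ :=
              (norm_mul_le _ _).trans (mul_le_mul_of_nonneg_left ha (norm_nonneg _))
            calc ‖x k‖ * ‖y k * (a - g)‖ ≤ ‖x k‖ * (‖y k‖ * ρ) :=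
                  mul_le_mul_of_nonneg_left h3 (norm_nonneg _)
              _ = ρ * (‖x k‖ * ‖y k‖) := by ring
        _ = ρ * ∑ k, ‖x k‖ * ‖y k‖ := by rw [Finset.mul_sum]
        _ ≤ ρ * R := mul_le_mul_of_nonneg_left hR hρ
    linarith
  · intro S hS haS hgS hx hy hp hq
    have h1 : ∀ j : J, p1 j ∈ S := by
      rintro (j | k | k)
      · exact hp j
      · exact hS _ (S.sub_mem haS hgS) _ (hx k)
      · exact S.neg_mem (hx k)
    have h2 : ∀ j : J, q1 j ∈ S := by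
      rintro (j | k | k)
      · exact hq j
      · exact hy k
      · exact hS _ (hy k) _ (S.sub_mem haS hgS)
    exact ⟨fun j => h1 _, fun j => h2 _⟩
  · intro β
    have h1 := hs β
    simp only [hp1, hq1]
    rw [Equiv.sum_comp e.symm (fun j => β (p1 j) (q1 j)), Fintype.sum_sum_type,
      Fintype.sum_sum_type, Fintype.sum_sum_type]
    rw [Fintype.sum_sum_type] at h1
    simp only [p1, q1, Sum.elim_inl, Sum.elim_inr] at h1 ⊢
    rw [← h1]
    simp only [sub_mul, mul_sub, map_sub, LinearMap.sub_apply, Finset.sum_sub_distrib]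
    ring

/-- A point finite open cover of the space of `r`-tuples by sets with common near diagonals.

PROOF. For every tuple `g : Fin r → B` take `x, y` from `NDP B` for `F = {g i}`, `ε/2`, and for each
`i` the family `p, q`; let `E g` be the finite set of all `x_k, y_k`, all `g i` and all the `p, q`
(of all `i`). Let `R = ∑ ‖x_k‖ ‖y_k‖`, `ρ g = ε / (4 (R + 1))` and `u g` the open ball of radius `ρ g`
around `g` in `Fin r → B` (sup norm). For `a ∈ u g` and `i`: with `‖a i - g i‖ ≤ ρ g` the pairs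
`p, q` together with `((a i - g i) x_k, y_k)`, `(- x_k, y_k (a i - g i))` represent the commutator of
`a i` and have total size `≤ ε/2 + 2 ρ g R ≤ ε`, and they lie in every multiplicatively closed
subspace which contains `E g` and the `a i`. The balls cover the metric (hence
paracompact) space `Fin r → B`; `precise_refinement` gives open `v g ⊆ u g` which cover and are
locally finite, hence point finite (`LocallyFinite.point_finite`). `Good` passes to smaller sets. -/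
theorem exists_refinement {B : Type u} [CStarAlgebra B] (h : NDP B) (r : ℕ) {ε : ℝ} (hε : 0 < ε) :
    ∃ (v : (Fin r → B) → Set (Fin r → B)) (E : (Fin r → B) → Set B),
      (∀ g, IsOpen (v g)) ∧ (∀ a, ∃ g, a ∈ v g) ∧ (∀ a, {g | a ∈ v g}.Finite) ∧
      (∀ g, (E g).Finite) ∧ ∀ g, Good (v g) ε (E g) := by
  classical
  have h1 : ∀ g : Fin r → B, ∃ (m : ℕ) (x y : Fin m → B), ∑ k, x k * y k = 1 ∧
      ∀ i, NearC x y (g i) (ε / 2) := by
    intro g
    obtain ⟨m, x, y, h2, h3⟩ := h (Finset.univ.image g) (ε / 2) (by linarith)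
    exact ⟨m, x, y, h2, fun i => h3 _ (Finset.mem_image_of_mem _ (Finset.mem_univ i))⟩
  choose m x y hsum hnear using h1
  unfold NearC at hnear
  choose n p q hpq hsame using hnear
  have hR0 : ∀ g, 0 ≤ ∑ k, ‖x g k‖ * ‖y g k‖ := fun g =>
    Finset.sum_nonneg fun k _ => mul_nonneg (norm_nonneg _) (norm_nonneg _)
  have hρ0 : ∀ g, 0 < ε / (4 * (∑ k, ‖x g k‖ * ‖y g k‖ + 1)) := fun g =>
    div_pos hε (by have := hR0 g; linarith)
  obtain ⟨v, hv1, hv2, hv3, hv4⟩ := precise_refinement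
    (fun g : Fin r → B => Metric.ball g (ε / (4 * (∑ k, ‖x g k‖ * ‖y g k‖ + 1))))
    (fun g => Metric.isOpen_ball)
    (by
      rw [Set.eq_univ_iff_forall]
      intro g
      exact Set.mem_iUnion.2 ⟨g, Metric.mem_ball_self (hρ0 g)⟩)
  refine ⟨v, fun g => Set.range (x g) ∪ Set.range (y g) ∪ Set.range g ∪
    ((⋃ i, Set.range (p g i)) ∪ (⋃ i, Set.range (q g i))), hv1, ?_, fun a => hv3.point_finite a,
    ?_, ?_⟩
  · intro a
    have h2 : a ∈ ⋃ g, v g := by
      rw [hv2]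
      exact Set.mem_univ a
    exact Set.mem_iUnion.1 h2
  · intro g
    exact (((Set.finite_range _).union (Set.finite_range _)).union (Set.finite_range _)).union
      ((Set.finite_iUnion fun i => Set.finite_range _).union
        (Set.finite_iUnion fun i => Set.finite_range _))
  · intro g
    have hx : ∀ k, x g k ∈ Set.range (x g) ∪ Set.range (y g) ∪ Set.range g ∪
        ((⋃ i, Set.range (p g i)) ∪ (⋃ i, Set.range (q g i))) := fun k =>
      Or.inl (Or.inl (Or.inl ⟨k, rfl⟩))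
    have hy : ∀ k, y g k ∈ Set.range (x g) ∪ Set.range (y g) ∪ Set.range g ∪
        ((⋃ i, Set.range (p g i)) ∪ (⋃ i, Set.range (q g i))) := fun k =>
      Or.inl (Or.inl (Or.inr ⟨k, rfl⟩))
    have hg : ∀ i, g i ∈ Set.range (x g) ∪ Set.range (y g) ∪ Set.range g ∪
        ((⋃ i, Set.range (p g i)) ∪ (⋃ i, Set.range (q g i))) := fun i =>
      Or.inl (Or.inr ⟨i, rfl⟩)
    have hp : ∀ i j, p g i j ∈ Set.range (x g) ∪ Set.range (y g) ∪ Set.range g ∪
        ((⋃ i, Set.range (p g i)) ∪ (⋃ i, Set.range (q g i))) := fun i j =>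
      Or.inr (Or.inl (Set.mem_iUnion.2 ⟨i, ⟨j, rfl⟩⟩))
    have hq : ∀ i j, q g i j ∈ Set.range (x g) ∪ Set.range (y g) ∪ Set.range g ∪
        ((⋃ i, Set.range (p g i)) ∪ (⋃ i, Set.range (q g i))) := fun i j =>
      Or.inr (Or.inr (Set.mem_iUnion.2 ⟨i, ⟨j, rfl⟩⟩))
    refine ⟨m g, x g, y g, fun k => ⟨hx k, hy k⟩, hsum g, fun a ha i => ?_⟩
    have h2 : ‖a i - g i‖ ≤ ε / (4 * (∑ k, ‖x g k‖ * ‖y g k‖ + 1)) := by
      rw [← dist_eq_norm]
      exact (dist_le_pi_dist a g i).trans (Metric.mem_ball.1 (hv4 g ha)).le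
    obtain ⟨n', p', q', h3, h4, h5⟩ := Ref_perturb (le_refl (∑ k, ‖x g k‖ * ‖y g k‖)) (hpq g i)
      (hsame g i) h2 (hρ0 g).le
    refine ⟨n', p', q', h3.trans ?_, fun S hE hS haS => ?_, h5⟩
    · have h6 : ε / (4 * (∑ k, ‖x g k‖ * ‖y g k‖ + 1)) * (∑ k, ‖x g k‖ * ‖y g k‖) ≤ ε / 4 := by
        have h7 := hR0 g
        rw [div_mul_eq_mul_div, div_le_div_iff₀ (by linarith) (by norm_num)]
        nlinarith
      linarith
    · exact h4 S hS (haS i) (hE (hg i)) (fun k => hE (hx k)) (fun k => hE (hy k))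
        (fun j => hE (hp i j)) (fun j => hE (hq i j))

end Pool.Agent.MP_86f3ed.Nu
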