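import Pool.Agent.H.MP_86f3ed_an.Nu.Mz
import Pool.Agent.H.MP_86f3ed_an.Fac.Tomi
import Pool.Agent.H.MP_86f3ed_an.Ty.TomI
import Pool.Agent.H.MP_86f3ed_an.Trc.Public

open scoped InnerProductSpace Topology
open Filter ContinuousLinearMap

namespace Pool.Agent.MP_86f3ed.Nu

open Pin Ty

universe v

variable {K : Type v} [NormedAddCommGroup K] [InnerProductSpace ℂ K] [CompleteSpace K]

/-- The index type of relations. -/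
def SysRel (Ψ : (K →L[ℂ] K) →ₗ[ℂ] ℂ) : Type v :=
  {t : (K →L[ℂ] K) × (K →L[ℂ] K) × ℝ //
    (∀ Z, ‖Ψ (Z * t.1) - Ψ (t.2.1 * Z)‖ ≤ t.2.2 * ‖Z‖) ∧ 0 ≤ t.2.2}

/-- `exists_normal` for finite sets. -/
theorem Sys_finset (Ψ : (K →L[ℂ] K) →ₗ[ℂ] ℂ) (h1 : Ψ 1 = 1) (h2 : ∀ X, ‖Ψ X‖ ≤ ‖X‖)
    (s : Finset (SysRel Ψ)) (t : Finset (K →L[ℂ] K)) {ε : ℝ} (hε : 0 < ε) :
    ∃ F : FS K, (∀ m ∈ s, ∀ Z, ‖F.val (Z * m.1.1) - F.val (m.1.2.1 * Z)‖ ≤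
      (m.1.2.2 + ε) * ‖Z‖) ∧ ∀ c ∈ t, ‖F.val c - Ψ c‖ ≤ ε := by
  obtain ⟨F, hF1, hF2⟩ := exists_normal Ψ h1 h2 (M := s.card) (L := t.card)
    (fun m => (s.equivFin.symm m).1.1.1) (fun m => (s.equivFin.symm m).1.1.2.1)
    (fun m => (s.equivFin.symm m).1.1.2.2) (fun m => (s.equivFin.symm m).1.2.2)
    (fun m Z => (s.equivFin.symm m).1.2.1 Z) (fun c => (t.equivFin.symm c).1) hε
  refine ⟨F, fun m hm Z => ?_, fun c hc => ?_⟩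
  · have h := hF1 (s.equivFin ⟨m, hm⟩) Z
    simpa only [Equiv.symm_apply_apply] using h
  · have h := hF2 (t.equivFin ⟨c, hc⟩)
    simpa only [Equiv.symm_apply_apply] using h

/-- A net of finite rank states converging to `Ψ`, with the relations satisfied in norm.

PROOF. Let `R = {t : (K →L[ℂ] K) × (K →L[ℂ] K) × ℝ // ∀ Z, ‖Ψ (Z * t.1) - Ψ (t.2.1 * Z)‖ ≤ t.2.2 * ‖Z‖ ∧
0 ≤ t.2.2}` and `I = Finset R × Finset (K →L[ℂ] K) × ℕ`, a directed order; `𝒰` an ultrafilter `≤ atTop`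
(`Ultrafilter.of atTop`). For `i = (s, t, n)` let `S i` be the state of `exists_normal` for the
(enumerated) finite sets `s`, `t` and `ε = 1/(n+1)`. If `r < 0` in the second claim then (with
`Z = 1`) `‖..‖ ≤ r * ‖1‖ < 0` is impossible (`‖1‖ = 1` since `Ψ 1 = 1 ≠ 0`), so `r ≥ 0`. The two claims
hold for all `i ≥ ({(d, d', r)}, ∅, n₀)` resp. `i ≥ (∅, {X}, n₀)`. -/
theorem exists_net (Ψ : (K →L[ℂ] K) →ₗ[ℂ] ℂ) (h1 : Ψ 1 = 1) (h2 : ∀ X, ‖Ψ X‖ ≤ ‖X‖) :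
    ∃ (I : Type v) (𝒰 : Ultrafilter I) (S : I → FS K),
      (∀ X, Tendsto (fun i => (S i).val X) 𝒰 (𝓝 (Ψ X))) ∧
      ∀ (d d' : K →L[ℂ] K) (r : ℝ), (∀ Z, ‖Ψ (Z * d) - Ψ (d' * Z)‖ ≤ r * ‖Z‖) →
        ∀ ε, 0 < ε → ∀ᶠ i in 𝒰, ∀ Z, ‖(S i).val (Z * d) - (S i).val (d' * Z)‖ ≤ (r + ε) * ‖Z‖ := by
  classical
  have hpos : ∀ i : Finset (SysRel Ψ) × Finset (K →L[ℂ] K) × ℕ, (0 : ℝ) < 1 / ((i.2.2 : ℝ) + 1) :=
    fun i => Nat.one_div_pos_of_nat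
  choose S hS1 hS2 using fun i : Finset (SysRel Ψ) × Finset (K →L[ℂ] K) × ℕ =>
    Sys_finset Ψ h1 h2 i.1 i.2.1 (hpos i)
  have hle : ((Ultrafilter.of (atTop : Filter (Finset (SysRel Ψ) × Finset (K →L[ℂ] K) × ℕ)) :
      Ultrafilter _) : Filter (Finset (SysRel Ψ) × Finset (K →L[ℂ] K) × ℕ)) ≤ atTop :=
    Ultrafilter.of_le _
  refine ⟨Finset (SysRel Ψ) × Finset (K →L[ℂ] K) × ℕ, Ultrafilter.of atTop, S, ?_, ?_⟩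
  · intro X
    refine Tendsto.mono_left ?_ hle
    rw [Metric.tendsto_atTop]
    intro ε hε
    obtain ⟨n, hn⟩ := exists_nat_one_div_lt hε
    refine ⟨(∅, {X}, n), fun i hi => ?_⟩
    have hX : X ∈ i.2.1 := hi.2.1 (Finset.mem_singleton_self X)
    have hni : n ≤ i.2.2 := hi.2.2
    rw [dist_eq_norm]
    refine lt_of_le_of_lt (hS2 i X hX) (lt_of_le_of_lt ?_ hn)
    have : (n : ℝ) ≤ i.2.2 := by exact_mod_cast hni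
    gcongr
  · intro d d' r hr ε hε
    have hr0 : 0 ≤ r := by
      by_contra hc
      push Not at hc
      have h3 := hr 1
      have h4 : (0 : ℝ) < ‖(1 : K →L[ℂ] K)‖ := by
        rw [norm_pos_iff]
        intro h5
        rw [h5, map_zero] at h1
        exact zero_ne_one h1
      have h6 : r * ‖(1 : K →L[ℂ] K)‖ < 0 := mul_neg_of_neg_of_pos hc h4
      exact absurd (le_trans (norm_nonneg _) h3) (not_le.mpr h6)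
    refine hle ?_
    rw [mem_atTop_sets]
    obtain ⟨n, hn⟩ := exists_nat_one_div_lt hε
    refine ⟨({⟨(d, d', r), hr, hr0⟩}, ∅, n), fun i hi Z => ?_⟩
    have hX : (⟨(d, d', r), hr, hr0⟩ : SysRel Ψ) ∈ i.1 := hi.1 (Finset.mem_singleton_self _)
    have hni : n ≤ i.2.2 := hi.2.2
    have h7 := hS1 i _ hX Z
    refine le_trans h7 ?_
    have h8 : (n : ℝ) ≤ i.2.2 := by exact_mod_cast hni
    have h9 : (1 : ℝ) / ((i.2.2 : ℝ) + 1) ≤ 1 / ((n : ℝ) + 1) := by gcongr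
    refine mul_le_mul_of_nonneg_right ?_ (norm_nonneg _)
    show r + _ ≤ r + ε
    linarith

/-- A net of finite rank states adapted to the algebra `P` and the vector `Ω`. -/
structure Sys (P : StarSubalgebra ℂ (K →L[ℂ] K)) (Ω : K) {I : Type v} (𝒰 : Ultrafilter I)
    (S : I → FS K) : Prop where
  lim : ∀ a ∈ P, Tendsto (fun i => (S i).val a) 𝒰 (𝓝 ⟪Ω, a Ω⟫_ℂ)
  near : ∀ x ∈ Com P, ∀ d ∈ P, ∀ d' ∈ P, ∀ δ, 0 < δ → ‖d Ω - x Ω‖ ≤ δ → ‖d' Ω - star x Ω‖ ≤ δ →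
    ∀ᶠ i in 𝒰, ∀ Z, ‖(S i).val (Z * d) - (S i).val (star d' * Z)‖ ≤ 3 * δ * ‖Z‖

/-- The existence of adapted nets.

PROOF. Let `E` be the projection of norm one onto `P = Com (Com P)`, bimodular by `Fac.tomiyama` (with
`𝔓 = Com P`), `E 1 = 1`. `Ψ X = ⟪Ω, E X Ω⟫`, `Ψ 1 = 1`, `‖Ψ X‖ ≤ ‖X‖`. For `a ∈ P`: `Ψ a = ⟪Ω, a Ω⟫`.
For `x, d, d', δ` as in `near` and all `Z`: `Ψ (Z d) = ⟪Ω, E Z d Ω⟫`, within `δ ‖Z‖` of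
`⟪Ω, E Z x Ω⟫ = ⟪Ω, x E Z Ω⟫ = ⟪star x Ω, E Z Ω⟫`, within `δ ‖Z‖` of `⟪d' Ω, E Z Ω⟫ = ⟪Ω, star d' E Z Ω⟫
= Ψ (star d' Z)`. So the hypothesis of `exists_net` holds with `r = 2 δ`, use `ε = δ`. -/
theorem exists_sys {P : StarSubalgebra ℂ (K →L[ℂ] K)} (bic : Com (Com P) = P)
    (inj : IsInjective (P : Set (K →L[ℂ] K))) {Ω : K} (hΩ : ‖Ω‖ = 1) :
    ∃ (I : Type v) (𝒰 : Ultrafilter I) (S : I → FS K), Sys P Ω 𝒰 S := by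
  obtain ⟨E, hE1, hE2, hE3⟩ := inj
  have hE2' : ∀ S, E S ∈ Com (Com P) := fun S => by rw [bic]; exact hE2 S
  have hE3' : ∀ S ∈ Com (Com P), E S = S := fun S hS => hE3 S (by rw [bic] at hS; exact hS)
  have hbim : ∀ y ∈ P, ∀ S, E (y * S) = y * E S ∧ E (S * y) = E S * y := by
    intro y hy S
    have hy' : y ∈ Com (Com P) := by rw [bic]; exact hy
    exact Fac.tomiyama E hE1 hE2' hE3' hy' S
  set Ψ : (K →L[ℂ] K) →ₗ[ℂ] ℂ :=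
    { toFun := fun X => ⟪Ω, E X Ω⟫_ℂ
      map_add' := fun X Y => by rw [map_add, add_apply, inner_add_right]
      map_smul' := fun c X => by
        rw [map_smul, smul_apply, inner_smul_right]; rfl } with hΨ
  have hΨa : ∀ X, Ψ X = ⟪Ω, E X Ω⟫_ℂ := fun X => rfl
  have h1 : Ψ 1 = 1 := by
    rw [hΨa, hE3 1 (one_mem P)]
    show ⟪Ω, Ω⟫_ℂ = 1
    rw [inner_self_eq_norm_sq_to_K, hΩ]
    simp
  have hEΩ : ∀ X, ‖E X Ω‖ ≤ ‖X‖ := by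
    intro X
    calc ‖E X Ω‖ ≤ ‖E X‖ * ‖Ω‖ := (E X).le_opNorm Ω
      _ = ‖E X‖ := by rw [hΩ, mul_one]
      _ ≤ ‖X‖ := hE1 X
  have h2 : ∀ X, ‖Ψ X‖ ≤ ‖X‖ := by
    intro X
    rw [hΨa]
    calc ‖⟪Ω, E X Ω⟫_ℂ‖ ≤ ‖Ω‖ * ‖E X Ω‖ := norm_inner_le_norm _ _
      _ = ‖E X Ω‖ := by rw [hΩ, one_mul]
      _ ≤ ‖X‖ := hEΩ X
  obtain ⟨I, 𝒰, S, hS1, hS2⟩ := exists_net Ψ h1 h2
  refine ⟨I, 𝒰, S, ⟨fun a ha => ?_, fun x hx d hd d' hd' δ hδ hdx hdx' => ?_⟩⟩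
  · have h3 := hS1 a
    rw [hΨa, hE3 a ha] at h3
    exact h3
  · have key : ∀ Z, ‖Ψ (Z * d) - Ψ (star d' * Z)‖ ≤ (2 * δ) * ‖Z‖ := by
      intro Z
      have e1 : Ψ (Z * d) = ⟪Ω, E Z (d Ω)⟫_ℂ := by
        rw [hΨa, (hbim d hd Z).2]; rfl
      have e2 : Ψ (star d' * Z) = ⟪d' Ω, E Z Ω⟫_ℂ := by
        rw [hΨa, (hbim (star d') (star_mem hd') Z).1]
        show ⟪Ω, (star d') (E Z Ω)⟫_ℂ = _
        rw [ContinuousLinearMap.star_eq_adjoint, ContinuousLinearMap.adjoint_inner_right]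
      have e3 : ⟪Ω, E Z (x Ω)⟫_ℂ = ⟪(star x) Ω, E Z Ω⟫_ℂ := by
        have h4 : (E Z) * x = x * E Z := by
          exact mem_Com.mp hx (E Z) (hE2 Z)
        have h5 : E Z (x Ω) = x (E Z Ω) := by
          have := congrArg (fun T : K →L[ℂ] K => T Ω) h4
          exact this
        rw [h5, ContinuousLinearMap.star_eq_adjoint, ContinuousLinearMap.adjoint_inner_left]
      have e4 : Ψ (Z * d) - Ψ (star d' * Z) =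
          ⟪Ω, E Z (d Ω - x Ω)⟫_ℂ + ⟪(star x) Ω - d' Ω, E Z Ω⟫_ℂ := by
        rw [e1, e2, map_sub, inner_sub_right, inner_sub_left, e3]
        ring
      rw [e4]
      have b1 : ‖⟪Ω, E Z (d Ω - x Ω)⟫_ℂ‖ ≤ δ * ‖Z‖ := by
        calc ‖⟪Ω, E Z (d Ω - x Ω)⟫_ℂ‖ ≤ ‖Ω‖ * ‖E Z (d Ω - x Ω)‖ := norm_inner_le_norm _ _
          _ = ‖E Z (d Ω - x Ω)‖ := by rw [hΩ, one_mul]
          _ ≤ ‖E Z‖ * ‖d Ω - x Ω‖ := (E Z).le_opNorm _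
          _ ≤ ‖Z‖ * δ := mul_le_mul (hE1 Z) hdx (norm_nonneg _) (norm_nonneg _)
          _ = δ * ‖Z‖ := mul_comm _ _
      have b2 : ‖⟪(star x) Ω - d' Ω, E Z Ω⟫_ℂ‖ ≤ δ * ‖Z‖ := by
        calc ‖⟪(star x) Ω - d' Ω, E Z Ω⟫_ℂ‖ ≤ ‖(star x) Ω - d' Ω‖ * ‖E Z Ω‖ :=
              norm_inner_le_norm _ _
          _ ≤ δ * ‖Z‖ := mul_le_mul (by rw [norm_sub_rev]; exact hdx') (hEΩ Z)
              (norm_nonneg _) hδ.le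
      calc ‖⟪Ω, E Z (d Ω - x Ω)⟫_ℂ + ⟪(star x) Ω - d' Ω, E Z Ω⟫_ℂ‖
          ≤ ‖⟪Ω, E Z (d Ω - x Ω)⟫_ℂ‖ + ‖⟪(star x) Ω - d' Ω, E Z Ω⟫_ℂ‖ := norm_add_le _ _
        _ ≤ δ * ‖Z‖ + δ * ‖Z‖ := add_le_add b1 b2
        _ = (2 * δ) * ‖Z‖ := by ring
    have h6 := hS2 d (star d') (2 * δ) key δ hδ
    filter_upwards [h6] with i hi Z
    have h7 := hi Z
    have h8 : (2 * δ + δ) * ‖Z‖ = 3 * δ * ‖Z‖ := by ring
    rw [h8] at h7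
    exact h7

end Pool.Agent.MP_86f3ed.Nu
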