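import Pool.Agent.H.MP_86f3ed_an.Nu.Low

open scoped InnerProductSpace Topology
open Filter ContinuousLinearMap

namespace Pool.Agent.MP_86f3ed.Nu

open Pin Ty

universe v

variable {K : Type v} [NormedAddCommGroup K] [InnerProductSpace ℂ K] [CompleteSpace K]
  {P : StarSubalgebra ℂ (K →L[ℂ] K)} {Ω : K} {I : Type v} {𝒰 : Ultrafilter I} {S : I → FS K}
  {J : K → K}

/-- A positive contraction `T` gives a positive contraction `J T J`. -/
theorem Up_conj (hJ : TomitaJ P Ω J) {T a : K →L[ℂ] K} (ha : ∀ x, J (T (J x)) = a x)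
    (h0 : 0 ≤ T) (h1 : T ≤ 1) : 0 ≤ a ∧ a ≤ 1 := by
  have key : ∀ x, ⟪a x, x⟫_ℂ = ⟪J x, T (J x)⟫_ℂ := by
    intro x
    rw [← ha x]
    have := hJ.inner (T (J x)) (J x)
    rw [hJ.invol x] at this
    exact this
  have hT0 : ∀ y, ((⟪y, T y⟫_ℂ).re : ℂ) = ⟪y, T y⟫_ℂ ∧ 0 ≤ (⟪y, T y⟫_ℂ).re := by
    intro y
    have h := (nonneg_iff_isPositive T).1 h0
    have h2 := (isPositive_iff_complex T).1 h y
    have h3 : ⟪y, T y⟫_ℂ = ⟪T y, y⟫_ℂ := by
      rw [← inner_conj_symm y (T y), ← h2.1]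
      exact Complex.conj_ofReal _
    rw [h3]
    exact h2
  have hT1 : ∀ y, (⟪y, T y⟫_ℂ).re ≤ ‖y‖ ^ 2 := by
    intro y
    have h := (ContinuousLinearMap.le_def T 1).1 h1
    have h2 := ((isPositive_iff_complex _).1 h y).2
    have h3 : ⟪((1 : K →L[ℂ] K) - T) y, y⟫_ℂ = ⟪y, y⟫_ℂ - ⟪T y, y⟫_ℂ := by
      rw [sub_apply, inner_sub_left]; rfl
    rw [h3] at h2
    have h4 : ⟪T y, y⟫_ℂ = (starRingEnd ℂ) ⟪y, T y⟫_ℂ := (inner_conj_symm _ _).symm
    rw [h4, inner_self_eq_norm_sq_to_K] at h2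
    have h5 : ((((‖y‖ : ℝ) : ℂ) ^ 2 - (starRingEnd ℂ) ⟪y, T y⟫_ℂ)).re
        = ‖y‖ ^ 2 - (⟪y, T y⟫_ℂ).re := by
      rw [Complex.sub_re, Complex.conj_re]
      norm_cast
    have h6 : 0 ≤ ((((‖y‖ : ℝ) : ℂ) ^ 2 - (starRingEnd ℂ) ⟪y, T y⟫_ℂ)).re := h2
    rw [h5] at h6
    linarith
  have hn : ∀ x, ‖J x‖ ^ 2 = ‖x‖ ^ 2 := by
    intro x
    have h := hJ.inner x x
    rw [inner_self_eq_norm_sq_to_K, inner_self_eq_norm_sq_to_K] at h
    exact_mod_cast h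
  constructor
  · rw [nonneg_iff_isPositive, isPositive_iff_complex]
    intro x
    have h := hT0 (J x)
    rw [← key x] at h
    exact h
  · rw [ContinuousLinearMap.le_def, isPositive_iff_complex]
    intro x
    have h1x : ⟪(1 : K →L[ℂ] K) x, x⟫_ℂ = (((‖x‖ : ℝ) : ℂ) ^ 2) := inner_self_eq_norm_sq_to_K x
    have h3 : ⟪((1 : K →L[ℂ] K) - a) x, x⟫_ℂ = (((‖x‖ : ℝ) : ℂ) ^ 2) - ⟪a x, x⟫_ℂ := by
      rw [sub_apply, inner_sub_left, h1x]
    rw [h3, key x]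
    have h := hT0 (J x)
    have h' := hT1 (J x)
    rw [hn x] at h'
    constructor
    · rw [← h.1]
      show ((((((‖x‖ : ℝ) : ℂ) ^ 2) - ((⟪J x, T (J x)⟫_ℂ).re : ℂ)).re : ℝ) : ℂ) = _
      norm_cast
    · show 0 ≤ ((((‖x‖ : ℝ) : ℂ) ^ 2) - ⟪J x, T (J x)⟫_ℂ).re
      rw [Complex.sub_re]
      have : ((((‖x‖ : ℝ) : ℂ) ^ 2)).re = ‖x‖ ^ 2 := by norm_cast
      rw [this]
      linarith

/-- PROOF. `g x = lim (S i).frm x b` for `x ∈ P` (`exists_ultralimit`, `FS.norm_frm_le`) is linear in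
`x`. For `x = star z * z`: `0 ≤ frm x b ≤ frm x 1 = val x` (real parts; `FS.frm_nonneg` for `b` and for
`1 - b`, `FS.frm_one_right`), `val x → ‖z Ω‖²`; the imaginary part vanishes (`FS.frm_star`). `exists_rn` for `D = P`,
`ρ = P.subtype`, `ζ = Ω`: `t ∈ Com P`, `0 ≤ t ≤ 1`, `g x = ⟪Ω, x t Ω⟫`. `N_to_M`: `b' ∈ P`,
`b' x = J (t (J x))`; as in `exists_root_com`, `0 ≤ b' ≤ 1`, and `b' Ω = J (t Ω)`, so
`t Ω = J (b' Ω)`. -/
theorem Sys.exists_hat (h : Sys P Ω 𝒰 S) (cyc : Cyc P Ω) (hJ : TomitaJ P Ω J) {b : K →L[ℂ] K}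
    (hb : b ∈ P) (h0 : 0 ≤ b) (h1 : b ≤ 1) :
    ∃ b' ∈ P, 0 ≤ b' ∧ b' ≤ 1 ∧ ∀ x ∈ P,
      Tendsto (fun i => (S i).frm x b) 𝒰 (𝓝 ⟪Ω, x (J (b' Ω))⟫_ℂ) := by
  have _hb := hb
  have hbs : star b = b := (IsSelfAdjoint.of_nonneg h0).star_eq
  have hex : ∀ x : K →L[ℂ] K, ∃ z : ℂ, Tendsto (fun i => (S i).frm x b) 𝒰 (𝓝 z) := by
    intro x
    obtain ⟨z, -, hz⟩ := exists_ultralimit 𝒰 (fun i => (S i).frm x b) (‖x‖ * ‖b‖)
      fun i => (S i).norm_frm_le x b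
    exact ⟨z, hz⟩
  choose L hL using hex
  have uq : ∀ {x z}, Tendsto (fun i => (S i).frm x b) 𝒰 (𝓝 z) → L x = z :=
    fun h => tendsto_nhds_unique (hL _) h
  let g : P →ₗ[ℂ] ℂ :=
    { toFun := fun x => L x
      map_add' := by
        intro x y
        refine uq ?_
        have : (fun i => (S i).frm ((x + y : P) : K →L[ℂ] K) b)
            = fun i => (S i).frm (x : K →L[ℂ] K) b + (S i).frm (y : K →L[ℂ] K) b := by
          funext i
          exact (S i).frm_add_left _ _ _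
        rw [this]
        exact (hL _).add (hL _)
      map_smul' := by
        intro c x
        refine uq ?_
        have : (fun i => (S i).frm ((c • x : P) : K →L[ℂ] K) b)
            = fun i => c * (S i).frm (x : K →L[ℂ] K) b := by
          funext i
          exact (S i).frm_smul_left _ _ _
        rw [this]
        exact (hL _).const_mul c }
  have hgL : ∀ x : P, g x = L x := fun _ => rfl
  have hpos : ∀ x : K →L[ℂ] K, 0 ≤ star x * x := fun x => star_mul_self_nonneg x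
  have hg : ∀ x : P, 0 ≤ (g (star x * x)).re ∧ (g (star x * x)).im = 0 := by
    intro x
    have hc : ((star x * x : P) : K →L[ℂ] K) = star (x : K →L[ℂ] K) * x := rfl
    rw [hgL, hc]
    have ht := hL (star (x : K →L[ℂ] K) * x)
    constructor
    · have htr := (Complex.continuous_re.tendsto _).comp ht
      refine ge_of_tendsto' htr fun i => ?_
      exact (S i).frm_nonneg (hpos _) h0
    · have hti := (Complex.continuous_im.tendsto _).comp ht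
      refine tendsto_nhds_unique hti ?_
      have : (Complex.im ∘ fun i => (S i).frm (star (x : K →L[ℂ] K) * x) b) = fun _ => 0 := by
        funext i
        have h3 := (S i).frm_star (star (x : K →L[ℂ] K) * x) b
        rw [star_mul, star_star, hbs] at h3
        have h4 := congrArg Complex.im h3
        rw [Complex.conj_im] at h4
        show ((S i).frm (star (x : K →L[ℂ] K) * x) b).im = 0
        linarith
      rw [this]
      exact tendsto_const_nhds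
  have hle : ∀ x : P, (g (star x * x)).re ≤ ‖(P.subtype x) Ω‖ ^ 2 := by
    intro x
    have hc : ((star x * x : P) : K →L[ℂ] K) = star (x : K →L[ℂ] K) * x := rfl
    rw [hgL, hc]
    have ht := hL (star (x : K →L[ℂ] K) * x)
    have htr := (Complex.continuous_re.tendsto _).comp ht
    have hmem : star (x : K →L[ℂ] K) * x ∈ P := mul_mem (star_mem x.2) x.2
    have hv := (Complex.continuous_re.tendsto _).comp (h.lim _ hmem)
    have hv2 : (⟪Ω, (star (x : K →L[ℂ] K) * x) Ω⟫_ℂ).re = ‖(P.subtype x) Ω‖ ^ 2 := by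
      have : ⟪Ω, (star (x : K →L[ℂ] K) * x) Ω⟫_ℂ = ⟪(x : K →L[ℂ] K) Ω, (x : K →L[ℂ] K) Ω⟫_ℂ := by
        rw [star_eq_adjoint]
        show ⟪Ω, adjoint (x : K →L[ℂ] K) ((x : K →L[ℂ] K) Ω)⟫_ℂ = _
        rw [adjoint_inner_right]
      rw [this, inner_self_eq_norm_sq_to_K]
      norm_cast
    rw [← hv2]
    refine le_of_tendsto_of_tendsto' htr hv fun i => ?_
    have h5 := (S i).frm_nonneg (X := star (x : K →L[ℂ] K) * x) (Y := 1 - b) (hpos _)
      (sub_nonneg.2 h1)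
    have h6 : (S i).frm (star (x : K →L[ℂ] K) * x) (1 - b)
        = (S i).val (star (x : K →L[ℂ] K) * x) - (S i).frm (star (x : K →L[ℂ] K) * x) b := by
      have h7 := (S i).frm_add_right (star (x : K →L[ℂ] K) * x) (1 - b) b
      rw [sub_add_cancel, (S i).frm_one_right] at h7
      rw [h7]; ring
    rw [h6, Complex.sub_re] at h5
    show ((S i).frm (star (x : K →L[ℂ] K) * x) b).re ≤ ((S i).val (star (x : K →L[ℂ] K) * x)).re
    linarith
  have hζ : Dense (Set.range fun d : P => (P.subtype d) Ω) := by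
    have : (Set.range fun d : P => (P.subtype d) Ω) = {x : K | ∃ a ∈ P, x = a Ω} := by
      ext y
      constructor
      · rintro ⟨d, rfl⟩
        exact ⟨d, d.2, rfl⟩
      · rintro ⟨a, ha, rfl⟩
        exact ⟨⟨a, ha⟩, rfl⟩
    rw [this]
    exact cyc
  obtain ⟨T, hT0, hT1, hTc, hTg⟩ := exists_rn P.subtype Ω hζ g hg hle
  have hTC : T ∈ Com P := by
    rw [mem_Com]
    intro a ha
    exact (hTc ⟨a, ha⟩).symm
  obtain ⟨b', hb'P, hb'⟩ := hJ.N_to_M T hTC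
  obtain ⟨hb0, hb1⟩ := Up_conj hJ hb' hT0 hT1
  refine ⟨b', hb'P, hb0, hb1, fun x hx => ?_⟩
  have e1 : J (b' Ω) = T Ω := by
    rw [← hb' Ω, hJ.fix, hJ.invol]
  have e2 := hTg ⟨x, hx⟩
  rw [e1]
  have e3 : L x = ⟪Ω, x (T Ω)⟫_ℂ := e2
  rw [← e3]
  exact hL x

/-- The upper bound.

PROOF. `b 0 = b`, `b (n+1) = hat (b n)` from `Sys.exists_hat` (choice on the subtype and `Nat.rec`).
`F x y = lim re frm x y`; `F x (b n) = sp x (b (n+1))` for `x ∈ P`. Let `f₀ = sp b b`,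
`s n = F (b n) (b n) = sp (b n) (b (n+1))`, `f n = sp (b (n+1)) (b (n+1)) = F (b (n+1)) (b n)`. Then
`s 0 = sp (b 0) (b 1) ≤ (f₀ + f 0) / 2`, `f n = F (b (n+1)) (b n) ≤ (s (n+1) + s n) / 2`
(`FS.frm_le` in the limit), `s (n+1) = sp (b (n+1)) (b (n+2)) ≤ (f n + f (n+1)) / 2` (`sp_le`).
`chain'` (any `δ > 0` is allowed) gives `s 0 ≤ f₀ + η/2`, i.e. `lim re frm b b ≤ sp b b + η/2`. -/
theorem Sys.up (h : Sys P Ω 𝒰 S) (cyc : Cyc P Ω) (hΩ : ‖Ω‖ = 1)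
    (hJ : TomitaJ P Ω J) {b : K →L[ℂ] K} (hb : b ∈ P) (h0 : 0 ≤ b) (h1 : b ≤ 1) {η : ℝ}
    (hη : 0 < η) : ∀ᶠ i in 𝒰, ((S i).frm b b).re ≤ sp J Ω b b + η := by
  have hex : ∀ c : {c : K →L[ℂ] K // c ∈ P ∧ 0 ≤ c ∧ c ≤ 1},
      ∃ c' : {c : K →L[ℂ] K // c ∈ P ∧ 0 ≤ c ∧ c ≤ 1}, ∀ x ∈ P,
        Tendsto (fun i => (S i).frm x c) 𝒰 (𝓝 ⟪Ω, x (J ((c' : K →L[ℂ] K) Ω))⟫_ℂ) := by
    rintro ⟨c, hcP, hc0, hc1⟩
    obtain ⟨c', h1', h2', h3', h4'⟩ := h.exists_hat cyc hJ hcP hc0 hc1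
    exact ⟨⟨c', h1', h2', h3'⟩, h4'⟩
  choose hat hhat using hex
  obtain ⟨β, hβ0, hβP, hβ1, hβ2, hβl⟩ : ∃ β : ℕ → (K →L[ℂ] K), β 0 = b ∧ (∀ n, β n ∈ P) ∧
      (∀ n, 0 ≤ β n) ∧ (∀ n, β n ≤ 1) ∧ ∀ n, ∀ x ∈ P,
        Tendsto (fun i => (S i).frm x (β n)) 𝒰 (𝓝 ⟪Ω, x (J (β (n + 1) Ω))⟫_ℂ) := by
    let B : ℕ → {c : K →L[ℂ] K // c ∈ P ∧ 0 ≤ c ∧ c ≤ 1} := fun n =>
      Nat.rec (motive := fun _ => {c : K →L[ℂ] K // c ∈ P ∧ 0 ≤ c ∧ c ≤ 1})
        ⟨b, hb, h0, h1⟩ (fun _ c => hat c) n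
    refine ⟨fun n => (B n).1, rfl, fun n => (B n).2.1, fun n => (B n).2.2.1,
      fun n => (B n).2.2.2, fun n x hx => ?_⟩
    exact hhat (B n) x hx
  clear hhat hat
  have hsa : ∀ n, star (β n) = β n := fun n => (IsSelfAdjoint.of_nonneg (hβ1 n)).star_eq
  have hnorm : ∀ n, ‖β n‖ ≤ 1 := fun n => norm_le_one_of (hβ1 n) (hβ2 n)
  have hlim : ∀ m n, Tendsto (fun i => ((S i).frm (β m) (β n)).re) 𝒰
      (𝓝 (sp J Ω (β m) (β (n + 1)))) := by
    intro m n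
    exact (Complex.continuous_re.tendsto _).comp (hβl n (β m) (hβP m))
  have habs : ∀ m n, |sp J Ω (β m) (β n)| ≤ 1 := fun m n => abs_sp_le hJ hΩ (hnorm m) (hnorm n)
  have hsp : ∀ m n, sp J Ω (β m) (β n) ≤ (sp J Ω (β m) (β m) + sp J Ω (β n) (β n)) / 2 :=
    fun m n => sp_le hJ (hβP m) (hβP n) (hsa m) (hsa n)
  have hmid : ∀ k, sp J Ω (β (k + 1)) (β (k + 1))
      ≤ (sp J Ω (β (k + 1)) (β (k + 2)) + sp J Ω (β k) (β (k + 1))) / 2 := by
    intro k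
    refine le_of_tendsto_of_tendsto' (hlim (k + 1) k)
      (((hlim (k + 1) (k + 1)).add (hlim k k)).div_const 2) fun i => ?_
    exact (S i).frm_le (hsa _) (hsa _)
  obtain ⟨s, hs⟩ : ∃ s : ℕ → ℝ, ∀ n, s n = sp J Ω (β n) (β (n + 1)) := ⟨_, fun _ => rfl⟩
  obtain ⟨f, hf⟩ : ∃ f : ℕ → ℝ, ∀ n, f n = sp J Ω (β (n + 1)) (β (n + 1)) := ⟨_, fun _ => rfl⟩
  obtain ⟨δ, hδ, hch⟩ := chain' (η := η / 2) (by linarith)
  have hs0 : s 0 ≤ sp J Ω b b + η / 2 := by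
    refine hch (sp J Ω b b) s f ?_ ?_ ?_ ?_ ?_ ?_
    · rw [← hβ0]
      exact habs 0 0
    · intro k
      rw [hs]
      exact habs _ _
    · intro k
      rw [hf]
      exact habs _ _
    · have h3 := hsp 0 1
      rw [hs, hf, ← hβ0]
      simp only [zero_add]
      linarith
    · intro k
      have h3 := hmid k
      rw [hf, hs, hs]
      simp only [add_assoc, one_add_one_eq_two]
      linarith
    · intro k
      have h3 := hsp (k + 1) (k + 2)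
      rw [hf, hs, hf]
      simp only [add_assoc, one_add_one_eq_two]
      linarith
  have hl := hlim 0 0
  have e0 : sp J Ω (β 0) (β (0 + 1)) < sp J Ω b b + η := by
    rw [← hs 0]
    linarith
  have hev := hl.eventually (gt_mem_nhds e0)
  rw [hβ0] at hev
  filter_upwards [hev] with i hi
  exact le_of_lt hi

end Pool.Agent.MP_86f3ed.Nu
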